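import Pool.Agent.P.MP_0b3dfe_lc.Q2.St0

/-! Clubs of countable sets against stationary sets of ordinals of countable cofinality. -/

set_option linter.unusedSectionVars false
set_option synthInstance.maxSize 100000

namespace Pool.Agent.P.MP_0b3dfe_lc.Q2

open ZFSet Pool.Agent.P.MP_3ab3de_lc Pool.Agent.P.MP_9a7e1f_lc ForceP

namespace AA2P

open AA

section

variable {N : Set ZF} [hN : TModel N] {R κ : ZF}

theorem bdd_inter (hR : Inf N R) (h : Hart N R κ) {t : ZF} (ht : t ∈ N) (h1 : Le N t R) :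
    ∃ η ∈ κ, t ∩ κ ⊆ η := by
  have := In.mk' ht
  have := In.mk' h.mem
  exact h.bdd hR (In.mem _) (fun x hx => (mem_inter.1 hx).2)
    (h1.mono fun x hx => (mem_inter.1 hx).1)

theorem club_of (hR : Inf N R) (h : Hart N R κ) {X : ZF} (hX : X ∈ N) (hκ : κ ⊆ X) {r : ZF}
    (hr : r ∈ N) (H : ∀ β ∈ κ, ∃ ζ ∈ κ, pair β ζ ∈ r) : ∃ K ∈ N, Club N (X : Set ZF) K ∧
      ∀ s ∈ K, ZFSet.sUnion (s ∩ κ) ∈ κ ∧ ZFSet.sUnion (s ∩ κ) ≠ ∅ ∧
        ∀ β ∈ ZFSet.sUnion (s ∩ κ), ∃ ζ ∈ ZFSet.sUnion (s ∩ κ), pair β ζ ∈ r := by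
  have := In.mk' hr
  have := In.mk' hX
  have := In.mk' h.mem
  refine ⟨ZFSet.sep (fun s => ∅ ∈ s ∧ ∀ b ∈ s, b ∈ κ → ∃ z ∈ s, z ∈ κ ∧ b ∈ z ∧
      ∀ β ∈ b, ∃ ζ ∈ z, pair β ζ ∈ r) (cs N X), In.mem _,
    ⟨fun s hs => ?_, fun t ht h1 => ?_, fun Y hY h1 h2 _ => ?_⟩, fun s hs => ?_⟩
  · obtain ⟨⟨h1, h2⟩, h3⟩ := mem_cs.1 (mem_sep.1 hs).1
    exact ⟨ctb_iff.2 ⟨h2, h3⟩, fun x hx => h1 hx⟩
  · obtain ⟨h2, h3⟩ := ctb_iff.1 ht
    have := In.mk' h2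
    obtain ⟨f, hf, h0, h4⟩ := dc (M := N) (fun _ x y => x ⊆ y ∧ ∀ b ∈ x, b ∈ κ → ∃ z ∈ y,
        z ∈ κ ∧ b ∈ z ∧ ∀ β ∈ b, ∃ ζ ∈ z, pair β ζ ∈ r) inferInstance (In.mem (cs N X))
      (q := insert ∅ t) (mem_cs.2 ⟨⟨fun x hx => (mem_insert_iff.1 hx).elim
        (fun e => e ▸ hκ (h.zero hR)) (h1 x), In.mem _⟩, inf_omega.insert empty_mem h2 h3⟩)
      fun _ x hx => by
        obtain ⟨⟨h4, h5⟩, h6⟩ := mem_cs.1 hx
        obtain ⟨η, hη, h7⟩ := bdd_inter hR h h5 (h6.trans hR.omLe hR.mem)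
        obtain ⟨z, hz, h8⟩ := h.bdd_wit hR (fun β ζ => pair β ζ ∈ r) inferInstance
          (tr h.mem hη) (h.le η hη) fun β hβ => H β (h.ord.mem_trans hβ hη)
        have h9 := h.union hη hz
        have := In.mk' (tr h.mem h9)
        have := In.mk' h5
        refine ⟨insert (η ∪ z) x, mem_cs.2 ⟨⟨fun y hy => (mem_insert_iff.1 hy).elim
          (fun e => e ▸ hκ h9) fun hy => h4 hy, In.mem _⟩,
          inf_omega.insert (tr h.mem h9) h5 h6⟩, fun y hy => mem_insert_of_mem _ hy,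
          fun b hb hb' => ⟨η ∪ z, mem_insert _ _, h9,
            sub_left _ _ (h7 (mem_inter.2 ⟨hb, hb'⟩)), fun β hβ => ?_⟩⟩
        obtain ⟨ζ, h10, h11⟩ := h8 β ((h.ord.mem hη).mem_trans hβ (h7 (mem_inter.2 ⟨hb, hb'⟩)))
        exact ⟨ζ, sub_right _ _ h10, h11⟩
    have := In.mk' hf
    have h5 : ∀ x ∈ om, app f x ∈ cs N X := fun x hx => by
      obtain ⟨n, rfl⟩ := mem_omega.1 hx
      exact (h4 n).1
    have h6 : insert ∅ t ⊆ bun (app f) om := fun x hx =>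
      mem_bun.2 ⟨_, num_mem_omega 0, h0 ▸ hx⟩
    refine ⟨bun (app f) om, mem_sep.2 ⟨mem_cs.2 ⟨⟨fun x hx => ?_, In.mem _⟩,
      inf_omega.bun (app f) inferInstance hN.infinity (Le.refl hN.infinity)
        fun x hx => (mem_cs.1 (h5 x hx)).2⟩, h6 (mem_insert _ _), fun b hb hb' => ?_⟩,
      fun x hx => h6 (mem_insert_of_mem _ hx)⟩
    · obtain ⟨n, hn, hx⟩ := mem_bun.1 hx
      exact (mem_cs.1 (h5 n hn)).1.1 hx
    · obtain ⟨x, hx, hb⟩ := mem_bun.1 hb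
      obtain ⟨n, rfl⟩ := mem_omega.1 hx
      obtain ⟨z, h7, h8⟩ := (h4 n).2.2 b hb hb'
      exact ⟨z, mem_bun.2 ⟨_, num_mem_omega (n + 1), h7⟩, h8⟩
  · obtain ⟨h3, h4⟩ := ctb_iff.1 hY
    have := In.mk' h3
    refine mem_sep.2 ⟨mem_cs.2 ⟨⟨fun x hx => ?_, In.mem _⟩,
      inf_omega.sUnion h3 h4 fun s hs => (mem_cs.1 (mem_sep.1 (h1 hs)).1).2⟩, ?_,
      fun b hb hb' => ?_⟩
    · obtain ⟨s, hs, hx⟩ := mem_sUnion.1 hx
      exact (mem_cs.1 (mem_sep.1 (h1 hs)).1).1.1 hx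
    · obtain ⟨s, hs⟩ := h2
      exact mem_sUnion.2 ⟨s, hs, (mem_sep.1 (h1 hs)).2.1⟩
    · obtain ⟨s, hs, hb⟩ := mem_sUnion.1 hb
      obtain ⟨z, h5, h6⟩ := (mem_sep.1 (h1 hs)).2.2 b hb hb'
      exact ⟨z, mem_sUnion.2 ⟨s, hs, h5⟩, h6⟩
  · obtain ⟨h1, h2, h3⟩ := mem_sep.1 hs
    obtain ⟨⟨-, h4⟩, h5⟩ := mem_cs.1 h1
    have := In.mk' h4
    refine ⟨h.mem_of_le (isOrdinal_sUnion fun x hx => h.ord.mem (mem_inter.1 hx).2)
      (hR.sUnion (In.mem _) ((h5.trans hR.omLe hR.mem).mono fun x hx => (mem_inter.1 hx).1)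
        fun x hx => h.le x (mem_inter.1 hx).2), fun e => ?_, fun β hβ => ?_⟩
    · obtain ⟨z, h6, h7, h8, -⟩ := h3 ∅ h2 (h.zero hR)
      exact notMem_empty _ (e ▸ mem_sUnion.2 ⟨z, mem_inter.2 ⟨h6, h7⟩, h8⟩ :)
    · obtain ⟨b, hb, hβ⟩ := mem_sUnion.1 hβ
      obtain ⟨z, h6, h7, -, h8⟩ := h3 b (mem_inter.1 hb).1 (mem_inter.1 hb).2
      obtain ⟨ζ, h9, h10⟩ := h8 β hβ
      exact ⟨ζ, mem_sUnion.2 ⟨z, mem_inter.2 ⟨h6, h7⟩, h9⟩, h10⟩

theorem meet (hR : Inf N R) (h : Hart N R κ) {X : ZF} (hX : X ∈ N) (hκ : κ ⊆ X) {K : ZF}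
    (hK : K ∈ N) (hC : Club N (X : Set ZF) K) {T : ZF → Prop} (hc : ∀ ξ, T ξ → CofOm N ξ)
    (hT : Stat N κ T) : ∃ s ∈ K, T (ZFSet.sUnion (s ∩ κ)) := by
  have := In.mk' hK
  have := In.mk' hX
  have := In.mk' h.mem
  obtain ⟨g, hg, h1⟩ := skolem (M := N) (fun t s => s ∈ K ∧ t ⊆ s) inferInstance
    (In.mem (cs N X)) fun t ht => by
      obtain ⟨⟨h1, h2⟩, h3⟩ := mem_cs.1 ht
      obtain ⟨s, hs, h4⟩ := hC.2.1 t (ctb_iff.2 ⟨h2, h3⟩) fun x hx => h1 hx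
      exact ⟨s, tr hK hs, hs, h4⟩
  have := In.mk' hg
  have hins : ∀ t ∈ K, ∀ x ∈ κ, app g (insert x t) ∈ K ∧ insert x t ⊆ app g (insert x t) := by
    intro t ht x hx
    obtain ⟨h2, h3⟩ := ctb_iff.1 (hC.1 t ht).1
    have := In.mk' h2
    have := In.mk' (tr h.mem hx)
    exact h1 _ (mem_cs.2 ⟨⟨fun y hy => (mem_insert_iff.1 hy).elim (fun e => e ▸ hκ hx)
      ((hC.1 t ht).2 y), In.mem _⟩, inf_omega.insert (tr h.mem hx) h2 h3⟩)
  have h0 : app g ∅ ∈ K :=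
    (h1 ∅ (mem_cs.2 ⟨⟨empty_subset _, empty_mem⟩, le_empty _⟩)).1
  let F := rc fun b p => insert (app g ∅)
    (img (fun q => app g (insert (snd q) (fst q))) (prod (bun snd p) b))
  have hF : Tm N (fun v => F (v 0)) := tm_rc inferInstance
  have := fun s [Tm N s] => hF.one s
  have e : ∀ b, F b = insert (app g ∅)
      (img (fun q => app g (insert (snd q) (fst q))) (prod (bun F b) b)) := fun b => by
    rw [show F b = _ from rc_eq _ b]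
    congr 3
    ext y
    simp only [mem_bun, mem_graph]
    constructor
    · rintro ⟨_, ⟨x, hx, rfl⟩, h2⟩; exact ⟨x, hx, by simpa using h2⟩
    · rintro ⟨x, hx, h2⟩; exact ⟨_, ⟨x, hx, rfl⟩, by simpa using h2⟩
  have key : ∀ b, b ∈ κ → F b ⊆ K ∧ Le N (F b) R := by
    intro b
    induction b using ZFSet.inductionOn with
    | h b ih =>
      intro hb
      have := In.mk' (tr h.mem hb)
      rw [e b]
      refine ⟨fun y hy => ?_, hR.insert (In.mem _) (In.mem _) (hR.img _ inferInstance (In.mem _)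
        (hR.prod (hR.bun F hF (tr h.mem hb) (h.le b hb)
          fun c hc => (ih c hc (h.ord.mem_trans hc hb)).2) (h.le b hb)))⟩
      rcases mem_insert_iff.1 hy with rfl | hy
      · exact h0
      · obtain ⟨q, hq, rfl⟩ := mem_img.1 hy
        obtain ⟨t, ht, x, hx, rfl⟩ := mem_prod.1 hq
        obtain ⟨c, hc, ht⟩ := mem_bun.1 ht
        rw [fst_pair, snd_pair]
        exact (hins t ((ih c hc (h.ord.mem_trans hc hb)).1 ht) x (h.ord.mem_trans hx hb)).1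
  obtain ⟨δ, hδ, h2, h3, h4⟩ := hT.close h.mem
    (fun b z => b ∈ z ∧ ZFSet.sUnion (F b) ∩ κ ⊆ z) inferInstance fun b hb => by
      have := In.mk' (tr h.mem hb)
      obtain ⟨η, hη, h4⟩ := bdd_inter hR h (In.mem (ZFSet.sUnion (F b)))
        (hR.sUnion (In.mem _) (key b hb).2 fun t ht =>
          (ctb_iff.1 (hC.1 t ((key b hb).1 ht)).1).2.trans hR.omLe hR.mem)
      exact ⟨η ∪ insert b b, h.union hη (h.succ hR hb), sub_right _ _ (mem_insert _ _),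
        fun x hx => sub_left _ _ (h4 hx)⟩
  have ho := h.ord.mem hδ
  have := In.mk' (tr h.mem hδ)
  obtain ⟨c, hc', h5, h6⟩ := hc δ h2
  have := In.mk' hc'
  have hK' : ∀ t ∈ bun F δ, t ∈ K := fun t ht => by
    obtain ⟨b, hb, ht⟩ := mem_bun.1 ht
    exact (key b (h.ord.mem_trans hb hδ)).1 ht
  obtain ⟨f, hf, -, h7⟩ := dc (M := N) (fun n x y => insert (app c n) x ⊆ y) inferInstance
    (In.mem (bun F δ)) (q := app g ∅) (by
      obtain ⟨b, hb⟩ := (eq_empty_or_nonempty δ).resolve_left h3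
      exact mem_bun.2 ⟨b, hb, by rw [e b]; exact mem_insert _ _⟩) fun n t ht => by
      have h7 := h5 _ (num_mem_omega n)
      refine ⟨app g (insert (app c (num n)) t), ?_,
        (hins t (hK' t ht) _ (h.ord.mem_trans h7 hδ)).2⟩
      obtain ⟨b, hb, ht⟩ := mem_bun.1 ht
      obtain ⟨z, hz, h8, -⟩ := h4 b hb
      obtain ⟨z', hz', h9, -⟩ := h4 _ h7
      obtain ⟨y, hy, h10, h11⟩ : ∃ y ∈ δ, b ∈ y ∧ app c (num n) ∈ y := by
        rcases (ho.mem hz).subset_total (ho.mem hz') with h10 | h10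
        exacts [⟨z', hz', h10 h8, h9⟩, ⟨z, hz, h8, h10 h9⟩]
      refine mem_bun.2 ⟨y, hy, ?_⟩
      rw [e y]
      exact mem_insert_of_mem _ (mem_img.2 ⟨pair t (app c (num n)),
        pair_mem_prod.2 ⟨mem_bun.2 ⟨b, h10, ht⟩, h11⟩, by rw [fst_pair, snd_pair]⟩)
  have := In.mk' hf
  have h8 : ∀ m n : ℕ, m ≤ n → app f (num m) ⊆ app f (num n) := fun m n hmn => by
    induction hmn with
    | refl => exact fun _ hx => hx
    | step _ ih => exact fun x hx => (h7 _).2 (mem_insert_of_mem _ (ih hx))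
  refine ⟨ZFSet.sUnion (img (app f) om), hC.2.2 _ (ctb_iff.2 ⟨In.mem _,
    le_img (app f) inferInstance hN.infinity⟩) (fun s hs => ?_) ⟨_, img_mem omega_zero⟩
    fun s hs t ht => ?_, ?_⟩
  · obtain ⟨x, hx, rfl⟩ := mem_img.1 hs
    obtain ⟨n, rfl⟩ := mem_omega.1 hx
    exact hK' _ (h7 n).1
  · obtain ⟨x, hx, rfl⟩ := mem_img.1 hs
    obtain ⟨m, rfl⟩ := mem_omega.1 hx
    obtain ⟨y, hy, rfl⟩ := mem_img.1 ht
    obtain ⟨n, rfl⟩ := mem_omega.1 hy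
    exact (le_total m n).imp (h8 m n) (h8 n m)
  · have e2 : ZFSet.sUnion (ZFSet.sUnion (img (app f) om) ∩ κ) = δ := by
      ext x
      rw [mem_sUnion]
      constructor
      · rintro ⟨y, hy, hx⟩
        obtain ⟨h9, h10⟩ := mem_inter.1 hy
        obtain ⟨m, hm, h9⟩ := mem_bun.1 h9
        obtain ⟨n, rfl⟩ := mem_omega.1 hm
        obtain ⟨b, hb, h11⟩ := mem_bun.1 (h7 n).1
        obtain ⟨z, hz, -, h12⟩ := h4 b hb
        exact ho.mem_trans hx (ho.mem_trans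
          (h12 (mem_inter.2 ⟨mem_sUnion.2 ⟨_, h11, h9⟩, h10⟩)) hz)
      · intro hx
        obtain ⟨m, hm, h9⟩ := h6 x hx
        obtain ⟨n, rfl⟩ := mem_omega.1 hm
        exact ⟨_, mem_inter.2 ⟨mem_bun.2 ⟨_, num_mem_omega (n + 1), (h7 n).2 (mem_insert _ _)⟩,
          h.ord.mem_trans (h5 _ hm) hδ⟩, h9⟩
    rwa [e2]

end

open DecP

/-- the supremum of the trace of the countable set on the cardinal is not in the listed set -/
noncomputable def mat (ψ : Fml) : AFml :=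
  .all (.all (.imp (emb ψ) (nt (.all (ff (.mem 0 1)
    (nt (.all (nt (an (.smem 0 0) (an (.mem 0 3) (.mem 1 0)))))))))))

theorem sat_mat {N X : Set ZF} {v w : Env} {ψ : Fml} (hX : Trn X)
    (hψ : ∀ v, EIn X v → ((∃ i t, v 2 = pair i (pair (v 1) t) ∧ v 0 ∈ t) ↔ Sat X ψ v))
    (hv : EIn X v) {i κ t : ZF} (e : v 0 = pair i (pair κ t)) :
    SatA N X (mat ψ) v w ↔ ¬ ZFSet.sUnion (w 0 ∩ κ) ∈ t := by
  have key : SatA N X (mat ψ) v w ↔ ∀ k ∈ X, ∀ d ∈ X,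
      (∃ i t, v 0 = pair i (pair k t) ∧ d ∈ t) →
      ¬ ∀ y ∈ X, (y ∈ d ↔ ¬ ∀ u ∈ X, ¬ (u ∈ w 0 ∧ u ∈ k ∧ y ∈ u)) := by
    refine forall₂_congr fun k hk => forall₂_congr fun d hd => imp_congr
      ((sat_emb N X ψ w _).trans (hψ _ ((hv.cons hk).cons hd)).symm) (not_congr ?_)
    refine forall₂_congr fun y _ => (sat_ff (N := N) (X := X) (p := .mem 0 1)
      (q := nt (.all (nt (an (.smem 0 0) (an (.mem 0 3) (.mem 1 0))))))
      (v := cons y (cons d (cons k v))) (w := w)).trans (iff_congr Iff.rfl (not_congr ?_))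
    exact forall₂_congr fun u _ => not_congr ((sat_an (N := N) (X := X) (p := .smem 0 0)
      (q := an (.mem 0 3) (.mem 1 0)) (v := cons u (cons y (cons d (cons k v)))) (w := w)).trans
      (and_congr Iff.rfl sat_an))
  have hp : pair κ t ∈ X := hX.snd (e ▸ hv 0)
  have hκ := hX.fst hp
  have key2 : ∀ y, y ∈ ZFSet.sUnion (w 0 ∩ κ) ↔ ¬ ∀ u ∈ X, ¬ (u ∈ w 0 ∧ u ∈ κ ∧ y ∈ u) := by
    intro y
    rw [mem_sUnion]
    constructor
    · rintro ⟨u, hu, hy⟩ h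
      obtain ⟨h1, h2⟩ := mem_inter.1 hu
      exact h u (hX _ hκ _ h2) ⟨h1, h2, hy⟩
    · intro h
      by_contra h1
      exact h fun u _ h2 => h1 ⟨u, mem_inter.2 ⟨h2.1, h2.2.1⟩, h2.2.2⟩
  rw [key]
  constructor
  · intro h h1
    exact h κ hκ _ (hX _ (hX.snd hp) _ h1) ⟨i, t, e, h1⟩ fun y _ => key2 y
  · rintro h k - d hd ⟨i', t', e', h1⟩ h2
    obtain ⟨-, e2⟩ := pair_inj.1 (e.symm.trans e')
    obtain ⟨rfl, rfl⟩ := pair_inj.1 e2
    refine h ?_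
    have : ZFSet.sUnion (w 0 ∩ κ) = d := by
      ext y
      refine ⟨fun h3 => ?_, fun h3 => (key2 y).2 ((h2 y (hX _ hd _ h3)).1 h3)⟩
      obtain ⟨u, hu, hy⟩ := mem_sUnion.1 h3
      exact (h2 y (hX _ (hX _ hκ _ (mem_inter.1 hu).2) _ hy)).2 ((key2 y).1 h3)
    rwa [this]

end AA2P

theorem aa2 : S_AA2 := by
  intro N _ R κ hR h X hX hκ T hc
  constructor
  · rintro ⟨K, hK, hC, h1⟩ hT
    obtain ⟨s, hs, h2⟩ := AA2P.meet hR h hX hκ hK hC hc hT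
    exact h1 s hs h2
  · intro hT
    by_contra h1
    refine hT fun r hr H => ?_
    obtain ⟨K, hK, hC, h2⟩ := AA2P.club_of hR h hX hκ hr H
    by_contra h3
    exact h1 ⟨K, hK, hC, fun s hs h4 => h3 ⟨_, (h2 s hs).1, h4, (h2 s hs).2⟩⟩

open DecP in
theorem dec2 (h : S_AA2) : S_Dec2 := by
  intro N _ J hJ H
  obtain ⟨o, ho, hJ⟩ := hJ
  have hX : Trn (LA N o) := fun _ hx _ hy => LA_trans hx hy
  have hZ : LZ N o.toZFSet ∈ N := hLZ.mem N (Ov.empty N) (fun _ => o.toZFSet) fun _ => ho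
  have hco : (LZ N o.toZFSet : Set ZF) = LA N o := by rw [coe_LZ, Ordinal.rank_toZFSet]
  obtain ⟨ψ, hψ⟩ :=
    (inferInstance : D0 (fun v => ∃ i t, v 2 = pair i (pair (v 1) t) ∧ v 0 ∈ t)).out
  refine ⟨o + 1, ?_, ?_⟩
  · rw [Ordinal.toZFSet_add_one]
    have := In.mk' ho
    exact In.mem _
  rw [LA_succ]
  have hv : EIn (LA N o) (fun _ => J) := fun _ => hJ
  refine Or.inr ⟨an (.mem 0 1) (.aa (AA2P.mat ψ)), _, hv, fun x => ?_⟩
  rw [mem_sep, sat_an]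
  have key : x ∈ J → (SatA N (LA N o) (.aa (AA2P.mat ψ)) (cons x fun _ => J) (fun _ => ∅) ↔
      ¬ Stat N (fst (snd x)) (fun ξ => ξ ∈ snd (snd x))) := by
    intro hx
    obtain ⟨i, κ, t, e, ⟨R, hR, hκ⟩, h1⟩ := H x hx
    have hx' := hX _ hJ _ hx
    have hk : κ ∈ LA N o := hX.fst (hX.snd (e ▸ hx'))
    have e1 : fst (snd x) = κ := by rw [e, snd_pair, fst_pair]
    have e2 : snd (snd x) = t := by rw [e, snd_pair, snd_pair]
    rw [e1, e2, ← h N R κ hR hκ _ hZ (fun y hy => by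
      rw [mem_LZ, Ordinal.rank_toZFSet]
      exact hX _ hk _ hy) _ h1, hco]
    exact exists_congr fun K => and_congr_right' (and_congr_right' (forall₂_congr fun s _ =>
      AA2P.sat_mat hX (hψ _ hX) (hv.cons hx') e))
  constructor
  · rintro ⟨h4, h5⟩
    exact ⟨hX _ hJ _ h4, h4, (key h4).2 h5⟩
  · rintro ⟨-, h4, h5⟩
    exact ⟨h4, (key h4).1 h5⟩

end Pool.Agent.P.MP_0b3dfe_lc.Q2
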