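import Pool.Agent.P.MP_0b3dfe_lc.Q2.St1

/-! Condensation for elementary hulls; traces of hulls avoid the class `TT`. -/

set_option linter.unusedSectionVars false
set_option synthInstance.maxSize 100000

namespace Pool.Agent.P.MP_0b3dfe_lc.Q2

open ZFSet Pool.Agent.P.MP_3ab3de_lc Pool.Agent.P.MP_9a7e1f_lc ForceP

namespace AvoidP

/-- every element of the collapse lies in a level that belongs to the collapse -/
theorem lev {S H x : ZF} (h : El (S : Set ZF) H) (hS : IsTransitive S) (hL : LX (S : Set ZF))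
    (h1 : x ∈ S) (h2 : x ∈ H) : ∀ z ∈ col H S, ∃ a ∈ col H S, IsOrdinal a ∧ LS a ∈ col H S ∧
      z ∈ LS a ∧ (IsOrdinal z → z ∈ a) := by
  have hT := trn_coe hS
  have hU : Trn ((col H S : ZF) : Set ZF) := coe_col H S ▸ trn_cI hT
  have h3 := (h.tr hT (fun N _ => ∀ y ∈ N, ∃ f ∈ N, ∃ a ∈ N, ∃ S' ∈ N, ∃ W ∈ N, Hier f ∧
    pair a (pair S' W) ∈ f ∧ y ∈ S' ∧ (IsOrdinal y → y ∈ a))
    (eh_const (S := (S : Set ZF)) h1 h2)).1 (by
      intro y hy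
      obtain ⟨α, h4, h5, h6, h7⟩ := hL y hy
      have h8 : pair α (pair (LS α) (LW α)) ∈ graph LL (insert α α) :=
        lev_graph.2 ⟨mem_insert _ _, rfl, rfl⟩
      have h9 := hT _ h7 _ h8
      exact ⟨_, h7, α, hT.fst h9, _, hT.fst (hT.snd h9), _, hT.snd (hT.snd h9),
        hier_graph (isOrdinal_succ h4), h8, h5, h6⟩)
  rw [← coe_col] at h3
  intro z hz
  obtain ⟨f, -, a, ha, S', hS', W, -, h4, h5, h6, h7⟩ := h3 z hz
  obtain ⟨rfl, rfl⟩ := h4.sound _ _ _ h5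
  exact ⟨a, ha, (h4 _ _ _ h5).1, hS', h6, h7⟩

/-- the collapse of a set of ordinals below `κ` -/
theorem col_sub {H κ t : ZF} (hκ : IsOrdinal κ) (h : H ∩ κ ∈ κ) (ht : t ⊆ κ) :
    col H t = H ∩ t := by
  have h1 := (hκ.mem h).isTransitive
  have h2 : ∀ y ∈ t, y ∈ H → col H y = y := fun y hy hy' =>
    col_fix h1 (fun _ hz => (mem_inter.1 hz).1) y (h1 y (mem_inter.2 ⟨hy', ht hy⟩))
  ext z
  rw [mem_col, mem_inter]
  constructor
  · rintro ⟨y, h3, h4, rfl⟩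
    rw [h2 y h3 h4]
    exact ⟨h4, h3⟩
  · exact fun hz => ⟨z, hz.2, hz.1, h2 z hz.2 hz.1⟩

end AvoidP

/-- condensation for elementary hulls -/
theorem cond_el {S H x : ZF} (h : El (S : Set ZF) H) (hS : IsTransitive S)
    (hL : LX (S : Set ZF)) (h1 : x ∈ S) (h2 : x ∈ H) : ∃ g, IsOrdinal g ∧ col H S = LS g := by
  have hU : Trn ((col H S : ZF) : Set ZF) := coe_col H S ▸ trn_cI (trn_coe hS)
  have h3 := AvoidP.lev h hS hL h1 h2
  have hg : IsOrdinal (ZFSet.sep IsOrdinal (col H S)) :=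
    isOrdinal_iff_forall_mem_isOrdinal.2 ⟨fun y hy z hz => mem_sep.2
      ⟨hU y (mem_sep.1 hy).1 z hz, (mem_sep.1 hy).2.mem hz⟩, fun y hy => (mem_sep.1 hy).2⟩
  refine ⟨_, hg, ZFSet.ext fun z => ⟨fun hz => ?_, fun hz => ?_⟩⟩
  · obtain ⟨a, h4, h5, -, h6, -⟩ := h3 z hz
    exact LS_mono (hg.subset_of_mem (mem_sep.2 ⟨h4, h5⟩)) h6
  · rcases mem_LS.1 hz with rfl | ⟨d, hd, c, hc, e, he, rfl⟩
    · obtain ⟨a, -, -, h4, -⟩ := h3 _ (mem_col.2 ⟨x, h1, h2, rfl⟩)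
      exact hU _ h4 _ (empty_mem_LS a)
    · obtain ⟨a, -, -, h4, -, h5⟩ := h3 d (mem_sep.1 hd).1
      exact hU _ h4 _ (uu_mem_LS (h5 (mem_sep.1 hd).2) hc he)

theorem avoid : S_Avoid := by
  intro M hM κ S H hκ hst hSM hS hL h hHS h1 h2 h3 h4 h5
  obtain ⟨-, β, -, hβ, ⟨r0, h6, h7⟩, h8⟩ := TT_iff.1 h5
  obtain ⟨g, hg, e⟩ := cond_el h hS hL (hHS h1) h1
  have h9 : β ⊆ g := by
    rcases hg.mem_trichotomous hβ with h9 | rfl | h9
    · exact absurd (e ▸ h4) (h8 g (mem_insert_of_mem _ h9))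
    · exact fun _ h => h
    · exact hg.subset_of_mem h9
  by_cases h10 : g = β
  · exact h8 g (h10 ▸ mem_insert _ _) (e ▸ h4)
  obtain ⟨r, h11, h12, rfl⟩ := mem_col.1 (e ▸ LS_mono h9 h6 : r0 ∈ col H S)
  have e1 : col H κ = H ∩ κ := AvoidP.col_sub hκ h3 fun _ h => h
  have e2 : col H (ZFSet.sep (TT M) κ) = ZFSet.sep (TT M) (H ∩ κ) := by
    rw [AvoidP.col_sub hκ h3 sep_subset]
    ext z
    simp only [mem_inter, mem_sep, and_assoc]
  refine not_ns hst (tr hSM h11) ((h.d0 (trn_coe hS) (fun w => NS (w 0) (w 1) (w 2))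
    (eh_cons (eh_cons (eh_const (hHS h2) h2) (hHS h1) h1) h11 h12)).2 ?_)
  change NS (col H r) (col H κ) (col H (ZFSet.sep (TT M) κ))
  rw [e1, e2]
  exact h7

end Pool.Agent.P.MP_0b3dfe_lc.Q2
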