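import Pool.Agent.P.MP_0b3dfe_lc.Q2.CF2

/-! The set stages of a tame class forcing, and isomorphic cones. -/

set_option linter.unusedSectionVars false
set_option synthInstance.maxSize 100000

namespace Pool.Agent.P.MP_0b3dfe_lc.Q2

open ZFSet Pool.Agent.P.MP_3ab3de_lc Pool.Agent.P.MP_9a7e1f_lc ForceP

namespace CF1P

variable {M : Set ZF} [hM : TModel M] {le : ZF → ZF → Prop} {PS : ZF → ZF} {G : ZF}

/-- sets cut out by the filter lie in the extension -/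
theorem cut {P L H X : ZF} (K : Cx M P L H) (hX : X ∈ M) (R : ZF → ZF → Prop)
    (hR : Df M (fun v => R (v 0) (v 1))) :
    ZFSet.sep (fun x => ∃ p ∈ H, R p x) X ∈ val H '' M := by
  have := fun s t [Tm M s] [Tm M t] => hR.two s t
  obtain ⟨A, hA, e⟩ : ∃ A ∈ M, ∀ p x, pair p x ∈ A ↔ (p ∈ P ∧ x ∈ X) ∧ R p x := by
    have := In.mk' K.hP
    have := In.mk' hX
    exact ⟨ZFSet.sep (fun z => R (fst z) (snd z)) (prod P X), In.mem _, fun p x => by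
      rw [mem_sep, pair_mem_prod, fst_pair, snd_pair]⟩
  have e2 : ZFSet.sep (fun x => ∃ p ∈ H, R p x) X =
      ZFSet.sep (fun x => ∃ p ∈ H, pair p x ∈ A) X := by
    ext x
    rw [mem_sep, mem_sep]
    exact and_congr_right fun hx => exists_congr fun p => and_congr_right fun hp =>
      ⟨fun h => (e p x).2 ⟨⟨K.gen.sub hp, hx⟩, h⟩, fun h => ((e p x).1 h).2⟩
  rw [e2]
  have := K.model
  have := In.mk' K.gen_mem
  have := In.mk' (K.sub_ext hA)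
  have := In.mk' (K.sub_ext hX)
  exact In.mem _

/-- the step of the recursion for restricted names -/
noncomputable def PhiRs (P x g : ZF) : ZF :=
  pair (img (fun w => pair (fst (app (snd (app (snd (app g w)) {fst w})) (fst w))) (snd w))
    (ZFSet.sep (fun w => w = pair (fst w) (snd w) ∧ snd w ∈ P) x)) g

/-- restriction of a name to the conditions in `P` -/
noncomputable def rs (P t : ZF) : ZF := fst (rc (PhiRs P) t)

theorem snd_rc (P x : ZF) : snd (rc (PhiRs P) x) = graph (rc (PhiRs P)) x := by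
  rw [rc_eq, PhiRs, snd_pair]

theorem mem_rs {P t y : ZF} :
    y ∈ rs P t ↔ ∃ s p, pair s p ∈ t ∧ p ∈ P ∧ pair (rs P s) p = y := by
  have key : ∀ s p, pair s p ∈ t → fst (app (snd (app (snd (app (graph (rc (PhiRs P)) t)
      (pair s p))) {s})) s) = rs P s := fun s p h => by
    rw [app_graph h, snd_rc, app_graph (show ({s} : ZF) ∈ pair s p by simp [pair]), snd_rc,
      app_graph (show s ∈ ({s} : ZF) by simp), rs]
  rw [rs, rc_eq, PhiRs, fst_pair, mem_img]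
  constructor
  · rintro ⟨w, hw, rfl⟩
    obtain ⟨h1, h2, h3⟩ := mem_sep.1 hw
    refine ⟨fst w, snd w, h2 ▸ h1, h3, ?_⟩
    rw [← key (fst w) (snd w) (h2 ▸ h1), ← h2]
  · rintro ⟨s, p, h1, h2, rfl⟩
    refine ⟨pair s p, mem_sep.2 ⟨h1, by simp, by simpa using h2⟩, ?_⟩
    rw [fst_pair, snd_pair, key s p h1]

theorem val_rs (G P t : ZF) : val G (rs P t) = val (G ∩ P) t := by
  induction t using nm_ind with
  | h t ih =>
    ext y
    rw [mem_val, mem_val]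
    constructor
    · rintro ⟨s', p', h1, h2, rfl⟩
      obtain ⟨s, p, h3, h4, e⟩ := mem_rs.1 h2
      obtain ⟨rfl, rfl⟩ := pair_inj.1 e
      exact ⟨s, p, mem_inter.2 ⟨h1, h4⟩, h3, (ih s p h3).symm⟩
    · rintro ⟨s, p, h1, h2, rfl⟩
      exact ⟨_, p, (mem_inter.1 h1).1, mem_rs.2 ⟨s, p, h2, (mem_inter.1 h1).2, rfl⟩, ih s p h2⟩

theorem rs_mem {P t : ZF} (hP : P ∈ M) (ht : t ∈ M) : rs P t ∈ M := by
  have := In.mk' hP
  have := In.mk' ht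
  have h : Tm M (fun v => rc (PhiRs P) (v 0)) := tm_rc (by unfold PhiRs; infer_instance)
  have := fun s [Tm M s] => h.one s
  unfold rs
  exact In.mem _

section

variable (C : CF M le PS G)
include C

theorem ps_mem {a : ZF} (ha : a ∈ M) : PS a ∈ M := C.tPS.mem (fun _ => a) fun _ => ha

theorem cx {a : ZF} (ha : a ∈ M) (ho : IsOrdinal a) :
    Cx M (PS a) (Lr le PS a) (G ∩ PS a) := by
  have := fun s t [Tm M s] [Tm M t] => C.dle.two s t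
  have := In.mk' (ps_mem C ha)
  refine ⟨ps_mem C ha, by unfold Lr; exact In.mem _,
    ⟨fun p q h => ⟨(mem_Lr.1 h).1, (mem_Lr.1 h).2.1⟩, fun p hp => mem_Lr.2 ⟨hp, hp, C.ps a p hp⟩,
      fun p q r h h' => mem_Lr.2 ⟨(mem_Lr.1 h).1, (mem_Lr.1 h').2.1,
        C.trans _ _ _ (mem_Lr.1 h).2.2 (mem_Lr.1 h').2.2⟩⟩,
    ⟨fun p hp => (mem_inter.1 hp).2, fun p hp q h => mem_inter.2
      ⟨C.up p (mem_inter.1 hp).1 q (mem_Lr.1 h).2.2, (mem_Lr.1 h).2.1⟩, fun p hp q hq => ?_,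
      fun D hD h => ?_⟩⟩
  · obtain ⟨h1, h2⟩ := mem_inter.1 hp
    obtain ⟨h3, h4⟩ := mem_inter.1 hq
    obtain ⟨r, h5, h6, h7⟩ := C.dir p h1 q h3
    obtain ⟨r', h8, h9, h10, -⟩ := C.proj a ha ho r (C.sub r h5)
    exact ⟨r', mem_inter.2 ⟨C.up r h5 r' h9, h8⟩, mem_Lr.2 ⟨h8, h2, h10 p h2 h6⟩,
      mem_Lr.2 ⟨h8, h4, h10 q h4 h7⟩⟩
  · have := In.mk' hD
    obtain ⟨p, hp, q, h1, h2, h3⟩ := C.meet (fun p => ∃ q ∈ D, q ∈ PS a ∧ le p q) inferInstance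
      fun p hp => by
        obtain ⟨r, h1, -, -, h2⟩ := C.proj a ha ho p hp
        obtain ⟨q, h3, h4⟩ := h r h1
        obtain ⟨h5, -, h6⟩ := mem_Lr.1 h4
        obtain ⟨u, h7, h8⟩ := h2 q h5 h6
        exact ⟨u, h8, q, h3, h5, h7⟩
    exact ⟨q, mem_inter.2 ⟨C.up p hp q h3, h2⟩, h1⟩

theorem mono {a b : ZF} (hb : b ∈ M) (ho : IsOrdinal b) (ho' : IsOrdinal a) (h : a ⊆ b) :
    val (G ∩ PS a) '' M ⊆ val (G ∩ PS b) '' M := by
  have ha : a ∈ M := by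
    rcases (ho'.subset_iff_eq_or_mem ho).1 h with e | e
    exacts [e ▸ hb, tr hb e]
  have K := cx C hb ho
  have := K.model
  refine ext_sub K.sub_ext ?_
  have e : G ∩ PS a = (G ∩ PS b) ∩ PS a := by
    ext x
    simp only [mem_inter]
    exact ⟨fun h' => ⟨⟨h'.1, C.mono a b h h'.2⟩, h'.2⟩, fun h' => ⟨h'.1.1, h'.2⟩⟩
  rw [e]
  have := In.mk' K.gen_mem
  have := In.mk' (K.sub_ext (ps_mem C ha))
  generalize G ∩ PS b = H at *
  exact In.mem _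

theorem un (x : ZF) : x ∈ val G '' M ↔ ∃ a ∈ M, IsOrdinal a ∧ x ∈ val (G ∩ PS a) '' M := by
  constructor
  · rintro ⟨t, ht, rfl⟩
    obtain ⟨c, h1, h2, h3⟩ := CF2P.exists_bd C ht
    exact ⟨c, h1, h2, t, ht, CF2P.val_bd C t ht h3⟩
  · rintro ⟨a, ha, -, t, ht, rfl⟩
    exact ⟨_, rs_mem (ps_mem C ha) ht, val_rs _ _ _⟩

omit hM in
theorem red_mem {p q w : ZF} (hp : p ∈ G) (hq : q ∈ G)
    (h : ∀ u ∈ M, le u p → le u q → le u w) : w ∈ G := by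
  obtain ⟨u, h1, h2, h3⟩ := C.dir p hp q hq
  exact C.up u h1 w (h u (CF2P.gm C h1) h2 h3)

/-- reduction of a definable family of questions to a set stage -/
theorem red {a X : ZF} (ha : a ∈ M) (ho : IsOrdinal a) (hX : X ∈ M) (T : TD M le PS a X)
    (E : ZF → ZF → Prop) (hE : Df M (fun v => E (v 0) (v 1)))
    (m : ∀ w w' x, E w x → le w' w → E w' x) :
    ∃ q ∈ G, ∀ x ∈ X, (∃ w ∈ G, E w x) →
      ∃ p ∈ G ∩ PS a, ∃ w ∈ M, E w x ∧ ∀ u ∈ M, le u p → le u q → le u w := by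
  have := fun s t [Tm M s] [Tm M t] => C.dle.two s t
  have := fun s t [Tm M s] [Tm M t] => hE.two s t
  have := In.mk' (ps_mem C ha)
  have := In.mk' hX
  obtain ⟨q, hq, h⟩ := C.meet (fun q => ∀ x ∈ X, ∀ p' ∈ PS a, ∃ p ∈ PS a, le p p' ∧
      ∃ w ∈ M, (E w x ∨ ∀ w' ∈ M, le w' w → ¬ E w' x) ∧ ∀ u ∈ M, le u p → le u q → le u w)
    inferInstance (T (fun x w => E w x ∨ ∀ w' ∈ M, le w' w → ¬ E w' x) inferInstance
      fun x _ p hp => by
        by_cases hc : ∃ w ∈ M, le w p ∧ E w x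
        · obtain ⟨w, -, h1, h2⟩ := hc
          exact ⟨w, h1, Or.inl h2⟩
        · exact ⟨p, hp, Or.inr fun w h1 h2 h3 => hc ⟨w, h1, h2, h3⟩⟩)
  refine ⟨q, hq, fun x hx ⟨w0, h1, h2⟩ => ?_⟩
  have := In.mk' (tr hX hx)
  have := In.mk' (CF2P.gm C hq)
  obtain ⟨p, hp, w, h3, h4, h5⟩ := (cx C ha ho).meet_all (fun p => ∃ w ∈ M,
      (E w x ∨ ∀ w' ∈ M, le w' w → ¬ E w' x) ∧ ∀ u ∈ M, le u p → le u q → le u w)
    inferInstance fun p' hp' => by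
      obtain ⟨p, h3, h4, h5⟩ := h x hx p' hp'
      exact ⟨p, mem_Lr.2 ⟨h3, hp', h4⟩, h5⟩
  refine ⟨p, hp, w, h3, h4.resolve_right fun h6 => ?_, h5⟩
  obtain ⟨u, h7, h8, h9⟩ := C.dir w (red_mem C (mem_inter.1 hp).1 hq h5) w0 h1
  exact h6 u (CF2P.gm C h7) h8 (m _ _ _ h2 h9)

theorem sep_stage {a X : ZF} (ha : a ∈ M) (ho : IsOrdinal a) (hX : X ∈ M) (T : TD M le PS a X)
    (E : ZF → ZF → Prop) (hE : Df M (fun v => E (v 0) (v 1)))
    (m : ∀ w w' x, E w x → le w' w → E w' x) :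
    ZFSet.sep (fun x => ∃ w ∈ G, E w x) X ∈ val (G ∩ PS a) '' M := by
  obtain ⟨q, hq, h⟩ := red C ha ho hX T E hE m
  have := fun s t [Tm M s] [Tm M t] => C.dle.two s t
  have := fun s t [Tm M s] [Tm M t] => hE.two s t
  have := In.mk' (CF2P.gm C hq)
  have h1 := cut (cx C ha ho) hX
    (fun p x => ∃ w ∈ M, E w x ∧ ∀ u ∈ M, le u p → le u q → le u w) inferInstance
  convert h1 using 1
  ext x
  rw [mem_sep, mem_sep]
  refine and_congr_right fun hx => ⟨h x hx, ?_⟩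
  rintro ⟨p, hp, w, -, h2, h3⟩
  exact ⟨w, red_mem C (mem_inter.1 hp).1 hq h3, h2⟩

/-- subsets of ground model sets are decided by a ground model relation -/
theorem cap {Y X : ZF} (hY : Y ∈ val G '' M) (hX : X ∈ M) (h : Y ⊆ X) :
    ∃ A ∈ M, ∀ x, x ∈ Y ↔ ∃ p ∈ G, pair p x ∈ A := by
  obtain ⟨c, h1, h2, t, ht, rfl⟩ := (un C Y).1 hY
  obtain ⟨A, h3, h4, h5⟩ := (cx C h1 h2).cap_ext ht hX h
  refine ⟨A, h3, fun x => (h5 x).trans ⟨?_, ?_⟩⟩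
  · rintro ⟨p, hp, h6⟩
    exact ⟨p, (mem_inter.1 hp).1, h6⟩
  · rintro ⟨p, hp, h6⟩
    exact ⟨p, mem_inter.2 ⟨hp, (pair_mem_prod.1 (h4 h6)).1⟩, h6⟩

theorem sub {a X Y : ZF} (ha : a ∈ M) (ho : IsOrdinal a) (hX : X ∈ M) (T : TD M le PS a X)
    (hY : Y ∈ val G '' M) (h : Y ⊆ X) : Y ∈ val (G ∩ PS a) '' M := by
  obtain ⟨A, h1, h2⟩ := cap C hY hX h
  have := fun s t [Tm M s] [Tm M t] => C.dle.two s t
  have := In.mk' h1
  have h3 := sep_stage C ha ho hX T (fun w x => ∃ p, pair p x ∈ A ∧ le w p) inferInstance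
    fun w w' x ⟨p, h3, h4⟩ h5 => ⟨p, h3, C.trans _ _ _ h5 h4⟩
  convert h3 using 1
  ext x
  rw [mem_sep]
  constructor
  · intro hx
    obtain ⟨p, hp, h4⟩ := (h2 x).1 hx
    exact ⟨h hx, p, hp, p, h4, C.sub p hp⟩
  · rintro ⟨-, w, hw, p, h4, h5⟩
    exact (h2 x).2 ⟨p, C.up w hw p h5, h4⟩

theorem fn {a X b Y : ZF} (ha : a ∈ M) (ho : IsOrdinal a) (hX : X ∈ M) (T : TD M le PS a X)
    (hb : b ∈ M) (hY : Y ∈ val G '' M) (h : Y ⊆ prod X b)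
    (hf : ∀ x y y', pair x y ∈ Y → pair x y' ∈ Y → y = y') : Y ∈ val (G ∩ PS a) '' M := by
  have hXb : prod X b ∈ M := by
    have := In.mk' hX
    have := In.mk' hb
    exact In.mem _
  obtain ⟨A, h1, h2⟩ := cap C hY hXb h
  have := fun s t [Tm M s] [Tm M t] => C.dle.two s t
  have := In.mk' h1
  obtain ⟨q, hq, h3⟩ := red C ha ho hX T (fun w x => ∃ y p, pair p (pair x y) ∈ A ∧ le w p)
    inferInstance fun w w' x ⟨y, p, h3, h4⟩ h5 => ⟨y, p, h3, C.trans _ _ _ h5 h4⟩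
  have := In.mk' (CF2P.gm C hq)
  have h4 := cut (cx C ha ho) hXb
    (fun r z => ∃ p, pair p z ∈ A ∧ ∀ u ∈ M, le u r → le u q → le u p) inferInstance
  convert h4 using 1
  ext z
  rw [mem_sep]
  constructor
  · intro hz
    obtain ⟨x, hx, y, -, rfl⟩ := mem_prod.1 (h hz)
    obtain ⟨p0, h5, h6⟩ := (h2 _).1 hz
    obtain ⟨r, h7, w, -, ⟨y', p, h8, h9⟩, h10⟩ := h3 x hx ⟨p0, h5, y, p0, h6, C.sub p0 h5⟩
    have h11 : ∀ u ∈ M, le u r → le u q → le u p := fun u k1 k2 k3 =>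
      C.trans _ _ _ (h10 u k1 k2 k3) h9
    obtain rfl := hf x y y' hz ((h2 _).2 ⟨p, red_mem C (mem_inter.1 h7).1 hq h11, h8⟩)
    exact ⟨h hz, r, h7, p, h8, h11⟩
  · rintro ⟨-, r, h5, p, h6, h7⟩
    exact (h2 z).2 ⟨p, red_mem C (mem_inter.1 h5).1 hq h7, h6⟩

theorem cov {X : ZF} (hX : X ∈ M) (E : ZF → ZF → ZF → Prop)
    (hE : Df M (fun v => E (v 0) (v 1) (v 2))) (m : ∀ w w' x y, E w x y → le w' w → E w' x y) :
    ∃ Z ∈ M, ∀ x ∈ X, (∃ w ∈ G, ∃ y ∈ M, E w x y) → ∃ w ∈ G, ∃ y ∈ Z, E w x y := by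
  obtain ⟨a, ha, ho, -, T⟩ := C.td X hX ∅ empty_mem isOrdinal_empty
  have := fun s t [Tm M s] [Tm M t] => C.dle.two s t
  have := fun s t r [Tm M s] [Tm M t] [Tm M r] => hE.three s t r
  obtain ⟨q, hq, h⟩ := red C ha ho hX T (fun w x => ∃ y ∈ M, E w x y) inferInstance
    fun w w' x ⟨y, h1, h2⟩ h3 => ⟨y, h1, m _ _ _ _ h2 h3⟩
  have := In.mk' (CF2P.gm C hq)
  have := In.mk' (ps_mem C ha)
  have := In.mk' hX
  obtain ⟨Z, hZ, h1⟩ := collect (M := M) (fun z y =>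
    (∃ w ∈ M, (∃ y' ∈ M, E w (snd z) y') ∧ ∀ u ∈ M, le u (fst z) → le u q → le u w) →
      ∃ w ∈ M, E w (snd z) y ∧ ∀ u ∈ M, le u (fst z) → le u q → le u w) inferInstance
    (In.mem (prod (PS a) X)) fun z _ => by
      by_cases hc : ∃ w ∈ M, (∃ y' ∈ M, E w (snd z) y') ∧
        ∀ u ∈ M, le u (fst z) → le u q → le u w
      · obtain ⟨w, h1, ⟨y, h2, h3⟩, h4⟩ := hc
        exact ⟨y, h2, fun _ => ⟨w, h1, h3, h4⟩⟩
      · exact ⟨∅, empty_mem, fun h' => absurd h' hc⟩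
  refine ⟨Z, hZ, fun x hx hw => ?_⟩
  obtain ⟨p, hp, h2⟩ := h x hx hw
  obtain ⟨y, hy, h3⟩ := h1 (pair p x) (pair_mem_prod.2 ⟨(mem_inter.1 hp).2, hx⟩)
  rw [fst_pair, snd_pair] at h3
  obtain ⟨w, -, h4, h5⟩ := h3 h2
  exact ⟨w, red_mem C (mem_inter.1 hp).1 hq h5, y, hy, h4⟩

end

end CF1P

open CF1P in
theorem cf1 : S_CF1 := by
  intro M _ le PS G C
  refine ⟨fun a ha ho => cx C ha ho, fun b hb ho a ho' h => mono C hb ho ho' h, un C,
    fun a ha ho X hX T b hb Y hY h hf => fn C ha ho hX T hb hY h hf,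
    fun a ha ho X hX T Y hY h => sub C ha ho hX T hY h, fun X hX E hE m => ?_,
    fun X hX E hE m => cov C hX E hE m⟩
  obtain ⟨a, ha, ho, -, T⟩ := C.td X hX ∅ empty_mem isOrdinal_empty
  exact (un C _).2 ⟨a, ha, ho, sep_stage C ha ho hX T E hE m⟩

open CF1P in
theorem cone : S_Cone := by
  intro M _ P L G C p hp q hq h h' th th' H H'
  have := fun s [Tm M s] => th.one s
  have := fun s [Tm M s] => th'.one s
  have := In.mk' C.hL
  have := In.mk' (C.gm hp)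
  have := In.mk' (tr C.hP hq)
  have po := C.po
  obtain ⟨G', e0, e⟩ : ∃ G', G' = ZFSet.sep (fun w => ∃ u ∈ G, pair u p ∈ L ∧ pair (h u) w ∈ L) P ∧
      ∀ w, w ∈ G' ↔ ∃ u ∈ G, pair u p ∈ L ∧ pair (h u) w ∈ L :=
    ⟨_, rfl, fun w => mem_sep.trans ⟨fun k => k.2, fun ⟨u, k1, k2, k3⟩ =>
      ⟨(po.mem _ _ k3).2, u, k1, k2, k3⟩⟩⟩
  have hh : ∀ u ∈ G, pair u p ∈ L → h u ∈ G' := fun u k1 k2 =>
    (e _).2 ⟨u, k1, k2, po.refl _ (po.mem _ _ (H u k2).1).1⟩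
  have K : Cx M P L G' := by
    refine ⟨C.hP, C.hL, po, fun w hw => ?_, fun w hw w' k => ?_, fun w hw w' hw' => ?_,
      fun D hD hd => ?_⟩
    · obtain ⟨u, -, -, k⟩ := (e w).1 hw
      exact (po.mem _ _ k).2
    · obtain ⟨u, k1, k2, k3⟩ := (e w).1 hw
      exact (e w').2 ⟨u, k1, k2, po.trans _ _ _ k3 k⟩
    · obtain ⟨u, k1, k2, k3⟩ := (e w).1 hw
      obtain ⟨u', k4, k5, k6⟩ := (e w').1 hw'
      obtain ⟨r, k7, k8, k9⟩ := C.gen.dir u k1 u' k4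
      exact ⟨h r, hh r k7 (po.trans _ _ _ k8 k2), po.trans _ _ _ ((H u k2).2.2.2 r k8) k3,
        po.trans _ _ _ ((H u' k5).2.2.2 r k9) k6⟩
    · have := In.mk' hD
      obtain ⟨u, k1, k2, d, k3, k4⟩ := C.meet_below
        (fun u => pair u p ∈ L ∧ ∃ d ∈ D, pair (h u) d ∈ L) inferInstance hp fun u hu => by
          obtain ⟨k1, k2, -, -⟩ := H u hu
          obtain ⟨d, k3, k4⟩ := hd _ (po.mem _ _ k1).1
          obtain ⟨k5, k6, -, -⟩ := H' d (po.trans _ _ _ k4 k1)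
          exact ⟨h' d, po.trans _ _ _ ((H' _ k1).2.2.2 d k4) k2, k5, d, k3, k6⟩
      exact ⟨d, (e d).2 ⟨u, k1, k2, k4⟩, k3⟩
  refine ⟨G', K, (e q).2 ⟨p, hp, C.grefl hp, (H p (C.grefl hp)).1⟩, ?_, e⟩
  apply Set.Subset.antisymm
  · have := C.model
    refine ext_sub C.sub_ext ?_
    rw [e0]
    exact cut C C.hP (fun u w => pair u p ∈ L ∧ pair (h u) w ∈ L) inferInstance
  · have := K.model
    refine ext_sub K.sub_ext ?_
    have h1 := cut K C.hP (fun u w => pair u q ∈ L ∧ pair (h' u) w ∈ L) inferInstance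
    convert h1 using 1
    ext w
    rw [mem_sep]
    constructor
    · intro hw
      obtain ⟨u, k1, k2, k3⟩ := C.gen.dir w hw p hp
      exact ⟨C.gen.sub hw, h u, hh u k1 k3, (H u k3).1, po.trans _ _ _ (H u k3).2.1 k2⟩
    · rintro ⟨-, u, k1, k2, k3⟩
      obtain ⟨u0, k4, k5, k6⟩ := (e u).1 k1
      exact C.gen.up u0 k4 w (po.trans _ _ _ (H u0 k5).2.2.1
        (po.trans _ _ _ ((H' u k2).2.2.2 _ k6) k3))

end Pool.Agent.P.MP_0b3dfe_lc.Q2
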