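import Pool.Agent.P.MP_0b3dfe_lc.Q2.St0

/-! The extension by a tame class forcing is a model. -/

set_option linter.unusedSectionVars false
set_option synthInstance.maxSize 100000

namespace Pool.Agent.P.MP_0b3dfe_lc.Q2

open ZFSet Pool.Agent.P.MP_3ab3de_lc Pool.Agent.P.MP_9a7e1f_lc ForceP

namespace CF2P

variable {M : Set ZF} [hM : TModel M] {le : ZF → ZF → Prop} {PS : ZF → ZF} {G : ZF}

theorem df_FE' {l a b c : Env → ZF} [Tm M l] [Tm M a] [Tm M b] [Tm M c] :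
    Df M (fun v => FE M (l v) (a v) (b v) (c v)) := by
  unfold FE Bis Clause Half
  beta_reduce
  infer_instance

theorem df_FM' {l a b c : Env → ZF} [Tm M l] [Tm M a] [Tm M b] [Tm M c] :
    Df M (fun v => FM M (l v) (a v) (b v) (c v)) := by
  have := fun (l a b c : Env → ZF) [Tm M l] [Tm M a] [Tm M b] [Tm M c] =>
    df_FE' (M := M) (l := l) (a := a) (b := b) (c := c)
  unfold FM
  infer_instance

/-- all conditions below the rank of `s` lie in `PS c` -/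
def Bd (M : Set ZF) (le : ZF → ZF → Prop) (PS : ZF → ZF) (c s : ZF) : Prop :=
  ∀ p ∈ VM M (rk s), le p p → p ∈ PS c

omit hM in
theorem Bd.down {c s t p : ZF} (h : Bd M le PS c t) (hs : pair s p ∈ t) : Bd M le PS c s :=
  fun q hq => h q (mem_VM.2 ⟨by
    have := (mem_VM.1 hq).1
    rw [rank_rk] at this ⊢
    exact this.trans (rank_lt_of_pair hs), (mem_VM.1 hq).2⟩)

omit hM in
theorem rank_snd_lt {s p t : ZF} (h : pair s p ∈ t) : rank p < rank t :=
  ((rank_lt_of_mem (show p ∈ ({s, p} : ZF) by simp)).trans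
    (rank_lt_of_mem (show ({s, p} : ZF) ∈ pair s p by simp [pair]))).trans (rank_lt_of_mem h)

omit hM in
theorem df_F {F : ZF → Env → Prop} (h : Df M (fun w => F (w 0) (fun n => w (n + 1))))
    (a : Env → ZF) [ha : Tm M a] (t : ℕ → Env → ZF) (ht : ∀ k, Tm M (t k)) :
    Df M (fun v => F (a v) (fun k => t k v)) :=
  df_subst h (cns a t) fun k => by
    cases k
    exacts [ha, ht _]

omit hM in
theorem df_F0 {F : ZF → Env → Prop} (h : Df M (fun w => F (w 0) (fun n => w (n + 1))))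
    {u : Env} (hu : EIn M u) (a : Env → ZF) [Tm M a] : Df M (fun v => F (a v) u) :=
  df_F h a (fun k _ => u k) fun k => In.mk' (hu k)

omit hM in
theorem df_Fc {F : ZF → Env → Prop} (h : Df M (fun w => F (w 0) (fun n => w (n + 1))))
    (a s : Env → ZF) [Tm M a] [hs : Tm M s] (t : ℕ → Env → ZF) (ht : ∀ k, Tm M (t k)) :
    Df M (fun v => F (a v) (cons (s v) (fun k => t k v))) := by
  refine (df_F h a (cns s t) fun k => ?_).congr fun v _ => ?_
  · cases k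
    exacts [hs, ht _]
  · have : cons (s v) (fun k => t k v) = fun k => cns s t k v := by
      funext k; cases k <;> rfl
    rw [this]

omit hM in
theorem df_F1 {F : ZF → Env → Prop} (h : Df M (fun w => F (w 0) (fun n => w (n + 1))))
    {u : Env} (hu : EIn M u) (a s : Env → ZF) [Tm M a] [Tm M s] :
    Df M (fun v => F (a v) (cons (s v) u)) :=
  df_Fc h a s (fun k _ => u k) fun k => In.mk' (hu k)

omit hM in
theorem df_F2 {F : ZF → Env → Prop} (h : Df M (fun w => F (w 0) (fun n => w (n + 1))))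
    {u : Env} (hu : EIn M u) (a s r : Env → ZF) [Tm M a] [Tm M s] [hr : Tm M r] :
    Df M (fun v => F (a v) (cons (s v) (cons (r v) u))) := by
  refine (df_Fc h a s (cns r fun k _ => u k) fun k => ?_).congr fun v _ => ?_
  · cases k
    exacts [hr, In.mk' (hu _)]
  · have : cons (r v) u = fun k => cns r (fun k _ => u k) k v := by
      funext k; cases k <;> rfl
    rw [this]

section

variable (C : CF M le PS G)
include C

omit hM in
theorem bd_mono {c c' s : ZF} (h : Bd M le PS c s) (hc : c ⊆ c') : Bd M le PS c' s :=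
  fun p hp h1 => C.mono c c' hc (h p hp h1)

theorem exists_bd {s : ZF} (hs : s ∈ M) : ∃ c ∈ M, IsOrdinal c ∧ Bd M le PS c s := by
  have := fun s t [Tm M s] [Tm M t] => C.dle.two s t
  have := fun s [Tm M s] => C.tPS.one s
  have := In.mk' hs
  obtain ⟨b, hb, h⟩ := collect (M := M) (fun p a => IsOrdinal a ∧ (le p p → p ∈ PS a))
    inferInstance (In.mem (VM M (rk s))) fun p _ => by
      by_cases hp : le p p
      · obtain ⟨a, h1, h2, h3⟩ := C.ex p hp
        exact ⟨a, h1, h2, fun _ => h3⟩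
      · exact ⟨∅, empty_mem, isOrdinal_empty, fun h => absurd h hp⟩
  have := In.mk' hb
  refine ⟨ZFSet.sUnion (ZFSet.sep IsOrdinal b), In.mem _,
    isOrdinal_sUnion fun x hx => (mem_sep.1 hx).2, fun p hp h1 => ?_⟩
  obtain ⟨a, h2, h3, h4⟩ := h p hp
  exact C.mono a _ (fun z hz => mem_sUnion.2 ⟨a, mem_sep.2 ⟨h2, h3⟩, hz⟩) (h4 h1)

theorem exists_bd2 {s t : ZF} (hs : s ∈ M) (ht : t ∈ M) :
    ∃ c ∈ M, IsOrdinal c ∧ Bd M le PS c s ∧ Bd M le PS c t := by
  obtain ⟨a, h1, h2, h3⟩ := exists_bd C hs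
  obtain ⟨b, h4, h5, h6⟩ := exists_bd C ht
  rcases h2.subset_total h5 with h | h
  exacts [⟨b, h4, h5, bd_mono C h3 h, h6⟩, ⟨a, h1, h2, h3, bd_mono C h6 h⟩]

theorem val_bd {c : ZF} (s : ZF) : s ∈ M → Bd M le PS c s → val (G ∩ PS c) s = val G s := by
  induction s using nm_ind with
  | h s ih =>
    intro hs hb
    ext y
    rw [mem_val, mem_val]
    constructor
    · rintro ⟨s', p, h1, h2, rfl⟩
      exact ⟨s', p, (mem_inter.1 h1).1, h2, (ih s' p h2 (fst_mem (tr hs h2)) (hb.down h2)).symm⟩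
    · rintro ⟨s', p, h1, h2, rfl⟩
      exact ⟨s', p, mem_inter.2 ⟨h1, hb p (mem_VM.2 ⟨by rw [rank_rk]; exact rank_snd_lt h2,
        snd_mem (tr hs h2)⟩) (C.sub p h1)⟩, h2, ih s' p h2 (fst_mem (tr hs h2)) (hb.down h2)⟩

omit hM in
theorem gm {p : ZF} (hp : p ∈ G) : p ∈ M := C.mem p (C.sub p hp)

omit hM in
theorem gne : ∃ p, p ∈ G := by
  obtain ⟨q, hq, -⟩ := C.meet (fun _ => True) (Df.const True) fun p hp => ⟨p, hp, trivial⟩
  exact ⟨q, hq⟩

/-- the atomic case of the truth lemma -/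
theorem atomic (X : CX M le PS G) (R : ZF → ZF → Prop) (T : ZF → ZF → ZF → ZF → Prop)
    (hT : ∀ (l a b c : Env → ZF) [Tm M l] [Tm M a] [Tm M b] [Tm M c],
      Df M (fun v => T (l v) (a v) (b v) (c v)))
    (H : ∀ P L G, Cx M P L G → ∀ s ∈ M, ∀ t ∈ M, R (val G s) (val G t) ↔ ∃ p ∈ G, T L p s t)
    (i j : ℕ) : ∃ F : ZF → Env → Prop, Df M (fun w => F (w 0) (fun n => w (n + 1))) ∧
      (∀ p q v, F p v → le q p → F q v) ∧
      ∀ v, EIn M v → (R (val G (v i)) (val G (v j)) ↔ ∃ p ∈ G, F p v) := by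
  have := fun s t [Tm M s] [Tm M t] => C.dle.two s t
  have := fun s [Tm M s] => C.tPS.one s
  refine ⟨fun p v => ∃ c ∈ M, IsOrdinal c ∧ Bd M le PS c (v i) ∧ Bd M le PS c (v j) ∧
    ∃ p' ∈ PS c, le p p' ∧ T (Lr le PS c) p' (v i) (v j), ?_, ?_, fun v hv => ⟨fun h => ?_, ?_⟩⟩
  · unfold Bd Lr
    infer_instance
  · rintro p q v ⟨c, h1, h2, h3, h4, p', h5, h6, h7⟩ hq
    exact ⟨c, h1, h2, h3, h4, p', h5, C.trans _ _ _ hq h6, h7⟩
  · obtain ⟨c, h1, h2, h3, h4⟩ := exists_bd2 C (hv i) (hv j)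
    rw [← val_bd C _ (hv i) h3, ← val_bd C _ (hv j) h4,
      H _ _ _ (X.cx c h1 h2) _ (hv i) _ (hv j)] at h
    obtain ⟨p, h5, h6⟩ := h
    obtain ⟨h7, h8⟩ := mem_inter.1 h5
    exact ⟨p, h7, c, h1, h2, h3, h4, p, h8, C.sub p h7, h6⟩
  · rintro ⟨p, hp, c, h1, h2, h3, h4, p', h5, h6, h7⟩
    rw [← val_bd C _ (hv i) h3, ← val_bd C _ (hv j) h4, H _ _ _ (X.cx c h1 h2) _ (hv i) _ (hv j)]
    exact ⟨p', mem_inter.2 ⟨C.up p hp p' h6, h5⟩, h7⟩

/-- definability of forcing and the truth lemma -/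
theorem truth (X : CX M le PS G) (φ : Fml) : ∃ F : ZF → Env → Prop,
    Df M (fun w => F (w 0) (fun n => w (n + 1))) ∧ (∀ p q v, F p v → le q p → F q v) ∧
    ∀ v, EIn M v → (Sat (val G '' M) φ (fun n => val G (v n)) ↔ ∃ p ∈ G, F p v) := by
  have := fun s t [Tm M s] [Tm M t] => C.dle.two s t
  induction φ with
  | mem i j =>
    exact atomic C X (fun a b => a ∈ b) (FM M) (fun l a b c _ _ _ _ => df_FM')
      (fun P L G K s hs t ht => K.truth_mem hs ht) i j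
  | eq i j =>
    exact atomic C X (fun a b => a = b) (FE M) (fun l a b c _ _ _ _ => df_FE')
      (fun P L G K s hs t ht => K.truth_eq s hs t ht) i j
  | bot => exact ⟨fun _ _ => False, Df.bot, fun _ _ _ h _ => h,
      fun _ _ => ⟨False.elim, fun ⟨_, _, h⟩ => h⟩⟩
  | imp φ ψ h1 h2 =>
    obtain ⟨F1, d1, m1, t1⟩ := h1
    obtain ⟨F2, d2, m2, t2⟩ := h2
    refine ⟨fun p v => F2 p v ∨ ∀ q ∈ M, le q p → ¬ F1 q v, ?_, ?_, fun v hv => ?_⟩
    · have h3 : Df M (fun w => F1 (w 0) (fun n => w (n + 1 + 1))) :=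
        d1.ren (cns 0 fun n => n + 2)
      exact @Df.or _ _ _ d2 (Df.allM (P := fun w q => le q (w 0) → ¬ F1 q (fun n => w (n + 1)))
        inferInstance)
    · rintro p q v (h | h) hq
      exacts [Or.inl (m2 _ _ _ h hq), Or.inr fun r hr h3 => h r hr (C.trans _ _ _ h3 hq)]
    · rw [sat_imp, t1 v hv, t2 v hv]
      constructor
      · intro h
        have := fun a [Tm M a] => df_F0 d1 hv a
        obtain ⟨q, hq, h3⟩ := C.meet (fun q => F1 q v ∨ ∀ r ∈ M, le r q → ¬ F1 r v) inferInstance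
          fun p hp => by
            by_cases hc : ∃ r ∈ M, le r p ∧ F1 r v
            · obtain ⟨r, -, h4, h5⟩ := hc
              exact ⟨r, h4, Or.inl h5⟩
            · exact ⟨p, hp, Or.inr fun r h4 h5 h6 => hc ⟨r, h4, h5, h6⟩⟩
        rcases h3 with h3 | h3
        · obtain ⟨p, hp, h4⟩ := h ⟨q, hq, h3⟩
          exact ⟨p, hp, Or.inl h4⟩
        · exact ⟨q, hq, Or.inr h3⟩
      · rintro ⟨p, hp, h | h⟩ ⟨q, hq, h3⟩
        · exact ⟨p, hp, h⟩
        · obtain ⟨r, h4, h5, h6⟩ := C.dir p hp q hq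
          exact absurd (m1 _ _ _ h3 h6) (h r (gm C h4) h5)
  | all φ ih =>
    obtain ⟨F, d, m, t⟩ := ih
    refine ⟨fun p v => ∀ s ∈ M, ∀ q ∈ M, le q p → ∃ r ∈ M, le r q ∧ F r (cons s v), ?_, ?_,
      fun v hv => ?_⟩
    · have h3 : Df M (fun w => F (w 0) (cons (w 2) fun n => w (n + 1 + 1 + 1 + 1))) :=
        df_Fc d (fun w => w 0) (fun w => w 2) (fun n w => w (n + 4)) fun _ => Tm.var _
      refine Df.allM (P := fun w s => ∀ q ∈ M, le q (w 0) → ∃ r ∈ M, le r q ∧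
        F r (cons s fun n => w (n + 1))) (Df.allM (P := fun w q => q ∈ M → le q (w 1) →
          ∃ r ∈ M, le r q ∧ F r (cons (w 0) fun n => w (n + 1 + 1))) ?_ |>.congr ?_)
      · refine @Df.imp _ _ _ inferInstance (@Df.imp _ _ _ inferInstance (Df.exM
          (P := fun w r => le r (w 0) ∧ F r (cons (w 1) fun n => w (n + 1 + 1 + 1))) ?_))
        exact @Df.and _ _ _ inferInstance h3
      · exact fun w _ => ⟨fun h q hq _ => h q hq, fun h q hq => h q hq hq⟩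
    · exact fun p q v h hq s hs r hr h1 => h s hs r hr (C.trans _ _ _ h1 hq)
    · rw [sat_all]
      have := fun a s [Tm M a] [Tm M s] => df_F1 d hv a s
      constructor
      · intro h
        obtain ⟨q, hq, h3⟩ := C.meet (fun p => (∀ s ∈ M, ∀ q ∈ M, le q p →
          ∃ r ∈ M, le r q ∧ F r (cons s v)) ∨ ∃ s ∈ M, ∀ r ∈ M, le r p → ¬ F r (cons s v))
          inferInstance fun p hp => by
            by_cases hc : ∃ s ∈ M, ∃ q, le q p ∧ ∀ r ∈ M, le r q → ¬ F r (cons s v)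
            · obtain ⟨s, h4, q, h5, h6⟩ := hc
              exact ⟨q, h5, Or.inr ⟨s, h4, h6⟩⟩
            · refine ⟨p, hp, Or.inl fun s hs q _ h4 => ?_⟩
              by_contra h5
              exact hc ⟨s, hs, q, h4, fun r h6 h7 h8 => h5 ⟨r, h6, h7, h8⟩⟩
        rcases h3 with h3 | ⟨s, hs, h3⟩
        · exact ⟨q, hq, h3⟩
        · have h4 := h _ ⟨s, hs, rfl⟩
          rw [← val_cons, t _ (hv.cons hs)] at h4
          obtain ⟨p, hp, h5⟩ := h4
          obtain ⟨r, h6, h7, h8⟩ := C.dir p hp q hq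
          exact absurd (m _ _ _ h5 h7) (h3 r (gm C h6) h8)
      · rintro ⟨p, hp, h⟩ _ ⟨s, hs, rfl⟩
        rw [← val_cons, t _ (hv.cons hs)]
        have := In.mk' hs
        have := In.mk' (gm C hp)
        obtain ⟨q, hq, h3⟩ := C.meet (fun q => F q (cons s v) ∨ ¬ ∃ u ∈ M, le u q ∧ le u p)
          inferInstance fun q hq => by
            by_cases hc : ∃ u ∈ M, le u q ∧ le u p
            · obtain ⟨u, h4, h5, h6⟩ := hc
              obtain ⟨r, -, h7, h8⟩ := h s hs u h4 h6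
              exact ⟨r, C.trans _ _ _ h7 h5, Or.inl h8⟩
            · exact ⟨q, hq, Or.inr hc⟩
        obtain ⟨u, h4, h5⟩ := C.dir q hq p hp
        exact ⟨q, hq, h3.resolve_right (not_not.2 ⟨u, gm C h4, h5⟩)⟩

end

section

variable (X : CX M le PS G)
include X

omit hM in
theorem up {a x : ZF} (ha : a ∈ M) (ho : IsOrdinal a) (h : x ∈ val (G ∩ PS a) '' M) :
    x ∈ val G '' M := (X.un x).2 ⟨a, ha, ho, h⟩

omit hM in
theorem above {a x : ZF} (ha : a ∈ M) (ho : IsOrdinal a) (h : x ∈ val G '' M) :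
    ∃ b ∈ M, IsOrdinal b ∧ a ⊆ b ∧ x ∈ val (G ∩ PS b) '' M := by
  obtain ⟨b, h1, h2, h3⟩ := (X.un x).1 h
  rcases ho.subset_total h2 with h4 | h4
  exacts [⟨b, h1, h2, h4, h3⟩, ⟨a, ha, ho, fun _ h => h, X.mono a ha ho b h2 h4 h3⟩]

theorem power (C : CF M le PS G) {x : ZF} (hx : x ∈ val G '' M) :
    ∃ c ∈ val G '' M, ∀ y ∈ val G '' M, y ∈ c ↔ y ⊆ x := by
  obtain ⟨c, h1, h2, t, ht, rfl⟩ := (X.un x).1 hx
  have hd : dom t ∈ M := by
    have := In.mk' ht
    exact In.mem _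
  obtain ⟨b, h3, h4, h5, h6⟩ := C.td (dom t) hd c h1 h2
  have := (X.cx b h3 h4).model
  have hG := (X.cx c h1 h2).gen_mem
  refine ⟨_, up X h3 h4 (pw_mem (X.mono b h3 h4 c h2 h5 ⟨t, ht, rfl⟩)), fun y hy => ?_⟩
  rw [mem_pw]
  refine ⟨fun h => h.1, fun h => ⟨h, ?_⟩⟩
  obtain ⟨c', h7, h8, h9, h10⟩ := above X h1 h2 hy
  have h11 : ZFSet.sep (fun s => val (G ∩ PS c) s ∈ y) (dom t) ∈ val (G ∩ PS c') '' M := by
    have := (X.cx c' h7 h8).model
    have := In.mk' h10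
    have := In.mk' (X.mono c' h7 h8 c h2 h9 hG)
    have := In.mk' ((X.cx c' h7 h8).sub_ext hd)
    generalize G ∩ PS c = H at *
    generalize dom t = D at *
    exact In.mem _
  have h12 := X.sub b h3 h4 _ hd h6 _ (up X h7 h8 h11) sep_subset
  have e : y = img (val (G ∩ PS c)) (ZFSet.sep (fun s => val (G ∩ PS c) s ∈ y) (dom t)) := by
    ext z
    rw [mem_img]
    constructor
    · intro hz
      obtain ⟨s, p, -, h13, rfl⟩ := mem_val.1 (h hz)
      exact ⟨s, mem_sep.2 ⟨mem_dom_of h13, hz⟩, rfl⟩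
    · rintro ⟨s, hs, rfl⟩
      exact (mem_sep.1 hs).2
  rw [e]
  have := In.mk' h12
  have := In.mk' (X.mono b h3 h4 c h2 h5 hG)
  generalize ZFSet.sep (fun s => val (G ∩ PS c) s ∈ y) (dom t) = Y at *
  generalize G ∩ PS c = H at *
  exact In.mem (img (fun s => val H s) Y)

theorem separation (C : CF M le PS G) (φ : Fml) (v : Env) (hv : ∀ n, v n ∈ val G '' M) (a : ZF)
    (ha : a ∈ val G '' M) :
    ∃ b ∈ val G '' M, ∀ x, x ∈ b ↔ x ∈ a ∧ Sat (val G '' M) φ (cons x v) := by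
  obtain ⟨w, hw, rfl⟩ := exists_names hv
  obtain ⟨t, ht, rfl⟩ := ha
  obtain ⟨F, d, m, T⟩ := truth C X φ
  have hd : dom t ∈ M := by
    have := In.mk' ht
    exact In.mem _
  have h1 := X.sep _ hd (fun p s => F p (cons s w)) (df_F1 d hw _ _) fun _ _ _ h h' => m _ _ _ h h'
  obtain ⟨c, h2, h3, h4⟩ := exists_bd C ht
  obtain ⟨b, h5, h6, h7, h8⟩ := above X h2 h3 h1
  replace h4 := bd_mono C h4 h7
  refine ⟨ZFSet.sep (fun x => ∃ s ∈ ZFSet.sep (fun s => ∃ p ∈ G, F p (cons s w)) (dom t),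
    (∃ p, pair s p ∈ t) ∧ val (G ∩ PS b) s = x) (val (G ∩ PS b) t), up X h5 h6 ?_, fun x => ?_⟩
  · have := (X.cx b h5 h6).model
    have := In.mk' h8
    have := In.mk' (X.cx b h5 h6).gen_mem
    have := In.mk' ((X.cx b h5 h6).sub_ext ht)
    generalize ZFSet.sep (fun s => ∃ p ∈ G, F p (cons s w)) (dom t) = Y at *
    generalize G ∩ PS b = H at *
    exact In.mem _
  · rw [mem_sep, val_bd C t ht h4]
    refine and_congr_right fun hx => ⟨?_, fun h => ?_⟩
    · rintro ⟨s, h9, ⟨p, h10⟩, rfl⟩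
      have hs := fst_mem (tr ht h10)
      rw [val_bd C s hs (h4.down h10), ← val_cons, T _ (hw.cons hs)]
      exact (mem_sep.1 h9).2
    · obtain ⟨s, p, -, h10, rfl⟩ := mem_val.1 hx
      have hs := fst_mem (tr ht h10)
      rw [← val_cons, T _ (hw.cons hs)] at h
      exact ⟨s, mem_sep.2 ⟨mem_dom_of h10, h⟩, ⟨p, h10⟩, val_bd C s hs (h4.down h10)⟩

theorem replacement (C : CF M le PS G) (φ : Fml) (v : Env) (hv : ∀ n, v n ∈ val G '' M) (a : ZF)
    (ha : a ∈ val G '' M)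
    (H : ∀ x ∈ a, ∃! y, y ∈ val G '' M ∧ Sat (val G '' M) φ (cons y (cons x v))) :
    ∃ b ∈ val G '' M, ∀ y, y ∈ b ↔ y ∈ val G '' M ∧
      ∃ x ∈ a, Sat (val G '' M) φ (cons y (cons x v)) := by
  have htr : ∀ x ∈ val G '' M, ∀ y ∈ x, y ∈ val G '' M := by
    rintro _ ⟨t, ht, rfl⟩ y hy
    obtain ⟨s, p, -, h, rfl⟩ := mem_val.1 hy
    exact ⟨s, fst_mem (tr ht h), rfl⟩
  obtain ⟨B, hB, h1⟩ : ∃ B ∈ val G '' M, ∀ x ∈ a, ∀ y ∈ val G '' M,
      Sat (val G '' M) φ (cons y (cons x v)) → y ∈ B := by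
    obtain ⟨w, hw, rfl⟩ := exists_names hv
    obtain ⟨t, ht, rfl⟩ := ha
    obtain ⟨F, d, m, T⟩ := truth C X φ
    have hd : dom t ∈ M := by
      have := In.mk' ht
      exact In.mem _
    obtain ⟨Z, hZ, h1⟩ := X.cov _ hd (fun p s y => F p (cons y (cons s w))) (df_F2 d hw _ _ _)
      fun _ _ _ _ h h' => m _ _ _ h h'
    obtain ⟨p, hp⟩ := gne C
    have := In.mk' hZ
    have := In.mk' (gm C hp)
    refine ⟨_, ⟨prod Z {p}, In.mem _, rfl⟩, ?_⟩
    rintro x hx _ ⟨y, hy, rfl⟩ h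
    obtain ⟨s, q, -, h2, rfl⟩ := mem_val.1 hx
    have hs := fst_mem (tr ht h2)
    have h3 := h
    rw [← val_cons, ← val_cons, T _ ((hw.cons hs).cons hy)] at h3
    obtain ⟨r, h4, h5⟩ := h3
    obtain ⟨r', h6, y', h7, h8⟩ := h1 s (mem_dom_of h2) ⟨r, h4, y, hy, h5⟩
    have h9 := (T _ ((hw.cons hs).cons (tr hZ h7))).2 ⟨r', h6, h8⟩
    rw [val_cons, val_cons] at h9
    rw [(H _ hx).unique ⟨⟨y, hy, rfl⟩, h⟩ ⟨⟨y', tr hZ h7, rfl⟩, h9⟩]
    exact val_mem hp (pair_mem_prod.2 ⟨h7, mem_singleton.2 rfl⟩)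
  obtain ⟨b, hb, h2⟩ := separation X C (.imp (.all (.imp (.mem 0 2)
    (.imp (φ.ren (cns 1 (cns 0 fun n => n + 3))) .bot))) .bot) (cons a v)
    (EIn.cons (M := val G '' M) hv ha) B hB
  have key : ∀ x y, Sat (val G '' M) (φ.ren (cns 1 (cns 0 fun n => n + 3)))
      (cons x (cons y (cons a v))) ↔ Sat (val G '' M) φ (cons y (cons x v)) := fun x y => by
    have : (fun n => cons x (cons y (cons a v)) (cns 1 (cns 0 fun n => n + 3) n)) =
        cons y (cons x v) := by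
      funext n
      rcases n with _ | _ | n <;> rfl
    rw [sat_ren, this]
  refine ⟨b, hb, fun y => (h2 y).trans ?_⟩
  simp only [sat_imp, sat_all, sat_bot, sat_mem, key]
  constructor
  · rintro ⟨h3, h4⟩
    refine ⟨htr B hB y h3, by_contra fun h5 => h4 fun x _ h6 h7 => h5 ⟨x, h6, h7⟩⟩
  · rintro ⟨h3, x, h4, h5⟩
    exact ⟨h1 x h4 y h3 h5, fun h => h x (htr a ha x h4) h4 h5⟩

end

end CF2P

open CF2P in
theorem cf2 : S_CF2 := by
  intro M _ le PS G C X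
  refine ⟨?_, fun a ha b hb => ?_, fun a ha => ?_, ?_, fun a ha => power X C ha,
    separation X C, replacement X C, fun a ha => ?_⟩
  · rintro _ ⟨t, ht, rfl⟩ y hy
    obtain ⟨s, p, -, h, rfl⟩ := mem_val.1 hy
    exact ⟨s, fst_mem (tr ht h), rfl⟩
  · obtain ⟨c, h1, h2, h3⟩ := (X.un a).1 ha
    obtain ⟨d, h4, h5, h6, h7⟩ := above X h1 h2 hb
    exact up X h4 h5 ((X.cx d h4 h5).model.pairing a (X.mono d h4 h5 c h2 h6 h3) b h7)
  · obtain ⟨c, h1, h2, h3⟩ := (X.un a).1 ha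
    exact up X h1 h2 ((X.cx c h1 h2).model.union a h3)
  · exact up X empty_mem isOrdinal_empty (X.cx ∅ empty_mem isOrdinal_empty).model.infinity
  · obtain ⟨c, h1, h2, h3⟩ := (X.un a).1 ha
    obtain ⟨f, h4, h5⟩ := (X.cx c h1 h2).model.choice a h3
    exact ⟨f, up X h1 h2 h4, h5⟩

end Pool.Agent.P.MP_0b3dfe_lc.Q2
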