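import Pool.Agent.P.MP_0b3dfe_lc.Q2.St0

/-! Codes of formulas and the truth predicate of set structures. -/

set_option linter.unusedSectionVars false
set_option synthInstance.maxSize 100000

namespace Pool.Agent.P.MP_0b3dfe_lc.Q2

open ZFSet Pool.Agent.P.MP_3ab3de_lc Pool.Agent.P.MP_9a7e1f_lc ForceP

namespace CdP

/-- codes of compound formulas -/
def NA (c : ZF) : Prop := (∃ a b, c = pair (num 3) (pair a b)) ∨ ∃ a, c = pair (num 4) a

/-- truth of atomic codes -/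
def AtT (c f : ZF) : Prop := ∃ i ∈ om, ∃ j ∈ om,
  (c = pair (num 0) (pair i j) ∧ app f i ∈ app f j) ∨
    (c = pair (num 1) (pair i j) ∧ app f i = app f j)

/-- children of the label with sign `p`, code `c` and assignment `f` -/
def Ch0 (X : Set ZF) (p c f l' : ZF) : Prop :=
  (¬ NA c ∧ l' = ∅ ∧ (p = ∅ ↔ ¬ AtT c f)) ∨
  (∃ a b, c = pair (num 3) (pair a b) ∧ ((p = ∅ ∧ l' = pair (num 1) (pair c f)) ∨
    (p ≠ ∅ ∧ (l' = pair (num 1) (pair a f) ∨ l' = pair ∅ (pair b f))))) ∨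
  (∃ a, c = pair (num 4) a ∧ ((p = ∅ ∧ ∃ x ∈ X, l' = pair (num 1) (pair a (cn x f))) ∨
    (p ≠ ∅ ∧ l' = pair ∅ (pair c f))))

/-- children of a label -/
def Ch (X : Set ZF) (l l' : ZF) : Prop := ∃ p c f, l = pair p (pair c f) ∧ Ch0 X p c f l'

theorem ch_pair {X : Set ZF} {p c f l' : ZF} : Ch X (pair p (pair c f)) l' ↔ Ch0 X p c f l' := by
  constructor
  · rintro ⟨p', c', f', e, h⟩
    simp only [pair_inj] at e
    obtain ⟨rfl, rfl, rfl⟩ := e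
    exact h
  · exact fun h => ⟨p, c, f, rfl, h⟩

theorem empty_ne_pair (a b : ZF) : (∅ : ZF) ≠ pair a b := fun e =>
  notMem_empty ({a} : ZF) (by rw [e]; simp [pair])

theorem one_ne : num 1 ≠ (∅ : ZF) := fun e => absurd (num_inj (n := 0).1 e) (by omega)

theorem tru_empty (X : Set ZF) : ∀ k, tru (Ch X) k ∅
  | 0 => trivial
  | 1 => trivial
  | _ + 2 => fun ⟨_, ⟨_, _, _, e, _⟩, _⟩ => empty_ne_pair _ _ e

theorem ch_at {X : Set ZF} {p c f l' : ZF} (h : ¬ NA c) :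
    Ch X (pair p (pair c f)) l' ↔ l' = ∅ ∧ (p = ∅ ↔ ¬ AtT c f) := by
  rw [ch_pair]
  constructor
  · rintro (h1 | ⟨a, b, e, -⟩ | ⟨a, e, -⟩)
    exacts [h1.2, absurd (Or.inl ⟨a, b, e⟩) h, absurd (Or.inr ⟨a, e⟩) h]
  · exact fun h1 => Or.inl ⟨h, h1⟩

theorem ch_imp {X : Set ZF} {p a b f l' : ZF} :
    Ch X (pair p (pair (pair (num 3) (pair a b)) f)) l' ↔
      (p = ∅ ∧ l' = pair (num 1) (pair (pair (num 3) (pair a b)) f)) ∨
        (p ≠ ∅ ∧ (l' = pair (num 1) (pair a f) ∨ l' = pair ∅ (pair b f))) := by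
  rw [ch_pair]
  constructor
  · rintro (h1 | ⟨a', b', e, h1⟩ | ⟨a', e, -⟩)
    · exact absurd (Or.inl ⟨a, b, rfl⟩) h1.1
    · simp only [pair_inj, true_and] at e
      obtain ⟨rfl, rfl⟩ := e
      exact h1
    · exact absurd (num_inj.1 (pair_inj.1 e).1) (by omega)
  · exact fun h1 => Or.inr (Or.inl ⟨a, b, rfl, h1⟩)

theorem ch_all {X : Set ZF} {p a f l' : ZF} :
    Ch X (pair p (pair (pair (num 4) a) f)) l' ↔
      (p = ∅ ∧ ∃ x ∈ X, l' = pair (num 1) (pair a (cn x f))) ∨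
        (p ≠ ∅ ∧ l' = pair ∅ (pair (pair (num 4) a) f)) := by
  rw [ch_pair]
  constructor
  · rintro (h1 | ⟨a', b', e, -⟩ | ⟨a', e, h1⟩)
    · exact absurd (Or.inr ⟨a, rfl⟩) h1.1
    · exact absurd (num_inj.1 (pair_inj.1 e).1) (by omega)
    · obtain rfl := (pair_inj.1 e).2
      exact h1
  · exact fun h1 => Or.inr (Or.inr ⟨a, rfl, h1⟩)

theorem tru_two {C : ZF → ZF → Prop} {k : ℕ} {l : ZF} :
    tru C (k + 2) l ↔ ¬ ∃ l', C l l' ∧ tru C k l' := Iff.rfl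

/-- `c` is a code of `φ` -/
def Good (φ : Fml) (c : ZF) : Prop := ∃ d : ℕ, ∀ (X : Set ZF) (f : ZF) (k : ℕ), d ≤ k →
  (tru (Ch X) k (pair ∅ (pair c f)) ↔ Sat X φ (ev f)) ∧
    (tru (Ch X) k (pair (num 1) (pair c f)) ↔ ¬ Sat X φ (ev f))

theorem good_at {φ : Fml} {c : ZF} (h : ¬ NA c) (e : ∀ X f, AtT c f ↔ Sat X φ (ev f)) :
    Good φ c := by
  refine ⟨2, fun X f k hk => ?_⟩
  obtain ⟨k, rfl⟩ := Nat.exists_eq_add_of_le' hk
  simp only [tru_two, ch_at h, ← e X f, one_ne]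
  have := tru_empty X k
  constructor
  · exact ⟨fun h1 => by_contra fun h2 => h1 ⟨∅, ⟨rfl, by simpa using h2⟩, this⟩,
      fun h1 ⟨_, ⟨_, h2⟩, _⟩ => h2.1 trivial h1⟩
  · exact ⟨fun h1 h2 => h1 ⟨∅, ⟨rfl, by simpa using h2⟩, this⟩,
      fun h1 ⟨_, ⟨_, h2⟩, _⟩ => h2.2 h1⟩

theorem good_imp {φ ψ : Fml} {a b : ZF} (h1 : Good φ a) (h2 : Good ψ b) :
    Good (.imp φ ψ) (pair (num 3) (pair a b)) := by
  obtain ⟨d1, h1⟩ := h1
  obtain ⟨d2, h2⟩ := h2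
  have key : ∀ (X : Set ZF) (f : ZF) (k : ℕ), d1 + d2 ≤ k →
      (tru (Ch X) (k + 2) (pair (num 1) (pair (pair (num 3) (pair a b)) f)) ↔
        ¬ Sat X (.imp φ ψ) (ev f)) := fun X f k hk => by
    have e1 := (h1 X f k (by omega)).2
    have e2 := (h2 X f k (by omega)).1
    rw [tru_two, sat_imp]
    refine not_congr ⟨?_, fun h => ?_⟩
    · rintro ⟨l', h, h'⟩
      rcases ch_imp.1 h with ⟨h, -⟩ | ⟨-, rfl | rfl⟩
      exacts [absurd h one_ne, fun h3 => absurd h3 (e1.1 h'), fun _ => e2.1 h']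
    · by_cases h3 : Sat X φ (ev f)
      · exact ⟨_, ch_imp.2 (Or.inr ⟨one_ne, Or.inr rfl⟩), e2.2 (h h3)⟩
      · exact ⟨_, ch_imp.2 (Or.inr ⟨one_ne, Or.inl rfl⟩), e1.2 h3⟩
  refine ⟨d1 + d2 + 4, fun X f k hk => ?_⟩
  obtain ⟨k, rfl⟩ : ∃ j, k = j + 2 + 2 := ⟨k - 4, by omega⟩
  refine ⟨?_, key X f (k + 2) (by omega)⟩
  have e := key X f k (by omega)
  rw [tru_two]
  constructor
  · exact fun h => by_contra fun h3 => h ⟨_, ch_imp.2 (Or.inl ⟨rfl, rfl⟩), e.2 h3⟩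
  · rintro h ⟨l', h3, h'⟩
    rcases ch_imp.1 h3 with ⟨-, rfl⟩ | ⟨h4, -⟩
    exacts [e.1 h' h, h4 rfl]

theorem good_all {φ : Fml} {a : ZF} (h1 : Good φ a) : Good (.all φ) (pair (num 4) a) := by
  obtain ⟨d, h1⟩ := h1
  have key : ∀ (X : Set ZF) (f : ZF) (k : ℕ), d ≤ k →
      (tru (Ch X) (k + 2) (pair ∅ (pair (pair (num 4) a) f)) ↔ Sat X (.all φ) (ev f)) :=
    fun X f k hk => by
      have e1 := fun x => (h1 X (cn x f) k hk).2
      simp only [ev_cn] at e1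
      rw [tru_two, sat_all]
      constructor
      · exact fun h x hx => by_contra fun h3 =>
          h ⟨_, ch_all.2 (Or.inl ⟨rfl, x, hx, rfl⟩), (e1 x).2 h3⟩
      · rintro h ⟨l', h3, h'⟩
        rcases ch_all.1 h3 with ⟨-, x, hx, rfl⟩ | ⟨h4, -⟩
        exacts [(e1 x).1 h' (h x hx), h4 rfl]
  refine ⟨d + 4, fun X f k hk => ?_⟩
  obtain ⟨k, rfl⟩ : ∃ j, k = j + 2 + 2 := ⟨k - 4, by omega⟩
  refine ⟨key X f (k + 2) (by omega), ?_⟩
  have e := key X f k (by omega)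
  rw [tru_two]
  refine not_congr ⟨?_, fun h => ⟨_, ch_all.2 (Or.inr ⟨one_ne, rfl⟩), e.2 h⟩⟩
  rintro ⟨l', h3, h'⟩
  rcases ch_all.1 h3 with ⟨h4, -⟩ | ⟨-, rfl⟩
  exacts [absurd h4 one_ne, e.1 h']

theorem not_na {n : ℕ} (hn : n < 3) (x : ZF) : ¬ NA (pair (num n) x) := by
  rintro (⟨a, b, e⟩ | ⟨a, e⟩) <;> exact absurd (num_inj.1 (pair_inj.1 e).1) (by omega)

theorem good_mem (i j : ℕ) : Good (.mem i j) (pair (num 0) (pair (num i) (num j))) := by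
  refine good_at (not_na (by omega) _) fun X f => ⟨?_, fun h =>
    ⟨_, num_mem_omega i, _, num_mem_omega j, Or.inl ⟨rfl, h⟩⟩⟩
  rintro ⟨i', -, j', -, ⟨e, h⟩ | ⟨e, -⟩⟩
  · simp only [pair_inj, true_and] at e
    obtain ⟨rfl, rfl⟩ := e
    exact h
  · exact absurd (num_inj.1 (pair_inj.1 e).1) (by omega)

theorem good_eq (i j : ℕ) : Good (.eq i j) (pair (num 1) (pair (num i) (num j))) := by
  refine good_at (not_na (by omega) _) fun X f => ⟨?_, fun h =>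
    ⟨_, num_mem_omega i, _, num_mem_omega j, Or.inr ⟨rfl, h⟩⟩⟩
  rintro ⟨i', -, j', -, ⟨e, -⟩ | ⟨e, h⟩⟩
  · exact absurd (num_inj.1 (pair_inj.1 e).1) (by omega)
  · simp only [pair_inj, true_and] at e
    obtain ⟨rfl, rfl⟩ := e
    exact h

theorem exists_code (φ : Fml) : ∃ c, HF c ∧ Good φ c := by
  induction φ with
  | mem i j => exact ⟨_, fun u h => h.pair (h.num 0) (h.pair (h.num i) (h.num j)), good_mem i j⟩
  | eq i j => exact ⟨_, fun u h => h.pair (h.num 1) (h.pair (h.num i) (h.num j)), good_eq i j⟩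
  | bot =>
    refine ⟨∅, fun u h => h.1, good_at ?_ fun X f => iff_of_false ?_ id⟩
    · rintro (⟨a, b, e⟩ | ⟨a, e⟩) <;> exact empty_ne_pair _ _ e
    · rintro ⟨i, -, j, -, ⟨e, -⟩ | ⟨e, -⟩⟩ <;> exact empty_ne_pair _ _ e
  | imp φ ψ h1 h2 =>
    obtain ⟨a, ha, h1⟩ := h1
    obtain ⟨b, hb, h2⟩ := h2
    exact ⟨_, fun u h => h.pair (h.num 3) (h.pair (ha u h) (hb u h)), good_imp h1 h2⟩
  | all φ ih =>
    obtain ⟨a, ha, h1⟩ := ih
    exact ⟨_, fun u h => h.pair (h.num 4) (ha u h), good_all h1⟩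

theorem rk_l (a b : ZF) : rank a < rank (pair a b) :=
  (rank_lt_of_mem (show a ∈ ({a} : ZF) by simp)).trans
    (rank_lt_of_mem (show ({a} : ZF) ∈ pair a b by simp [pair]))

theorem rk_r (a b : ZF) : rank b < rank (pair a b) :=
  (rank_lt_of_mem (show b ∈ ({a, b} : ZF) by simp)).trans
    (rank_lt_of_mem (show ({a, b} : ZF) ∈ pair a b by simp [pair]))

theorem exists_fml (c : ZF) : ∃ φ, Good φ c := by
  induction c using wf_rank.induction with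
  | _ c ih =>
    by_cases h : NA c
    · rcases h with ⟨a, b, rfl⟩ | ⟨a, rfl⟩
      · obtain ⟨φ, h1⟩ := ih a ((rk_l a b).trans (rk_r _ _))
        obtain ⟨ψ, h2⟩ := ih b ((rk_r a b).trans (rk_r _ _))
        exact ⟨_, good_imp h1 h2⟩
      · obtain ⟨φ, h1⟩ := ih a (rk_r _ _)
        exact ⟨_, good_all h1⟩
    · by_cases h1 : ∃ f, AtT c f
      · obtain ⟨f, i, hi, j, hj, h1⟩ := h1
        obtain ⟨i, rfl⟩ := mem_omega.1 hi
        obtain ⟨j, rfl⟩ := mem_omega.1 hj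
        rcases h1 with ⟨rfl, -⟩ | ⟨rfl, -⟩
        exacts [⟨_, good_mem i j⟩, ⟨_, good_eq i j⟩]
      · exact ⟨.bot, good_at h fun X f => iff_of_false (fun h2 => h1 ⟨f, h2⟩) id⟩

section df

variable {M : Set ZF} [hM : TModel M]

instance df_na {a : Env → ZF} [Tm M a] : Df M (fun v => NA (a v)) :=
  Df.one (P := NA) (by unfold NA; infer_instance) a

instance df_atT {a b : Env → ZF} [Tm M a] [Tm M b] : Df M (fun v => AtT (a v) (b v)) :=
  Df.two (R := AtT) (by unfold AtT; infer_instance) a b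

theorem df_chM : Df M (fun v => Ch M (v 0) (v 1)) := by
  unfold Ch Ch0; infer_instance

instance df_chS {s a b : Env → ZF} [Tm M s] [Tm M a] [Tm M b] :
    Df M (fun v => Ch (s v : Set ZF) (a v) (b v)) :=
  Df.three (R := fun s l l' => Ch (s : Set ZF) l l') (by
    unfold Ch Ch0
    simp only [SetLike.mem_coe]
    infer_instance) s a b

theorem ch_mem {l l' : ZF} (hl : l ∈ M) (h : Ch M l l') : l' ∈ M := by
  obtain ⟨p, c, f, rfl, h⟩ := h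
  have hc := fst_mem (snd_mem hl)
  have := In.mk' hc
  have := In.mk' (snd_mem (snd_mem hl))
  rcases h with ⟨-, rfl, -⟩ | ⟨a, b, e, h⟩ | ⟨a, e, h⟩
  · exact empty_mem
  · have := In.mk' (fst_mem (snd_mem (e ▸ hc)))
    have := In.mk' (snd_mem (snd_mem (e ▸ hc)))
    rcases h with ⟨-, rfl⟩ | ⟨-, rfl | rfl⟩ <;> exact In.mem _
  · have := In.mk' (snd_mem (e ▸ hc))
    rcases h with ⟨-, x, hx, rfl⟩ | ⟨-, rfl⟩
    · have := In.mk' hx
      exact In.mem _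
    · exact In.mem _

end df

/-- truth of a code in a set structure -/
def Tr (S c f : ZF) : Prop := ∃ k, ∀ k', k ≤ k' → tru (Ch (S : Set ZF)) k' (pair ∅ (pair c f))

theorem Good.tr {φ : Fml} {c : ZF} (h : Good φ c) (S f : ZF) :
    Tr S c f ↔ Sat (S : Set ZF) φ (ev f) := by
  obtain ⟨d, h⟩ := h
  exact ⟨fun ⟨k, h1⟩ => (h S f (k + d) (by omega)).1.1 (h1 _ (by omega)),
    fun h1 => ⟨d, fun k hk => (h S f k hk).1.2 h1⟩⟩

/-- `U` lists the truth values on the closed set of labels `B` -/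
def Tb (S B U : ZF) : Prop :=
  ∀ n ∈ om, ∀ l ∈ B, (l ∈ app U n ↔ n ∈ num 2 ∨
    ¬ ∃ l' ∈ B, Ch (S : Set ZF) l l' ∧ l' ∈ app U (ZFSet.sUnion (ZFSet.sUnion n)))

theorem Tb.sound {S B U : ZF} (hB : ∀ l ∈ B, ∀ l', Ch (S : Set ZF) l l' → l' ∈ B) (h : Tb S B U) :
    ∀ k, ∀ l ∈ B, (l ∈ app U (num k) ↔ tru (Ch (S : Set ZF)) k l)
  | 0, l, hl => iff_of_true ((h _ (num_mem_omega 0) l hl).2 (Or.inl (num_mem_num.2 (by omega))))
      trivial
  | 1, l, hl => iff_of_true ((h _ (num_mem_omega 1) l hl).2 (Or.inl (num_mem_num.2 (by omega))))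
      trivial
  | k + 2, l, hl => by
    rw [h _ (num_mem_omega _) l hl, DefP.sUnion_succ, DefP.sUnion_succ, tru_two,
      or_iff_right (fun e => absurd (num_mem_num.1 e) (by omega))]
    exact not_congr ⟨fun ⟨l', h1, h2, h3⟩ => ⟨l', h2, (Tb.sound hB h k l' h1).1 h3⟩,
      fun ⟨l', h2, h3⟩ => ⟨l', hB l hl l' h2, h2, (Tb.sound hB h k l' (hB l hl l' h2)).2 h3⟩⟩

variable {M : Set ZF} [hM : TModel M]

theorem exists_tb {S B : ZF} (hS : S ∈ M) (hB : B ∈ M) : ∃ U ∈ M, Tb S B U := by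
  have := In.mk' hS
  have := In.mk' hB
  let F := rc fun n g => ZFSet.sep (fun l => n ∈ num 2 ∨ ¬ ∃ l' ∈ B, Ch (S : Set ZF) l l' ∧
    l' ∈ app g (ZFSet.sUnion (ZFSet.sUnion n))) B
  have hF : Tm M (fun v => F (v 0)) := tm_rc inferInstance
  have := fun s [Tm M s] => hF.one s
  refine ⟨graph F om, In.mem _, fun n hn l hl => ?_⟩
  have e : F n = ZFSet.sep (fun l => n ∈ num 2 ∨ ¬ ∃ l' ∈ B, Ch (S : Set ZF) l l' ∧
    l' ∈ app (graph F n) (ZFSet.sUnion (ZFSet.sUnion n))) B := rc_eq _ n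
  rw [app_graph hn, e, mem_sep, and_iff_right hl]
  obtain ⟨k, rfl⟩ := mem_omega.1 hn
  rcases k with _ | _ | k
  · exact iff_of_true (Or.inl (num_mem_num.2 (by omega))) (Or.inl (num_mem_num.2 (by omega)))
  · exact iff_of_true (Or.inl (num_mem_num.2 (by omega))) (Or.inl (num_mem_num.2 (by omega)))
  · rw [DefP.sUnion_succ, DefP.sUnion_succ, app_graph (num_mem_omega k),
      app_graph (num_mem_num.2 (by omega))]

theorem exists_lab {S c f : ZF} (hS : S ∈ M) (hc : c ∈ M) (hf : f ∈ M) :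
    ∃ B ∈ M, pair ∅ (pair c f) ∈ B ∧ ∀ l ∈ B, ∀ l', Ch (S : Set ZF) l l' → l' ∈ B := by
  have := In.mk' hS
  have := In.mk' hc
  have := In.mk' hf
  let Y := S ∪ img (app f) om
  have hY : In M Y := inferInstance
  let E := ZFSet.sep (fun g => ∀ n ∈ om, app g n ∈ Y) (insert f (pw M (prod om Y)))
  have hE : In M E := inferInstance
  let D := VM M (insert (rk c) (rk c))
  have hD : In M D := inferInstance
  have hcn : ∀ x ∈ S, ∀ g ∈ E, cn x g ∈ E := fun x hx g hg => by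
    have := In.mk' (tr hS hx)
    have := In.mk' (tr (In.mem (M := M) E) hg)
    have h1 : IsFunc om Y (cn x g) := graph_isFunc fun n hn => by
      obtain ⟨k, rfl⟩ := mem_omega.1 hn
      split_ifs with e
      · exact mem_union.2 (Or.inl hx)
      · cases k with
        | zero => exact absurd rfl e
        | succ k => rw [DefP.sUnion_succ]; exact (mem_sep.1 hg).2 _ (num_mem_omega k)
    exact mem_sep.2 ⟨mem_insert_of_mem _ (mem_pw.2 ⟨h1.1, In.mem _⟩), fun n hn => h1.app_mem' hn⟩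
  have hl : ∀ a b, pair a b ∈ D → a ∈ D := fun a b h =>
    mem_VM.2 ⟨(rk_l a b).trans (mem_VM.1 h).1, fst_mem (mem_VM.1 h).2⟩
  have hr : ∀ a b, pair a b ∈ D → b ∈ D := fun a b h =>
    mem_VM.2 ⟨(rk_r a b).trans (mem_VM.1 h).1, snd_mem (mem_VM.1 h).2⟩
  have h0 : (∅ : ZF) ∈ num 2 := num_mem_num (m := 0).2 (by omega)
  have h1 : num 1 ∈ num 2 := num_mem_num.2 (by omega)
  have k : ∀ p ∈ num 2, ∀ a ∈ D, ∀ g ∈ E,
      pair p (pair a g) ∈ insert ∅ (prod (num 2) (prod D E)) := fun p hp a ha g hg =>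
    mem_insert_of_mem _ (pair_mem_prod.2 ⟨hp, pair_mem_prod.2 ⟨ha, hg⟩⟩)
  refine ⟨insert ∅ (prod (num 2) (prod D E)), In.mem _, k _ h0 _ (mem_VM.2 ⟨by simp, hc⟩) _
    (mem_sep.2 ⟨mem_insert _ _, fun n hn => mem_union.2 (Or.inr (img_mem hn))⟩), ?_⟩
  rintro _ hm l' ⟨p, a, g, rfl, h⟩
  obtain ⟨ha, hg⟩ := pair_mem_prod.1 (pair_mem_prod.1
    ((mem_insert_iff.1 hm).resolve_left (empty_ne_pair _ _).symm)).2
  rcases h with ⟨-, rfl, -⟩ | ⟨a1, a2, e, h⟩ | ⟨a1, e, h⟩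
  · exact mem_insert _ _
  · have h2 := hr _ _ (e ▸ ha)
    rcases h with ⟨-, rfl⟩ | ⟨-, rfl | rfl⟩
    exacts [k _ h1 _ ha _ hg, k _ h1 _ (hl _ _ h2) _ hg, k _ h0 _ (hr _ _ h2) _ hg]
  · rcases h with ⟨-, x, hx, rfl⟩ | ⟨-, rfl⟩
    exacts [k _ h1 _ (hr _ _ (e ▸ ha)) _ (hcn x hx g hg), k _ h0 _ ha _ hg]

theorem df_tr : Df M (fun v => Tr (v 0) (v 1) (v 2)) := by
  have h : Df M (fun v => ∃ B ∈ M, ∃ U ∈ M, pair ∅ (pair (v 1) (v 2)) ∈ B ∧
      (∀ l ∈ B, ∀ l' ∈ M, Ch (v 0 : Set ZF) l l' → l' ∈ B) ∧ Tb (v 0) B U ∧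
      ∃ k ∈ om, ∀ k' ∈ om, k' ∉ k → pair ∅ (pair (v 1) (v 2)) ∈ app U k') := by
    unfold Tb; infer_instance
  refine h.congr fun v hv => ⟨fun ⟨k, h1⟩ => ?_, ?_⟩
  · obtain ⟨B, hB, h2, h3⟩ := exists_lab (hv 0) (hv 1) (hv 2)
    obtain ⟨U, hU, h4⟩ := exists_tb (hv 0) hB
    refine ⟨B, hB, U, hU, h2, fun l hl l' _ => h3 l hl l', h4, _, num_mem_omega k,
      fun k' hk h5 => ?_⟩
    obtain ⟨j, rfl⟩ := mem_omega.1 hk
    exact (h4.sound h3 j _ h2).2 (h1 j (not_lt.1 fun h6 => h5 (num_mem_num.2 h6)))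
  · rintro ⟨B, hB, U, -, h2, h3, h4, k, hk, h5⟩
    obtain ⟨k, rfl⟩ := mem_omega.1 hk
    have h6 : ∀ l ∈ B, ∀ l', Ch (v 0 : Set ZF) l l' → l' ∈ B := fun l hl l' h =>
      h3 l hl l' (ch_mem (tr hB hl) (by
        obtain ⟨p, c, f, e, h⟩ := h
        refine ⟨p, c, f, e, h.imp_right (Or.imp_right ?_)⟩
        rintro ⟨a, e, h⟩
        exact ⟨a, e, h.imp_left fun ⟨h7, x, hx, h8⟩ => ⟨h7, x, tr (hv 0) hx, h8⟩⟩)) h
    exact ⟨k, fun j hj => (h4.sound h6 j _ h2).1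
      (h5 _ (num_mem_omega j) fun h7 => absurd (num_mem_num.1 h7) (by omega))⟩

end CdP

open CdP in
theorem cd : S_Cd :=
  ⟨Ch, fun _ _ => ⟨df_chM, fun _ hl _ h => ch_mem hl h⟩, fun φ => by
    obtain ⟨c, h1, d, h2⟩ := exists_code φ
    exact ⟨c, h1, d, fun X f k hk => (h2 X f k hk).1⟩⟩

open CdP in
theorem trx : S_Tr :=
  ⟨Tr, fun _ _ => df_tr, fun φ => (exists_code φ).imp fun _ h => ⟨h.1, h.2.tr⟩,
    fun c => (exists_fml c).imp fun _ h => h.tr⟩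

end Pool.Agent.P.MP_0b3dfe_lc.Q2
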