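import Pool.Agent.P.MP_0b3dfe_lc.Q2.St0

/-! Countably closed forcing keeps stationary logic; the hierarchy is local. -/

set_option linter.unusedSectionVars false
set_option synthInstance.maxSize 100000

namespace Pool.Agent.P.MP_0b3dfe_lc.Q2

open ZFSet Pool.Agent.P.MP_3ab3de_lc Pool.Agent.P.MP_9a7e1f_lc ForceP

namespace ClsP

theorem ctb_mono {N N' : Set ZF} (h : N' ⊆ N) {s : ZF} (hs : Ctb N' s) : Ctb N s :=
  ⟨h hs.1, hs.2.imp fun _ hf => ⟨h hf.1, hf.2⟩⟩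

theorem club_congr {N N' X : Set ZF}
    (h1 : ∀ s : ZF, (∀ x ∈ s, x ∈ X) → (Ctb N s ↔ Ctb N' s))
    (h2 : ∀ Y : ZF, (∀ s ∈ Y, Ctb N' s ∧ ∀ x ∈ s, x ∈ X) → (Ctb N Y ↔ Ctb N' Y)) (K : ZF) :
    Club N X K ↔ Club N' X K := by
  constructor
  · rintro ⟨a, b, c⟩
    have a' : ∀ s ∈ K, Ctb N' s ∧ ∀ x ∈ s, x ∈ X := fun s hs =>
      ⟨(h1 s (a s hs).2).1 (a s hs).1, (a s hs).2⟩
    exact ⟨a', fun t ht h => b t ((h1 t h).2 ht) h,
      fun Y hY h => c Y ((h2 Y fun s hs => a' s (h hs)).2 hY) h⟩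
  · rintro ⟨a, b, c⟩
    exact ⟨fun s hs => ⟨(h1 s (a s hs).2).2 (a s hs).1, (a s hs).2⟩,
      fun t ht h => b t ((h1 t h).1 ht) h,
      fun Y hY h => c Y ((h2 Y fun s hs => a s (h hs)).1 hY) h⟩

theorem LA_congr {N N' : Set ZF} (o : Ordinal.{0}) : (∀ a < o, ∀ (φ : AFml) (v : Env),
    (∀ n, v n ∈ LA N' a) → (SatA N (LA N' a) φ v (fun _ => ∅) ↔
      SatA N' (LA N' a) φ v (fun _ => ∅))) → LA N o = LA N' o := by
  induction o using WellFoundedLT.induction with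
  | ind o ih =>
    intro H
    ext x
    rw [mem_LA, mem_LA]
    refine exists_congr fun a => and_congr_right fun ha => ?_
    rw [ih a ha fun b hb => H b (hb.trans ha)]
    refine or_congr_right (exists_congr fun φ => exists_congr fun v => and_congr_right fun hv =>
      forall_congr' fun y => iff_congr Iff.rfl (and_congr_right fun hy => H a ha φ _ fun n => ?_))
    cases n
    exacts [hy, hv _]

theorem rank_sub_prod {a b f : ZF} {α : Ordinal.{0}} (ha : rank a ≤ α) (hb : rank b ≤ α)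
    (h : f ⊆ prod a b) : rank f ≤ α + 1 + 1 := by
  refine rank_le_iff.2 fun z hz => ?_
  obtain ⟨x, hx, y, hy, rfl⟩ := mem_prod.1 (h hz)
  have h1 := (rank_lt_of_mem hx).trans_le ha
  have h2 := (rank_lt_of_mem hy).trans_le hb
  refine Order.lt_add_one_iff.2 (rank_le_iff.2 fun u hu => Order.lt_add_one_iff.2
    (rank_le_iff.2 fun t ht => ?_))
  simp only [pair, mem_insert_iff, mem_singleton] at hu
  rcases hu with rfl | rfl
  · rwa [mem_singleton.1 ht]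
  · rcases mem_pair.1 ht with rfl | rfl
    exacts [h1, h2]

/-- `q` forces `z` into the set named by `A` -/
def dec (L A q z : ZF) : Prop := ∃ p, pair p z ∈ A ∧ pair q p ∈ L

instance df_dec {M : Set ZF} [TModel M] {a b c d : Env → ZF} [Tm M a] [Tm M b] [Tm M c] [Tm M d] :
    Df M (fun v => dec (a v) (b v) (c v) (d v)) := by unfold dec; infer_instance

variable {W : Set ZF} [hW : TModel W] {P L G : ZF}

omit hW in
theorem dec.mono (po : PO P L) {A q r z : ZF} (h : dec L A q z) (hr : pair r q ∈ L) :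
    dec L A r z := h.imp fun _ h => ⟨h.1, po.trans _ _ _ hr h.2⟩

theorem name (C : Cx W P L G) {Y a : ZF} (hY : Y ∈ val G '' W) (ha : a ∈ W) (h : Y ⊆ a) :
    ∃ A ∈ W, (∀ q ∈ G, ∀ z, dec L A q z → z ∈ Y) ∧
      ∀ q ∈ G, ∀ z ∈ Y, ∃ r, pair r q ∈ L ∧ dec L A r z := by
  obtain ⟨s, hs, rfl⟩ := hY
  obtain ⟨A, hA, -, e⟩ := C.cap_ext hs ha h
  refine ⟨A, hA, fun q hq z ⟨p, h1, h2⟩ => (e z).2 ⟨p, C.gen.up q hq p h2, h1⟩,
    fun q hq z hz => ?_⟩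
  obtain ⟨p, hp, h1⟩ := (e z).1 hz
  obtain ⟨r, -, h2, h3⟩ := C.gen.dir q hq p hp
  exact ⟨r, h2, p, h1, h3⟩

theorem dense_all (C : Cx W P L G) (S : SigCl W P L) (E : ZF → ZF → Prop)
    (hE : Df W (fun v => E (v 0) (v 1))) (hd : ∀ n ∈ om, ∀ q ∈ P, ∃ r, pair r q ∈ L ∧ E n r)
    (ho : ∀ n ∈ om, ∀ q r, E n q → pair r q ∈ L → E n r) :
    ∀ p ∈ P, ∃ q, pair q p ∈ L ∧ ∀ n ∈ om, E n q := by
  obtain ⟨D, hD, h1, h2⟩ := S
  have := In.mk' hD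
  have := In.mk' C.hP
  have := In.mk' C.hL
  have h3 : ∀ p ∈ P, ∃ q ∈ D ∩ P, pair q p ∈ L := fun p hp => by
    obtain ⟨q, a, b⟩ := h1 p hp
    exact ⟨q, mem_inter.2 ⟨a, (C.po.mem _ _ b).1⟩, b⟩
  intro p hp
  obtain ⟨p', a, b⟩ := h3 p hp
  obtain ⟨q, -, c, d⟩ := baire (M := W) (fun q p => pair q p ∈ L) inferInstance (In.mem (D ∩ P))
    C.po.trans (fun f hf h => by
      obtain ⟨q, hq⟩ := h2 f hf fun n => ⟨(mem_inter.1 (h n).1).1, (h n).2⟩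
      obtain ⟨r, c, d⟩ := h3 q (C.po.mem _ _ (hq 0)).1
      exact ⟨r, c, fun n => C.po.trans _ _ _ d (hq n)⟩) E hE (Le.refl hW.infinity) a
    (fun q hq => C.po.refl q (mem_inter.1 hq).2) (fun n hn q hq _ => by
      obtain ⟨r, c, d⟩ := hd n hn q (mem_inter.1 hq).2
      obtain ⟨u, e, f⟩ := h3 r (C.po.mem _ _ c).1
      exact ⟨u, e, C.po.trans _ _ _ f c, ho n hn r u d f⟩) ho hW.infinity
  exact ⟨q, C.po.trans _ _ _ c b, d⟩

/-- no new countable sets -/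
theorem no_new (C : Cx W P L G) (S : SigCl W P L) {b f : ZF} (hb : b ∈ W) (hf : f ∈ val G '' W)
    (h : f ⊆ prod b om) (hi : ∀ x y n, pair x n ∈ f → pair y n ∈ f → x = y) : f ∈ W := by
  have := In.mk' hb
  have := In.mk' C.hL
  obtain ⟨A, hA, h1, h2⟩ := name C hf (In.mem _) h
  have := In.mk' hA
  obtain ⟨q, hq, h3⟩ := C.meet_all (fun q => ∀ n ∈ om, (∃ x ∈ b, dec L A q (pair x n)) ∨
      ∀ r, pair r q ∈ L → ∀ x ∈ b, ¬ dec L A r (pair x n)) inferInstance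
    (dense_all C S (fun n q => (∃ x ∈ b, dec L A q (pair x n)) ∨
      ∀ r, pair r q ∈ L → ∀ x ∈ b, ¬ dec L A r (pair x n)) inferInstance (fun n _ q hq => by
        by_cases e : ∃ r, pair r q ∈ L ∧ ∃ x ∈ b, dec L A r (pair x n)
        · obtain ⟨r, e1, e2⟩ := e
          exact ⟨r, e1, Or.inl e2⟩
        · exact ⟨q, C.po.refl q hq, Or.inr fun r e1 x e2 e3 => e ⟨r, e1, x, e2, e3⟩⟩)
      fun n _ q r e hr => e.imp (fun ⟨x, e1, e2⟩ => ⟨x, e1, e2.mono C.po hr⟩)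
        fun e u hu => e u (C.po.trans _ _ _ hu hr))
  have := In.mk' (C.gm hq)
  have e : f = ZFSet.sep (fun z => dec L A q z) (prod b om) := by
    ext z
    rw [mem_sep]
    refine ⟨fun hz => ⟨h hz, ?_⟩, fun hz => h1 q hq z hz.2⟩
    obtain ⟨x, hx, n, hn, rfl⟩ := mem_prod.1 (h hz)
    obtain ⟨r, h4, h5⟩ := h2 q hq _ hz
    obtain ⟨y, -, h6⟩ := (h3 n hn).resolve_right fun e => e r h4 x hx h5
    rwa [hi x y n hz (h1 q hq _ h6)]
  rw [e]; exact In.mem _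

theorem ctb_down (C : Cx W P L G) (S : SigCl W P L) {N : Set ZF} (h2 : N ⊆ val G '' W) {b s : ZF}
    (hb : b ∈ W) (h : s ⊆ b) (hs : Ctb N s) : Ctb W s := by
  obtain ⟨-, f, hf, h3, h4⟩ := hs
  have h5 : f ∈ W := no_new C S hb (h2 hf) (fun z hz => by
    obtain ⟨x, hx, y, hy, rfl⟩ := h3.exists_pair hz
    exact pair_mem_prod.2 ⟨h hx, hy⟩) h4
  have := In.mk' h5
  exact ⟨h3.dom_eq ▸ In.mem (dom f), f, h5, h3, h4⟩

theorem mem_cs' {X s : ZF} : s ∈ cs W X ↔ Ctb W s ∧ ∀ x ∈ s, x ∈ (X : Set ZF) := by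
  rw [mem_cs, AA.ctb_iff]
  exact ⟨fun h => ⟨⟨h.1.2, h.2⟩, fun _ hx => h.1.1 hx⟩,
    fun h => ⟨⟨fun x hx => h.2 x hx, h.1.1⟩, h.1.2⟩⟩

theorem club_iff (C : Cx W P L G) (S : SigCl W P L) {N : Set ZF} (h1 : W ⊆ N)
    (h2 : N ⊆ val G '' W) {X : ZF} (hX : X ∈ W) (K : ZF) :
    Club N (X : Set ZF) K ↔ Club W (X : Set ZF) K := by
  have := In.mk' hX
  exact club_congr (fun s hs => ⟨ctb_down C S h2 hX fun x hx => hs x hx, ctb_mono h1⟩)
    (fun Y hY => ⟨ctb_down C S h2 (In.mem (cs W X)) fun s hs => mem_cs'.2 (hY s hs),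
      ctb_mono h1⟩) K

omit hW in
theorem chain_mono {u : ℕ → ZF} (h : ∀ n, u n ⊆ u (n + 1)) {m n : ℕ} (hmn : m ≤ n) : u m ⊆ u n := by
  induction hmn with
  | refl => exact fun _ h => h
  | step _ ih => exact fun _ hx => h _ (ih hx)

/-- `Z` is closed under the steps labelled by elements of `s` -/
def Cl (f z0 s Z : ZF) : Prop := z0 ∈ Z ∧ ∀ z ∈ Z, ∀ x ∈ s, app f (pair z x) ∈ Z

/-- the least closed family -/
noncomputable def Zm (W : Set ZF) (Q f z0 s : ZF) : ZF :=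
  ZFSet.sep (fun z => ∀ Z ∈ W, Cl f z0 s Z → z ∈ Z) Q

/-- the sets closed under a tree of countable sets form a club -/
theorem club_tree {X Q f z0 : ZF} (hX : X ∈ W) (hQ : Q ∈ W) (hf : f ∈ W) (h0 : z0 ∈ Q)
    (h1 : ∀ z ∈ Q, ∀ x ∈ X, app f (pair z x) ∈ Q) (h2 : ∀ z ∈ Q, snd z ∈ cs W X) :
    ∃ K ∈ W, Club W (X : Set ZF) K ∧ ∀ s ∈ K, ∃ Z ∈ W, Z ⊆ Q ∧ Cl f z0 s Z ∧
      ∀ z ∈ Z, snd z ⊆ s := by
  have := In.mk' hX
  have := In.mk' hQ
  have := In.mk' hf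
  have := In.mk' (tr hQ h0)
  have hZ : Tm W (fun v => Zm W Q f z0 (v 0)) := by unfold Zm Cl; infer_instance
  have := fun s [Tm W s] => hZ.one s
  have cl : ∀ s, s ⊆ X → Cl f z0 s (Zm W Q f z0 s) := fun s hs =>
    ⟨mem_sep.2 ⟨h0, fun _ _ h => h.1⟩, fun z hz x hx => mem_sep.2
      ⟨h1 z (mem_sep.1 hz).1 x (hs hx), fun Z a b => b.2 z ((mem_sep.1 hz).2 Z a b) x hx⟩⟩
  have mo : ∀ s t, s ⊆ t → Zm W Q f z0 s ⊆ Zm W Q f z0 t := fun s t h z hz =>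
    mem_sep.2 ⟨(mem_sep.1 hz).1, fun Z a b => (mem_sep.1 hz).2 Z a
      ⟨b.1, fun z hz x hx => b.2 z hz x (h hx)⟩⟩
  refine ⟨ZFSet.sep (fun s => ∀ z ∈ Zm W Q f z0 s, snd z ⊆ s) (cs W X), In.mem _,
    ⟨fun s hs => mem_cs'.1 (mem_sep.1 hs).1, fun t ht h3 => ?_, fun Y hY h3 h4 h5 => ?_⟩,
    fun s hs => ?_⟩
  · obtain ⟨h4, h5⟩ := AA.ctb_iff.1 ht
    have := In.mk' h4
    obtain ⟨g, hg, g0, g1⟩ := dc (M := W) (fun _ u u' => u ⊆ u' ∧ (∀ z ∈ u ∩ Q, snd z ⊆ u') ∧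
        ∀ z ∈ u ∩ Q, ∀ x ∈ u ∩ X, app f (pair z x) ∈ u') inferInstance
      (In.mem (cs W (X ∪ Q))) (q := insert z0 t) (mem_cs.2 ⟨⟨fun x hx => mem_union.2
        ((mem_insert_iff.1 hx).elim (fun e => Or.inr (e ▸ h0)) fun e => Or.inl (h3 x e)),
        In.mem _⟩, inf_omega.insert (tr hQ h0) h4 h5⟩) fun _ u hu => by
          obtain ⟨⟨a, b⟩, c⟩ := mem_cs.1 hu
          have := In.mk' b
          have c1 : Le W (u ∩ Q) om := c.mono fun x hx => (mem_inter.1 hx).1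
          have c2 : Le W (u ∩ X) om := c.mono fun x hx => (mem_inter.1 hx).1
          refine ⟨u ∪ (bun snd (u ∩ Q) ∪ img (app f) (prod (u ∩ Q) (u ∩ X))),
            mem_cs.2 ⟨⟨fun x hx => ?_, In.mem _⟩, inf_omega.union b (In.mem _) c
              (inf_omega.union (In.mem _) (In.mem _) (inf_omega.bun snd inferInstance (In.mem _) c1
                fun z hz => (mem_cs.1 (h2 z (mem_inter.1 hz).2)).2)
                (inf_omega.img (app f) inferInstance (In.mem _) (inf_omega.prod c1 c2)))⟩,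
            AA.sub_left _ _, fun z hz x hx => AA.sub_right _ _ (AA.sub_left _ _
              (mem_bun.2 ⟨z, hz, hx⟩)), fun z hz x hx => AA.sub_right _ _ (AA.sub_right _ _
              (img_mem (pair_mem_prod.2 ⟨hz, hx⟩)))⟩
          rcases mem_union.1 hx with hx | hx
          · exact a hx
          rcases mem_union.1 hx with hx | hx
          · obtain ⟨z, hz, hx⟩ := mem_bun.1 hx
            exact AA.sub_left _ _ ((mem_cs.1 (h2 z (mem_inter.1 hz).2)).1.1 hx)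
          · obtain ⟨w, hw, rfl⟩ := mem_img.1 hx
            obtain ⟨z, hz, y, hy, rfl⟩ := mem_prod.1 hw
            exact AA.sub_right _ _ (h1 z (mem_inter.1 hz).2 y (mem_inter.1 hy).2)
    have := In.mk' hg
    have m1 : ∀ x, x ∈ bun (app g) om ↔ ∃ n : ℕ, x ∈ app g (num n) := fun x => by
      rw [mem_bun]
      constructor
      · rintro ⟨y, hy, h⟩
        obtain ⟨n, rfl⟩ := mem_omega.1 hy
        exact ⟨n, h⟩
      · exact fun ⟨n, h⟩ => ⟨_, num_mem_omega n, h⟩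
    have m2 : Le W (bun (app g) om) om :=
      inf_omega.bun (app g) inferInstance hW.infinity (Le.refl hW.infinity) fun y hy => by
        obtain ⟨n, rfl⟩ := mem_omega.1 hy
        exact (mem_cs.1 (g1 n).1).2
    have m3 := fun m n (h : m ≤ n) =>
      chain_mono (u := fun n => app g (num n)) (fun n => (g1 n).2.1) h
    refine ⟨bun (app g) om ∩ X, mem_sep.2 ⟨mem_cs.2 ⟨⟨fun x hx => (mem_inter.1 hx).2, In.mem _⟩,
      m2.mono fun x hx => (mem_inter.1 hx).1⟩, fun z hz x hx => ?_⟩, fun x hx => mem_inter.2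
      ⟨(m1 x).2 ⟨0, g0 ▸ mem_insert_of_mem _ hx⟩, h3 x hx⟩⟩
    have h6 := mem_inter.1 ((mem_sep.1 hz).2 (bun (app g) om ∩ Q) (In.mem _)
      ⟨mem_inter.2 ⟨(m1 _).2 ⟨0, g0 ▸ mem_insert _ _⟩, h0⟩, fun z hz x hx => by
        obtain ⟨a, b⟩ := mem_inter.1 hz
        obtain ⟨c, d⟩ := mem_inter.1 hx
        obtain ⟨m, a⟩ := (m1 _).1 a
        obtain ⟨n, c⟩ := (m1 _).1 c
        exact mem_inter.2 ⟨(m1 _).2 ⟨m + n + 1, (g1 (m + n)).2.2.2 z
          (mem_inter.2 ⟨m3 m _ (by omega) a, b⟩) x (mem_inter.2 ⟨m3 n _ (by omega) c, d⟩)⟩,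
          h1 z b x d⟩⟩)
    obtain ⟨n, h7⟩ := (m1 _).1 h6.1
    exact mem_inter.2 ⟨(m1 _).2 ⟨n + 1, (g1 n).2.2.1 z (mem_inter.2 ⟨h7, h6.2⟩) hx⟩,
      (mem_cs.1 (h2 z h6.2)).1.1 hx⟩
  · obtain ⟨h6, h7⟩ := AA.ctb_iff.1 hY
    have := In.mk' h6
    have h8 : ∀ s ∈ Y, s ⊆ X := fun s hs => (mem_cs.1 (mem_sep.1 (h3 hs)).1).1.1
    refine mem_sep.2 ⟨mem_cs.2 ⟨⟨fun x hx => ?_, In.mem _⟩, inf_omega.sUnion h6 h7
      fun s hs => (mem_cs.1 (mem_sep.1 (h3 hs)).1).2⟩, fun z hz x hx => ?_⟩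
    · obtain ⟨s, hs, hx⟩ := mem_sUnion.1 hx
      exact h8 s hs hx
    · obtain ⟨s, hs, h9⟩ := mem_bun.1 ((mem_sep.1 hz).2 (bun (Zm W Q f z0) Y) (In.mem _)
        ⟨h4.elim fun s hs => mem_bun.2 ⟨s, hs, (cl s (h8 s hs)).1⟩, fun z hz x hx => by
          obtain ⟨s, hs, a⟩ := mem_bun.1 hz
          obtain ⟨t, ht, b⟩ := mem_sUnion.1 hx
          rcases h5 s hs t ht with e | e
          exacts [mem_bun.2 ⟨t, ht, (cl t (h8 t ht)).2 z (mo s t e a) x b⟩,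
            mem_bun.2 ⟨s, hs, (cl s (h8 s hs)).2 z a x (e b)⟩]⟩)
      exact mem_sUnion.2 ⟨s, hs, (mem_sep.1 (h3 hs)).2 z h9 hx⟩
  · obtain ⟨h3, h4⟩ := mem_sep.1 hs
    have := In.mk' (mem_cs.1 h3).1.2
    exact ⟨Zm W Q f z0 s, In.mem _, sep_subset, cl s (mem_cs.1 h3).1.1, h4⟩

/-- stationary sets of countable sets are preserved -/
theorem club_down (C : Cx W P L G) (S : SigCl W P L) {X K B : ZF} (hX : X ∈ W) (hB : B ∈ W)
    (hK : K ∈ val G '' W) (hC : Club W (X : Set ZF) K) (h : K ⊆ B) :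
    ∃ K' ∈ W, Club W (X : Set ZF) K' ∧ K' ⊆ B := by
  obtain ⟨D, hD, d1, d2⟩ := S
  have := In.mk' hD
  have := In.mk' hX
  have := In.mk' hB
  have := In.mk' C.hP
  have := In.mk' C.hL
  obtain ⟨A, hA, h1, h2⟩ := name C hK hB h
  have := In.mk' hA
  obtain ⟨p0, hp, h3⟩ := C.meet_or (fun p => ∀ q, pair q p ∈ L →
      (∀ t ∈ cs W X, ∃ r, pair r q ∈ L ∧ ∃ s ∈ cs W X, t ⊆ s ∧ dec L A r s) ∧
      ∀ Y ∈ cs W (cs W X), (∀ s ∈ Y, dec L A q s) → (∃ s, s ∈ Y) →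
        (∀ s ∈ Y, ∀ t ∈ Y, s ⊆ t ∨ t ⊆ s) → ZFSet.sUnion Y ∈ B)
    (fun q => ¬ ((∀ t ∈ cs W X, ∃ r, pair r q ∈ L ∧ ∃ s ∈ cs W X, t ⊆ s ∧ dec L A r s) ∧
      ∀ Y ∈ cs W (cs W X), (∀ s ∈ Y, dec L A q s) → (∃ s, s ∈ Y) →
        (∀ s ∈ Y, ∀ t ∈ Y, s ⊆ t ∨ t ⊆ s) → ZFSet.sUnion Y ∈ B)) inferInstance inferInstance
    (fun p _ hp => by
      by_contra e
      exact hp fun q hq => by_contra fun e' => e ⟨q, hq, e'⟩)
    (fun q hq => not_not.2 ⟨fun t ht => by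
      obtain ⟨s, a, b⟩ := hC.2.1 t (mem_cs'.1 ht).1 (mem_cs'.1 ht).2
      obtain ⟨r, c, d⟩ := h2 q hq s a
      exact ⟨r, c, s, mem_cs'.2 (hC.1 s a), b, d⟩,
      fun Y hY a b c => h (hC.2.2 Y (mem_cs'.1 hY).1 (fun s hs => h1 q hq s (a s hs)) b c)⟩)
  have := In.mk' (C.gm hp)
  have hp0 := C.grefl hp
  obtain ⟨Q, hQ, eQ⟩ : ∃ Q ∈ W, ∀ z, z ∈ Q ↔ z ∈ prod D (cs W X) ∧ pair (fst z) p0 ∈ L ∧
      dec L A (fst z) (snd z) :=
    ⟨ZFSet.sep (fun z => pair (fst z) p0 ∈ L ∧ dec L A (fst z) (snd z)) (prod D (cs W X)),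
      In.mem _, fun _ => mem_sep⟩
  have := In.mk' hQ
  have q1 : ∀ z ∈ Q, fst z ∈ D ∧ snd z ∈ cs W X := fun z hz => by
    obtain ⟨a, ha, b, hb, rfl⟩ := mem_prod.1 ((eQ z).1 hz).1
    simpa using ⟨ha, hb⟩
  have q2 : ∀ q, pair q p0 ∈ L → ∀ t ∈ cs W X, ∃ z ∈ Q, pair (fst z) q ∈ L ∧ t ⊆ snd z :=
    fun q hq t ht => by
      obtain ⟨r, a, s, b, c, d⟩ := (h3 q hq).1 t ht
      obtain ⟨u, e, f⟩ := d1 r (C.po.mem _ _ a).1
      have f' := C.po.trans _ _ _ f a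
      refine ⟨pair u s, (eQ _).2 ⟨pair_mem_prod.2 ⟨e, b⟩, ?_⟩, ?_⟩ <;> rw [fst_pair, snd_pair]
      exacts [⟨C.po.trans _ _ _ f' hq, d.mono C.po f⟩, ⟨f', c⟩]
  obtain ⟨z0, h0, -⟩ := q2 p0 hp0 ∅ (mem_cs.2 ⟨⟨empty_subset _, empty_mem⟩, le_empty _⟩)
  obtain ⟨f, hf, h4⟩ := skolem (M := W) (fun w z => z ∈ Q ∧ pair (fst z) (fst (fst w)) ∈ L ∧
      insert (snd w) (snd (fst w)) ⊆ snd z) inferInstance (In.mem (prod Q X)) fun w hw => by
    obtain ⟨z, hz, x, hx, rfl⟩ := mem_prod.1 hw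
    obtain ⟨⟨a, b⟩, c⟩ := mem_cs.1 (q1 z hz).2
    have := In.mk' b
    have := In.mk' (tr hX hx)
    obtain ⟨z', d, e⟩ := q2 _ ((eQ z).1 hz).2.1 (insert x (snd z)) (mem_cs.2 ⟨⟨fun y hy =>
      (mem_insert_iff.1 hy).elim (fun e => e ▸ hx) fun e => a e, In.mem _⟩,
      inf_omega.insert (tr hX hx) b c⟩)
    rw [fst_pair, snd_pair]
    exact ⟨z', tr hQ d, d, e⟩
  have h5 : ∀ z ∈ Q, ∀ x ∈ X, app f (pair z x) ∈ Q ∧ pair (fst (app f (pair z x))) (fst z) ∈ L ∧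
      insert x (snd z) ⊆ snd (app f (pair z x)) := fun z hz x hx => by
    simpa only [fst_pair, snd_pair] using h4 _ (pair_mem_prod.2 ⟨hz, hx⟩)
  obtain ⟨K', hK', h6, h7⟩ := club_tree hX hQ hf h0 (fun z hz x hx => (h5 z hz x hx).1)
    fun z hz => (q1 z hz).2
  refine ⟨K', hK', h6, fun s hs => ?_⟩
  obtain ⟨Z, hZ, z1, z2, z3⟩ := h7 s hs
  obtain ⟨s1, e, he, s2⟩ := AA.ctb_iff.1 (h6.1 s hs).1
  have := In.mk' s1
  have := In.mk' he
  obtain ⟨g, hg, -, g1⟩ := dc (M := W) (fun n z z' => pair (fst z') (fst z) ∈ L ∧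
      snd z ⊆ snd z' ∧ (app e n ∈ s → app e n ∈ snd z')) inferInstance hZ z2.1 fun n z hz => by
    by_cases a : app e (num n) ∈ s
    · obtain ⟨-, b, c⟩ := h5 z (z1 hz) _ ((h6.1 s hs).2 _ a)
      exact ⟨_, z2.2 z hz _ a, b, fun y hy => c (mem_insert_of_mem _ hy),
        fun _ => c (mem_insert _ _)⟩
    · exact ⟨z, hz, C.po.refl _ (C.po.mem _ _ ((eQ z).1 (z1 hz)).2.1).1, fun _ h => h,
        fun b => absurd b a⟩
  have := In.mk' hg
  obtain ⟨q, hq⟩ := d2 (graph (fun n => fst (app g n)) om) (In.mem _) fun n => by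
    rw [app_graph (num_mem_omega _), app_graph (num_mem_omega _)]
    exact ⟨(q1 _ (z1 (g1 n).1)).1, (g1 n).2.1⟩
  simp only [app_graph (num_mem_omega _)] at hq
  have m1 : ∀ t, t ∈ img (fun n => snd (app g n)) om ↔ ∃ n : ℕ, snd (app g (num n)) = t :=
    fun t => by
      rw [mem_img]
      constructor
      · rintro ⟨y, hy, h⟩
        obtain ⟨n, rfl⟩ := mem_omega.1 hy
        exact ⟨n, h⟩
      · exact fun ⟨n, h⟩ => ⟨_, num_mem_omega n, h⟩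
  have m3 := fun m n (h : m ≤ n) =>
    chain_mono (u := fun n => snd (app g (num n))) (fun n => (g1 n).2.2.1) h
  have h8 := (h3 q (C.po.trans _ _ _ (hq 0) ((eQ _).1 (z1 (g1 0).1)).2.1)).2
    (img (fun n => snd (app g n)) om) (mem_cs.2 ⟨⟨fun t ht => by
      obtain ⟨n, rfl⟩ := (m1 t).1 ht
      exact (q1 _ (z1 (g1 n).1)).2, In.mem _⟩, le_img _ inferInstance hW.infinity⟩)
    (fun t ht => by
      obtain ⟨n, rfl⟩ := (m1 t).1 ht
      exact ((eQ _).1 (z1 (g1 n).1)).2.2.mono C.po (hq n)) ⟨_, (m1 _).2 ⟨0, rfl⟩⟩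
    fun t ht u hu => by
      obtain ⟨m, rfl⟩ := (m1 t).1 ht
      obtain ⟨n, rfl⟩ := (m1 u).1 hu
      exact (le_total m n).imp (m3 m n) (m3 n m)
  convert h8 using 1
  ext x
  rw [mem_sUnion]
  constructor
  · intro hx
    obtain ⟨y, hy, rfl⟩ := s2 x hx
    obtain ⟨n, rfl⟩ := mem_omega.1 hy
    exact ⟨_, (m1 _).2 ⟨n + 1, rfl⟩, (g1 n).2.2.2 hx⟩
  · rintro ⟨t, ht, hx⟩
    obtain ⟨n, rfl⟩ := (m1 t).1 ht
    exact z3 _ (g1 n).1 hx

theorem df_satA {X : ZF} (hX : X ∈ W) (φ : AFml) {v w : Env} (hv : EIn W v) (hw : EIn W w) :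
    Df W (fun u => SatA W (X : Set ZF) φ v (cons (u 0) w)) := by
  refine ((satA_subst (A := W) φ (fun _ _ => X) (fun k _ _ => v k)
    (cns (fun _ u => u 0) fun k _ _ => w k) (UI.mk' hX) (fun k => UI.mk' (hv k))
    fun k => ?_).df (Ov.self W)).congr fun u _ => ?_
  · cases k
    exacts [UT.var 0, UI.mk' (hw _)]
  · have : cons (u 0) w = fun k => cns (fun (_ : Set ZF) (u : Env) => u 0)
        (fun k _ _ => w k) k W u := by
      funext k; cases k <;> rfl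
    rw [this]

theorem sat_iff (C : Cx W P L G) (S : SigCl W P L) {N : Set ZF} (h1 : W ⊆ N)
    (h2 : N ⊆ val G '' W) {X : ZF} (hX : X ∈ W) (φ : AFml) : ∀ v w, EIn W v → EIn W w →
      (SatA N (X : Set ZF) φ v w ↔ SatA W (X : Set ZF) φ v w) := by
  induction φ with
  | mem i j => exact fun _ _ _ _ => Iff.rfl
  | eq i j => exact fun _ _ _ _ => Iff.rfl
  | smem i j => exact fun _ _ _ _ => Iff.rfl
  | bot => exact fun _ _ _ _ => Iff.rfl
  | imp φ ψ a b => exact fun v w hv hw => imp_congr (a v w hv hw) (b v w hv hw)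
  | all φ ih =>
    exact fun v w hv hw => forall_congr' fun x => imp_congr_right fun hx =>
      ih _ w (hv.cons (tr hX hx)) hw
  | aa φ ih =>
    intro v w hv hw
    have := In.mk' hX
    constructor
    · rintro ⟨K, hK, a, b⟩
      rw [club_iff C S h1 h2 hX] at a
      obtain ⟨K', c, d, e⟩ := club_down C S hX
        (sep_mem' (fun s => SatA W (X : Set ZF) φ v (cons s w)) (df_satA hX φ hv hw)
          (In.mem (cs W X))) (h2 hK) a fun s hs => mem_sep.2 ⟨mem_cs'.2 (a.1 s hs),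
            (ih v _ hv (hw.cons (a.1 s hs).1.1)).1 (b s hs)⟩
      exact ⟨K', c, d, fun s hs => (mem_sep.1 (e hs)).2⟩
    · rintro ⟨K, hK, a, b⟩
      exact ⟨K, h1 hK, (club_iff C S h1 h2 hX K).2 a,
        fun s hs => (ih v _ hv (hw.cons (tr hK hs))).2 (b s hs)⟩

end ClsP

open ClsP

theorem cls : S_Cls := by
  intro W _ P L G C S N h1 h2 o ho
  refine LA_congr o fun a ha φ v hv => ?_
  have h3 : a.toZFSet ∈ W := tr ho (Ordinal.toZFSet_mem_toZFSet_iff.2 ha)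
  have h4 : LZ W a.toZFSet ∈ W := hLZ.mem W (Ov.empty W) (fun _ => a.toZFSet) fun _ => h3
  have e := coe_LZ (N := W) a.toZFSet
  rw [Ordinal.rank_toZFSet] at e
  rw [← e] at hv ⊢
  exact sat_iff C S h1 h2 h4 φ v _ (fun n => tr h4 (hv n)) ein0

theorem loc : S_Loc := by
  intro N N' h1 ρ hρ h0 h2 o ho
  refine LA_congr o fun a ha φ v hv => ?_
  have ha' : a < ρ := ha.trans ho
  have c : ∀ s : ZF, rank s < ρ → (Ctb N s ↔ Ctb N' s) := fun s hs =>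
    ⟨fun ⟨b, f, hf, d⟩ => ⟨h2 s b hs, f, h2 f hf ((rank_sub_prod (le_max_left _ Ordinal.omega0)
      (by rw [omega_eq, Ordinal.rank_toZFSet]; exact le_max_right _ _) d.1.1).trans_lt
        (hρ.add_one_lt (hρ.add_one_lt (max_lt hs h0)))), d⟩, ctb_mono h1⟩
  have r1 : ∀ s : ZF, (∀ x ∈ s, x ∈ LA N' a) → rank s ≤ a := fun s hs =>
    rank_le_iff.2 fun x hx => rank_LA a x (hs x hx)
  have r2 : ∀ Y : ZF, (∀ s ∈ Y, ∀ x ∈ s, x ∈ LA N' a) → rank Y < ρ := fun Y hY =>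
    (rank_le_iff.2 fun s hs => Order.lt_add_one_iff.2 (r1 s (hY s hs))).trans_lt
      (hρ.add_one_lt ha')
  have k := club_congr (N := N) (N' := N') (X := LA N' a)
    (fun s hs => c s ((r1 s hs).trans_lt ha')) fun Y hY => c Y (r2 Y fun s hs => (hY s hs).2)
  clear hv
  generalize (fun _ => ∅ : Env) = w
  induction φ generalizing v w with
  | mem i j => exact Iff.rfl
  | eq i j => exact Iff.rfl
  | smem i j => exact Iff.rfl
  | bot => exact Iff.rfl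
  | imp φ ψ a b => exact imp_congr (a v w) (b v w)
  | all φ ih => exact forall_congr' fun x => imp_congr_right fun _ => ih _ w
  | aa φ ih =>
    constructor
    · rintro ⟨K, hK, b, d⟩
      exact ⟨K, h2 K hK (r2 K fun s hs => (b.1 s hs).2), (k K).1 b,
        fun s hs => (ih v _).1 (d s hs)⟩
    · rintro ⟨K, hK, b, d⟩
      exact ⟨K, h1 hK, (k K).2 b, fun s hs => (ih v _).2 (d s hs)⟩

end Pool.Agent.P.MP_0b3dfe_lc.Q2
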