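import Pool.Agent.P.MP_0b3dfe_lc.Q2.St1

/-! Conditions: closed bounded sets that avoid `T`, one for each slot. -/

set_option linter.unusedSectionVars false
set_option synthInstance.maxSize 100000

namespace Pool.Agent.P.MP_0b3dfe_lc.Q2

open ZFSet Pool.Agent.P.MP_3ab3de_lc Pool.Agent.P.MP_9a7e1f_lc ForceP

/-- the data of the construction -/
structure Dat where
  U : ZF
  K : ZF → ZF
  R : ZF → ZF
  T : ZF → Prop
  Par : ZF → Prop
  par : ZF → ZF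
  bit : ZF → ZF

/-- slots -/
def Sl (s : ZF) : Prop := ∃ o, IsOrdinal o ∧ ∃ i ∈ num 2, s = pair o i

/-- `δ` is a limit of points of `p` in the slot `s` -/
def Ac (p s δ : ZF) : Prop := (∃ η, η ∈ δ) ∧ ∀ η ∈ δ, ∃ ξ ∈ δ, η ∈ ξ ∧ pair s ξ ∈ p

/-- conditions -/
def Cnd (D : Dat) (p : ZF) : Prop :=
  (∀ z ∈ p, ∃ s ξ, z = pair s ξ ∧ Sl s ∧ ξ ∈ D.K (fst s) ∧ ¬ D.T ξ) ∧
    ∀ s ∈ dom p, ∀ δ ∈ insert (D.K (fst s)) (D.K (fst s)), Ac p s δ → pair s δ ∈ p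

/-- end extension in the slot `s` -/
def EE (u w s : ZF) : Prop := (∀ ξ, pair s ξ ∈ w → pair s ξ ∈ u) ∧
  ∀ ξ, pair s ξ ∈ u → pair s ξ ∈ w ∨ ∀ η, pair s η ∈ w → η ∈ ξ

/-- end extension in all slots -/
def Ex (u w : ZF) : Prop := ∀ s, EE u w s

/-- equality in the slot `s` -/
def Eqs (u w s : ZF) : Prop := ∀ ξ, pair s ξ ∈ u ↔ pair s ξ ∈ w

/-- `ξ` is skipped in the slot `s` -/
def Excl (p s ξ : ZF) : Prop := pair s ξ ∉ p ∧ ∃ η, pair s η ∈ p ∧ ξ ∈ η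

/-- the slot and its ancestors are in `A`, and `p` does not switch them off -/
inductive Live (D : Dat) (A : ZF → Prop) (p : ZF) : ZF → Prop
  | mk (s : ZF) : A s → (D.Par s → Live D A p (D.par s)) →
      (D.Par s → ¬ Excl p (D.par s) (D.bit s)) → Live D A p s

/-- end extension in the live slots -/
def LeA (D : Dat) (A : ZF → Prop) (u w : ZF) : Prop := ∀ s, Live D A u s → EE u w s

/-- conditions of the ground model -/
def CM (M : Set ZF) (D : Dat) (p : ZF) : Prop := p ∈ M ∧ Cnd D p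

/-- the order of the class forcing -/
def le (M : Set ZF) (D : Dat) (A : ZF → Prop) (u w : ZF) : Prop :=
  CM M D u ∧ CM M D w ∧ LeA D A u w

/-- conditions on the sites in `a` -/
noncomputable def PS (M : Set ZF) (D : Dat) (a : ZF) : ZF := ZFSet.sep (Cnd D) (pw M (Uo D.K a))

/-- conditions on the sites outside `a` -/
def Tail (M : Set ZF) (D : Dat) (a t : ZF) : Prop := CM M D t ∧ ∀ s ξ, pair s ξ ∈ t → fst s ∉ a

/-- distributivity of the tails for definable families of dense classes -/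
def PTD (M : Set ZF) (D : Dat) : Prop := ∀ a ∈ M, IsOrdinal a → ∀ X ∈ M, Le M X (D.R a) →
  ∀ E : ZF → ZF → Prop, Df M (fun v => E (v 0) (v 1)) →
    (∀ x ∈ X, ∀ t, Tail M D a t → ∃ w, Tail M D a w ∧ Ex w t ∧ E x w) →
    ∀ t, Tail M D a t → ∃ q, Tail M D a q ∧ Ex q t ∧ ∀ x ∈ X, ∃ w, Tail M D a w ∧ E x w ∧ Ex q w

class Sy0 (M : Set ZF) (D : Dat) : Prop where
  crd : Crd M D.K D.R
  dT : Df M (fun v => D.T (v 0))
  cof : ∀ ξ, D.T ξ → CofOm M ξ
  stat : ∀ o ∈ M, IsOrdinal o → Stat M (D.K o) D.T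

class Sy (M : Set ZF) (D : Dat) : Prop extends Sy0 M D where
  univ : ∀ x, x ∈ D.U ↔ x ∈ M
  cnt : M.Countable
  vl : VL M
  dPar : Df M (fun v => D.Par (v 0))
  tpar : Tm M (fun v => D.par (v 0))
  tbit : Tm M (fun v => D.bit (v 0))
  ok : ∀ s, D.Par s → Sl (D.par s) ∧ fst (D.par s) ∈ fst s ∧
    D.bit s ∈ D.K (fst (D.par s)) ∧ ¬ D.T (D.bit s)
  ptd : PTD M D

def S_Run : Prop := ∀ (M : Set ZF) [TModel M] (D : Dat) [Sy0 M D], VL M → Avoid M D.T → PTD M D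

/-! ### end extensions -/

section

variable {D : Dat} {A B : ZF → Prop} {p q u w x s ξ δ a : ZF}

theorem sl_pair {o i : ZF} : Sl (pair o i) ↔ IsOrdinal o ∧ i ∈ num 2 :=
  ⟨fun ⟨_, h1, _, h2, e⟩ => ⟨(pair_inj.1 e).1 ▸ h1, (pair_inj.1 e).2 ▸ h2⟩,
    fun h => ⟨o, h.1, i, h.2, rfl⟩⟩

theorem Sl.ord (h : Sl s) : IsOrdinal (fst s) := by
  obtain ⟨o, h1, i, -, rfl⟩ := h
  rwa [fst_pair]

theorem mem_two {i : ZF} : i ∈ num 2 ↔ i = ∅ ∨ i = num 1 := by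
  simp only [num, mem_insert_iff, notMem_empty, or_false]
  exact or_comm

theorem one_ne : num 1 ≠ ∅ := fun h => absurd ((num_inj (m := 1) (n := 0)).1 h) (by omega)

theorem Sl.mem_prod (h : Sl s) (h' : fst s ∈ a) : s ∈ prod a (num 2) := by
  obtain ⟨o, -, i, h2, rfl⟩ := h
  exact pair_mem_prod.2 ⟨by simpa using h', h2⟩

theorem sl_of_prod (ha : IsOrdinal a) (h : s ∈ prod a (num 2)) : Sl s ∧ fst s ∈ a := by
  obtain ⟨o, h1, i, h2, rfl⟩ := mem_prod.1 h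
  exact ⟨⟨o, ha.mem h1, i, h2, rfl⟩, by simpa using h1⟩

theorem EE.refl (u s : ZF) : EE u u s := ⟨fun _ h => h, fun _ h => Or.inl h⟩

theorem EE.trans (h : EE u w s) (h' : EE w x s) : EE u x s :=
  ⟨fun ξ h1 => h.1 ξ (h'.1 ξ h1), fun ξ h1 => (h.2 ξ h1).elim (h'.2 ξ)
    fun h2 => Or.inr fun η h3 => h2 η (h'.1 η h3)⟩

theorem Eqs.refl (u s : ZF) : Eqs u u s := fun _ => Iff.rfl

theorem Eqs.symm (h : Eqs u w s) : Eqs w u s := fun ξ => (h ξ).symm

theorem Eqs.trans (h : Eqs u w s) (h' : Eqs w x s) : Eqs u x s := fun ξ => (h ξ).trans (h' ξ)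

theorem Eqs.ee (h : Eqs u w s) : EE u w s := ⟨fun ξ => (h ξ).2, fun ξ h1 => Or.inl ((h ξ).1 h1)⟩

theorem ee_of_empty (h : ∀ ξ, pair s ξ ∉ w) : EE u w s :=
  ⟨fun ξ h1 => absurd h1 (h ξ), fun _ _ => Or.inr fun η h1 => absurd h1 (h η)⟩

/-- of two initial parts of `x`, the larger one extends the smaller one -/
theorem EE.of_sub (h : EE x u s) (h' : EE x w s) (h1 : ∀ ξ, pair s ξ ∈ w → pair s ξ ∈ u) :
    EE u w s := ⟨h1, fun ξ h2 => h'.2 ξ (h.1 ξ h2)⟩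

theorem EE.total (h : EE x u s) (h' : EE x w s) : EE u w s ∨ EE w u s := by
  by_cases h1 : ∀ ξ, pair s ξ ∈ w → pair s ξ ∈ u
  · exact Or.inl (h.of_sub h' h1)
  · push Not at h1
    obtain ⟨ξ, h1, h2⟩ := h1
    refine Or.inr (h'.of_sub h fun η h3 => (h'.2 η (h.1 η h3)).resolve_right fun h4 => ?_)
    exact mem_asymm (h4 ξ h1) ((h.2 ξ (h'.1 ξ h1)).resolve_left h2 η h3)

/-- points of an end extension below a point of `w` are in `w` -/
theorem EE.below {η : ZF} (h : EE u w s) (h1 : pair s η ∈ w) (h2 : pair s ξ ∈ u) (h3 : ξ ∈ η) :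
    pair s ξ ∈ w := (h.2 ξ h2).resolve_right fun h4 => mem_asymm h3 (h4 η h1)

theorem Excl.mono (h : Excl w s ξ) (h' : EE u w s) : Excl u s ξ := by
  obtain ⟨h1, η, h2, h3⟩ := h
  exact ⟨fun h4 => h1 (h'.below h2 h4 h3), η, h'.1 η h2, h3⟩

theorem Ex.refl (u : ZF) : Ex u u := EE.refl u

theorem Ex.trans (h : Ex u w) (h' : Ex w x) : Ex u x := fun s => (h s).trans (h' s)

theorem live_iff : Live D A p s ↔
    A s ∧ (D.Par s → Live D A p (D.par s) ∧ ¬ Excl p (D.par s) (D.bit s)) :=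
  ⟨fun h => by cases h with | mk _ h1 h2 h3 => exact ⟨h1, fun h => ⟨h2 h, h3 h⟩⟩,
    fun h => .mk s h.1 (fun h' => (h.2 h').1) fun h' => (h.2 h').2⟩

theorem Live.of (h : Live D A p s) (H : ∀ t, Live D A p t → ∀ ξ, Excl q t ξ → Excl p t ξ) :
    Live D A q s := by
  induction h with
  | mk s h1 h2 h3 ih => exact .mk s h1 ih fun h h4 => h3 h (H _ (h2 h) _ h4)

theorem Live.mono (h : Live D A u s) (h' : LeA D A u w) : Live D A w s :=
  h.of fun t ht _ h1 => h1.mono (h' t ht)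

theorem Live.sub (h : Live D A p s) (h' : ∀ t, A t → B t) : Live D B p s := by
  induction h with
  | mk s h1 _ h3 ih => exact .mk s (h' s h1) ih h3

/-- a live slot whose ancestors lie in `B` -/
theorem Live.up (h : Live D A p s) (h' : ∀ t, A t → B t → D.Par t → B (D.par t)) :
    B s → Live D B p s := by
  induction h with
  | mk s h1 _ h3 ih => exact fun h => .mk s h (fun h4 => ih h4 (h' s h1 h h4)) h3

theorem Ex.leA (h : Ex u w) : LeA D A u w := fun s _ => h s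

theorem LeA.refl (u : ZF) : LeA D A u u := (Ex.refl u).leA

theorem LeA.trans (h : LeA D A u w) (h' : LeA D A w x) : LeA D A u x :=
  fun s hs => (h s hs).trans (h' s (hs.mono h))

theorem LeA.sub (h : LeA D A u w) (h' : ∀ t, B t → A t) : LeA D B u w :=
  fun s hs => h s (hs.sub h')

theorem Cnd.pr {z : ZF} (h : Cnd D p) (hz : z ∈ p) : ∃ s ξ, z = pair s ξ :=
  (h.1 z hz).imp fun _ h => h.imp fun _ h => h.1

theorem Cnd.pt (h : Cnd D p) (h1 : pair s ξ ∈ p) : Sl s ∧ ξ ∈ D.K (fst s) ∧ ¬ D.T ξ := by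
  obtain ⟨_, _, e, h2⟩ := h.1 _ h1
  obtain ⟨rfl, rfl⟩ := pair_inj.1 e
  exact h2

theorem Ac.ne (h : Ac p s δ) : ∃ ξ ∈ δ, pair s ξ ∈ p := by
  obtain ⟨⟨η, h1⟩, h2⟩ := h
  exact (h2 η h1).imp fun _ h => ⟨h.1, h.2.2⟩

theorem Ac.mono (h : Ac p s δ) (h' : ∀ ξ ∈ δ, pair s ξ ∈ p → pair s ξ ∈ q) : Ac q s δ :=
  ⟨h.1, fun η h1 => (h.2 η h1).imp fun ξ h2 => ⟨h2.1, h2.2.1, h' ξ h2.1 h2.2.2⟩⟩

theorem cnd_empty : Cnd D ∅ :=
  ⟨fun _ h => absurd h (notMem_empty _), fun _ _ _ _ h => by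
    obtain ⟨_, -, h⟩ := h.ne
    exact absurd h (notMem_empty _)⟩

/-- being a condition is checked slot by slot -/
theorem cnd_of_slots {r : ZF} (h1 : ∀ z ∈ r, ∃ s ξ, z = pair s ξ)
    (h2 : ∀ s, ∃ p, Cnd D p ∧ Eqs r p s) : Cnd D r := by
  refine ⟨fun z hz => ?_, fun s _ δ hδ h => ?_⟩
  · obtain ⟨s, ξ, rfl⟩ := h1 z hz
    obtain ⟨p, h3, h4⟩ := h2 s
    exact ⟨s, ξ, rfl, h3.pt ((h4 ξ).1 hz)⟩
  · obtain ⟨p, h3, h4⟩ := h2 s
    obtain ⟨ξ, -, h5⟩ := h.ne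
    exact (h4 δ).2 (h3.2 s (mem_dom_of ((h4 ξ).1 h5)) δ hδ (h.mono fun ξ _ => (h4 ξ).1))

/-- `p` on the slots in `Z`, and `q` on the others -/
noncomputable def mix (Z : ZF → Prop) (p q : ZF) : ZF :=
  ZFSet.sep (fun z => Z (fst z)) p ∪ ZFSet.sep (fun z => ¬ Z (fst z)) q

theorem mix_pos {Z : ZF → Prop} (h : Z s) : Eqs (mix Z p q) p s := fun ξ => by simp [mix, h]

theorem mix_neg {Z : ZF → Prop} (h : ¬ Z s) : Eqs (mix Z p q) q s := fun ξ => by simp [mix, h]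

theorem Cnd.mix (hp : Cnd D p) (hq : Cnd D q) (Z : ZF → Prop) : Cnd D (mix Z p q) :=
  cnd_of_slots (fun _ hz => (mem_union.1 hz).elim (fun h => hp.pr (mem_sep.1 h).1)
    fun h => hq.pr (mem_sep.1 h).1) fun s => by
      by_cases h : Z s
      exacts [⟨p, hp, mix_pos h⟩, ⟨q, hq, mix_neg h⟩]

/-- the part on the sites in `a` -/
noncomputable def rs (a p : ZF) : ZF := ZFSet.sep (fun z => fst (fst z) ∈ a) p

/-- the part on the sites outside `a` -/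
noncomputable def tl (a p : ZF) : ZF := ZFSet.sep (fun z => fst (fst z) ∉ a) p

theorem mem_rs : pair s ξ ∈ rs a p ↔ pair s ξ ∈ p ∧ fst s ∈ a := by simp [rs]

theorem mem_tl : pair s ξ ∈ tl a p ↔ pair s ξ ∈ p ∧ fst s ∉ a := by simp [tl]

theorem Cnd.sep (hp : Cnd D p) (Z : ZF → Prop) : Cnd D (ZFSet.sep (fun z => Z (fst z)) p) :=
  cnd_of_slots (fun _ hz => hp.pr (mem_sep.1 hz).1) fun s => by
    by_cases h : Z s
    exacts [⟨p, hp, fun ξ => by simp [h]⟩, ⟨∅, cnd_empty, fun ξ => by simp [h]⟩]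

theorem ex_sep (p : ZF) (Z : ZF → Prop) : Ex p (ZFSet.sep (fun z => Z (fst z)) p) := fun s => by
  by_cases h : Z s
  exacts [Eqs.ee fun ξ => by simp [h], ee_of_empty fun ξ => by simp [h]]

theorem ex_rs (a p : ZF) : Ex p (rs a p) := ex_sep p fun s => fst s ∈ a

theorem ex_tl (a p : ZF) : Ex p (tl a p) := ex_sep p fun s => fst s ∉ a

theorem mem_Uo {K : ZF → ZF} {z : ZF} :
    z ∈ Uo K a ↔ ∃ s ∈ prod a (num 2), ∃ ξ ∈ K (fst s), z = pair s ξ := by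
  simp only [Uo, mem_bun]
  refine exists_congr fun s => and_congr_right fun _ => mem_prod.trans ⟨?_, ?_⟩
  · rintro ⟨_, h, ξ, h1, rfl⟩
    exact ⟨ξ, h1, by rw [mem_singleton.1 h]⟩
  · rintro ⟨ξ, h1, rfl⟩
    exact ⟨s, mem_singleton.2 rfl, ξ, h1, rfl⟩

theorem mem_PS {M : Set ZF} :
    p ∈ PS M D a ↔ CM M D p ∧ ∀ s ξ, pair s ξ ∈ p → fst s ∈ a := by
  rw [PS, mem_sep, mem_pw]
  constructor
  · rintro ⟨⟨h1, h2⟩, h3⟩
    refine ⟨⟨h2, h3⟩, fun s ξ h => ?_⟩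
    obtain ⟨_, h4, _, -, e⟩ := mem_Uo.1 (h1 h)
    obtain ⟨o, h5, i, -, rfl⟩ := mem_prod.1 h4
    rwa [(pair_inj.1 e).1, fst_pair]
  · rintro ⟨⟨h1, h2⟩, h3⟩
    refine ⟨⟨fun z hz => ?_, h1⟩, h2⟩
    obtain ⟨s, ξ, rfl⟩ := h2.pr hz
    exact mem_Uo.2 ⟨s, (h2.pt hz).1.mem_prod (h3 s ξ hz), ξ, (h2.pt hz).2.1, rfl⟩

theorem PS_mono {M : Set ZF} {b : ZF} (h : a ⊆ b) : PS M D a ⊆ PS M D b := fun _ hp =>
  mem_PS.2 ⟨(mem_PS.1 hp).1, fun s ξ h1 => h ((mem_PS.1 hp).2 s ξ h1)⟩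

end

/-! ### definability -/

variable {M : Set ZF} [hM : TModel M] {D : Dat}

section inst

variable {a b c : Env → ZF} [ha : Tm M a] [hb : Tm M b] [hc : Tm M c]

instance df_sl : Df M (fun v => Sl (a v)) := by unfold Sl; infer_instance

instance df_ac : Df M (fun v => Ac (a v) (b v) (c v)) := by unfold Ac; infer_instance

instance df_ee : Df M (fun v => EE (a v) (b v) (c v)) := by unfold EE; infer_instance

instance df_eqs : Df M (fun v => Eqs (a v) (b v) (c v)) := by unfold Eqs; infer_instance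

instance df_excl : Df M (fun v => Excl (a v) (b v) (c v)) := by unfold Excl; infer_instance

instance triv_ee : Triv M (fun v s => EE (a v) (b v) s) :=
  ⟨fun v hv _ hs => Eqs.ee fun _ => iff_of_false (fun h => hs (fst_mem (tr (ha.mem v hv) h)))
    fun h => hs (fst_mem (tr (hb.mem v hv) h))⟩

instance df_ex : Df M (fun v => Ex (a v) (b v)) := by unfold Ex; infer_instance

instance tm_rs : Tm M (fun v => rs (a v) (b v)) := by unfold rs; infer_instance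

instance tm_tl : Tm M (fun v => tl (a v) (b v)) := by unfold tl; infer_instance

omit hM in
instance void_cm {t : Env → ZF → ZF} [h : Occ M t] : Void M (fun v x => CM M D (t v x)) :=
  ⟨fun v _ x H => h.out v x H.1⟩

omit hM in
instance void_tail {s t : Env → ZF → ZF} [h : Occ M t] :
    Void M (fun v x => Tail M D (s v x) (t v x)) := ⟨fun v _ x H => h.out v x H.1.1⟩

omit hM in
instance void_le1 {A : ZF → Prop} {s t : Env → ZF → ZF} [h : Occ M t] :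
    Void M (fun v x => le M D A (t v x) (s v x)) := ⟨fun v _ x H => h.out v x H.1.1⟩

omit hM in
instance void_le2 {A : ZF → Prop} {s t : Env → ZF → ZF} [h : Occ M t] :
    Void M (fun v x => le M D A (s v x) (t v x)) := ⟨fun v _ x H => h.out v x H.2.1.1⟩

section

variable [hS : Sy0 M D]

instance tm_K : Tm M (fun v => D.K (a v)) := hS.crd.tK.one a

instance tm_R : Tm M (fun v => D.R (a v)) := hS.crd.tR.one a

instance df_T : Df M (fun v => D.T (a v)) := hS.dT.one a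

instance tm_Uo : Tm M (fun v => Uo D.K (a v)) := by unfold Uo; infer_instance

instance df_cnd : Df M (fun v => Cnd D (a v)) := by unfold Cnd; infer_instance

instance df_cm : Df M (fun v => CM M D (a v)) := by unfold CM; infer_instance

instance df_tail : Df M (fun v => Tail M D (a v) (b v)) := by unfold Tail; infer_instance

instance tm_PS : Tm M (fun v => PS M D (a v)) := by unfold PS; infer_instance

end

variable [hS : Sy M D]

instance df_Par : Df M (fun v => D.Par (a v)) := hS.dPar.one a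

instance tm_dpar : Tm M (fun v => D.par (a v)) := hS.tpar.one a

instance tm_bit : Tm M (fun v => D.bit (a v)) := hS.tbit.one a

theorem live_coind {A : ZF → Prop} {p s : ZF} (hs : s ∈ M) : Live D A p s ↔ ∃ X ∈ M, s ∈ X ∧
    ∀ t ∈ X, A t ∧ (D.Par t → D.par t ∈ X ∧ ¬ Excl p (D.par t) (D.bit t)) := by
  constructor
  · intro h
    induction h with
    | mk s h1 _ h3 ih =>
      have := In.mk' hs
      by_cases h : D.Par s
      · obtain ⟨X, hX, h4, h5⟩ := ih h (In.mem _)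
        have := In.mk' hX
        refine ⟨insert s X, In.mem _, mem_insert _ _, fun t ht => ?_⟩
        rcases mem_insert_iff.1 ht with rfl | ht
        · exact ⟨h1, fun _ => ⟨mem_insert_of_mem _ h4, h3 h⟩⟩
        · exact ⟨(h5 t ht).1, fun h6 => ((h5 t ht).2 h6).imp_left (mem_insert_of_mem _)⟩
      · refine ⟨{s}, In.mem _, mem_singleton.2 rfl, fun t ht => ?_⟩
        obtain rfl := mem_singleton.1 ht
        exact ⟨h1, fun h' => absurd h' h⟩
  · rintro ⟨X, -, h1, h2⟩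
    have key : ∀ o, ∀ t ∈ X, fst t = o → Live D A p t := fun o => by
      induction o using ZFSet.inductionOn with
      | h o ih =>
        rintro t ht rfl
        exact live_iff.2 ⟨(h2 t ht).1, fun h => ⟨ih _ (hS.ok t h).2.1 _ ((h2 t ht).2 h).1 rfl,
          ((h2 t ht).2 h).2⟩⟩
    exact key _ s h1 rfl

variable {A : ZF → Prop} [hA : Df M (fun v => A (v 0))]

instance df_live : Df M (fun v => Live D A (a v) (b v)) := by
  have := fun s [Tm M s] => hA.one s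
  exact (inferInstance : Df M (fun v => ∃ X ∈ M, b v ∈ X ∧ ∀ t ∈ X, A t ∧
    (D.Par t → D.par t ∈ X ∧ ¬ Excl (a v) (D.par t) (D.bit t)))).congr
    fun v hv => live_coind (hb.mem v hv)

instance df_leA : Df M (fun v => LeA D A (a v) (b v)) := by unfold LeA; infer_instance

instance df_le : Df M (fun v => le M D A (a v) (b v)) := by unfold le; infer_instance

end inst

/-! ### operations on conditions -/

variable {A : ZF → Prop} {p q s ξ η δ a : ZF}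

theorem cm_empty : CM M D ∅ := ⟨empty_mem, cnd_empty⟩

theorem CM.mix (hp : CM M D p) (hq : CM M D q) (Z : ZF → Prop) (hZ : Df M (fun v => Z (v 0))) :
    CM M D (mix Z p q) := by
  have := fun s [Tm M s] => hZ.one s
  have := In.mk' hp.1
  have := In.mk' hq.1
  exact ⟨by unfold Q2.mix; exact In.mem _, hp.2.mix hq.2 Z⟩

theorem CM.sep (hp : CM M D p) (Z : ZF → Prop) (hZ : Df M (fun v => Z (v 0))) :
    CM M D (ZFSet.sep (fun z => Z (fst z)) p) :=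
  ⟨sep_mem' _ (hZ.one fun v => fst (v 0)) hp.1, hp.2.sep Z⟩

theorem CM.rs (hp : CM M D p) (ha : a ∈ M) : rs a p ∈ PS M D a := by
  have := In.mk' ha
  exact mem_PS.2 ⟨hp.sep (fun s => fst s ∈ a) inferInstance, fun _ _ h => (mem_rs.1 h).2⟩

theorem CM.tl (hp : CM M D p) (ha : a ∈ M) : Tail M D a (tl a p) := by
  have := In.mk' ha
  exact ⟨hp.sep (fun s => fst s ∉ a) inferInstance, fun _ _ h => (mem_tl.1 h).2⟩

theorem fst_mem' (h : s ∈ M) : fst s ∈ M := by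
  have := In.mk' h
  exact In.mem _

theorem CM.site (hp : CM M D p) (h : pair s ξ ∈ p) : fst s ∈ M := fst_mem' (fst_mem (tr hp.1 h))

theorem CM.ex_ps (hp : CM M D p) : ∃ a ∈ M, IsOrdinal a ∧ p ∈ PS M D a := by
  have := In.mk' hp.1
  refine ⟨rk (img (fun z => fst (fst z)) p), In.mem _, rk_ord _, mem_PS.2 ⟨hp, fun s ξ h => ?_⟩⟩
  rw [← (hp.2.pt h).1.ord.rank_lt_iff_mem (rk_ord _), rank_rk]
  exact rank_lt_of_mem (mem_img.2 ⟨_, h, by simp⟩)

theorem Live.loc [hS : Sy M D] (h : Live D A p s) (ha : IsOrdinal a) (h1 : fst s ⊆ a)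
    (h2 : ∀ t, fst t ∈ a → Eqs q p t) : Live D A q s := by
  induction h with
  | mk s h3 _ h4 ih =>
    exact .mk s h3 (fun h => ih h (ha.subset_of_mem (h1 (hS.ok s h).2.1))) fun h h5 =>
      h4 h (h5.mono (h2 _ (h1 (hS.ok s h).2.1)).symm.ee)

/-- an extension in the live slots is realised by a plain extension -/
theorem proj [Sy M D] (hA : Df M (fun v => A (v 0))) (hp : CM M D p) (hq : CM M D q)
    (h : LeA D A q p) : ∃ r, CM M D r ∧ Ex r p ∧ LeA D A r q ∧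
      (∀ s, Live D A q s → Eqs r q s) ∧ ∀ s, ¬ Live D A q s → Eqs r p s := by
  have := In.mk' hq.1
  have key : ∀ s, Live D A (Q2.mix (Live D A q) q p) s → Live D A q s := fun s hs => by
    induction hs with
    | mk s h1 _ h3 ih => exact .mk s h1 ih fun h h4 => h3 h (h4.mono (mix_pos (ih h)).ee)
  refine ⟨_, hq.mix hp (Live D A q) inferInstance, fun s => ?_, fun s hs => (mix_pos (key s hs)).ee,
    fun s => mix_pos, fun s => mix_neg⟩
  by_cases h1 : Live D A q s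
  exacts [(mix_pos h1).ee.trans (h s h1), (mix_neg h1).ee]

variable [hS : Sy0 M D]

theorem hartK (h : Sl s) (h' : fst s ∈ M) : Hart M (D.R (fst s)) (D.K (fst s)) :=
  hS.crd.hart _ h' h.ord

theorem infR (h : Sl s) (h' : fst s ∈ M) : Inf M (D.R (fst s)) := hS.crd.inf _ h' h.ord

theorem CM.hart (hp : CM M D p) (h : pair s ξ ∈ p) : Hart M (D.R (fst s)) (D.K (fst s)) :=
  hartK (hp.2.pt h).1 (hp.site h)

theorem CM.ord (hp : CM M D p) (h : pair s ξ ∈ p) : IsOrdinal ξ :=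
  (hp.hart h).ord.mem (hp.2.pt h).2.1

theorem CM.cl (hp : CM M D p) (hδ : IsOrdinal δ) (h : Ac p s δ) : pair s δ ∈ p := by
  obtain ⟨ξ, -, h1⟩ := h.ne
  refine hp.2.2 s (mem_dom_of h1) δ ((mem_succ_iff hδ (hp.hart h1).ord).2 fun η hη => ?_) h
  obtain ⟨ξ', -, h2, h3⟩ := h.2 η hη
  exact (hp.hart h1).ord.mem_trans h2 (hp.2.pt h3).2.1

include hS in
theorem not_T_succ (η : ZF) : ¬ D.T (insert η η) := fun h => not_cofOm_succ η (hS.cof _ h)

/-- a point that may be put on top of a slot -/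
theorem CM.above (hp : CM M D p) (h : Sl s) (h' : fst s ∈ M) (hη : η ∈ D.K (fst s)) :
    ∃ ξ ∈ D.K (fst s), ¬ D.T ξ ∧ η ∈ ξ ∧ ∀ ζ, pair s ζ ∈ p → ζ ∈ ξ := by
  have hk := hartK (D := D) h h'
  have hR := infR (D := D) h h'
  obtain ⟨b, hb, h1⟩ : ∃ b ∈ D.K (fst s), ∀ ζ, pair s ζ ∈ p → ζ ∈ b := by
    by_contra h1
    push Not at h1
    refine mem_irrefl _ (hp.2.pt (hp.cl hk.ord ⟨⟨_, hη⟩, fun x hx => ?_⟩)).2.1
    obtain ⟨ζ, h2, h3⟩ := h1 _ (hk.succ hR hx)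
    exact ⟨ζ, (hp.2.pt h2).2.1, ((hp.ord h2).notMem_iff_subset
      (hk.ord.mem (hk.succ hR hx))).1 h3 (mem_insert _ _), h2⟩
  have h2 := hk.union hb hη
  exact ⟨_, hk.succ hR h2, not_T_succ (M := M) _, (mem_succ_iff (hk.ord.mem hη) (hk.ord.mem h2)).2
    fun x hx => mem_union.2 (Or.inr hx), fun ζ h3 => mem_insert_of_mem _ (mem_union.2 (Or.inl (h1 ζ h3)))⟩

theorem CM.max (hp : CM M D p) (h : pair s ξ ∈ p) :
    ∃ m, pair s m ∈ p ∧ ∀ η, pair s η ∈ p → η ⊆ m := by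
  let B := ZFSet.sep (fun η => pair s η ∈ p) (D.K (fst s))
  have hB : ∀ η, η ∈ B ↔ pair s η ∈ p := fun η =>
    mem_sep.trans ⟨And.right, fun h => ⟨(hp.2.pt h).2.1, h⟩⟩
  have ho : IsOrdinal (ZFSet.sUnion B) := isOrdinal_sUnion fun x hx => hp.ord ((hB x).1 hx)
  have h1 : ∀ η, pair s η ∈ p → η ⊆ ZFSet.sUnion B := fun η h x hx =>
    mem_sUnion.2 ⟨η, (hB η).2 h, hx⟩
  refine ⟨_, by_contra fun h2 => h2 ?_, h1⟩
  have h3 : ∀ η, pair s η ∈ p → η ∈ ZFSet.sUnion B := fun η h =>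
    (((hp.ord h).subset_iff_eq_or_mem ho).1 (h1 η h)).resolve_left fun e => h2 (e ▸ h)
  refine hp.cl ho ⟨⟨ξ, h3 ξ h⟩, fun η hη => ?_⟩
  obtain ⟨ζ, h4, h5⟩ := mem_sUnion.1 hη
  exact ⟨ζ, h3 ζ ((hB ζ).1 h4), h5, (hB ζ).1 h4⟩

/-- new points on top of a family of slots -/
theorem CM.addpts (hp : CM M D p) {Z : ZF} (hZ : Z ∈ M) (F : ZF → ZF)
    (hF : Tm M (fun v => F (v 0))) (h : ∀ s ∈ Z, Sl s ∧ F s ∈ D.K (fst s) ∧ ¬ D.T (F s) ∧
      ∀ η, pair s η ∈ p → η ∈ F s) : CM M D (p ∪ graph F Z) ∧ Ex (p ∪ graph F Z) p := by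
  have := In.mk' hp.1
  have := In.mk' hZ
  have e : ∀ s ξ, pair s ξ ∈ p ∪ graph F Z ↔ pair s ξ ∈ p ∨ (s ∈ Z ∧ F s = ξ) := fun s ξ => by simp
  refine ⟨⟨In.mem _, fun z hz => ?_, fun s _ δ hδ h1 => ?_⟩, fun s => ⟨fun ξ h1 => (e s ξ).2 (Or.inl h1),
    fun ξ h1 => ((e s ξ).1 h1).elim Or.inl fun h2 => Or.inr (h2.2 ▸ (h s h2.1).2.2.2)⟩⟩
  · rcases mem_union.1 hz with hz | hz
    · exact hp.2.1 z hz
    · obtain ⟨s, hs, rfl⟩ := mem_graph.1 hz
      exact ⟨s, _, rfl, (h s hs).1, (h s hs).2.1, (h s hs).2.2.1⟩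
  · have h2 : Ac p s δ := ⟨h1.1, fun η hη => by
      obtain ⟨ξ, h2, h3, h4⟩ := h1.2 η hη
      refine ⟨ξ, h2, h3, ((e s ξ).1 h4).resolve_right fun h5 => ?_⟩
      obtain ⟨ξ', -, h6, h7⟩ := h1.2 ξ h2
      rcases (e s ξ').1 h7 with h8 | h8
      · exact mem_asymm h6 (h5.2 ▸ (h s h5.1).2.2.2 ξ' h8)
      · exact mem_irrefl ξ' (h5.2.symm.trans h8.2 ▸ h6)⟩
    obtain ⟨ξ, -, h3⟩ := h2.ne
    exact (e s δ).2 (Or.inl (hp.2.2 s (mem_dom_of h3) δ hδ h2))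

theorem CM.addpt (hp : CM M D p) (h : Sl s) (h' : fst s ∈ M) (h1 : ξ ∈ D.K (fst s)) (h2 : ¬ D.T ξ)
    (h3 : ∀ η, pair s η ∈ p → η ∈ ξ) :
    CM M D (insert (pair s ξ) p) ∧ Ex (insert (pair s ξ) p) p := by
  have hs : s ∈ M := by
    obtain ⟨o, -, i, h4, rfl⟩ := h
    have := In.mk' (fst_pair o i ▸ h')
    have := In.mk' (tr (In.mem (M := M) (num 2)) h4)
    exact In.mem _
  have := In.mk' hs
  have := In.mk' (tr (hartK (D := D) h h').mem h1)
  have e : insert (pair s ξ) p = p ∪ graph (fun _ => ξ) {s} := by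
    ext z
    simp [mem_graph, eq_comm, or_comm]
  rw [e]
  exact hp.addpts (In.mem _) _ inferInstance fun t ht => mem_singleton.1 ht ▸ ⟨h, h1, h2, h3⟩

/-- points above given bounds on a family of slots -/
theorem CM.addall (hp : CM M D p) {Z : ZF} (hZ : Z ∈ M) (B : ZF → ZF)
    (hB : Tm M (fun v => B (v 0))) (h : ∀ s ∈ Z, Sl s ∧ B s ∈ D.K (fst s)) :
    ∃ q, CM M D q ∧ Ex q p ∧ (∀ s ∈ Z, ∃ ξ, pair s ξ ∈ q ∧ B s ∈ ξ) ∧ ∀ s, s ∉ Z → Eqs q p s := by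
  have := In.mk' hp.1
  have := fun s [Tm M s] => hB.one s
  obtain ⟨f, hf, h1⟩ := skolem (M := M) (fun s ξ => ξ ∈ D.K (fst s) ∧ ¬ D.T ξ ∧ B s ∈ ξ ∧
    ∀ ζ, pair s ζ ∈ p → ζ ∈ ξ) inferInstance hZ fun s hs => by
      have h0 := fst_mem' (tr hZ hs)
      obtain ⟨ξ, h1, h2⟩ := hp.above (h s hs).1 h0 (h s hs).2
      exact ⟨ξ, tr (hartK (D := D) (h s hs).1 h0).mem h1, h1, h2⟩
  have := In.mk' hf
  obtain ⟨h2, h3⟩ := hp.addpts hZ (app f) inferInstance fun s hs =>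
    ⟨(h s hs).1, (h1 s hs).1, (h1 s hs).2.1, (h1 s hs).2.2.2⟩
  exact ⟨_, h2, h3, fun s hs => ⟨app f s, by simp [hs], (h1 s hs).2.2.1⟩, fun s hs ξ => by simp [hs]⟩

theorem le_PS (ha : a ∈ M) (ho : IsOrdinal a) : Le M (PS M D a) (D.R a) :=
  (hS.crd.small a ha ho).mono sep_subset

end Pool.Agent.P.MP_0b3dfe_lc.Q2
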