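import Pool.Agent.P.MP_0b3dfe_lc.Q2.St0

/-! Cardinals and labels of the sites. -/

set_option linter.unusedSectionVars false
set_option synthInstance.maxSize 100000

namespace Pool.Agent.P.MP_0b3dfe_lc.Q2

open ZFSet Pool.Agent.P.MP_3ab3de_lc Pool.Agent.P.MP_9a7e1f_lc ForceP

namespace CrdP

variable {M : Set ZF} [hM : TModel M]

theorem le_pwp {Y a : ZF} (hY : Y ∈ M) (h : a ⊆ Y) : Le M a (pw M (prod om Y)) := by
  have := In.mk' hY
  refine Le.of_fun (fun z => ZFSet.sUnion (img snd z)) inferInstance (In.mem _) fun y hy => ?_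
  have := In.mk' (tr hY (h hy))
  refine ⟨{pair ∅ y}, mem_pw.2 ⟨fun p hp => ?_, In.mem _⟩, ?_⟩
  · rw [mem_singleton.1 hp]
    exact pair_mem_prod.2 ⟨omega_zero, h hy⟩
  · ext z
    simp

theorem le_sq {Z : ZF} (hZ : Z ∈ M) : Le M (prod (pw M Z) (pw M Z)) (pw M (prod om Z)) := by
  have := In.mk' hZ
  refine Le.of_fun (fun z =>
    pair (ZFSet.sep (fun n => pair ∅ n ∈ z) Z) (ZFSet.sep (fun n => pair (num 1) n ∈ z) Z))
    inferInstance (In.mem _) fun y hy => ?_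
  obtain ⟨a, ha, b, hb, rfl⟩ := mem_prod.1 hy
  obtain ⟨ha, ha'⟩ := mem_pw.1 ha
  obtain ⟨hb, hb'⟩ := mem_pw.1 hb
  have := In.mk' ha'
  have := In.mk' hb'
  have h01 : (∅ : ZF) ≠ num 1 := fun e => absurd (num_inj (m := 0).1 e) (by omega)
  refine ⟨prod {∅} a ∪ prod {num 1} b, mem_pw.2 ⟨fun p hp => ?_, In.mem _⟩, ?_⟩
  · rcases mem_union.1 hp with h | h <;> obtain ⟨x, hx, y, hy, rfl⟩ := mem_prod.1 h <;>
      obtain rfl := mem_singleton.1 hx
    exacts [pair_mem_prod.2 ⟨omega_zero, ha hy⟩, pair_mem_prod.2 ⟨num_mem_omega 1, hb hy⟩]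
  · rw [pair_inj]
    constructor <;> ext n <;> simp only [mem_sep, mem_union, pair_mem_prod, mem_singleton]
    · exact ⟨fun h => h.2.elim And.right fun h => absurd h.1 h01,
        fun h => ⟨ha h, Or.inl ⟨trivial, h⟩⟩⟩
    · exact ⟨fun h => h.2.elim (fun h => absurd h.1 h01.symm) And.right,
        fun h => ⟨hb h, Or.inr ⟨trivial, h⟩⟩⟩

theorem le_assoc {Y : ZF} (hY : Y ∈ M) : Le M (prod om (prod om Y)) (prod om Y) := by
  have := In.mk' hY
  refine Le.trans (b := prod (prod om om) Y) (Le.of_fun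
    (fun p => pair (fst (fst p)) (pair (snd (fst p)) (snd p))) inferInstance (In.mem _)
    fun y hy => ?_) (inf_omega.sq.prod (Le.refl hY) hM.infinity hY) (In.mem _)
  obtain ⟨a, ha, b, hb, rfl⟩ := mem_prod.1 hy
  obtain ⟨c, hc, d, hd, rfl⟩ := mem_prod.1 hb
  exact ⟨pair (pair a c) d, pair_mem_prod.2 ⟨pair_mem_prod.2 ⟨ha, hc⟩, hd⟩, by simp⟩

theorem inf_pwp {Y : ZF} (hY : Y ∈ M) (h : om ⊆ Y) : Inf M (pw M (prod om Y)) := by
  have := In.mk' hY
  exact ⟨In.mem _, (le_sq (In.mem _)).trans ((le_assoc hY).pw (In.mem _)) (In.mem _), le_pwp hY h⟩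

/-- the Hartogs number as a term -/
theorem tm_hart : ∃ H : ZF → ZF, Tm M (fun v => H (v 0)) ∧ ∀ R ∈ M, Hart M R (H R) := by
  obtain ⟨H, h1, h2⟩ := HullP.tm_of_uniq (M := M)
    (fun R k => IsOrdinal k ∧ ¬ Le M k R ∧ ∀ ξ ∈ k, Le M ξ R) inferInstance (by
      rintro R k k' ⟨a1, a2, a3⟩ ⟨b1, b2, b3⟩
      rcases a1.mem_trichotomous b1 with h | h | h
      exacts [absurd (b3 k h) a2, h, absurd (a3 k' h) b2])
  refine ⟨H, h1, fun R hR => ?_⟩
  obtain ⟨k, hk⟩ := exists_hart hR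
  obtain ⟨h3, h4, h5⟩ := h2 R ⟨k, hk.mem, hk.ord, hk.not_le, hk.le⟩
  exact ⟨h1.mem (fun _ => R) fun _ => hR, h3, h4, h5⟩

/-- everything that has to be absorbed at a site -/
noncomputable def Yo (M : Set ZF) (K : ZF → ZF) (o : ZF) : ZF :=
  (om ∪ o) ∪ (pw M (Uo K o) ∪ bun K o)

omit hM in
theorem mem_Uo {K : ZF → ZF} {a z : ZF} :
    z ∈ Uo K a ↔ ∃ x ∈ a, ∃ i ∈ num 2, ∃ y ∈ K x, z = pair (pair x i) y := by
  rw [Uo, mem_bun]
  constructor
  · rintro ⟨s, hs, hz⟩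
    obtain ⟨x, hx, i, hi, rfl⟩ := mem_prod.1 hs
    obtain ⟨s, hs, y, hy, rfl⟩ := mem_prod.1 hz
    rw [fst_pair] at hy
    exact ⟨x, hx, i, hi, y, hy, by rw [mem_singleton.1 hs]⟩
  · rintro ⟨x, hx, i, hi, y, hy, rfl⟩
    exact ⟨_, pair_mem_prod.2 ⟨hx, hi⟩, pair_mem_prod.2 ⟨mem_singleton.2 rfl, by rwa [fst_pair]⟩⟩

omit hM in
theorem Yo_mono {K K' : ZF → ZF} {a b : ZF} (h : a ⊆ b) (e : ∀ x ∈ a, K x = K' x) :
    Yo M K a ⊆ Yo M K' b := by
  intro z hz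
  simp only [Yo, mem_union, mem_pw, mem_bun] at hz ⊢
  rcases hz with (hz | hz) | hz | ⟨x, hx, hz⟩
  · exact Or.inl (Or.inl hz)
  · exact Or.inl (Or.inr (h hz))
  · refine Or.inr (Or.inl ⟨fun w hw => ?_, hz.2⟩)
    obtain ⟨x, hx, i, hi, y, hy, e'⟩ := mem_Uo.1 (hz.1 hw)
    exact mem_Uo.2 ⟨x, h hx, i, hi, y, e x hx ▸ hy, e'⟩
  · exact Or.inr (Or.inr ⟨x, h hx, e x hx ▸ hz⟩)

omit hM in
theorem Yo_congr {K K' : ZF → ZF} {a : ZF} (e : ∀ x ∈ a, K x = K' x) : Yo M K a = Yo M K' a :=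
  ZFSet.ext fun _ => ⟨fun h => Yo_mono (fun _ h => h) e h,
    fun h => Yo_mono (fun _ h => h) (fun x hx => (e x hx).symm) h⟩

end CrdP

open CrdP in
theorem crd : S_Crd := by
  intro M hM
  obtain ⟨H, h1, h2⟩ := tm_hart (M := M)
  have := fun s [Tm M s] => h1.one s
  let K := rc fun o g => H (pw M (prod om (Yo M (app g) o)))
  have hK : Tm M (fun v => K (v 0)) := tm_rc (by unfold Yo Uo; infer_instance)
  have := fun s [Tm M s] => hK.one s
  have hY : Tm M (fun v => Yo M K (v 0)) := by unfold Yo Uo; infer_instance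
  have := fun s [Tm M s] => hY.one s
  have e : ∀ o, K o = H (pw M (prod om (Yo M K o))) := fun o => by
    rw [show K o = _ from rc_eq _ o, Yo_congr (K' := K) fun x hx => app_graph hx]
  have mY : ∀ o ∈ M, Yo M K o ∈ M := fun o ho => hY.mem (fun _ => o) fun _ => ho
  have hh : ∀ o ∈ M, Hart M (pw M (prod om (Yo M K o))) (K o) := fun o ho => by
    have := In.mk' ho
    rw [e]
    exact h2 _ (In.mem _)
  refine ⟨K, fun o => pw M (prod om (Yo M K o)), hK, inferInstance,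
    fun o ho _ => inf_pwp (mY o ho) fun z hz => mem_union.2 (Or.inl (mem_union.2 (Or.inl hz))),
    fun o ho _ => hh o ho,
    fun o ho h => (hh o ho).mem_of_le h (le_pwp (mY o ho) fun z hz =>
      mem_union.2 (Or.inl (mem_union.2 (Or.inr hz)))),
    fun o ho _ => le_pwp (mY o ho) fun z hz => mem_union.2 (Or.inr (mem_union.2 (Or.inl hz))),
    fun o ho _ o' _ h => ?_,
    fun o ho _ o' h => le_pwp (mY o ho) fun z hz =>
      mem_union.2 (Or.inr (mem_union.2 (Or.inr (mem_bun.2 ⟨o', h, hz⟩))))⟩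
  have := In.mk' ho
  refine Le.of_subset (In.mem _) fun z hz => mem_pw.2 ⟨fun p hp => ?_, (mem_pw.1 hz).2⟩
  obtain ⟨a, ha, b, hb, rfl⟩ := mem_prod.1 ((mem_pw.1 hz).1 hp)
  exact pair_mem_prod.2 ⟨ha, Yo_mono h (fun _ _ => rfl) hb⟩

theorem labx : S_Lab := by
  intro M hM hV
  obtain ⟨F, h1, h2⟩ := HullP.exists_sk hV
    (fun g x => x ∉ img snd g ∧ ∀ y ∈ M, y ∉ img snd g → rk x ⊆ rk y) inferInstance
  have := fun s [Tm M s] => h1.one s
  let lab := rc fun _ g => F g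
  have hl : Tm M (fun v => lab (v 0)) := tm_rc inferInstance
  have := fun s [Tm M s] => hl.one s
  have e : ∀ o, img snd (graph lab o) = img lab o := fun o => by
    ext y
    simp only [mem_img, mem_graph]
    constructor
    · rintro ⟨_, ⟨x, hx, rfl⟩, rfl⟩
      exact ⟨x, hx, (snd_pair _ _).symm⟩
    · rintro ⟨x, hx, rfl⟩
      exact ⟨_, ⟨x, hx, rfl⟩, snd_pair _ _⟩
  have key : ∀ o ∈ M, lab o ∉ img lab o ∧ ∀ y ∈ M, y ∉ img lab o → rank (lab o) ≤ rank y := by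
    intro o ho
    have := In.mk' ho
    obtain ⟨_, ⟨y, hy, h3, rfl⟩, h4⟩ := exists_min
      (P := fun ρ => ∃ y ∈ M, y ∉ img lab o ∧ rk y = ρ)
      ⟨_, img lab o, In.mem _, mem_irrefl _, rfl⟩
    have h5 := h2 (graph lab o) ⟨y, hy, by
      rw [e]
      exact ⟨h3, fun z hz h6 => ((rk_ord z).notMem_iff_subset (rk_ord y)).1 fun h7 =>
        h4 _ h7 ⟨z, hz, h6, rfl⟩⟩⟩
    rw [e, ← show lab o = F (graph lab o) from rc_eq _ o] at h5
    refine ⟨h5.1, fun z hz h6 => ?_⟩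
    have h7 := ((rk_ord (lab o)).rank_le_iff_subset (rk_ord z)).2 (h5.2 z hz h6)
    rwa [rank_rk, rank_rk] at h7
  refine ⟨lab, hl, fun x hx => ?_⟩
  have := In.mk' hx
  have h3 : ∃ o ∈ M, IsOrdinal o ∧ lab o = x := by
    by_contra h
    obtain ⟨k, hk⟩ := exists_hart (In.mem (M := M) (pw M (VM M x)))
    have := In.mk' hk.mem
    refine hk.not_le (le_of_inj (g := graph lab k) hk.mem (In.mem _) (In.mem _) (fun η hη => ?_)
      fun η hη η' hη' e' => ?_)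
    · have := In.mk' (tr hk.mem hη)
      rw [app_graph hη]
      refine mem_pw.2 ⟨(subset_VM (In.mem _)).2 ((key η (tr hk.mem hη)).2 x hx fun h4 => ?_),
        In.mem _⟩
      obtain ⟨ξ, hξ, h5⟩ := mem_img.1 h4
      exact h ⟨ξ, tr (tr hk.mem hη) hξ, (hk.ord.mem hη).mem hξ, h5⟩
    · rw [app_graph hη, app_graph hη'] at e'
      rcases (hk.ord.mem hη).mem_trichotomous (hk.ord.mem hη') with h4 | h4 | h4
      · exact absurd (e' ▸ img_mem h4) (key η' (tr hk.mem hη')).1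
      · exact h4
      · exact absurd (e' ▸ img_mem h4) (key η (tr hk.mem hη)).1
  obtain ⟨o, ho, h4, rfl⟩ := h3
  refine ⟨o, ho, h4, rfl, ?_⟩
  have := In.mk' ho
  by_contra h5
  refine cantor (In.mem (M := M) (VM M o)) (Le.trans (b := o) ((le_img lab hl ho).mono
    fun y hy => by_contra fun h6 => h5 ?_)
    (Le.of_subset (In.mem _) ((subset_VM ho).2 le_rfl)) (In.mem _))
  obtain ⟨h7, h8⟩ := mem_pw.1 hy
  exact ((key o ho).2 y h8 h6).trans ((subset_VM h8).1 h7)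

end Pool.Agent.P.MP_0b3dfe_lc.Q2
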