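import Pool.Agent.P.MP_0b3dfe_lc.Q2.Gen

/-! Labels of the sites, the tower of models, and the failure of replacement in the intersection. -/

set_option linter.unusedSectionVars false
set_option synthInstance.maxSize 100000

namespace Pool.Agent.P.MP_0b3dfe_lc.Q2

open ZFSet Pool.Agent.P.MP_3ab3de_lc Pool.Agent.P.MP_9a7e1f_lc ForceP

/-- the statement of the package Up -/
def S_UpF : Prop := ∀ (M : Set ZF) [TModel M] (D : Dat) [Sy M D] (C : ZF), All M D C →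
  ∀ A A' B : ZF → Prop, Df M (fun v => A (v 0)) → Df M (fun v => A' (v 0)) →
    Df M (fun v => B (v 0)) → (∀ s, A' s → A s) → (∀ s, B s → A' s) →
    (∀ s, A' s → D.Par s → B (D.par s)) →
    (∀ s, A s → ¬ A' s → Sl s → A' (pair (fst s) (num 1)) ∧ ¬ D.Par (pair (fst s) (num 1))) →
    Caa (MA M D C A) ⊆ MA M D C B

def S_Main : Prop := ∀ M0 : Set ZF, TModel M0 → M0.Countable → ∃ N : Set ZF, TModel N ∧
  N.Countable ∧ (∀ o : ZF, o.IsOrdinal → o ∈ N → o ∈ M0) ∧ (∀ n, TModel (It N n)) ∧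
  (∀ n, It N (n + 1) ≠ It N n) ∧ ¬ ZModel (⋂ n, It N n)

namespace FinP

section defs

variable (lab : ZF → ZF) (Ch : ZF → ZF → Prop) (K : ZF → ZF) (T : ZF → Prop)

/-- the tag of the site of a slot -/
noncomputable def tg (s : ZF) : ZF := fst (lab (fst s))

/-- the number of the site of a slot -/
noncomputable def nn (s : ZF) : ZF := fst (snd (lab (fst s)))

/-- the gate of the site of a slot -/
noncomputable def ll (s : ZF) : ZF := fst (snd (snd (lab (fst s))))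

/-- the parent slot -/
noncomputable def par (s : ZF) : ZF := fst (snd (snd (snd (lab (fst s)))))

/-- the ordinal that is coded -/
noncomputable def bit (s : ZF) : ZF := snd (snd (snd (snd (lab (fst s)))))

/-- the four kinds of coders -/
def Rule (s t : ZF) : Prop :=
  (tg lab s = ∅ ∧ snd t = ∅ ∧ tg lab t ≠ num 1 ∧ nn lab t = nn lab s ∧ ll lab t = ll lab s) ∨
  (tg lab s = num 1 ∧ snd t = ∅ ∧ nn lab t = insert (nn lab s) (nn lab s)) ∨
  (tg lab s = num 1 ∧ snd t = num 1 ∧ tg lab t = ∅ ∧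
    nn lab t = insert (insert (nn lab s) (nn lab s)) (insert (nn lab s) (nn lab s))) ∨
  (tg lab s = num 2 ∧ snd t = num 1 ∧ tg lab t = ∅ ∧
    nn lab t = insert (insert (nn lab s) (nn lab s)) (insert (nn lab s) (nn lab s)) ∧
    Ch (ll lab t) (ll lab s))

/-- slots with a parent -/
def Par (s : ZF) : Prop := snd s = ∅ ∧ Sl (par lab s) ∧ fst (par lab s) ∈ fst s ∧
  bit lab s ∈ K (fst (par lab s)) ∧ ¬ T (bit lab s) ∧ Rule lab Ch s (par lab s)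

/-- the slots of the stage `n` -/
def AA (n : ℕ) (s : ZF) : Prop := ∃ k : ℕ, nn lab s = num k ∧
  ((snd s = ∅ ∧ (n < k ∨ (tg lab s ≠ num 1 ∧ tru Ch k (ll lab s)))) ∨
    (snd s = num 1 ∧ tg lab s = ∅ ∧ (n + 1 < k ∨ ¬ tru Ch k (ll lab s))))

/-- the intermediate class -/
def AB (n : ℕ) (s : ZF) : Prop :=
  AA lab Ch n s ∧ (AA lab Ch (n + 1) s ∨ ¬ (snd s = ∅ ∧ tg lab s = ∅))

end defs

section comb

variable {lab : ZF → ZF} {Ch : ZF → ZF → Prop} {K : ZF → ZF} {T : ZF → Prop} {n k : ℕ} {s : ZF}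

theorem two_ne_one : num 2 ≠ num 1 := fun h => absurd (num_inj.1 h) (by omega)

theorem two_ne : num 2 ≠ ∅ := fun h => absurd ((num_inj (m := 2) (n := 0)).1 h) (by omega)

theorem aa_main (h : nn lab s = num k) (h0 : snd s = ∅) :
    AA lab Ch n s ↔ n < k ∨ (tg lab s ≠ num 1 ∧ tru Ch k (ll lab s)) := by
  refine ⟨fun ⟨j, h1, h2⟩ => ?_, fun h1 => ⟨k, h, Or.inl ⟨h0, h1⟩⟩⟩
  obtain rfl := num_inj.1 (h.symm.trans h1)
  exact h2.elim And.right fun h3 => absurd (h3.1.symm.trans h0) one_ne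

theorem aa_mask (h : nn lab s = num k) (h0 : snd s = num 1) :
    AA lab Ch n s ↔ tg lab s = ∅ ∧ (n + 1 < k ∨ ¬ tru Ch k (ll lab s)) := by
  refine ⟨fun ⟨j, h1, h2⟩ => ?_, fun h1 => ⟨k, h, Or.inr ⟨h0, h1⟩⟩⟩
  obtain rfl := num_inj.1 (h.symm.trans h1)
  exact h2.elim (fun h3 => absurd (h0.symm.trans h3.1) one_ne) And.right

theorem AA.anti (h : AA lab Ch (n + 1) s) : AA lab Ch n s := by
  obtain ⟨k, h1, h2⟩ := h
  exact ⟨k, h1, h2.imp (And.imp_right (Or.imp_left (by omega)))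
    (And.imp_right (And.imp_right (Or.imp_left (by omega))))⟩

theorem AB.par (h : AB lab Ch n s) (hp : Par lab Ch K T s) : AA lab Ch (n + 1) (par lab s) := by
  obtain ⟨h0, -, -, -, -, hr⟩ := hp
  obtain ⟨⟨k, h1, h2⟩, h3⟩ := h
  have h4 := (aa_main h1 h0).1 ⟨k, h1, h2⟩
  rcases hr with ⟨r1, r2, r3, r4, r5⟩ | ⟨r1, r2, r3⟩ | ⟨r1, r2, r3, r4⟩ | ⟨r1, r2, r3, r4, r5⟩
  · rw [aa_main (r4.trans h1) r2, r5]
    exact ((aa_main h1 h0).1 (h3.resolve_right (not_not.2 ⟨h0, r1⟩))).imp_right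
      fun h5 => ⟨r3, h5.2⟩
  · rw [h1] at r3
    exact (aa_main (k := k + 1) r3 r2).2
      (Or.inl (Nat.succ_lt_succ (h4.resolve_right fun h5 => h5.1 r1)))
  · rw [h1] at r4
    have h5 := h4.resolve_right fun h5 => h5.1 r1
    exact (aa_mask (k := k + 2) r4 r2).2 ⟨r3, Or.inl (by omega)⟩
  · rw [h1] at r4
    exact (aa_mask (k := k + 2) r4 r2).2 ⟨r3, h4.imp (by omega) fun h5 h6 => h6 ⟨_, r5, h5.2⟩⟩

theorem removed (h : AA lab Ch n s) (h' : ¬ AB lab Ch n s) :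
    AB lab Ch n (pair (fst s) (num 1)) ∧ ¬ Par lab Ch K T (pair (fst s) (num 1)) := by
  have h1 : ¬ (AA lab Ch (n + 1) s ∨ ¬ (snd s = ∅ ∧ tg lab s = ∅)) := fun h1 => h' ⟨h, h1⟩
  obtain ⟨h2, h3⟩ := not_or.1 h1
  obtain ⟨h3, h4⟩ := not_not.1 h3
  obtain ⟨k, h5, -⟩ := h
  have h6 : ¬ tru Ch k (ll lab s) := fun h6 =>
    h2 ((aa_main h5 h3).2 (Or.inr ⟨fun e => one_ne (e.symm.trans h4), h6⟩))
  have h7 : snd (pair (fst s) (num 1)) ≠ ∅ := by rw [snd_pair]; exact one_ne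
  refine ⟨⟨⟨k, ?_, Or.inr ⟨snd_pair _ _, ?_, Or.inr ?_⟩⟩, Or.inr fun h8 => h7 h8.1⟩,
    fun h8 => h7 h8.1⟩
  · rwa [nn, fst_pair]
  · rwa [tg, fst_pair]
  · rwa [ll, fst_pair]

theorem not_sl : ¬ Sl ∅ := by
  rintro ⟨o, -, i, -, e⟩
  exact notMem_empty _ (e ▸ (by simp [pair] : ({o} : ZF) ∈ pair o i))

/-- `o` is a site with the given label -/
structure Site (lab : ZF → ZF) (o a N l t ξ : ZF) : Prop where
  tg : ∀ i, tg lab (pair o i) = a
  nn : ∀ i, nn lab (pair o i) = N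
  ll : ∀ i, ll lab (pair o i) = l
  par : ∀ i, par lab (pair o i) = t
  bit : ∀ i, bit lab (pair o i) = ξ

theorem site_of {o a N l t ξ : ZF} (h : lab o = pair a (pair N (pair l (pair t ξ)))) :
    Site lab o a N l t ξ :=
  ⟨fun _ => by simp [FinP.tg, h], fun _ => by simp [FinP.nn, h], fun _ => by simp [FinP.ll, h],
    fun _ => by simp [FinP.par, h], fun _ => by simp [FinP.bit, h]⟩

theorem Site.root {o a N l ξ : ZF} (h : Site lab o a N l ∅ ξ) (i : ZF) :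
    ¬ Par lab Ch K T (pair o i) := fun h1 => not_sl (h.par i ▸ h1.2.1)

theorem Site.dead {o a l t ξ : ZF} (h : Site lab o a (num k) l t ξ) (h1 : a ≠ ∅) (h2 : k ≤ n)
    (h3 : a ≠ num 1 → ¬ tru Ch k l) : ∀ i ∈ num 2, ¬ AA lab Ch n (pair o i) := by
  intro i hi
  rcases mem_two.1 hi with rfl | rfl
  · rw [aa_main (h.nn _) (snd_pair _ _), h.tg, h.ll]
    exact not_or.2 ⟨by omega, fun h4 => h3 h4.1 h4.2⟩
  · rw [aa_mask (h.nn _) (snd_pair _ _), h.tg]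
    exact fun h4 => h1 h4.1

theorem rank_l (a b : ZF) : rank a < rank (pair a b) :=
  (rank_lt_of_mem (by simp : a ∈ ({a} : ZF))).trans (rank_lt_of_mem (by simp [pair]))

theorem rank_r (a b : ZF) : rank b < rank (pair a b) :=
  (rank_lt_of_mem (by simp : b ∈ ({a, b} : ZF))).trans (rank_lt_of_mem (by simp [pair]))

end comb

section df

variable {M : Set ZF} [hM : TModel M] {lab : ZF → ZF} {Ch : ZF → ZF → Prop} {K : ZF → ZF}
  {T : ZF → Prop}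

theorem df_lt {P : ℕ → Env → Prop} (h : ∀ k, Df M (P k)) (m : ℕ) :
    Df M (fun v => ∃ k < m, P k v) := by
  induction m with
  | zero => exact Df.bot.congr fun _ _ => by simp
  | succ m ih =>
    exact (@Df.or _ _ _ ih (h m)).congr fun _ _ => Nat.exists_lt_succ_right

theorem df_tru (h : Df M (fun v => Ch (v 0) (v 1))) (hc : ∀ l ∈ M, ∀ l', Ch l l' → l' ∈ M)
    (k : ℕ) : Df M (fun v => tru Ch k (v 0)) := by
  induction k using Nat.twoStepInduction with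
  | zero => exact Df.const True
  | one => exact Df.const True
  | more k ih _ =>
    have := fun s t [Tm M s] [Tm M t] => h.two s t
    have := fun s [Tm M s] => ih.one s
    exact (inferInstance : Df M (fun v => ¬ ∃ l' ∈ M, Ch (v 0) l' ∧ tru Ch k l')).congr
      fun v hv => not_congr ⟨fun ⟨l', h1⟩ => ⟨l', hc _ (hv 0) _ h1.1, h1⟩, fun ⟨l', h1⟩ => ⟨l', h1.2⟩⟩

variable (hl : Tm M (fun v => lab (v 0)))
include hl

theorem tm_tg (a : Env → ZF) [Tm M a] : Tm M (fun v => tg lab (a v)) := by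
  have := fun s [Tm M s] => hl.one s
  unfold tg; infer_instance

theorem tm_nn (a : Env → ZF) [Tm M a] : Tm M (fun v => nn lab (a v)) := by
  have := fun s [Tm M s] => hl.one s
  unfold nn; infer_instance

theorem tm_ll (a : Env → ZF) [Tm M a] : Tm M (fun v => ll lab (a v)) := by
  have := fun s [Tm M s] => hl.one s
  unfold ll; infer_instance

theorem tm_par (a : Env → ZF) [Tm M a] : Tm M (fun v => par lab (a v)) := by
  have := fun s [Tm M s] => hl.one s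
  unfold par; infer_instance

theorem tm_bit (a : Env → ZF) [Tm M a] : Tm M (fun v => bit lab (a v)) := by
  have := fun s [Tm M s] => hl.one s
  unfold bit; infer_instance

theorem df_Par (h : Df M (fun v => Ch (v 0) (v 1))) (hK : Tm M (fun v => K (v 0)))
    (hT : Df M (fun v => T (v 0))) : Df M (fun v => Par lab Ch K T (v 0)) := by
  have := fun s t [Tm M s] [Tm M t] => h.two s t
  have := fun s [Tm M s] => hK.one s
  have := fun s [Tm M s] => hT.one s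
  have := tm_tg hl
  have := tm_nn hl
  have := tm_ll hl
  have := tm_par hl
  have := tm_bit hl
  unfold Par Rule
  infer_instance

theorem df_AA (h : Df M (fun v => Ch (v 0) (v 1))) (hc : ∀ l ∈ M, ∀ l', Ch l l' → l' ∈ M)
    (n : ℕ) : Df M (fun v => AA lab Ch n (v 0)) := by
  have := tm_tg hl
  have := tm_nn hl
  have := tm_ll hl
  have h1 := df_lt (M := M) (P := fun k v => nn lab (v 0) = num k ∧
    ((snd (v 0) = ∅ ∧ (n < k ∨ (tg lab (v 0) ≠ num 1 ∧ tru Ch k (ll lab (v 0))))) ∨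
      (snd (v 0) = num 1 ∧ tg lab (v 0) = ∅ ∧ (n + 1 < k ∨ ¬ tru Ch k (ll lab (v 0))))))
    (fun k => by
      have := fun s [Tm M s] => (df_tru h hc k).one s
      infer_instance) (n + 2)
  have h2 : Df M (fun v => nn lab (v 0) ∈ om ∧ num (n + 1) ∈ nn lab (v 0) ∧
      (snd (v 0) = ∅ ∨ (snd (v 0) = num 1 ∧ tg lab (v 0) = ∅))) := inferInstance
  refine (@Df.or _ _ _ h1 h2).congr fun v _ => ⟨fun ⟨k, h3, h4⟩ => ?_, ?_⟩
  · by_cases h5 : k < n + 2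
    · exact Or.inl ⟨k, h5, h3, h4⟩
    · refine Or.inr ⟨h3 ▸ num_mem_omega k, h3 ▸ num_mem_num.2 (by omega), ?_⟩
      exact h4.imp And.left fun h6 => ⟨h6.1, h6.2.1⟩
  · rintro (⟨k, -, h3⟩ | ⟨h3, h4, h5⟩)
    · exact ⟨k, h3⟩
    · obtain ⟨k, h6⟩ := mem_omega.1 h3
      have h7 : n + 1 < k := num_mem_num.1 (h6 ▸ h4)
      exact ⟨k, h6.symm, h5.imp (fun h8 => ⟨h8, Or.inl (by omega)⟩)
        fun h8 => ⟨h8.1, h8.2, Or.inl h7⟩⟩

theorem df_AB (h : Df M (fun v => Ch (v 0) (v 1))) (hc : ∀ l ∈ M, ∀ l', Ch l l' → l' ∈ M)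
    (n : ℕ) : Df M (fun v => AB lab Ch n (v 0)) := by
  have := tm_tg hl
  have := df_AA hl h hc n
  have := df_AA hl h hc (n + 1)
  unfold AB
  infer_instance

omit hl in
theorem ex_site (hs : ∀ x ∈ M, ∃ o ∈ M, IsOrdinal o ∧ lab o = x ∧ rank x ≤ rank o)
    {a N l t ξ : ZF} (h1 : a ∈ M) (h2 : N ∈ M) (h3 : l ∈ M) (h4 : t ∈ M) (h5 : ξ ∈ M) :
    ∃ o ∈ M, IsOrdinal o ∧ Site lab o a N l t ξ ∧ (Sl t → fst t ∈ o) := by
  have := In.mk' h1
  have := In.mk' h2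
  have := In.mk' h3
  have := In.mk' h4
  have := In.mk' h5
  obtain ⟨o, h6, h7, h8, h9⟩ := hs (pair a (pair N (pair l (pair t ξ)))) (In.mem _)
  refine ⟨o, h6, h7, site_of h8, fun h => (h.ord.rank_lt_iff_mem h7).1 (lt_of_lt_of_le ?_ h9)⟩
  obtain ⟨o', -, i, -, rfl⟩ := h
  rw [fst_pair]
  exact (rank_l _ _).trans ((rank_l _ _).trans ((rank_r _ _).trans ((rank_r _ _).trans (rank_r _ _))))

theorem coder (hc : ∀ l ∈ M, ∀ l', Ch l l' → l' ∈ M)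
    (hs : ∀ x ∈ M, ∃ o ∈ M, IsOrdinal o ∧ lab o = x ∧ rank x ≤ rank o) {n : ℕ} {s ξ : ZF}
    (h1 : s ∈ M) (h2 : AA lab Ch (n + 1) s) (h3 : Sl s) (h4 : ξ ∈ K (fst s)) (h5 : ¬ T ξ)
    (h6 : ξ ∈ M) : ∃ o ∈ M, IsOrdinal o ∧ AA lab Ch n (pair o ∅) ∧ ¬ AA lab Ch n (pair o (num 1)) ∧
      Par lab Ch K T (pair o ∅) ∧ par lab (pair o ∅) = s ∧ bit lab (pair o ∅) = ξ := by
  have key : ∀ (a l : ZF) (j : ℕ), a ∈ M → l ∈ M → (n < j ∨ (a ≠ num 1 ∧ tru Ch j l)) →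
      (a = ∅ → ¬ n + 1 < j ∧ tru Ch j l) →
      (∀ u, tg lab u = a → nn lab u = num j → ll lab u = l → Rule lab Ch u s) →
      ∃ o ∈ M, IsOrdinal o ∧ AA lab Ch n (pair o ∅) ∧ ¬ AA lab Ch n (pair o (num 1)) ∧
        Par lab Ch K T (pair o ∅) ∧ par lab (pair o ∅) = s ∧ bit lab (pair o ∅) = ξ := by
    intro a l j ha hl' k1 k2 k3
    obtain ⟨o, e1, e2, e3, e4⟩ := ex_site hs ha (In.mem (num j)) hl' h1 h6
    refine ⟨o, e1, e2, ?_, ?_, ?_, e3.par _, e3.bit _⟩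
    · rwa [aa_main (e3.nn _) (snd_pair _ _), e3.tg, e3.ll]
    · rw [aa_mask (e3.nn _) (snd_pair _ _), e3.tg, e3.ll]
      exact fun h => h.2.elim (k2 h.1).1 fun h' => h' (k2 h.1).2
    · rw [Par, e3.par, e3.bit, fst_pair]
      exact ⟨snd_pair _ _, h3, e4 h3, h4, h5, k3 _ (e3.tg _) (e3.nn _) (e3.ll _)⟩
  have hl' : ll lab s ∈ M := by
    have := In.mk' h1
    have := tm_ll hl
    exact In.mem _
  obtain ⟨k, e, ⟨h7, h8⟩ | ⟨h7, h8, h9⟩⟩ := h2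
  · by_cases h9 : n + 1 < k
    · obtain ⟨j, rfl⟩ : ∃ j, k = j + 1 := ⟨k - 1, by omega⟩
      exact key (num 1) ∅ j (In.mem _) empty_mem (Or.inl (by omega)) (fun h => absurd h one_ne)
        fun u k1 k2 _ => Or.inr (Or.inl ⟨k1, h7, by rw [e, k2]; rfl⟩)
    · obtain ⟨h10, h11⟩ := h8.resolve_left h9
      exact key ∅ _ k empty_mem hl' (Or.inr ⟨one_ne.symm, h11⟩) (fun _ => ⟨h9, h11⟩)
        fun u k1 k2 k3 => Or.inl ⟨k1, h7, h10, e.trans k2.symm, k3.symm⟩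
  · rcases h9 with h9 | h9
    · obtain ⟨j, rfl⟩ : ∃ j, k = j + 2 := ⟨k - 2, by omega⟩
      exact key (num 1) ∅ j (In.mem _) empty_mem (Or.inl (by omega)) (fun h => absurd h one_ne)
        fun u k1 k2 _ => Or.inr (Or.inr (Or.inl ⟨k1, h7, h8, by rw [e, k2]; rfl⟩))
    · rcases k with _ | _ | j
      · exact absurd trivial h9
      · exact absurd trivial h9
      obtain ⟨l', h10, h11⟩ := not_not.1 h9
      exact key (num 2) l' j (In.mem _) (hc _ hl' _ h10) (Or.inr ⟨two_ne_one, h11⟩)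
        (fun h => absurd h two_ne) fun u k1 k2 k3 =>
          Or.inr (Or.inr (Or.inr ⟨k1, h7, h8, by rw [e, k2]; rfl, k3 ▸ h10⟩))

end df

section rel

variable {M I : Set ZF}

theorem rel_sat (h : Df I (fun v => v 0 ∈ M)) (hs : M ⊆ I) (φ : Fml) :
    Df I (fun v => Sat M φ v) := by
  induction φ with
  | mem i j => exact Df.mem0 i j
  | eq i j => exact Df.eq0 i j
  | bot => exact Df.bot
  | imp φ ψ h1 h2 => exact @Df.imp _ _ _ h1 h2
  | all φ ih =>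
    refine (Df.allM (P := fun v x => x ∈ M → Sat M φ (cons x v))
      ((@Df.imp _ _ _ h ih).congr fun v _ => ?_)).congr fun v _ =>
        ⟨fun h1 x _ hx => h1 x hx, fun h1 x hx => h1 x (hs hx) hx⟩
    have e : (cons (v 0) fun n => v (n + 1)) = v := by
      funext n; cases n <;> rfl
    rw [e]

theorem rel4 (h : Df I (fun v => v 0 ∈ M)) (hs : M ⊆ I) {Q : ZF → ZF → ZF → ZF → Prop}
    (hQ : Df M (fun v => Q (v 0) (v 1) (v 2) (v 3))) :
    Df I (fun v => (v 0 ∈ M ∧ v 1 ∈ M ∧ v 2 ∈ M ∧ v 3 ∈ M) ∧ Q (v 0) (v 1) (v 2) (v 3)) := by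
  obtain ⟨φ, ρ, e⟩ := hQ
  have h1 := (rel_sat h hs φ).sub fun n =>
    Sum.map (fun k => min k 3) (fun c : M => (⟨c.1, hs c.2⟩ : I)) (ρ n)
  have h2 := @Df.and _ _ _ h (@Df.and _ _ _ (h.ren fun _ => 1)
    (@Df.and _ _ _ (h.ren fun _ => 2) (h.ren fun _ => 3)))
  refine (@Df.and _ _ _ h2 h1).congr fun v _ => and_congr_right fun hv => ?_
  refine (e (fun k => v (min k 3)) fun k => ?_).trans ?_
  · rcases k with _ | _ | _ | k
    exacts [hv.1, hv.2.1, hv.2.2.1, by simpa using hv.2.2.2]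
  · have e2 : (fun n => Sum.elim (fun k => v (min k 3)) Subtype.val (ρ n)) = fun n =>
        Sum.elim v Subtype.val
          (Sum.map (fun k => min k 3) (fun c : M => (⟨c.1, hs c.2⟩ : I)) (ρ n)) := by
      funext n; cases ρ n <;> rfl
    rw [e2]

/-- a class that lists every element of `M` over a set is not a model of replacement -/
theorem no_list [ZModel I] (ho : ∀ o ∈ I, IsOrdinal o → o ∈ M) {a : ZF} (ha : a ∈ I)
    (W : ZF → ZF → Prop) (hW : Df I (fun v => W (v 1) (v 0)))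
    (H : ∀ y ∈ M, ∃ x ∈ a, ∀ y' ∈ I, W x y' ↔ y' = y) : False := by
  have h1 : Df I (fun v => W (v 1) (v 0) ∧ ∀ y' ∈ I, W (v 1) y' → y' = v 0) :=
    @Df.and _ _ _ hW (Df.allM (P := fun v y' => W (v 1) y' → y' = v 0)
      (@Df.imp _ _ _ (hW.ren (cns 0 fun _ => 2)) (Df.eq0 0 1)))
  have h2 : Df I (fun v => v 0 = ∅) :=
    (inferInstance : UD ∅ (fun _ v => v 0 = ∅)).df (Ov.empty I)
  have h3 := Df.exM (P := fun v y => W (v 1) y ∧ ∀ y' ∈ I, W (v 1) y' → y' = y)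
    (h1.ren (cns 0 fun _ => 2))
  obtain ⟨b, hb, e⟩ := zrepl (N := I) (fun x y => (W x y ∧ ∀ y' ∈ I, W x y' → y' = y) ∨
      (y = ∅ ∧ ¬ ∃ y ∈ I, W x y ∧ ∀ y' ∈ I, W x y' → y' = y))
    (@Df.or _ _ _ h1 (@Df.and _ _ _ h2 (@Df.not _ _ h3))) ha fun x _ => by
      by_cases h4 : ∃ y ∈ I, W x y ∧ ∀ y' ∈ I, W x y' → y' = y
      · obtain ⟨y, h5, h6⟩ := h4
        exact ⟨y, ⟨h5, Or.inl h6⟩, fun z hz => hz.2.elim (fun h7 => h6.2 z hz.1 h7.1)
          fun h7 => absurd ⟨y, h5, h6⟩ h7.2⟩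
      · exact ⟨∅, ⟨(Ov.self I).empty_mem, Or.inr ⟨rfl, h4⟩⟩, fun z hz =>
          hz.2.elim (fun h7 => absurd ⟨z, hz.1, h7⟩ h4) And.left⟩
  have h4 := zrk_mem b hb
  obtain ⟨x, hx, h5⟩ := H _ (ho _ h4 (rk_ord b))
  have h6 := rank_lt_of_mem ((e _).2 ⟨h4, x, hx, Or.inl ⟨(h5 _ h4).2 rfl, fun y' hy' => (h5 y' hy').1⟩⟩)
  rw [rank_rk] at h6
  exact lt_irrefl _ h6

end rel

end FinP

open FinP in
theorem main_of (hPd : S_Pd) (hCd : S_Cd) (hCrd : S_Crd) (hLab : S_Lab) (hTDf : S_TDf)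
    (hTS : S_TStat) (hAv : S_Avoid) (hRun : S_Run) (hGen : S_GenC)
    (hAll : ∀ (M : Set ZF) [TModel M] (D : Dat) [Sy M D] (C : ZF), GenC M D C → All M D C)
    (hPat : S_Pat) (hLow : S_Low) (hUp : S_UpF) : S_Main := by
  intro M0 hM0 hc0
  obtain ⟨U, hM, hc, hVL, hO, hpd⟩ := hPd M0 hc0
  obtain ⟨Ch0, hCh, hcode⟩ := hCd
  generalize hMU : (U : Set ZF) = M at hM hc hVL hpd
  have hU : ∀ x, x ∈ U ↔ x ∈ M := fun x => hMU ▸ Iff.rfl
  obtain ⟨K, R, crd⟩ := hCrd M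
  obtain ⟨lab, hl, hs⟩ := hLab M hVL
  obtain ⟨dCh, cCh⟩ := hCh M
  let D : Dat := ⟨U, K, R, TT M, Par lab (Ch0 M) K (TT M), par lab, bit lab⟩
  have hS0 : Sy0 M D := ⟨crd, hTDf M, fun ξ h => (TT_iff.1 h).1,
    fun o h1 h2 => hTS M hVL _ _ (crd.inf o h1 h2) (crd.hart o h1 h2)⟩
  have hS : Sy M D :=
    { hS0 with
      univ := hU, cnt := hc, vl := hVL, dPar := FinP.df_Par hl dCh crd.tK (hTDf M),
      tpar := FinP.tm_par hl _, tbit := FinP.tm_bit hl _,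
      ok := fun s h => ⟨h.2.1, h.2.2.1, h.2.2.2.1, h.2.2.2.2.1⟩,
      ptd := hRun M D hVL (hAv M) }
  obtain ⟨C, g⟩ := hGen M D
  have X := hAll M D C g
  have dA := df_AA hl dCh cCh
  have step : ∀ n, Caa (MA M D C (AA lab (Ch0 M) n)) = MA M D C (AA lab (Ch0 M) (n + 1)) :=
    fun n => Set.Subset.antisymm
      (hUp M D C X _ (AB lab (Ch0 M) n) _ (dA n) (df_AB hl dCh cCh n) (dA (n + 1))
        (fun _ h => h.1) (fun _ h => ⟨h.anti, Or.inl h⟩) (fun _ h h' => h.par h')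
        fun _ h h' _ => removed h h')
      (hLow M D C X _ _ (dA n) (dA (n + 1)) (fun _ h => h.anti)
        (fun _ h h' => AB.par ⟨h.anti, Or.inl h⟩ h') fun s h1 h2 h3 ξ h4 h5 =>
          coder hl cCh hs h1 h2 h3 h4 h5 (tr (hartK (D := D) h3 (fst_mem' h1)).mem h4))
  have hIt : ∀ n, It (MA M D C (AA lab (Ch0 M) 0)) n = MA M D C (AA lab (Ch0 M) n) := fun n => by
    induction n with
    | zero => rfl
    | succ n ih => exact (congrArg Caa ih).trans (step n)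
  have hsl : ∀ o ∈ M, IsOrdinal o → Sl (pair o ∅) ∧ pair o ∅ ∈ M := fun o h1 h2 => by
    have := In.mk' h1
    exact ⟨sl_pair.2 ⟨h2, mem_two.2 (Or.inl rfl)⟩, In.mem _⟩
  refine ⟨MA M D C (AA lab (Ch0 M) 0), X.model _ (dA 0), hc.image _,
    fun o h1 h2 => hO o ((hU o).2 (ord_val h2 h1)) h1, fun n => hIt n ▸ X.model _ (dA n),
    fun n h => ?_, fun hI => ?_⟩
  · rw [hIt, hIt] at h
    obtain ⟨o, h1, h2, h3, -⟩ := ex_site hs (In.mem (num 1)) (In.mem (num (n + 1))) empty_mem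
      empty_mem empty_mem
    have h4 := X.kill (dA n) (live_iff.2 ⟨(aa_main (h3.nn _) (snd_pair _ _)).2
      (Or.inl (Nat.lt_succ_self n)), fun h4 => absurd h4 (h3.root _)⟩) (hsl o h1 h2).1 (hsl o h1 h2).2
    rw [fst_pair, ← h] at h4
    exact h4 ((hPat M D C X _ (dA (n + 1)) o h1 h2).2 fun i hi h5 =>
      h3.dead one_ne le_rfl (fun h6 => absurd rfl h6) i hi (live_iff.1 h5).1)
  simp only [hIt] at hI
  generalize hII : (⋂ n, MA M D C (AA lab (Ch0 M) n)) = I at hI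
  have mI : ∀ x, x ∈ I ↔ ∀ n, x ∈ MA M D C (AA lab (Ch0 M) n) := fun x => hII ▸ Set.mem_iInter
  have hMI : M ⊆ I := fun x hx => (mI x).2 fun n => X.sub_M (dA n) hx
  have hoI : ∀ o ∈ I, IsOrdinal o → o ∈ M := fun o h1 h2 => ord_val ((mI o).1 h1 0) h2
  have dM : Df I (fun v => v 0 ∈ M) :=
    ((inferInstance : UD ∅ (fun N v => ∃ a ∈ N, IsOrdinal a ∧ v 0 ∈ LS a)).df (Ov.empty I)).congr
      fun v _ => ⟨fun h => (hVL _ h).imp fun _ h1 => ⟨hMI h1.1, h1.2⟩, fun ⟨a, h1, h2, h3⟩ => by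
        have := In.mk' (hoI a h1 h2)
        exact tr (In.mem (LS a)) h3⟩
  let Q : ZF → ZF → ZF → ZF → Prop := fun t k y x => ∃ o ∈ M, IsOrdinal o ∧
    lab o = pair (num 2) (pair (fst x) (pair (pair ∅ (pair (snd x) (graph (fun _ => y) om)))
      (pair ∅ ∅))) ∧ k = K o ∧ t = ZFSet.sep (TT M) (K o)
  have dQ : Df M (fun v => Q (v 0) (v 1) (v 2) (v 3)) := by
    have := fun s [Tm M s] => hl.one s
    have := fun s [Tm M s] => crd.tK.one s
    have := fun s [Tm M s] => (hTDf M).one s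
    infer_instance
  have dK : Df I (fun v => ∃ c ∈ I, Clb c (v 1) ∧ ∀ ξ ∈ c, ξ ∉ v 0) :=
    (by unfold Clb; infer_instance :
      UD ∅ (fun N v => ∃ c ∈ N, Clb c (v 1) ∧ ∀ ξ ∈ c, ξ ∉ v 0)).df (Ov.empty I)
  have kl : ∀ o ∈ M, IsOrdinal o → ∀ (k : ℕ) (l : ZF), Site lab o (num 2) (num k) l ∅ ∅ →
      ((∃ c ∈ I, Clb c (K o) ∧ ∀ ξ ∈ c, ξ ∉ ZFSet.sep (TT M) (K o)) ↔ tru (Ch0 M) k l) := by
    intro o h1 h2 k l h3
    constructor
    · rintro ⟨c, h4, h5, h6⟩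
      by_contra h7
      have := X.model _ (dA k)
      exact not_stat ((mI c).1 h4 k) (X.sub_M (dA k) (crd.hart o h1 h2).mem) h5
        (fun ξ hξ h8 => h6 ξ hξ (mem_sep.2 ⟨h5.1 hξ, h8⟩))
        ((hPat M D C X _ (dA k) o h1 h2).2 fun i hi h8 =>
          h3.dead two_ne le_rfl (fun _ => h7) i hi (live_iff.1 h8).1)
    · intro h4
      have h5 := g.clb (hsl o h1 h2).1 (hsl o h1 h2).2
      rw [fst_pair] at h5
      refine ⟨_, (mI _).2 fun n => X.cs_mem' (dA n) (live_iff.2 ⟨?_,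
        fun h6 => absurd h6 (h3.root _)⟩) (hsl o h1 h2).1 (hsl o h1 h2).2, h5.1,
        fun ξ hξ h6 => h5.2 ξ hξ (mem_sep.1 h6).2⟩
      rw [aa_main (h3.nn _) (snd_pair _ _), h3.tg, h3.ll]
      exact Or.inr ⟨two_ne_one, h4⟩
  refine no_list hoI (hMI (In.mem (prod om (LS om))))
    (fun x y => ∃ k ∈ I, ∃ t ∈ I, ((t ∈ M ∧ k ∈ M ∧ y ∈ M ∧ x ∈ M) ∧ Q t k y x) ∧
      ∃ c ∈ I, Clb c k ∧ ∀ ξ ∈ c, ξ ∉ t)
    (Df.exM (Df.exM (@Df.and _ _ _ (rel4 dM hMI dQ) dK))) fun y hy => ?_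
  obtain ⟨φ, e⟩ := hpd y ((hU y).2 hy)
  obtain ⟨c, h1, d, e'⟩ := hcode φ
  have h2 : c ∈ LS om := h1 _ (Lim.clo ⟨isOrdinal_omega, omega_zero, fun _ => omega_succ⟩).2
  have h3 : ∀ y' ∈ M, tru (Ch0 M) d (pair ∅ (pair c (graph (fun _ => y') om))) ↔ y' = y :=
    fun y' hy' => by rw [e' M _ d le_rfl, ev_const, e y' ((hU y').2 hy')]
  refine ⟨pair (num d) c, pair_mem_prod.2 ⟨num_mem_omega d, h2⟩, fun y' _ => ⟨?_, ?_⟩⟩
  · rintro ⟨_, -, _, -, ⟨⟨-, -, h4, -⟩, o, h5, h6, h7, rfl, rfl⟩, h8⟩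
    rw [fst_pair, snd_pair] at h7
    exact (h3 y' h4).1 ((kl o h5 h6 d _ (site_of h7)).1 h8)
  · rintro rfl
    have := In.mk' hy
    have := In.mk' (tr (In.mem (M := M) (LS om)) h2)
    obtain ⟨o, h4, h5, h6, -⟩ := hs (pair (num 2) (pair (num d)
      (pair (pair ∅ (pair c (graph (fun _ => y') om))) (pair ∅ ∅)))) (In.mem _)
    have h7 : K o ∈ M := (crd.hart o h4 h5).mem
    have h8 := sep_mem' _ (hTDf M) h7
    exact ⟨_, hMI h7, _, hMI h8, ⟨⟨h8, h7, hy, In.mem _⟩, o, h4, h5,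
      by rwa [fst_pair, snd_pair], rfl, rfl⟩, (kl o h4 h5 d _ (site_of h6)).2 ((h3 _ hy).2 rfl)⟩

end Pool.Agent.P.MP_0b3dfe_lc.Q2
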