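import Pool.Agent.P.MP_0b3dfe_lc.Q2.Cnd

/-! The generic family of clubs, the filters and models it defines, and the last statements. -/

set_option linter.unusedSectionVars false
set_option synthInstance.maxSize 100000

namespace Pool.Agent.P.MP_0b3dfe_lc.Q2

open ZFSet Pool.Agent.P.MP_3ab3de_lc Pool.Agent.P.MP_9a7e1f_lc ForceP

/-- `C` is the union of a filter that is generic for end extension in all slots -/
structure GenC (M : Set ZF) (D : Dat) (C : ZF) : Prop where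
  cov : ∀ z ∈ C, ∃ q, CM M D q ∧ Ex C q ∧ z ∈ q
  meet : ∀ E : ZF → Prop, Df M (fun v => E (v 0)) →
    (∀ p, CM M D p → ∃ q, CM M D q ∧ Ex q p ∧ E q) → ∃ q, CM M D q ∧ Ex C q ∧ E q

def S_GenC : Prop := ∀ (M : Set ZF) [TModel M] (D : Dat) [Sy M D], ∃ C, GenC M D C

/-- the filter for the slots in `A` -/
noncomputable def HA (D : Dat) (C : ZF) (A : ZF → Prop) : ZF :=
  ZFSet.sep (fun q => Cnd D q ∧ LeA D A C q) D.U

/-- the class extension -/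
abbrev MA (M : Set ZF) (D : Dat) (C : ZF) (A : ZF → Prop) : Set ZF := val (HA D C A) '' M

/-- its set stages -/
abbrev WA (M : Set ZF) (D : Dat) (C : ZF) (A : ZF → Prop) (a : ZF) : Set ZF :=
  val (HA D C A ∩ PS M D a) '' M

def S_Inst : Prop := ∀ (M : Set ZF) [TModel M] (D : Dat) [Sy M D] (C : ZF), GenC M D C →
  ∀ A : ZF → Prop, Df M (fun v => A (v 0)) →
    (∀ a ∈ M, IsOrdinal a → ∀ X ∈ M, Le M X (D.R a) → TD M (le M D A) (PS M D) a X) ∧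
      CF M (le M D A) (PS M D) (HA D C A)

/-- everything that is known about the extensions -/
structure All (M : Set ZF) (D : Dat) (C : ZF) : Prop where
  gen : GenC M D C
  td : ∀ A : ZF → Prop, Df M (fun v => A (v 0)) → ∀ a ∈ M, IsOrdinal a → ∀ X ∈ M,
    Le M X (D.R a) → TD M (le M D A) (PS M D) a X
  cx : ∀ A : ZF → Prop, Df M (fun v => A (v 0)) → CX M (le M D A) (PS M D) (HA D C A)
  model : ∀ A : ZF → Prop, Df M (fun v => A (v 0)) → TModel (MA M D C A)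

def S_Pat : Prop := ∀ (M : Set ZF) [TModel M] (D : Dat) [Sy M D] (C : ZF), All M D C →
  ∀ A : ZF → Prop, Df M (fun v => A (v 0)) → ∀ o ∈ M, IsOrdinal o →
    Hart (MA M D C A) (D.R o) (D.K o) ∧
      ((∀ i ∈ num 2, ¬ Live D A C (pair o i)) → Stat (MA M D C A) (D.K o) D.T)

def S_Low : Prop := ∀ (M : Set ZF) [TModel M] (D : Dat) [Sy M D] (C : ZF), All M D C →
  ∀ A B : ZF → Prop, Df M (fun v => A (v 0)) → Df M (fun v => B (v 0)) → (∀ s, B s → A s) →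
    (∀ s, B s → D.Par s → B (D.par s)) →
    (∀ s ∈ M, B s → Sl s → ∀ ξ ∈ D.K (fst s), ¬ D.T ξ → ∃ o ∈ M, IsOrdinal o ∧ A (pair o ∅) ∧
      ¬ A (pair o (num 1)) ∧ D.Par (pair o ∅) ∧ D.par (pair o ∅) = s ∧ D.bit (pair o ∅) = ξ) →
    MA M D C B ⊆ Caa (MA M D C A)

def S_Sig : Prop := ∀ (M : Set ZF) [TModel M] (D : Dat) [Sy M D] (C : ZF), All M D C →
  ∀ A B : ZF → Prop, Df M (fun v => A (v 0)) → Df M (fun v => B (v 0)) → (∀ s, B s → A s) →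
    (∀ s, B s → D.Par s → B (D.par s)) →
    (∀ s, A s → ¬ B s → Sl s → B (pair (fst s) (num 1)) ∧ ¬ D.Par (pair (fst s) (num 1))) →
    ∀ a ∈ M, IsOrdinal a → ∀ o : Ordinal.{0}, o.toZFSet ∈ M →
      LA (WA M D C A a) o = LA (WA M D C B a) o

def S_Hom : Prop := ∀ (M : Set ZF) [TModel M] (D : Dat) [Sy M D] (C : ZF), All M D C →
  ∀ A B : ZF → Prop, Df M (fun v => A (v 0)) → Df M (fun v => B (v 0)) → (∀ s, B s → A s) →
    (∀ s, A s → D.Par s → B (D.par s)) →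
    ∀ a ∈ M, IsOrdinal a → Hom (WA M D C A a) (WA M D C B a)

variable {M : Set ZF} [hM : TModel M] {D : Dat} {A B : ZF → Prop} {C p q s ξ η δ a : ZF}

/-- two initial parts of `C` have a common extension -/
theorem un (hp : CM M D p) (hq : CM M D q) (h1 : Ex C p) (h2 : Ex C q) :
    CM M D (p ∪ q) ∧ Ex C (p ∪ q) ∧ Ex (p ∪ q) p ∧ Ex (p ∪ q) q := by
  have := In.mk' hp.1
  have := In.mk' hq.1
  have key : ∀ s, (Eqs (p ∪ q) p s ∧ EE p q s) ∨ (Eqs (p ∪ q) q s ∧ EE q p s) := fun s =>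
    ((h1 s).total (h2 s)).imp
      (fun h => ⟨fun ξ => mem_union.trans ⟨fun h' => h'.elim id (h.1 ξ), Or.inl⟩, h⟩)
      fun h => ⟨fun ξ => mem_union.trans ⟨fun h' => h'.elim (h.1 ξ) id, Or.inr⟩, h⟩
  refine ⟨⟨In.mem _, cnd_of_slots (fun z hz => (mem_union.1 hz).elim hp.2.pr hq.2.pr) fun s =>
    (key s).elim (fun h => ⟨p, hp.2, h.1⟩) fun h => ⟨q, hq.2, h.1⟩⟩, fun s => ?_, fun s => ?_,
    fun s => ?_⟩ <;> rcases key s with h | h
  exacts [(h1 s).trans h.1.symm.ee, (h2 s).trans h.1.symm.ee, h.1.ee, h.1.ee.trans h.2,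
    h.1.ee.trans h.2, h.1.ee]

theorem LeA.rs [Sy M D] (h : LeA D A p q) (hq : q ∈ PS M D a) (ha : IsOrdinal a) :
    LeA D A (rs a p) q := fun s hs => by
  have e : ∀ t, fst t ∈ a → Eqs p (Q2.rs a p) t := fun t ht ξ => by simp [mem_rs, ht]
  by_cases h1 : fst s ∈ a
  · exact (e s h1).symm.ee.trans (h s (hs.loc (M := M) ha (ha.subset_of_mem h1) e))
  · exact ee_of_empty fun ξ h2 => h1 ((mem_PS.1 hq).2 s ξ h2)

/-- a live slot can be switched on for good -/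
theorem sure [hS : Sy M D] (hp : CM M D p) (h : Live D A p s) : s ∈ M → Sl s →
    ∃ r, CM M D r ∧ Ex r p ∧ (∀ t, fst t ∉ fst s → Eqs r p t) ∧
      ∀ u, Ex u r → Live D A u s := by
  induction h with
  | mk s h1 _ h3 ih =>
    intro hs hs'
    by_cases h : D.Par s
    · have := In.mk' hs
      obtain ⟨k1, k2, k3, k4⟩ := hS.ok s h
      obtain ⟨r, h4, h5, h6, h7⟩ := ih h (In.mem _) k1
      have h8 : ∀ t, fst t ∉ fst s → Eqs r p t := fun t ht =>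
        h6 t fun h9 => ht (hs'.ord.mem_trans h9 k2)
      by_cases h9 : pair (D.par s) (D.bit s) ∈ r
      · exact ⟨r, h4, h5, h8, fun u hu => .mk s h1 (fun _ => h7 u hu)
          fun _ h10 => h10.1 ((hu _).1 _ h9)⟩
      · have hm : fst (D.par s) ∈ M := In.mem _
        obtain ⟨h10, h11⟩ := h4.addpt k1 hm k3 k4 fun η hη => by
          rcases (h4.ord hη).mem_trichotomous ((hartK (D := D) k1 hm).ord.mem k3) with e | e | e
          · exact e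
          · exact absurd (e ▸ hη) h9
          · exact absurd ((show Excl r _ _ from ⟨h9, η, hη, e⟩).mono
              (h6 _ (mem_irrefl _)).symm.ee) (h3 h)
        refine ⟨_, h10, h11.trans h5, fun t ht ξ => Iff.trans ?_ (h8 t ht ξ), fun u hu =>
          .mk s h1 (fun _ => h7 u (hu.trans h11)) fun _ h12 => h12.1 ((hu _).1 _ (mem_insert _ _))⟩
        rw [mem_insert_iff]
        exact or_iff_right fun e => ht (by rw [(pair_inj.1 e).1]; exact k2)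
    · exact ⟨p, hp, Ex.refl p, fun t _ => Eqs.refl p t, fun u _ =>
        .mk s h1 (fun h' => absurd h' h) fun h' => absurd h' h⟩

namespace GenC

variable (g : GenC M D C)
include g

theorem pt (h : pair s ξ ∈ C) : Sl s ∧ fst s ∈ M ∧ ξ ∈ D.K (fst s) ∧ ¬ D.T ξ := by
  obtain ⟨q, h1, -, h2⟩ := g.cov _ h
  exact ⟨(h1.2.pt h2).1, h1.site h2, (h1.2.pt h2).2⟩

/-- an initial part of `C` that extends `p` and holds a given point -/
theorem cov' (hp : CM M D p) (h : Ex C p) {z : ZF} (hz : z ∈ C) :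
    ∃ q, CM M D q ∧ Ex C q ∧ Ex q p ∧ z ∈ q := by
  obtain ⟨q, h1, h2, h3⟩ := g.cov z hz
  obtain ⟨h4, h5, h6, -⟩ := un hp h1 h h2
  exact ⟨_, h4, h5, h6, mem_union.2 (Or.inr h3)⟩

variable [hS : Sy M D]

theorem below (hp : CM M D p) (h : Ex C p) (E : ZF → Prop) (hE : Df M (fun v => E (v 0)))
    (H : ∀ q, CM M D q → Ex q p → ∃ r, CM M D r ∧ Ex r q ∧ E r) :
    ∃ r, CM M D r ∧ Ex C r ∧ E r := by
  have := In.mk' hp.1
  obtain ⟨r, h1, h2, h3⟩ := g.meet (fun r => E r ∨ ¬ ∃ u, CM M D u ∧ Ex u r ∧ Ex u p)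
    inferInstance fun q hq => by
      by_cases h1 : ∃ u, CM M D u ∧ Ex u q ∧ Ex u p
      · obtain ⟨u, h1, h2, h3⟩ := h1
        obtain ⟨r, h4, h5, h6⟩ := H u h1 h3
        exact ⟨r, h4, h5.trans h2, Or.inl h6⟩
      · exact ⟨q, hq, Ex.refl q, Or.inr h1⟩
  obtain ⟨h4, -, h5⟩ := un h1 hp h2 h
  exact ⟨r, h1, h2, h3.resolve_right (not_not.2 ⟨_, h4, h5⟩)⟩

theorem unb (h : Sl s) (h' : s ∈ M) (hη : η ∈ D.K (fst s)) : ∃ ξ, pair s ξ ∈ C ∧ η ∈ ξ := by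
  have := In.mk' h'
  have := In.mk' (tr (hartK (D := D) h (fst_mem' h')).mem hη)
  obtain ⟨q, -, h1, ξ, h2, h3⟩ := g.meet (fun q => ∃ ξ, pair s ξ ∈ q ∧ η ∈ ξ) inferInstance
    fun p hp => by
      obtain ⟨ξ, h1, h2, h3, h4⟩ := hp.above h (fst_mem' h') hη
      obtain ⟨h5, h6⟩ := hp.addpt h (fst_mem' h') h1 h2 h4
      exact ⟨_, h5, h6, ξ, mem_insert _ _, h3⟩
  exact ⟨ξ, (h1 s).1 ξ h2, h3⟩

theorem slot_mem (h : pair s ξ ∈ C) : s ∈ M := by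
  obtain ⟨q, h1, -, h2⟩ := g.cov _ h
  exact fst_mem (tr h1.1 h2)

theorem cl (hδ : δ ∈ D.K (fst s)) (h : Ac C s δ) : pair s δ ∈ C := by
  obtain ⟨ζ, -, h0⟩ := h.ne
  obtain ⟨ξ, h1, h2⟩ := g.unb (g.pt h0).1 (g.slot_mem h0) hδ
  obtain ⟨q, h3, h4, h5⟩ := g.cov _ h1
  exact (h4 s).1 δ (h3.cl ((h3.ord h5).mem h2) (h.mono fun η h6 h7 =>
    (h4 s).below h5 h7 ((h3.ord h5).mem_trans h6 h2)))

theorem excl (h : Sl s) (h' : s ∈ M) (h1 : ξ ∈ D.K (fst s)) : Excl C s ξ ↔ pair s ξ ∉ C :=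
  ⟨And.left, fun h2 => ⟨h2, g.unb h h' h1⟩⟩

theorem live_of (hp : CM M D p) (h : Ex C p) (H : ∀ u, CM M D u → Ex u p → Live D A u s) :
    Live D A C s := by
  have h0 := H p hp (Ex.refl p)
  induction h0 with
  | mk s h1 _ _ ih =>
    refine .mk s h1 (fun h2 => ih h2 fun u hu h3 => ((live_iff.1 (H u hu h3)).2 h2).1) ?_
    rintro h2 ⟨h3, η, h4, h5⟩
    obtain ⟨u, h6, h7, h8, h9⟩ := g.cov' hp h h4
    exact ((live_iff.1 (H u h6 h8)).2 h2).2 ⟨fun h10 => h3 ((h7 _).1 _ h10), η, h9, h5⟩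

/-- a condition that agrees with `C` on the live slots is extended by an initial part of `C` -/
theorem char (hA : Df M (fun v => A (v 0))) (hq : CM M D q) (h : LeA D A C q) :
    ∃ p, CM M D p ∧ Ex C p ∧ LeA D A p q := by
  have := In.mk' hq.1
  obtain ⟨p, h1, h2, h3⟩ := g.meet (fun p => LeA D A p q ∨ ∃ s ∈ M, ∀ u, CM M D u → Ex u p →
    Live D A u s ∧ ¬ EE u q s) inferInstance fun p hp => by
      by_cases h1 : LeA D A p q
      · exact ⟨p, hp, Ex.refl p, Or.inl h1⟩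
      obtain ⟨s, h1⟩ := not_forall.1 h1
      obtain ⟨h1, h2⟩ := Classical.not_imp.1 h1
      obtain ⟨ζ, h3⟩ : ∃ ζ, pair s ζ ∈ q := by
        by_contra h3
        exact h2 (ee_of_empty fun ξ h4 => h3 ⟨ξ, h4⟩)
      obtain ⟨m, h4, h5⟩ := hq.max h3
      obtain ⟨r, h6, h7, h8, h9⟩ := sure hp h1 (fst_mem (tr hq.1 h3)) (hq.2.pt h3).1
      obtain ⟨ξ, h10, h11, h12, h13⟩ := h6.above (hq.2.pt h4).1 (hq.site h4) (hq.2.pt h4).2.1
      obtain ⟨h14, h15⟩ := h6.addpt (hq.2.pt h4).1 (hq.site h4) h10 h11 h13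
      refine ⟨_, h14, h15.trans h7, Or.inr ⟨s, fst_mem (tr hq.1 h3), fun u _ hu =>
        ⟨h9 u (hu.trans h15), fun h16 => h2 ((h8 s (mem_irrefl _)).symm.ee.trans
          (((hu.trans h15) s).of_sub h16 fun η h17 => ?_))⟩⟩⟩
      have h18 : η ∈ ξ := (hq.ord h17).mem_of_subset_of_mem (h14.ord (mem_insert _ _)) (h5 η h17) h12
      exact (mem_insert_iff.1 ((hu s).below (mem_insert _ _) (h16.1 η h17) h18)).resolve_left
        fun e => mem_irrefl ξ ((pair_inj.1 e).2 ▸ h18)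
  refine ⟨p, h1, h2, h3.resolve_right ?_⟩
  rintro ⟨s, -, h3⟩
  have h4 := h s (g.live_of h1 h2 fun u hu h4 => (h3 u hu h4).1)
  by_cases h5 : ∃ ζ, pair s ζ ∈ q
  · obtain ⟨ζ, h5⟩ := h5
    obtain ⟨m, h6, h7⟩ := hq.max h5
    obtain ⟨u, h8, h9, h10, h11⟩ := g.cov' h1 h2 (h4.1 m h6)
    refine (h3 u h8 h10).2 ((h9 s).of_sub h4 fun η h12 => ?_)
    rcases ((hq.ord h12).subset_iff_eq_or_mem (hq.ord h6)).1 (h7 η h12) with rfl | e
    exacts [h11, (h9 s).below h11 (h4.1 η h12) e]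
  · exact (h3 p h1 (Ex.refl p)).2 (ee_of_empty fun ξ h6 => h5 ⟨ξ, h6⟩)

end GenC

/-- closed unbounded subsets -/
def Clb (c κ : ZF) : Prop := c ⊆ κ ∧ (∀ η ∈ κ, ∃ ξ ∈ c, η ∈ ξ) ∧
  ∀ δ ∈ κ, (∃ η, η ∈ δ) → (∀ η ∈ δ, ∃ ξ ∈ δ, η ∈ ξ ∧ ξ ∈ c) → δ ∈ c

theorem not_stat {N : Set ZF} [TModel N] {c κ : ZF} {T : ZF → Prop} (hc : c ∈ N) (hκ : κ ∈ N)
    (h : Clb c κ) (h' : ∀ ξ ∈ c, ¬ T ξ) : ¬ Stat N κ T := fun hT => by
  have := In.mk' hc
  obtain ⟨δ, h1, h2, h3, h4⟩ := hT.close hκ (fun η ξ => η ∈ ξ ∧ ξ ∈ c) inferInstance fun η hη =>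
    (h.2.1 η hη).imp fun _ h1 => ⟨h.1 h1.1, h1.2, h1.1⟩
  refine h' δ (h.2.2 δ h1 ?_ h4) h2
  by_contra h5
  exact h3 ((eq_empty δ).2 fun y hy => h5 ⟨y, hy⟩)

/-- the club of the slot `s` -/
noncomputable def Cs (D : Dat) (C s : ZF) : ZF := ZFSet.sep (fun ξ => pair s ξ ∈ C) (D.K (fst s))

theorem mem_Cs : ξ ∈ Cs D C s ↔ ξ ∈ D.K (fst s) ∧ pair s ξ ∈ C := mem_sep

variable [hS : Sy M D]

theorem GenC.clb (g : GenC M D C) (h : Sl s) (h' : s ∈ M) :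
    Clb (Cs D C s) (D.K (fst s)) ∧ ∀ ξ ∈ Cs D C s, ¬ D.T ξ :=
  ⟨⟨sep_subset, fun _ hη => (g.unb h h' hη).imp fun _ h1 =>
    ⟨mem_sep.2 ⟨(g.pt h1.1).2.2.1, h1.1⟩, h1.2⟩, fun _ hδ h1 h2 => mem_sep.2 ⟨hδ, g.cl hδ
      ⟨h1, fun η hη => (h2 η hη).imp fun _ h3 => ⟨h3.1, h3.2.1, (mem_Cs.1 h3.2.2).2⟩⟩⟩⟩,
    fun _ h1 => (g.pt (mem_Cs.1 h1).2).2.2.2⟩

include hS in
theorem mem_HA : q ∈ HA D C A ↔ CM M D q ∧ LeA D A C q := by
  rw [HA, mem_sep, hS.univ, CM, and_assoc]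

theorem rs_mem_HA (hp : CM M D p) (h : LeA D A C p) (ha : a ∈ M) :
    rs a p ∈ HA D C A ∩ PS M D a :=
  mem_inter.2 ⟨mem_HA.2 ⟨(mem_PS.1 (hp.rs ha)).1, h.trans (ex_rs a p).leA⟩, hp.rs ha⟩

/-- the filter for a smaller class is read off from the filter for a larger class -/
theorem GenC.lev (g : GenC M D C) (hB : Df M (fun v => B (v 0))) (h : ∀ s, B s → A s) (ha : a ∈ M)
    (ho : IsOrdinal a) : q ∈ HA D C B ∩ PS M D a ↔
      ∃ p ∈ HA D C A ∩ PS M D a, pair p q ∈ Lr (le M D B) (PS M D) a := by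
  constructor
  · intro h1
    obtain ⟨h1, h2⟩ := mem_inter.1 h1
    obtain ⟨h1, h3⟩ := (mem_HA (M := M)).1 h1
    obtain ⟨p, h4, h5, h6⟩ := g.char hB h1 h3
    exact ⟨_, rs_mem_HA h4 h5.leA ha, mem_Lr.2 ⟨h4.rs ha, h2, (mem_PS.1 (h4.rs ha)).1, h1,
      h6.rs h2 ho⟩⟩
  · rintro ⟨p, h1, h2⟩
    obtain ⟨-, h2, -, h3, h4⟩ := mem_Lr.1 h2
    exact mem_inter.2 ⟨mem_HA.2 ⟨h3,
      (((mem_HA (M := M)).1 (mem_inter.1 h1).1).2.sub h).trans h4⟩, h2⟩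

theorem GenC.mem_C (g : GenC M D C) (h : Live D A C s) (ha : a ∈ M) (h1 : fst s ∈ a) :
    pair s ξ ∈ C ↔ ∃ q ∈ HA D C A ∩ PS M D a, pair s ξ ∈ q := by
  constructor
  · intro h2
    obtain ⟨q, h3, h4, h5⟩ := g.cov _ h2
    exact ⟨_, rs_mem_HA h3 h4.leA ha, mem_rs.2 ⟨h5, h1⟩⟩
  · rintro ⟨q, h2, h3⟩
    exact (((mem_HA (M := M)).1 (mem_inter.1 h2).1).2 s h).1 ξ h3

theorem Lr_mem (hA : Df M (fun v => A (v 0))) (ha : a ∈ M) : Lr (le M D A) (PS M D) a ∈ M := by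
  have := In.mk' ha
  unfold Lr
  exact In.mem _

namespace All

variable (X : All M D C) (hA : Df M (fun v => A (v 0)))
include X hA

theorem cxs (ha : a ∈ M) (ho : IsOrdinal a) :
    Cx M (PS M D a) (Lr (le M D A) (PS M D) a) (HA D C A ∩ PS M D a) := (X.cx A hA).cx a ha ho

theorem wmodel (ha : a ∈ M) (ho : IsOrdinal a) : TModel (WA M D C A a) := (X.cxs hA ha ho).model

theorem sub_W (ha : a ∈ M) (ho : IsOrdinal a) : M ⊆ WA M D C A a := (X.cxs hA ha ho).sub_ext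

theorem W_sub (ha : a ∈ M) (ho : IsOrdinal a) : WA M D C A a ⊆ MA M D C A :=
  fun x hx => ((X.cx A hA).un x).2 ⟨a, ha, ho, hx⟩

theorem sub_M : M ⊆ MA M D C A :=
  (X.sub_W hA empty_mem isOrdinal_empty).trans (X.W_sub hA empty_mem isOrdinal_empty)

omit X hA hS in
theorem _root_.Pool.Agent.P.MP_0b3dfe_lc.Q2.ord_val {G o : ZF} (h : o ∈ val G '' M)
    (ho : IsOrdinal o) : o ∈ M := by
  obtain ⟨t, ht, rfl⟩ := h
  have h1 := rk_mem t ht
  rcases (ho.subset_iff_eq_or_mem (rk_ord t)).1 ((ho.rank_le_iff_subset (rk_ord t)).1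
    (by simpa using rank_val G t)) with e | e
  exacts [e ▸ h1, tr h1 e]

theorem W_mono (hB : Df M (fun v => B (v 0))) (h : ∀ s, B s → A s) (ha : a ∈ M)
    (ho : IsOrdinal a) : WA M D C B a ⊆ WA M D C A a := by
  have := X.wmodel hA ha ho
  have h1 := X.sub_W hA ha ho
  have := In.mk' (h1 (X.cxs hA ha ho).hP)
  have := In.mk' (h1 (Lr_mem (D := D) hB ha))
  have := In.mk' (X.cxs hA ha ho).gen_mem
  refine ext_sub h1 ?_
  have e : HA D C B ∩ PS M D a = ZFSet.sep (fun q => ∃ p ∈ HA D C A ∩ PS M D a,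
      pair p q ∈ Lr (le M D B) (PS M D) a) (PS M D a) := ZFSet.ext fun q => by
    rw [mem_sep, ← X.gen.lev hB h ha ho]
    exact ⟨fun h2 => ⟨(mem_inter.1 h2).2, h2⟩, And.right⟩
  rw [e]
  exact In.mem _

theorem M_mono (hB : Df M (fun v => B (v 0))) (h : ∀ s, B s → A s) :
    MA M D C B ⊆ MA M D C A := fun x hx => by
  obtain ⟨a, ha, ho, h1⟩ := ((X.cx B hB).un x).1 hx
  exact X.W_sub hA ha ho (X.W_mono hA hB h ha ho h1)

theorem cs_mem (h : Live D A C s) (h1 : Sl s) (h2 : s ∈ M) (ha : a ∈ M) (ho : IsOrdinal a)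
    (h3 : fst s ∈ a) : Cs D C s ∈ WA M D C A a := by
  have := X.wmodel hA ha ho
  have h4 := X.sub_W hA ha ho
  have := In.mk' (h4 h2)
  have := In.mk' (h4 (hartK (D := D) h1 (fst_mem' h2)).mem)
  have := In.mk' (X.cxs hA ha ho).gen_mem
  rw [Cs, DefP.sep_congr fun ξ _ => X.gen.mem_C h ha h3]
  exact In.mem _

theorem cs_mem' (h : Live D A C s) (h1 : Sl s) (h2 : s ∈ M) : Cs D C s ∈ MA M D C A := by
  have := In.mk' h2
  exact X.W_sub hA (In.mem (insert (fst s) (fst s))) (isOrdinal_succ h1.ord)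
    (X.cs_mem hA h h1 h2 (In.mem _) (isOrdinal_succ h1.ord) (mem_insert _ _))

theorem kill (h : Live D A C s) (h1 : Sl s) (h2 : s ∈ M) :
    ¬ Stat (MA M D C A) (D.K (fst s)) D.T := by
  have := X.model A hA
  exact not_stat (X.cs_mem' hA h h1 h2) (X.sub_M hA (hartK (D := D) h1 (fst_mem' h2)).mem)
    (X.gen.clb h1 h2).1 (X.gen.clb h1 h2).2

/-- no new `ω`-sequences of elements of the ground model -/
theorem seq {f b : ZF} (hf : f ∈ MA M D C A) (hb : b ∈ M) (h : ∀ n : ℕ, app f (num n) ∈ b) :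
    ∃ g ∈ M, ∀ n : ℕ, app g (num n) = app f (num n) := by
  have := X.model A hA
  have := In.mk' hf
  refine ⟨graph (app f) om, ?_, fun n => app_graph (num_mem_omega n)⟩
  refine ext_sub (M := M) (N := M) (fun _ h => h) (Fn.mem ((fn_singleton ∅).subset fun q hq => ?_)
    fun q hq => (mem_PS.1 (mem_inter.1 hq).2).1.1) ((X.cx A hA).fn ∅ empty_mem isOrdinal_empty om
      hM.infinity (X.td A hA ∅ empty_mem isOrdinal_empty om hM.infinity
        (hS.crd.inf ∅ empty_mem isOrdinal_empty).omLe) b hb _ (In.mem _)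
      (graph_isFunc fun n hn => ?_).1 fun x y y' h1 h2 => ?_)
  · obtain ⟨h1, h2⟩ := mem_PS.1 (mem_inter.1 hq).2
    refine mem_singleton.2 ((eq_empty q).2 fun z hz => ?_)
    obtain ⟨s, ξ, rfl⟩ := h1.2.pr hz
    exact notMem_empty _ (h2 s ξ hz)
  · obtain ⟨n, rfl⟩ := mem_omega.1 hn
    exact h n
  · exact (pair_mem_graph.1 h1).2.symm.trans (pair_mem_graph.1 h2).2

end All

end Pool.Agent.P.MP_0b3dfe_lc.Q2
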