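import Pool.Agent.P.MP_0b3dfe_lc.Q2.Gen

/-! Homogeneity of the slots that are not parents. -/

set_option linter.unusedSectionVars false
set_option synthInstance.maxSize 100000

namespace Pool.Agent.P.MP_0b3dfe_lc.Q2

open ZFSet Pool.Agent.P.MP_3ab3de_lc Pool.Agent.P.MP_9a7e1f_lc ForceP

namespace Hom2P

/-- on the slots in `Z` the part of `u` up to the point given by `f` is replaced by `w` -/
noncomputable def hm (Z f w u : ZF) : ZF :=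
  ZFSet.sep (fun z => ¬ (fst z ∈ Z ∧ snd z ⊆ app f (fst z))) u ∪ ZFSet.sep (fun z => fst z ∈ Z) w

/-- the conditions above an element of `G` for the order `L` -/
noncomputable def lv (P L G : ZF) : ZF := ZFSet.sep (fun q => ∃ p ∈ G, pair p q ∈ L) P

instance ut_lv {A : Set ZF} {a b c : Set ZF → Env → ZF} [UT A a] [UT A b] [UT A c] :
    UT A (fun N v => lv (a N v) (b N v) (c N v)) := by unfold lv; infer_instance

instance tm_hm {M : Set ZF} [TModel M] {a b c d : Env → ZF} [Tm M a] [Tm M b] [Tm M c] [Tm M d] :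
    Tm M (fun v => hm (a v) (b v) (c v) (d v)) := by unfold hm; infer_instance

/-- `w` ends with the points given by `f` on the slots in `Z` -/
structure Top (M : Set ZF) (D : Dat) (A B : ZF → Prop) (a Z f w : ZF) : Prop where
  mem : w ∈ PS M D a
  pt : ∀ s ∈ Z, pair s (app f s) ∈ w
  le : ∀ s ∈ Z, ∀ ξ, pair s ξ ∈ w → ξ ⊆ app f s
  off : ∀ t, Live D A w t → B t → t ∉ Z

variable {M : Set ZF} [hM : TModel M] {D : Dat} [hS : Sy M D] {A B : ZF → Prop}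
  {a Z f w w' u u' x s ξ p q : ZF}

omit hM hS in
theorem mem_hm : pair s ξ ∈ hm Z f w u ↔
    (pair s ξ ∈ u ∧ ¬ (s ∈ Z ∧ ξ ⊆ app f s)) ∨ (pair s ξ ∈ w ∧ s ∈ Z) := by
  simp only [hm, mem_union, mem_sep, fst_pair, snd_pair]

omit hM hS in
theorem hm_out (h : s ∉ Z) : Eqs (hm Z f w u) u s := fun ξ => by simp [mem_hm, h]

omit hM hS in
theorem live_congr (hAB : ∀ s, A s → D.Par s → B (D.par s))
    (H : ∀ t, Live D A u t → B t → Eqs x u t) : Live D A x s ↔ Live D A u s := by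
  constructor <;> intro h
  · induction h with
    | mk s h1 _ h3 ih =>
      exact .mk s h1 ih fun h h4 => h3 h (h4.mono (H _ (ih h) (hAB s h1 h)).ee)
  · induction h with
    | mk s h1 h2 h3 ih =>
      exact .mk s h1 ih fun h h4 => h3 h (h4.mono (H _ (h2 h) (hAB s h1 h)).symm.ee)

theorem Top.cm (T : Top M D A B a Z f w) : CM M D w := (mem_PS.1 T.mem).1

theorem Top.ord (T : Top M D A B a Z f w) (hs : s ∈ Z) : IsOrdinal (app f s) := T.cm.ord (T.pt s hs)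

theorem Top.lt (T : Top M D A B a Z f w) (hs : s ∈ Z) (ho : IsOrdinal ξ) (h : ¬ ξ ⊆ app f s)
    {η : ZF} (h1 : pair s η ∈ w) : η ∈ ξ :=
  (T.cm.ord h1).mem_of_subset_of_mem ho (T.le s hs η h1)
    (by_contra fun h2 => h (((T.ord hs).notMem_iff_subset ho).1 h2))

theorem Top.hm_mem (T : Top M D A B a Z f w) (hZ : Z ∈ M) (hf : f ∈ M) (hu : u ∈ PS M D a) :
    hm Z f w u ∈ PS M D a := by
  obtain ⟨h1, h2⟩ := mem_PS.1 hu
  have := In.mk' hZ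
  have := In.mk' hf
  have := In.mk' h1.1
  have := In.mk' T.cm.1
  have h3 : ∀ z ∈ hm Z f w u, z ∈ u ∨ z ∈ w := fun z hz =>
    (mem_union.1 hz).imp (fun h => (mem_sep.1 h).1) fun h => (mem_sep.1 h).1
  refine mem_PS.2 ⟨⟨In.mem _, fun z hz => (h3 z hz).elim (h1.2.1 z) (T.cm.2.1 z),
    fun s _ δ hδ h => ?_⟩, fun s ξ h => (h3 _ h).elim (h2 s ξ) ((mem_PS.1 T.mem).2 s ξ)⟩
  obtain ⟨ζ, -, h4⟩ := h.ne
  have hk : IsOrdinal (D.K (fst s)) :=
    (h3 _ h4).elim (fun h => (h1.hart h).ord) fun h => (T.cm.hart h).ord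
  have ho : IsOrdinal δ := (isOrdinal_succ hk).mem hδ
  by_cases hs : s ∈ Z
  · by_cases h5 : δ ⊆ app f s
    · refine mem_hm.2 (Or.inr ⟨T.cm.cl ho (h.mono fun ξ h6 h7 => ?_), hs⟩)
      exact ((mem_hm.1 h7).resolve_left fun h8 =>
        h8.2 ⟨hs, (T.ord hs).subset_of_mem (h5 h6)⟩).1
    · refine mem_hm.2 (Or.inl ⟨h1.cl ho ⟨h.1, fun η hη => ?_⟩, fun h6 => h5 h6.2⟩)
      have h6 : app f s ∈ δ := T.lt hs ho h5 (T.pt s hs)
      have key : ∀ ξ, app f s ∈ ξ → pair s ξ ∈ hm Z f w u → pair s ξ ∈ u := fun ξ h7 h8 =>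
        ((mem_hm.1 h8).resolve_right fun h9 => mem_irrefl _ (T.le s hs ξ h9.1 h7)).1
      by_cases h7 : app f s ∈ η
      · obtain ⟨ξ, h8, h9, h10⟩ := h.2 η hη
        exact ⟨ξ, h8, h9, key ξ ((ho.mem h8).mem_trans h7 h9) h10⟩
      · obtain ⟨ξ, h8, h9, h10⟩ := h.2 _ h6
        exact ⟨ξ, h8, (ho.mem hη).mem_of_subset_of_mem (ho.mem h8)
          (((T.ord hs).notMem_iff_subset (ho.mem hη)).1 h7) h9, key ξ h9 h10⟩
  · exact (hm_out hs δ).2 (h1.cl ho (h.mono fun ξ _ => (hm_out hs ξ).1))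

omit hM hS in
theorem Top.eqs (T : Top M D A B a Z f w) (h : LeA D A u w) (t : ZF) (ht : Live D A u t)
    (hB : B t) : Eqs (hm Z f w' u) u t := hm_out (T.off t (ht.mono h) hB)

/-- the map between the two cones -/
theorem cone (hAB : ∀ s, A s → D.Par s → B (D.par s)) (T : Top M D A B a Z f w)
    (T' : Top M D A B a Z f w') (hZ : Z ∈ M) (hf : f ∈ M) (H : ∀ s, s ∉ Z → Eqs w w' s) (u : ZF)
    (hu : pair u w ∈ Lr (le M D A) (PS M D) a) :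
    pair (hm Z f w' u) w' ∈ Lr (le M D A) (PS M D) a ∧
      pair (hm Z f w (hm Z f w' u)) u ∈ Lr (le M D A) (PS M D) a ∧
      pair u (hm Z f w (hm Z f w' u)) ∈ Lr (le M D A) (PS M D) a ∧
      ∀ u', pair u' u ∈ Lr (le M D A) (PS M D) a →
        pair (hm Z f w' u') (hm Z f w' u) ∈ Lr (le M D A) (PS M D) a := by
  obtain ⟨h1, -, h2, -, h3⟩ := mem_Lr.1 hu
  have h4 := T'.hm_mem hZ hf h1
  have h5 := T.hm_mem hZ hf h4
  have mk : ∀ {x y : ZF}, x ∈ PS M D a → y ∈ PS M D a → LeA D A x y →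
      pair x y ∈ Lr (le M D A) (PS M D) a := fun hx hy h =>
    mem_Lr.2 ⟨hx, hy, (mem_PS.1 hx).1, (mem_PS.1 hy).1, h⟩
  have e : ∀ s, Live D A u s → Eqs (hm Z f w (hm Z f w' u)) u s := fun s hs => by
    by_cases h : s ∈ Z
    · intro ξ
      rw [mem_hm, mem_hm]
      constructor
      · rintro (⟨h6 | h6, h7⟩ | h6)
        · exact h6.1
        · exact absurd ⟨h, T'.le s h ξ h6.1⟩ h7
        · exact (h3 s hs).1 ξ h6.1
      · intro h6
        by_cases h7 : ξ ⊆ app f s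
        · exact Or.inr ⟨((h3 s hs).2 ξ h6).resolve_right fun h8 =>
            mem_irrefl _ (h7 (h8 _ (T.pt s h))), h⟩
        · exact Or.inl ⟨Or.inl ⟨h6, fun h8 => h7 h8.2⟩, fun h8 => h7 h8.2⟩
    · exact (hm_out h).trans (hm_out h)
  refine ⟨mk h4 T'.mem fun s hs => ?_, mk h5 h1 fun s hs => ?_, mk h1 h5 fun s hs => (e s hs).symm.ee,
    fun u' hu' => ?_⟩
  · by_cases h : s ∈ Z
    · refine ⟨fun ξ h6 => mem_hm.2 (Or.inr ⟨h6, h⟩), fun ξ h6 => ?_⟩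
      rcases mem_hm.1 h6 with h7 | h7
      · exact Or.inr fun η => T'.lt h (h2.ord h7.1) fun h8 => h7.2 ⟨h, h8⟩
      · exact Or.inl h7.1
    · exact ((hm_out h).ee.trans (h3 s ((live_congr hAB (T.eqs h3)).1 hs))).trans (H s h).ee
  · exact (e s ((live_congr hAB fun t ht _ => e t ht).1 hs)).ee
  · obtain ⟨h6, -, h7, -, h8⟩ := mem_Lr.1 hu'
    refine mk (T'.hm_mem hZ hf h6) h4 fun s hs => ?_
    have h9 := h8 s ((live_congr hAB (T.eqs (h8.trans h3))).1 hs)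
    by_cases h : s ∈ Z
    · refine ⟨fun ξ h10 => mem_hm.2 ((mem_hm.1 h10).imp_left fun h11 => ⟨h9.1 ξ h11.1, h11.2⟩),
        fun ξ h10 => ?_⟩
      rcases mem_hm.1 h10 with h11 | h11
      · refine (h9.2 ξ h11.1).imp (fun h12 => mem_hm.2 (Or.inl ⟨h12, h11.2⟩)) fun h12 η h13 => ?_
        exact (mem_hm.1 h13).elim (fun h14 => h12 η h14.1)
          fun h14 => T'.lt h (h7.ord h11.1) (fun h15 => h11.2 ⟨h, h15⟩) h14.1
      · exact Or.inl (mem_hm.2 (Or.inr h11))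
    · exact ((hm_out h).ee.trans h9).trans (hm_out h).symm.ee

/-- two conditions with the same tops on the slots where they differ -/
theorem tops (hB : Df M (fun v => B (v 0))) (hAB : ∀ s, A s → D.Par s → B (D.par s))
    (hp : p ∈ PS M D a) (hq : q ∈ PS M D a) (h : LeA D B q p) :
    ∃ Z ∈ M, ∃ f ∈ M, ∃ w w', Top M D A B a Z f w ∧ Top M D A B a Z f w' ∧
      (∀ s, s ∉ Z → Eqs w w' s) ∧ Ex w p ∧ Ex w' q := by
  obtain ⟨cp, sp⟩ := mem_PS.1 hp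
  obtain ⟨cq, sq⟩ := mem_PS.1 hq
  obtain ⟨r, cr, h1, h2, h3, h4⟩ := proj hB cp cq h
  have sr : ∀ s ξ, pair s ξ ∈ r → fst s ∈ a := fun s ξ h5 => by
    by_cases h6 : Live D B q s
    exacts [sq s ξ ((h3 s h6 ξ).1 h5), sp s ξ ((h4 s h6 ξ).1 h5)]
  have := In.mk' cr.1
  have := In.mk' cq.1
  obtain ⟨Z, hZ, eZ⟩ : ∃ Z ∈ M, ∀ s, s ∈ Z ↔
      ((∃ ξ, pair s ξ ∈ r) ∨ ∃ ξ, pair s ξ ∈ q) ∧ ¬ Live D B q s :=
    ⟨ZFSet.sep (fun s => ¬ Live D B q s) (dom r ∪ dom q), In.mem _, fun s => by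
      have e : ∀ y, CM M D y → (s ∈ dom y ↔ ∃ ξ, pair s ξ ∈ y) := fun y cy =>
        ⟨fun h => by
          obtain ⟨z, h5, rfl⟩ := mem_dom.1 h
          obtain ⟨s, ξ, rfl⟩ := cy.2.pr h5
          exact ⟨ξ, by rwa [fst_pair]⟩, fun ⟨_, h⟩ => mem_dom_of h⟩
      rw [mem_sep, mem_union, e r cr, e q cq]⟩
  have hs : ∀ s ∈ Z, Sl s ∧ fst s ∈ a ∧ ∃ ξ, ξ ∈ D.K (fst s) := fun s hs => by
    rcases ((eZ s).1 hs).1 with ⟨ξ, h5⟩ | ⟨ξ, h5⟩
    exacts [⟨(cr.2.pt h5).1, sr s ξ h5, ξ, (cr.2.pt h5).2.1⟩,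
      ⟨(cq.2.pt h5).1, sq s ξ h5, ξ, (cq.2.pt h5).2.1⟩]
  obtain ⟨f, hf, h5⟩ := skolem (M := M) (fun s ξ => ξ ∈ D.K (fst s) ∧ ¬ D.T ξ ∧
    (∀ ζ, pair s ζ ∈ r → ζ ∈ ξ) ∧ ∀ ζ, pair s ζ ∈ q → ζ ∈ ξ) inferInstance hZ fun s h5 => by
      have h0 := fst_mem' (tr hZ h5)
      obtain ⟨h6, -, η, h7⟩ := hs s h5
      obtain ⟨ξ, h8, -, -, h9⟩ := cr.above h6 h0 h7
      obtain ⟨ξ', h10, h11, h12, h13⟩ := cq.above h6 h0 h8
      have hk := hartK (D := D) h6 h0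
      exact ⟨ξ', tr hk.mem h10, h10, h11, fun ζ h14 => (hk.ord.mem h10).mem_trans (h9 ζ h14) h12, h13⟩
  have := In.mk' hf
  have key : ∀ y, CM M D y → (∀ s ξ, pair s ξ ∈ y → fst s ∈ a) → LeA D B y q →
      (∀ s ∈ Z, ∀ ζ, pair s ζ ∈ y → ζ ∈ app f s) →
      Top M D A B a Z f (y ∪ graph (app f) Z) ∧ Ex (y ∪ graph (app f) Z) y := fun y cy sy ly hy => by
    obtain ⟨h6, h7⟩ := cy.addpts hZ (app f) inferInstance fun s h6 =>
      ⟨(hs s h6).1, (h5 s h6).1, (h5 s h6).2.1, hy s h6⟩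
    have e : ∀ s ξ, pair s ξ ∈ y ∪ graph (app f) Z ↔ pair s ξ ∈ y ∨ (s ∈ Z ∧ app f s = ξ) :=
      fun s ξ => by simp
    refine ⟨⟨mem_PS.2 ⟨h6, fun s ξ h8 => ((e s ξ).1 h8).elim (sy s ξ) fun h9 => (hs s h9.1).2.1⟩,
      fun s h8 => (e s _).2 (Or.inr ⟨h8, rfl⟩), fun s h8 ξ h9 => ?_, fun t h8 h9 h10 => ?_⟩, h7⟩
    · rcases (e s ξ).1 h9 with h10 | h10
      · exact (h6.ord ((e s _).2 (Or.inr ⟨h8, rfl⟩))).subset_of_mem (hy s h8 ξ h10)
      · exact h10.2 ▸ subset_rfl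
    · exact ((eZ t).1 h10).2 (((h8.mono h7.leA).up (fun t h11 _ => hAB t h11) h9).mono ly)
  obtain ⟨T, E⟩ := key r cr sr h2 fun s h6 => (h5 s h6).2.2.1
  obtain ⟨T', E'⟩ := key q cq sq (LeA.refl q) fun s h6 => (h5 s h6).2.2.2
  refine ⟨Z, hZ, f, hf, _, _, T, T', fun s h6 ξ => ?_, E.trans h1, E'⟩
  have : pair s ξ ∈ r ↔ pair s ξ ∈ q := by
    by_cases h7 : Live D B q s
    · exact h3 s h7 ξ
    · exact iff_of_false (fun h8 => h6 ((eZ s).2 ⟨Or.inl ⟨ξ, h8⟩, h7⟩))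
        fun h8 => h6 ((eZ s).2 ⟨Or.inr ⟨ξ, h8⟩, h7⟩)
  simp [this]

theorem key (hc : S_Cone) (hB : Df M (fun v => B (v 0))) (hBA : ∀ s, B s → A s)
    (hAB : ∀ s, A s → D.Par s → B (D.par s)) (hP : PS M D a ∈ M)
    (hL : Lr (le M D A) (PS M D) a ∈ M) (po : PO (PS M D a) (Lr (le M D A) (PS M D) a))
    (hp : p ∈ PS M D a) (hq : q ∈ PS M D a) (h : LeA D B q p) :
    ∃ G G', Gen M (PS M D a) (Lr (le M D A) (PS M D) a) G ∧
      Gen M (PS M D a) (Lr (le M D A) (PS M D) a) G' ∧ p ∈ G ∧ q ∈ G' ∧ val G' '' M = val G '' M ∧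
      lv (PS M D a) (Lr (le M D B) (PS M D) a) G' = lv (PS M D a) (Lr (le M D B) (PS M D) a) G := by
  obtain ⟨Z, hZ, f, hf, w, w', T, T', H, E, E'⟩ := tops (A := A) hB hAB hp hq h
  obtain ⟨G, g, hw⟩ := genEx M hS.cnt _ _ po w T.mem
  have := In.mk' hZ
  have := In.mk' hf
  have := In.mk' T.cm.1
  have := In.mk' T'.cm.1
  obtain ⟨G', c, h1, h2, h3⟩ := hc M _ _ G ⟨hP, hL, po, g⟩ w hw w' T'.mem (hm Z f w') (hm Z f w)
    inferInstance inferInstance (cone hAB T T' hZ hf H) (cone hAB T' T hZ hf fun s hs => (H s hs).symm)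
  refine ⟨G, G', g, c.gen, g.up w hw p (mem_Lr.2 ⟨T.mem, hp, T.cm, (mem_PS.1 hp).1, E.leA⟩),
    c.gen.up w' h1 q (mem_Lr.2 ⟨T'.mem, hq, T'.cm, (mem_PS.1 hq).1, E'.leA⟩), h2,
    ZFSet.ext fun r => ?_⟩
  rw [lv, lv, mem_sep, mem_sep]
  refine and_congr_right fun hr => ⟨?_, ?_⟩
  · rintro ⟨y, h4, h5⟩
    obtain ⟨u, h6, h7, h8⟩ := (h3 y).1 h4
    obtain ⟨h9, -, h10, -, h11⟩ := mem_Lr.1 h7
    refine ⟨u, h6, mem_Lr.2 ⟨h9, hr, h10, (mem_PS.1 hr).1, LeA.trans (w := hm Z f w' u)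
      (fun s hs => (T.eqs h11 s (hs.sub hBA) (live_iff.1 hs).1).symm.ee)
      (((mem_Lr.1 h8).2.2.2.2.sub hBA).trans (mem_Lr.1 h5).2.2.2.2)⟩⟩
  · rintro ⟨y, h4, h5⟩
    obtain ⟨u, h6, h7, h8⟩ := g.dir y h4 w hw
    obtain ⟨h9, -, h10, -, h11⟩ := mem_Lr.1 h8
    have h12 := T'.hm_mem hZ hf h9
    refine ⟨hm Z f w' u, (h3 _).2 ⟨u, h6, h8, po.refl _ h12⟩, mem_Lr.2 ⟨h12, hr, (mem_PS.1 h12).1,
      (mem_PS.1 hr).1, LeA.trans (w := u) (fun s hs => (T.eqs h11 s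
        ((live_congr hAB (T.eqs h11)).1 (hs.sub hBA)) (live_iff.1 hs).1).ee)
      (((mem_Lr.1 h7).2.2.2.2.sub hBA).trans (mem_Lr.1 h5).2.2.2.2)⟩⟩

end Hom2P

open Hom2P in
theorem hom2 (h : S_Cone) : S_Hom := by
  intro M hM D hS C X A B hA hB hBA hAB a ha ho φ v hv x ⟨t, ht, e⟩
  subst e
  obtain ⟨τ, hτ, rfl⟩ := exists_names hv
  have cA := X.cxs hA ha ho
  have cB := X.cxs hB ha ho
  have eG : lv (PS M D a) (Lr (le M D B) (PS M D) a) (HA D C A ∩ PS M D a) = HA D C B ∩ PS M D a :=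
    ZFSet.ext fun q => by
      rw [lv, mem_sep, ← X.gen.lev hB hBA ha ho]
      exact ⟨And.right, fun h2 => ⟨(mem_inter.1 h2).2, h2⟩⟩
  let Q : Set ZF → ZF → ZF → ZF → Prop := fun N G s _ =>
    Sat N φ (cons (val (lv (PS M D a) (Lr (le M D B) (PS M D) a) G) s)
      fun k => val (lv (PS M D a) (Lr (le M D B) (PS M D) a) G) (τ k))
  have hQ : UD M (fun N v => Q N (v 0) (v 1) (v 2)) := by
    have := UI.mk' (A := M) cB.hP
    have := UI.mk' (A := M) cB.hL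
    refine (UD.subst0 φ (cns (fun _ v => val (lv (PS M D a) (Lr (le M D B) (PS M D) a) (v 0)) (v 1))
      fun k _ v => val (lv (PS M D a) (Lr (le M D B) (PS M D) a) (v 0)) (τ k)) fun k => ?_).congr
      fun N _ v _ => ?_
    · cases k with
      | zero => exact (inferInstance : UT M fun _ v =>
          val (lv (PS M D a) (Lr (le M D B) (PS M D) a) (v 0)) (v 1))
      | succ k =>
        have := UI.mk' (A := M) (hτ k)
        exact (inferInstance : UT M fun _ v =>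
          val (lv (PS M D a) (Lr (le M D B) (PS M D) a) (v 0)) (τ k))
    · refine iff_of_eq (congrArg (Sat N φ) (funext fun k => ?_))
      cases k <;> rfl
  have hF := frc_df hS.cnt cA.hP cA.hL cA.po hQ
  have := In.mk' cB.hP
  have := In.mk' cB.hL
  have := fun s t [Tm M s] [Tm M t] => hF.three s t fun _ => ∅
  obtain ⟨b, hb, -, h0⟩ := cB.sep_name ht
    (fun p s => ∃ p0 ∈ PS M D a, Frc M (PS M D a) (Lr (le M D A) (PS M D) a) Q p0 s ∅ ∧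
      pair p p0 ∈ Lr (le M D B) (PS M D) a) inferInstance
    (fun x => Sat (WA M D C A a) φ (cons x fun k => val (HA D C B ∩ PS M D a) (τ k)))
    (fun s _ p q ⟨p0, h1, h2, h3⟩ h4 => ⟨p0, h1, h2, cB.po.trans _ _ _ h4 h3⟩)
    fun s hs => by
      have eQ : Q (WA M D C A a) (HA D C A ∩ PS M D a) s ∅ ↔ Sat (WA M D C A a) φ
          (cons (val (HA D C B ∩ PS M D a) s) fun k => val (HA D C B ∩ PS M D a) (τ k)) := by
        simp only [Q, eG]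
      rw [← eQ]
      constructor
      · intro h1
        obtain ⟨p, h2, h3⟩ := frc_truth hS.cnt cA hQ hs empty_mem h1
        exact ⟨p, (X.gen.lev hB hBA ha ho).2 ⟨p, h2, cB.po.refl p h3.1⟩, p, h3.1, h3,
          cB.po.refl p h3.1⟩
      · rintro ⟨p, h1, p0, h2, h3, h4⟩
        by_contra h5
        obtain ⟨q0, h6, h7⟩ := frc_truth (Q := fun N G a b => ¬ Q N G a b) hS.cnt cA
          (@UD.not _ _ hQ) hs empty_mem h5
        obtain ⟨p', h8, h9⟩ := (X.gen.lev hB hBA ha ho).1 (cB.gen.up p h1 p0 h4)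
        obtain ⟨q, h10, h11, h12⟩ := cA.gen.dir q0 h6 p' h8
        obtain ⟨G, G', g, g', a1, a2, a3, a4⟩ := key h hB hBA hAB cA.hP cA.hL cA.po h2
          (cA.gen.sub h10) (((mem_Lr.1 h12).2.2.2.2.sub hBA).trans (mem_Lr.1 h9).2.2.2.2)
        refine h7.2 G' g' (g'.up q a2 q0 h11) ?_
        have := h3.2 G g a1
        simp only [Q, a3, a4] at this ⊢
        exact this
  exact ⟨b, hb, ZFSet.ext fun x => by rw [h0 x, mem_sep]⟩

end Pool.Agent.P.MP_0b3dfe_lc.Q2
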