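import Pool.Agent.P.MP_0b3dfe_lc.Q2.Gen

/-! The generic family exists, and the class forcings are tame. -/

set_option linter.unusedSectionVars false
set_option synthInstance.maxSize 100000

namespace Pool.Agent.P.MP_0b3dfe_lc.Q2

open ZFSet Pool.Agent.P.MP_3ab3de_lc Pool.Agent.P.MP_9a7e1f_lc ForceP

namespace InstP

/-- the definable classes of a countable structure are listed -/
theorem list_df {M : Set ZF} (hM : M.Countable) : ∃ F : ℕ → ZF → Prop,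
    ∀ E : ZF → Prop, Df M (fun v => E (v 0)) → ∃ n, ∀ x ∈ M, (E x ↔ F n x) := by
  have := hM.to_subtype
  have : Nonempty (Fml × List (ℕ ⊕ M)) := ⟨(Fml.bot, [])⟩
  obtain ⟨f, hf⟩ := exists_surjective_nat (Fml × List (ℕ ⊕ M))
  refine ⟨fun n x => Sat M (f n).1 fun i =>
    Sum.elim (fun _ => x) Subtype.val ((f n).2.getD i (Sum.inl 0)), fun E hE => ?_⟩
  obtain ⟨φ, ρ, h⟩ := hE
  obtain ⟨k, hk⟩ := MinP.fin_dep φ
  obtain ⟨n, hn⟩ := hf (φ, List.ofFn fun i : Fin k => ρ i)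
  refine ⟨n, fun x hx => (h (fun _ => x) fun _ => hx).trans ?_⟩
  simp only [hn]
  exact hk M _ _ fun i hi => by simp [hi]

variable {M : Set ZF} [hM : TModel M] {D : Dat} {A : ZF → Prop} {C p q r t a : ZF}

instance tm_mix {a b c : Env → ZF} [Tm M a] [Tm M b] [Tm M c] :
    Tm M (fun v => mix (fun s => fst s ∈ a v) (b v) (c v)) := by
  unfold mix; infer_instance

theorem cm_mix (hp : CM M D p) (hq : CM M D q) (ha : a ∈ M) :
    CM M D (mix (fun s => fst s ∈ a) p q) := by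
  have := In.mk' ha
  exact hp.mix hq _ inferInstance

theorem le_refl' (hp : CM M D p) : le M D A p p := ⟨hp, hp, LeA.refl p⟩

theorem eqs_rs {s : ZF} (h : fst s ∈ a) : Eqs (rs a p) p s := fun _ => by simp [mem_rs, h]

theorem eqs_tl {s : ZF} (h : fst s ∉ a) : Eqs (tl a p) p s := fun _ => by simp [mem_tl, h]

theorem ex_mix (hp : p ∈ PS M D a) : Ex (mix (fun s => fst s ∈ a) p q) p := fun s => by
  by_cases h : fst s ∈ a
  · exact (mix_pos (Z := fun s => fst s ∈ a) h).ee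
  · exact ee_of_empty fun ξ h1 => h ((mem_PS.1 hp).2 s ξ h1)

variable [hS : Sy M D]

theorem td (hA : Df M (fun v => A (v 0))) (ha : a ∈ M) (ho : IsOrdinal a) {X : ZF} (hX : X ∈ M)
    (hl : Le M X (D.R a)) : TD M (le M D A) (PS M D) a X := by
  intro E hE H p hp
  have := In.mk' ha
  have := In.mk' hX
  have := fun s t [Tm M s] [Tm M t] => hE.two s t
  obtain ⟨q, h1, h2, h3⟩ := hS.ptd a ha ho (prod X (PS M D a)) (In.mem _)
    ((hS.crd.inf a ha ho).prod hl (le_PS ha ho))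
    (fun z t => ∃ p'' ∈ PS M D a, le M D A p'' (snd z) ∧ ∃ w ∈ M, E (fst z) w ∧
      le M D A (mix (fun s => fst s ∈ a) p'' t) w) inferInstance
    (fun z hz t ht => by
      obtain ⟨x, hx, p', hp', rfl⟩ := mem_prod.1 hz
      have h1 := cm_mix (mem_PS.1 hp').1 ht.1 ha
      obtain ⟨w, h2, h3⟩ := H x hx _ (le_refl' h1)
      obtain ⟨r, h4, h5, h6, -⟩ := proj hA h1 h2.1 h2.2.2
      refine ⟨tl a r, h4.tl ha, fun s => ?_, rs a r, h4.rs ha, ?_, w, h2.1.1, ?_, ?_⟩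
      · by_cases h : fst s ∈ a
        · exact ee_of_empty fun ξ h7 => ht.2 s ξ h7 h
        · exact ((eqs_tl h).ee.trans (h5 s)).trans (mix_neg (Z := fun s => fst s ∈ a) h).ee
      · rw [snd_pair]
        exact ⟨(mem_PS.1 (h4.rs ha)).1, (mem_PS.1 hp').1,
          (h5.trans (ex_mix hp')).leA.rs hp' ho⟩
      · rwa [fst_pair]
      · refine ⟨cm_mix (mem_PS.1 (h4.rs ha)).1 (h4.tl ha).1 ha, h2.1,
          LeA.trans (Ex.leA fun s => ?_) h6⟩
        by_cases h : fst s ∈ a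
        · exact ((mix_pos (Z := fun s => fst s ∈ a) h).trans (eqs_rs h)).ee
        · exact ((mix_neg (Z := fun s => fst s ∈ a) h).trans (eqs_tl h)).ee)
    (tl a p) (hp.1.tl ha)
  refine ⟨mix (fun s => fst s ∈ a) p q, ⟨cm_mix hp.1 h1.1 ha, hp.1, Ex.leA fun s => ?_⟩,
    fun x hx p' hp' => ?_⟩
  · by_cases h : fst s ∈ a
    · exact (mix_pos (Z := fun s => fst s ∈ a) h).ee
    · exact ((mix_neg (Z := fun s => fst s ∈ a) h).ee.trans (h2 s)).trans (eqs_tl h).ee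
  · obtain ⟨t, -, ⟨p'', h4, h5, w, h6, h7, h8⟩, h9⟩ := h3 (pair x p') (pair_mem_prod.2 ⟨hx, hp'⟩)
    rw [snd_pair] at h5
    rw [fst_pair] at h7
    refine ⟨p'', h4, h5, w, h6, h7, fun u _ h10 h11 =>
      ⟨h10.1, h8.2.1, LeA.trans (fun s hs => ?_) h8.2.2⟩⟩
    by_cases h : fst s ∈ a
    · exact (h10.2.2 s hs).trans (mix_pos (Z := fun s => fst s ∈ a) h).symm.ee
    · exact (((h11.2.2 s hs).trans (mix_neg (Z := fun s => fst s ∈ a) h).ee).trans (h9 s)).trans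
        (mix_neg (Z := fun s => fst s ∈ a) h).symm.ee

theorem cf (g : GenC M D C) (hA : Df M (fun v => A (v 0))) :
    CF M (le M D A) (PS M D) (HA D C A) where
  dle := inferInstance
  tPS := inferInstance
  lr _ _ h := ⟨le_refl' h.1, le_refl' h.2.1⟩
  mem _ h := h.1.1
  trans _ _ _ h h' := ⟨h.1, h'.2.1, h.2.2.trans h'.2.2⟩
  ps _ _ h := le_refl' (mem_PS.1 h).1
  mono _ _ h := PS_mono h
  ex _ h := h.1.ex_ps
  proj a ha ho p hp := by
    have h1 := hp.1.rs ha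
    refine ⟨rs a p, h1, ⟨hp.1, (mem_PS.1 h1).1, (ex_rs a p).leA⟩,
      fun q hq h => ⟨(mem_PS.1 h1).1, h.2.1, h.2.2.rs hq ho⟩, fun q hq h => ?_⟩
    have h2 := cm_mix h.1 hp.1 ha
    refine ⟨_, ⟨h2, h.1, (ex_mix hq).leA⟩, h2, hp.1, fun s hs => ?_⟩
    by_cases h3 : fst s ∈ a
    · exact ((mix_pos (Z := fun s => fst s ∈ a) h3).ee.trans (h.2.2 s (hs.loc (M := M) ho
        (ho.subset_of_mem h3) fun t ht => (mix_pos (Z := fun s => fst s ∈ a) ht).symm))).trans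
        (eqs_rs h3).ee
    · exact (mix_neg (Z := fun s => fst s ∈ a) h3).ee
  td X hX a ha ho := by
    obtain ⟨o, h1, h2, f, hf, -, -, h3⟩ := numer hX
    obtain ⟨b, h4, h5, h6, h7⟩ : ∃ b ∈ M, IsOrdinal b ∧ a ⊆ b ∧ o ⊆ b := by
      rcases ho.subset_total h2 with h | h
      · exact ⟨o, h1, h2, h, fun _ h => h⟩
      · exact ⟨a, ha, ho, fun _ h => h, h⟩
    exact ⟨b, h4, h5, h6, td hA h4 h5 hX (Le.trans ⟨f, hf, h3⟩
      (((hS.crd.hart b h4 h5).le b (hS.crd.self b h4 h5)).mono h7) (hS.crd.inf b h4 h5).mem)⟩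
  sub _ h := le_refl' ((mem_HA (M := M)).1 h).1
  up _ h _ h' := mem_HA.2 ⟨h'.2.1, ((mem_HA (M := M)).1 h).2.trans h'.2.2⟩
  dir p hp q hq := by
    obtain ⟨h1, h2⟩ := (mem_HA (M := M)).1 hp
    obtain ⟨h3, h4⟩ := (mem_HA (M := M)).1 hq
    obtain ⟨p', h5, h6, h7⟩ := g.char hA h1 h2
    obtain ⟨q', h8, h9, h10⟩ := g.char hA h3 h4
    obtain ⟨k1, k2, k3, k4⟩ := un h5 h8 h6 h9
    exact ⟨_, mem_HA.2 ⟨k1, k2.leA⟩, ⟨k1, h1, k3.leA.trans h7⟩, k1, h3, k4.leA.trans h10⟩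
  meet E hE H := by
    have := fun s [Tm M s] => hE.one s
    obtain ⟨r, -, h1, q, -, h2, h3⟩ := g.meet (fun p => ∃ q ∈ M, le M D A p q ∧ E q) inferInstance
      fun p hp => by
        obtain ⟨q, h1, h2⟩ := H p (le_refl' hp)
        obtain ⟨r, h3, h4, h5, -⟩ := proj hA hp h1.1 h1.2.2
        exact ⟨r, h3, h4, q, h1.1.1, ⟨h3, h1.1, h5⟩, h2⟩
    exact ⟨q, mem_HA.2 ⟨h2.2.1, h1.leA.trans h2.2.2⟩, h3⟩

end InstP

theorem genc : S_GenC := by
  intro M _ D hS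
  obtain ⟨F, hF⟩ := InstP.list_df hS.cnt
  have h1 : ∀ (n : ℕ) (r : ZF), ∃ q, CM M D r → CM M D q ∧ Ex q r ∧
      ((∃ q', CM M D q' ∧ Ex q' r ∧ F n q') → F n q) := by
    intro n r
    by_cases h : ∃ q', CM M D q' ∧ Ex q' r ∧ F n q'
    · obtain ⟨q, h1, h2, h3⟩ := h
      exact ⟨q, fun _ => ⟨h1, h2, fun _ => h3⟩⟩
    · exact ⟨r, fun hr => ⟨hr, Ex.refl r, fun h' => absurd h' h⟩⟩
  choose nx hnx using h1
  let s : ℕ → ZF := fun n => Nat.rec ∅ (fun n r => nx n r) n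
  have hs : ∀ n, CM M D (s n) := by
    intro n
    induction n with
    | zero => exact cm_empty
    | succ n ih => exact (hnx n _ ih).1
  have hle : ∀ m n, m ≤ n → Ex (s n) (s m) := by
    intro m n h
    induction h with
    | refl => exact Ex.refl _
    | step _ ih => exact (hnx _ _ (hs _)).2.1.trans ih
  have hC : ∀ z, z ∈ ZFSet.sep (fun z => ∃ n, z ∈ s n) D.U ↔ ∃ n, z ∈ s n := fun z =>
    mem_sep.trans ⟨And.right, fun ⟨n, h⟩ => ⟨(hS.univ z).2 (tr (hs n).1 h), n, h⟩⟩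
  have hE : ∀ m, Ex (ZFSet.sep (fun z => ∃ n, z ∈ s n) D.U) (s m) := fun m t =>
    ⟨fun _ h => (hC _).2 ⟨m, h⟩, fun ξ h => by
      obtain ⟨n, h⟩ := (hC _).1 h
      exact (hle _ _ (le_max_left m n) t).2 ξ ((hle _ _ (le_max_right m n) t).1 ξ h)⟩
  refine ⟨ZFSet.sep (fun z => ∃ n, z ∈ s n) D.U, fun z hz => ?_, fun E hd H => ?_⟩
  · obtain ⟨n, h⟩ := (hC z).1 hz
    exact ⟨s n, hs n, hE n, h⟩
  · obtain ⟨n, hn⟩ := hF E hd
    obtain ⟨q, h1, h2, h3⟩ := H _ (hs n)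
    exact ⟨s (n + 1), hs (n + 1), hE (n + 1), (hn _ (hs (n + 1)).1).2
      ((hnx n _ (hs n)).2.2 ⟨q, h1, h2, (hn q h1.1).1 h3⟩)⟩

theorem inst : S_Inst := fun _ _ _ _ _ g _ hA =>
  ⟨fun _ ha ho _ hX hl => InstP.td hA ha ho hX hl, InstP.cf g hA⟩

end Pool.Agent.P.MP_0b3dfe_lc.Q2
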