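import Pool.Agent.P.MP_0b3dfe_lc.Q2.Gen

/-! The coded clubs are read off in the inner model of stationary logic. -/

set_option linter.unusedSectionVars false
set_option synthInstance.maxSize 100000

namespace Pool.Agent.P.MP_0b3dfe_lc.Q2

open ZFSet Pool.Agent.P.MP_3ab3de_lc Pool.Agent.P.MP_9a7e1f_lc ForceP

namespace LowP

theorem stat_sep {N : Set ZF} {κ : ZF} {T : ZF → Prop} :
    Stat N κ (fun ξ => ξ ∈ ZFSet.sep T κ) ↔ Stat N κ T :=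
  forall₃_congr fun _ _ _ => exists_congr fun _ => and_congr_right fun h => by simp [h]

theorem inf_up {M N : Set ZF} {R : ZF} (h : Inf M R) (h' : M ⊆ N) : Inf N R :=
  ⟨h' h.mem, h.sq.imp fun _ a => ⟨h' a.1, a.2⟩, h.omLe.imp fun _ a => ⟨h' a.1, a.2⟩⟩

end LowP

theorem low2 (h1 : S_Pat) (h2 : S_Dec2) : S_Low := by
  intro M _ D hS C X A B hA hB hBA hBp hc
  have := X.model A hA
  obtain ⟨hC, -, hO⟩ := caaZ' hLZ (MA M D C A)
  have hM := X.sub_M hA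
  have m1 : M ⊆ Caa (MA M D C A) := fun x hx => by
    obtain ⟨α, h1, h2, h3⟩ := hS.vl x hx
    have := UI.mk' (hO α (hM h1) h2)
    exact ztr (UI.mem (LS α)) h3
  intro x hx
  obtain ⟨a, ha, ho, hx⟩ := ((X.cx B hB).un x).1 hx
  refine ext_sub m1 ?_ hx
  have := In.mk' ha
  have := fun s [Tm M s] => hA.one s
  have := fun s [Tm M s] => hB.one s
  obtain ⟨I, hI, pI, mI⟩ : ∃ I ∈ M, (∀ z ∈ I, ∃ s ξ, z = pair s ξ) ∧ ∀ s ξ, pair s ξ ∈ I ↔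
      s ∈ prod a (num 2) ∧ ξ ∈ D.K (fst s) ∧ B s ∧ ¬ D.T ξ := by
    refine ⟨ZFSet.sep (fun z => B (fst z) ∧ ¬ D.T (snd z)) (Uo D.K a), In.mem _, fun z hz => ?_,
      fun s ξ => ?_⟩
    · obtain ⟨s, -, ξ, -, e⟩ := mem_Uo.1 (mem_sep.1 hz).1
      exact ⟨s, ξ, e⟩
    · rw [mem_sep, mem_Uo, fst_pair, snd_pair, ← and_assoc (a := s ∈ _)]
      refine and_congr_left' ⟨?_, fun h => ⟨s, h.1, ξ, h.2, rfl⟩⟩
      rintro ⟨_, h3, _, h4, e⟩
      obtain ⟨rfl, rfl⟩ := pair_inj.1 e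
      exact ⟨h3, h4⟩
  obtain ⟨f, hf, h3⟩ := skolem (M := M) (fun z o => IsOrdinal o ∧ A (pair o ∅) ∧
    ¬ A (pair o (num 1)) ∧ D.Par (pair o ∅) ∧ D.par (pair o ∅) = fst z ∧ D.bit (pair o ∅) = snd z)
    inferInstance hI fun z hz => by
      obtain ⟨s, ξ, rfl⟩ := pI z hz
      obtain ⟨b1, b2, b3, b4⟩ := (mI s ξ).1 hz
      rw [fst_pair, snd_pair]
      exact hc s (fst_mem (tr hI hz)) b3 (sl_of_prod ho b1).1 ξ b2 b4
  have := In.mk' hf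
  have := In.mk' hI
  have hfm : ∀ z ∈ I, app f z ∈ M := fun z hz => by
    have := In.mk' (tr hI hz)
    exact In.mem _
  have h4 := h2 (MA M D C A) (img (fun z => pair z (pair (D.K (app f z))
    (ZFSet.sep D.T (D.K (app f z))))) I) (m1 (In.mem _)) fun w hw => by
      obtain ⟨z, hz, rfl⟩ := mem_img.1 hw
      exact ⟨_, _, _, rfl, ⟨_, LowP.inf_up (hS.crd.inf _ (hfm z hz) (h3 z hz).1) hM,
        (h1 M D C X A hA _ (hfm z hz) (h3 z hz).1).1⟩,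
        fun ξ hξ => (hS.cof ξ (mem_sep.1 hξ).2).mono hM⟩
  have h5 : ∀ s ξ, pair s ξ ∈ I → (¬ Stat (MA M D C A) (D.K (app f (pair s ξ))) D.T ↔
      Live D A C s ∧ pair s ξ ∈ C) := fun s ξ hz => by
    obtain ⟨b1, b2, b3, b4, b5, b6⟩ := h3 _ hz
    obtain ⟨c1, c2, -⟩ := (mI s ξ).1 hz
    have c3 := hfm _ hz
    rw [fst_pair] at b5
    rw [snd_pair] at b6
    generalize app f (pair s ξ) = o at *
    have c4 : Live D A C (pair o ∅) ↔ Live D A C s ∧ pair s ξ ∈ C := by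
      rw [live_iff, b5, b6, X.gen.excl (sl_of_prod ho c1).1 (fst_mem (tr hI hz)) c2, not_not]
      exact ⟨fun h => h.2 b4, fun h => ⟨b2, fun _ => h⟩⟩
    rw [← c4]
    refine ⟨fun h => by_contra fun h' => h ((h1 M D C X A hA o c3 b1).2 fun i hi => ?_),
      fun h => ?_⟩
    · rcases mem_two.1 hi with rfl | rfl
      exacts [h', fun e => b3 (live_iff.1 e).1]
    · have := In.mk' c3
      simpa only [fst_pair] using X.kill hA h (sl_pair.2 ⟨b1, mem_two.2 (Or.inl rfl)⟩) (In.mem _)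
  obtain ⟨P, hP, key⟩ : ∃ P ∈ Caa (MA M D C A), ∀ s ξ, pair s ξ ∈ P ↔
      pair s ξ ∈ I ∧ Live D A C s ∧ pair s ξ ∈ C := by
    have := UI.mk' h4
    refine ⟨_, UI.mem (img fst (ZFSet.sep (fun z => ¬ Stat (MA M D C A) (fst (snd z))
      (fun ξ => ξ ∈ snd (snd z))) (img (fun z => pair z (pair (D.K (app f z))
      (ZFSet.sep D.T (D.K (app f z))))) I))), fun s ξ => mem_img.trans ⟨?_, fun h => ?_⟩⟩
    · rintro ⟨w, hw, e⟩
      obtain ⟨hw, b1⟩ := mem_sep.1 hw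
      obtain ⟨z, hz, rfl⟩ := mem_img.1 hw
      rw [fst_pair] at e
      subst e
      simp only [fst_pair, snd_pair, LowP.stat_sep] at b1
      exact ⟨hz, (h5 s ξ hz).1 b1⟩
    · refine ⟨_, mem_sep.2 ⟨img_mem h.1, ?_⟩, fst_pair _ _⟩
      simp only [fst_pair, snd_pair, LowP.stat_sep]
      exact (h5 s ξ h.1).2 h.2
  have h6 : ∀ s, s ∈ prod a (num 2) → B s → Live D A C s → Eqs P C s := fun s b1 b2 b3 ξ =>
    (key s ξ).trans ⟨fun h => h.2.2, fun h =>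
      ⟨(mI s ξ).2 ⟨b1, (X.gen.pt h).2.2.1, b2, (X.gen.pt h).2.2.2⟩, b3, h⟩⟩
  have e : HA D C B ∩ PS M D a = ZFSet.sep (fun q => ∀ s ∈ dom q, (∃ ξ, pair s ξ ∈ P) →
      (∀ ξ, pair s ξ ∈ q → pair s ξ ∈ P) ∧
        ∀ ξ, pair s ξ ∈ P → pair s ξ ∈ q ∨ ∀ η, pair s η ∈ q → η ∈ ξ) (PS M D a) := by
    ext q
    rw [mem_inter, mem_sep, mem_HA (M := M), and_comm]
    refine and_congr_right fun hq => ⟨?_, fun h => ⟨(mem_PS.1 hq).1, fun s hs => ?_⟩⟩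
    · rintro ⟨-, h⟩ s - ⟨ξ, hξ⟩
      obtain ⟨b1, b2, -⟩ := (key s ξ).1 hξ
      obtain ⟨b3, -, b4, -⟩ := (mI s ξ).1 b1
      exact (h6 s b3 b4 b2).ee.trans (h s (b2.up (fun t _ => hBp t) b4))
    · by_cases h7 : ∃ ξ, pair s ξ ∈ q
      · obtain ⟨ξ, h7⟩ := h7
        obtain ⟨b1, b2⟩ := mem_PS.1 hq
        obtain ⟨b3, b4, -⟩ := b1.2.pt h7
        have b5 := h6 s (b3.mem_prod (b2 s ξ h7)) (live_iff.1 hs).1 (hs.sub hBA)
        obtain ⟨η, b6, -⟩ := X.gen.unb b3 (fst_mem (tr b1.1 h7)) b4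
        exact b5.symm.ee.trans (h s (mem_dom_of h7) ⟨η, (b5 η).2 b6⟩)
      · exact ee_of_empty fun ξ a => h7 ⟨ξ, a⟩
  rw [e]
  have := UI.mk' hP
  have := UI.mk' (m1 (In.mem (PS M D a)))
  exact UI.mem _

end Pool.Agent.P.MP_0b3dfe_lc.Q2
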