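import Pool.Agent.P.MP_0b3dfe_lc.Q2.St1

/-! A pointwise definable model of `V = L`. -/

set_option linter.unusedSectionVars false
set_option synthInstance.maxSize 100000

namespace Pool.Agent.P.MP_0b3dfe_lc.Q2

open ZFSet Pool.Agent.P.MP_3ab3de_lc Pool.Agent.P.MP_9a7e1f_lc ForceP

namespace PdP

/-- a countable class is a set -/
theorem exists_set {A : Set ZF} (h : A.Countable) : ∃ H : ZF, ∀ x, x ∈ H ↔ x ∈ A := by
  rcases A.eq_empty_or_nonempty with rfl | hne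
  · exact ⟨∅, fun x => ⟨fun h => absurd h (notMem_empty x), fun h => h.elim⟩⟩
  · obtain ⟨f, rfl⟩ := h.exists_eq_range hne
    exact ⟨ZFSet.range f, fun x => by simp⟩

/-- defined without parameters -/
def Dn (X : Set ZF) (y : ZF) : Prop :=
  y ∈ X ∧ ∃ φ : Fml, ∀ y' ∈ X, Sat X φ (fun _ => y') ↔ y' = y

theorem dn_empty {X : Set ZF} (hX : Trn X) (h : ∅ ∈ X) : Dn X ∅ := by
  obtain ⟨φ, e⟩ : PU (fun _ v => v 0 = ∅) := by infer_instance
  exact ⟨h, φ, fun y' hy' => (e X hX (fun _ => y') fun _ => hy').symm⟩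

theorem dn_uq {X : Set ZF} (hX : Trn X) {φ : Fml} {a b y : ZF} (ha : Dn X a) (hb : Dn X b)
    (h : Uq X φ a b y) : Dn X y := by
  obtain ⟨ha, φa, ea⟩ := ha
  obtain ⟨hb, φb, eb⟩ := hb
  obtain ⟨ψ, e⟩ : PU (fun N v => ∃ a ∈ N, ∃ b ∈ N, Sat N φa (fun _ => a) ∧
      Sat N φb (fun _ => b) ∧ Sat N φ (cons (v 0) (cons a fun _ => b))) := by infer_instance
  refine ⟨h.1, ψ, fun y' hy' => (e X hX (fun _ => y') fun _ => hy').symm.trans ⟨?_, ?_⟩⟩
  · rintro ⟨a', ha', b', hb', h1, h2, h3⟩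
    obtain rfl := (ea a' ha').1 h1
    obtain rfl := (eb b' hb').1 h2
    exact h.2.2 y' hy' h3
  · rintro rfl
    exact ⟨a, ha, b, hb, (ea a ha).2 rfl, (eb b hb).2 rfl, h.2.1⟩

theorem rank_col (H x : ZF) : rank (col H x) ≤ rank x := by
  induction x using ZFSet.inductionOn with
  | h x ih =>
    refine rank_le_iff.2 fun z hz => ?_
    obtain ⟨y, h1, -, rfl⟩ := mem_col.1 hz
    exact (ih y h1).trans_lt (rank_lt_of_mem h1)

section

variable {X : Set ZF} {H : ZF} (h : El X H) (hX : Trn X)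
include h hX

/-- statements true over `X` at all assignments are true over the collapse -/
theorem tr (P : Set ZF → Env → Prop) [hP : PU P] (h1 : ∀ v, EIn X v → P X v) {w : Env}
    (hw : EIn (cI H X) w) : P (cI H X) w := by
  choose v hv e using hw
  obtain rfl : w = fun n => col H (v n) := funext fun n => (e n).symm
  exact (h.tr hX P hv).1 (h1 v fun n => (hv n).1)

end

theorem model {X : Set ZF} [hM : TModel X] {H : ZF} (h : El X H) {x0 : ZF} (h0 : x0 ∈ cI H X) :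
    TModel (cI H X) := by
  have hX : Trn X := trn_model X
  have ht : Trn (cI H X) := trn_cI hX
  refine ⟨ht, fun a ha b hb => ?_, fun a ha => ?_, ?_, fun a ha => ?_, fun φ v hv a ha => ?_,
    fun φ v hv a ha H1 => ?_, fun a ha => ?_⟩
  · obtain ⟨c, hc, e⟩ := tr h hX (fun N v => ∃ c ∈ N, c = ({v 0, v 1} : ZF))
      (fun v hv => ⟨_, hM.pairing _ (hv 0) _ (hv 1), rfl⟩) (EIn.cons (fun _ => hb) ha)
    exact (show c = ({a, b} : ZF) from e) ▸ hc
  · obtain ⟨c, hc, e⟩ := tr h hX (fun N v => ∃ c ∈ N, ∀ x ∈ N, x ∈ c ↔ ∃ y ∈ v 0, x ∈ y)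
      (fun v hv => ⟨_, hM.union _ (hv 0), fun _ _ => mem_sUnion⟩) (w := fun _ => a) fun _ => ha
    have : c = ZFSet.sUnion a := ZFSet.ext fun x =>
      ⟨fun hx => mem_sUnion.2 ((e x (ht c hc x hx)).1 hx), fun hx => by
        obtain ⟨y, h1, h2⟩ := mem_sUnion.1 hx
        exact (e x (ht y (ht a ha y h1) x h2)).2 ⟨y, h1, h2⟩⟩
    exact this ▸ hc
  · obtain ⟨w, hw, h1, h2, h3⟩ := tr h hX
      (fun N _ => ∃ w ∈ N, (∀ x ∈ w, IsNat x) ∧ ∅ ∈ w ∧ ∀ x ∈ w, insert x x ∈ w)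
      (fun _ _ => ⟨om, hM.infinity, fun _ hx => isNat_iff.2 hx, omega_zero,
        fun _ hx => omega_succ hx⟩) (w := fun _ => x0) fun _ => h0
    have : w = om := ZFSet.ext fun x => ⟨fun hx => isNat_iff.1 (h1 x hx), fun hx => by
      obtain ⟨n, rfl⟩ := mem_omega.1 hx
      clear hx
      induction n with
      | zero => exact h2
      | succ n ih => exact h3 _ ih⟩
    rw [this] at hw
    exact hw
  · exact tr h hX (fun N v => ∃ c ∈ N, ∀ x ∈ N, x ∈ c ↔ x ⊆ v 0)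
      (fun v hv => hM.power _ (hv 0)) (w := fun _ => a) fun _ => ha
  · obtain ⟨b, hb, e⟩ := tr h hX
      (fun N v => ∀ a ∈ N, ∃ b ∈ N, ∀ x ∈ N, x ∈ b ↔ x ∈ a ∧ Sat N φ (cons x fun n => v n))
      (fun v hv a ha => by
        obtain ⟨b, hb, e⟩ := hM.separation φ v hv a ha
        exact ⟨b, hb, fun x _ => e x⟩) hv a ha
    exact ⟨b, hb, fun x => ⟨fun hx => (e x (ht b hb x hx)).1 hx,
      fun hx => (e x (ht a ha x hx.1)).2 hx⟩⟩
  · obtain ⟨b, hb, e⟩ := tr h hX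
      (fun N v => ∀ a ∈ N, (∀ x ∈ a, ∃ y ∈ N, Sat N φ (cons y (cons x fun n => v n)) ∧
        ∀ z ∈ N, Sat N φ (cons z (cons x fun n => v n)) → z = y) →
        ∃ b ∈ N, ∀ y ∈ N, y ∈ b ↔ ∃ x ∈ a, Sat N φ (cons y (cons x fun n => v n)))
      (fun v hv a ha H2 => by
        obtain ⟨b, hb, e⟩ := hM.replacement φ v hv a ha fun x hx => by
          obtain ⟨y, h1, h2, h3⟩ := H2 x hx
          exact ⟨y, ⟨h1, h2⟩, fun z hz => h3 z hz.1 hz.2⟩
        exact ⟨b, hb, fun y hy => (e y).trans (and_iff_right hy)⟩) hv a ha fun x hx => by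
          obtain ⟨y, h1, h2⟩ := H1 x hx
          exact ⟨y, h1.1, h1.2, fun z hz h3 => h2 z ⟨hz, h3⟩⟩
    exact ⟨b, hb, fun y => ⟨fun hy => ⟨ht b hb y hy, (e y (ht b hb y hy)).1 hy⟩,
      fun hy => (e y hy.1).2 hy.2⟩⟩
  · exact tr h hX (fun N v => ∃ f ∈ N, ∀ x ∈ v 0, (∃ y, y ∈ x) →
      ∃ y ∈ x, pair x y ∈ f ∧ ∀ z, pair x z ∈ f → z = y)
      (fun v hv => hM.choice _ (hv 0)) (w := fun _ => a) fun _ => ha

theorem vl {X : Set ZF} {H : ZF} (h : El X H) (hX : Trn X) (hL : LX X) : VL (cI H X) := by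
  intro x hx
  obtain ⟨f, -, a, ha, S, -, W, -, h1, h2, h3⟩ := tr h hX
    (fun N v => ∃ f ∈ N, ∃ a ∈ N, ∃ S ∈ N, ∃ W ∈ N, Hier f ∧ pair a (pair S W) ∈ f ∧ v 0 ∈ S)
    (fun v hv => by
      obtain ⟨α, h2, h3, -, h4⟩ := hL _ (hv 0)
      have h5 : pair α (pair (LS α) (LW α)) ∈ graph LL (insert α α) :=
        lev_graph.2 ⟨mem_insert _ _, rfl, rfl⟩
      have h6 := hX _ h4 _ h5
      exact ⟨_, h4, α, hX.fst h6, _, hX.fst (hX.snd h6), _, hX.snd (hX.snd h6),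
        hier_graph (isOrdinal_succ h2), h5, h3⟩) (w := fun _ => x) fun _ => hx
  obtain ⟨rfl, -⟩ := h1.sound _ _ _ h2
  exact ⟨a, ha, (h1 _ _ _ h2).1, h3⟩

theorem lx (M : Set ZF) [hM : TModel M] : LX (LM M) := by
  rintro y ⟨α, hα, ho, hy⟩
  have h0 : y ∈ M := LModP.subM ⟨α, hα, ho, hy⟩
  have succ : ∀ β ∈ M, insert β β ∈ M := fun β hβ => by
    have := In.mk' hβ
    exact In.mem _
  have key : ∀ β ∈ M, IsOrdinal β → graph LL (insert β β) ∈ LM M := fun β hβ h =>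
    (LModP.llL _ (succ β hβ) (isOrdinal_succ h)).1
  by_cases h1 : IsOrdinal y
  · rcases h1.mem_trichotomous ho with h2 | rfl | h2
    · exact ⟨α, ho, hy, fun _ => h2, key α hα ho⟩
    · exact ⟨insert y y, isOrdinal_succ ho, LS_mono (fun _ h => mem_insert_of_mem _ h) hy,
        fun _ => mem_insert _ _, key _ (succ y hα) (isOrdinal_succ ho)⟩
    · exact ⟨insert y y, isOrdinal_succ h1,
        LS_mono (fun _ h => mem_insert_of_mem _ (h1.mem_trans h h2)) hy,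
        fun _ => mem_insert _ _, key _ (succ y h0) (isOrdinal_succ h1)⟩
  · exact ⟨α, ho, hy, fun h => absurd h h1, key α hα ho⟩

end PdP

open PdP in
theorem pd : S_Pd := by
  intro M0 hM hc
  have hX : Trn (LM M0) := LModP.trnL
  have := (lmod M0).1
  have hc' : {y | Dn (LM M0) y}.Countable := hc.mono fun y hy => LModP.subM hy.1
  obtain ⟨H, eH⟩ := exists_set hc'
  have h : El (LM M0) H := el_of_cl hX (lx M0) (fun _ ha _ hb => LModP.pairL ha hb)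
    fun φ a _ ha b _ hb y hy => (eH y).2 (dn_uq hX ((eH a).1 ha) ((eH b).1 hb) hy)
  have eU : ((img (col H) H : ZF) : Set ZF) = cI H (LM M0) := Set.ext fun z =>
    mem_img.trans ⟨fun ⟨y, h1, h2⟩ => ⟨y, ⟨((eH y).1 h1).1, h1⟩, h2⟩,
      fun ⟨y, h1, h2⟩ => ⟨y, h1.2, h2⟩⟩
  have mU : ∀ z, z ∈ img (col H) H ↔ z ∈ cI H (LM M0) := fun z => by rw [← eU]; rfl
  refine ⟨img (col H) H, ?_, ?_, ?_, fun o ho h1 => ?_, fun y hy => ?_⟩
  · rw [eU]
    exact model h ⟨∅, ⟨LModP.emptyL, (eH _).2 (dn_empty hX LModP.emptyL)⟩, rfl⟩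
  · rw [eU]
    exact (hc.mono fun y hy => LModP.subM hy.1).image _
  · rw [eU]
    exact vl h hX (lx M0)
  · obtain ⟨y, hy, rfl⟩ := (mU o).1 ho
    have h2 : IsOrdinal y := (h.d0 hX (fun v => IsOrdinal (v 0)) (eh_const hy.1 hy.2)).2 h1
    have h3 : y ∈ M0 := LModP.subM hy.1
    rcases h1.mem_trichotomous h2 with h4 | h4 | h4
    · exact hM.trans y h3 _ h4
    · rw [h4]; exact h3
    · exact absurd (rank_lt_of_mem h4) (not_lt.2 (rank_col H y))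
  · obtain ⟨y0, hy0, rfl⟩ := (mU y).1 hy
    obtain ⟨-, φ, e⟩ := (eH y0).1 hy0.2
    refine ⟨φ, fun y' hy' => ?_⟩
    obtain ⟨y1, hy1, rfl⟩ := (mU y').1 hy'
    rw [eU, ← h.sat hX φ (eh_const hy1.1 hy1.2), e y1 hy1.1]
    exact ⟨fun e' => e' ▸ rfl, h.inj hX y1 hy1.1 hy1.2 y0 hy0.1 hy0.2⟩

end Pool.Agent.P.MP_0b3dfe_lc.Q2
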