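import Pool.Agent.P.MP_0b3dfe_lc.Q2.Run2
import Pool.Agent.P.MP_0b3dfe_lc.Q2.Avoid

/-! Distributivity of the tails. -/

set_option linter.unusedSectionVars false
set_option synthInstance.maxSize 100000

namespace Pool.Agent.P.MP_0b3dfe_lc.Q2

open ZFSet Pool.Agent.P.MP_3ab3de_lc Pool.Agent.P.MP_9a7e1f_lc ForceP

namespace RunP

variable {M : Set ZF} [hM : TModel M] {D : Dat} [hS : Sy0 M D] {C : Pm} {ζ g η s k : ZF}

/-- the conditions of a partial run -/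
noncomputable def cc (C : Pm) (ζ g : ZF) : ZF := insert C.t (img (pp g) ζ)

/-- the hull at a step -/
noncomputable def hh (C : Pm) (g k η : ZF) : ZF := St C.S (uu' C (res g η) k)

namespace PR

variable (h : PR M D C ζ g) (hC : Ok M D C)
include h hC

theorem cc_sub : cc C ζ g ⊆ C.P := fun p hp => by
  rcases mem_insert_iff.1 hp with rfl | hp
  · exact hC.tP
  · obtain ⟨η, hη, rfl⟩ := mem_img.1 hp
    exact h.pP hη

theorem cc_cm : ∀ p ∈ cc C ζ g, CM M D p := fun p hp => (hC.tail p (h.cc_sub hC hp)).1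

theorem cc_dom (hs : s ∈ dom (ZFSet.sUnion (cc C ζ g))) : s ∈ dom (ZFSet.sUnion C.P) := by
  obtain ⟨z, hz, rfl⟩ := mem_dom.1 hs
  obtain ⟨p, hp, hz⟩ := mem_sUnion.1 hz
  exact mem_dom.2 ⟨z, mem_sUnion.2 ⟨p, h.cc_sub hC hp, hz⟩, rfl⟩

theorem cc_pt (hs : s ∈ dom (ZFSet.sUnion (cc C ζ g))) : ∃ p ∈ cc C ζ g, ∃ ξ, pair s ξ ∈ p := by
  obtain ⟨z, hz, rfl⟩ := mem_dom.1 hs
  obtain ⟨p, hp, hz⟩ := mem_sUnion.1 hz
  obtain ⟨s, ξ, rfl⟩ := (h.cc_cm hC p hp).2.pr hz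
  exact ⟨p, hp, ξ, by rwa [fst_pair]⟩

theorem cc_ch : ∀ p ∈ cc C ζ g, ∀ p' ∈ cc C ζ g, Ex p p' ∨ Ex p' p := fun p hp p' hp' => by
  rcases mem_insert_iff.1 hp with rfl | hp <;> rcases mem_insert_iff.1 hp' with rfl | hp'
  · exact Or.inl (Ex.refl _)
  · obtain ⟨η, hη, rfl⟩ := mem_img.1 hp'
    exact Or.inr (h.ex_t hη)
  · obtain ⟨η, hη, rfl⟩ := mem_img.1 hp
    exact Or.inl (h.ex_t hη)
  · obtain ⟨η, hη, rfl⟩ := mem_img.1 hp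
    obtain ⟨η', hη', rfl⟩ := mem_img.1 hp'
    rcases (h.ord.mem hη).mem_trichotomous (h.ord.mem hη') with h1 | rfl | h1
    exacts [Or.inr (h.ex_lt hη' h1), Or.inl (Ex.refl _), Or.inl (h.ex_lt hη h1)]

theorem cc_le (hζ : ζ ⊆ C.l) : cc C ζ g ∈ M ∧ Le M (cc C ζ g) (D.R C.a) := by
  obtain ⟨h1, h2, -⟩ := h.le hC hζ
  have := In.mk' h.mem
  have := In.mk' h2
  have := In.mk' (hC.tail _ hC.tP).1.1
  have hF : Tm M (fun v => pp g (v 0)) := by unfold pp; infer_instance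
  have := fun s [Tm M s] => hF.one s
  have hR := hS.crd.inf _ hC.am hC.ao
  exact ⟨by unfold cc; exact In.mem _, hR.insert (In.mem _) (In.mem _) (hR.img _ hF h2 h1)⟩

theorem hh_mem (hη : η ∈ ζ) (hk : k ∈ C.Kf) :
    pair k (pair (uu' C (Pool.Agent.P.MP_3ab3de_lc.res g η) k) (hh C g k η)) ∈ ee g η := by
  obtain ⟨u, x, h1⟩ := (h.ent hη).2.1.2 _ hk
  rwa [hh, ← h.hull hC hη h1, ← ((h.ent hη).2.2.2 _ _ _ h1).1]

theorem mu_hh (hη : η ∈ ζ) (hk : k ∈ C.Kf) {z : ZF}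
    (h1 : Mu C.c C.l k (Pool.Agent.P.MP_3ab3de_lc.res g η) z) :
    z ∈ uu' C (Pool.Agent.P.MP_3ab3de_lc.res g η) k ∧ z ∈ hh C g k η := by
  obtain ⟨_, -, _, _, e, h2⟩ := (h.ent hη).2.1.1 _ (h.hh_mem hC hη hk)
  simp only [pair_inj] at e
  obtain ⟨rfl, rfl, rfl⟩ := e
  exact ⟨(h2 z).2 h1, sub_St sep_subset ((h2 z).2 h1)⟩

theorem hh_mono {ξ : ZF} (hη : η ∈ ζ) (hξ : ξ ∈ η) (hk : k ∈ C.Kf) {z : ZF} (hz : z ∈ hh C g k ξ) :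
    z ∈ uu' C (Pool.Agent.P.MP_3ab3de_lc.res g η) k ∧ z ∈ hh C g k η :=
  h.mu_hh hC hη hk (Or.inr (Or.inr (Or.inr (Or.inr (Or.inr ⟨_, _, h.er.2
    ⟨ξ, h.ord.mem_trans hξ hη, hξ, rfl, rfl⟩,
      Or.inl ⟨_, _, h.hh_mem hC (h.ord.mem_trans hξ hη) hk, hz⟩⟩)))))

/-- the supremum of a slot can be put on top -/
theorem top (hA : Avoid M D.T) (hζ : ζ ⊆ C.l) (hs : s ∈ dom (ZFSet.sUnion (cc C ζ g))) :
    sup D (ZFSet.sUnion (cc C ζ g)) s ∈ D.K (fst s) ∧ ¬ D.T (sup D (ZFSet.sUnion (cc C ζ g)) s) := by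
  have hc := h.cc_cm hC
  by_cases h0 : ∃ p ∈ cc C ζ g, pair s (sup D (ZFSet.sUnion (cc C ζ g)) s) ∈ p
  · obtain ⟨p, hp, h0⟩ := h0
    exact ((hc p hp).2.pt h0).2
  obtain ⟨h1, h2, h3, h4, h5⟩ := hC.slot (h.cc_dom hC hs)
  have hR := infR (D := D) h1 h2
  have hk := hartK (D := D) h1 h2
  have ho := ord_sup (s := s) hc
  have hm := fun x => mem_sup (s := s) (x := x) hc
  generalize sup D (ZFSet.sUnion (cc C ζ g)) s = α at h0 ho hm ⊢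
  have hp : ∀ η ∈ ζ, pp g η ∈ cc C ζ g := fun η hη => mem_insert_of_mem _ (img_mem hη)
  have a1 : ∀ p ∈ cc C ζ g, ∀ ξ, pair s ξ ∈ p → ξ ∈ α := fun p h6 ξ h7 =>
    ((((hc p h6).ord h7).subset_iff_eq_or_mem ho).1 fun x hx =>
      (hm x).2 ⟨p, h6, ξ, h7, hx⟩).resolve_left fun e => h0 ⟨p, h6, e ▸ h7⟩
  have a2 : ∀ p ∈ cc C ζ g, ∀ ξ, pair s ξ ∈ p →
      ∃ η ∈ ζ, ¬ Ex p (pp g η) ∧ ∃ ξ, pair s ξ ∈ pp g η := fun p h6 ξ h7 => by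
    obtain ⟨m, h8, h9⟩ := (hc p h6).max h7
    obtain ⟨p', h10, ξ', h11, h12⟩ := (hm m).1 (a1 p h6 m h8)
    have h13 : ¬ Ex p p' := fun h13 => mem_irrefl m (h9 ξ' ((h13 s).1 ξ' h11) h12)
    rcases mem_insert_iff.1 h10 with rfl | h10
    · rcases mem_insert_iff.1 h6 with rfl | h6
      · exact absurd (Ex.refl _) h13
      · obtain ⟨η, hη, rfl⟩ := mem_img.1 h6
        exact absurd (h.ex_t hη) h13
    · obtain ⟨η, hη, rfl⟩ := mem_img.1 h10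
      exact ⟨η, hη, h13, ξ', h11⟩
  obtain ⟨p0, b2, ξ0, b3⟩ := h.cc_pt hC hs
  obtain ⟨η0, b0, -, b1⟩ := a2 p0 b2 ξ0 b3
  have a3 : ∀ η ∈ ζ, (∃ ξ, pair s ξ ∈ pp g η) → ∃ η' ∈ ζ, η ∈ η' := fun η hη ⟨ξ, h6⟩ => by
    obtain ⟨η', h7, h8, -⟩ := a2 _ (hp η hη) ξ h6
    rcases (h.ord.mem hη).mem_trichotomous (h.ord.mem h7) with h9 | rfl | h9
    exacts [⟨η', h7, h9⟩, absurd (Ex.refl _) h8, absurd (h.ex_lt hη h9) h8]
  have a4 : ∀ η ∈ ζ, ∃ η' ∈ ζ, η ∈ η' ∧ η0 ∈ η' := fun η hη => by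
    rcases (h.ord.mem hη).mem_trichotomous (h.ord.mem b0) with h9 | rfl | h9
    · obtain ⟨η', h6, h7⟩ := a3 η0 b0 b1
      exact ⟨η', h6, (h.ord.mem h6).mem_trans h9 h7, h7⟩
    · exact (a3 _ b0 b1).imp fun _ h => ⟨h.1, h.2, h.2⟩
    · obtain ⟨η', h6, h7⟩ := a3 η hη (b1.imp fun ξ => (h.ex_lt hη h9 s).1 ξ)
      exact ⟨η', h6, h7, (h.ord.mem h6).mem_trans h9 h7⟩
  have a5 : ∀ η ∈ ζ, ∀ η' ∈ ζ, ∃ ξ ∈ ζ, η ∈ ξ ∧ η' ∈ ξ := fun η hη η' hη' => by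
    rcases (h.ord.mem hη).mem_trichotomous (h.ord.mem hη') with h9 | rfl | h9
    · exact (a4 η' hη').imp fun ξ h6 => ⟨h6.1, (h.ord.mem h6.1).mem_trans h9 h6.2.1, h6.2.1⟩
    · exact (a4 η hη).imp fun ξ h6 => ⟨h6.1, h6.2.1, h6.2.1⟩
    · exact (a4 η hη).imp fun ξ h6 => ⟨h6.1, h6.2.1, (h.ord.mem h6.1).mem_trans h9 h6.2.1⟩
  let H := bun (hh C g (kk D s)) ζ
  have hT := hC.trn
  have hHS : H ⊆ C.S := fun z hz => by
    obtain ⟨η, -, hz⟩ := mem_bun.1 hz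
    exact St_sub _ _ hz
  have hH : ∀ η ∈ ζ, ∀ z, Mu C.c C.l (kk D s) (Pool.Agent.P.MP_3ab3de_lc.res g η) z → z ∈ H :=
    fun η hη z hz => mem_bun.2 ⟨η, hη, (h.mu_hh hC hη h3 hz).2⟩
  have hE : El (C.S : Set ZF) H := el_of_cl hT hC.big.lx (fun a ha b hb => hC.big.ins.pair ha hb)
    fun φ a ha ha' b hb hb' y hy => by
      obtain ⟨η, hη, h6⟩ := mem_bun.1 ha'
      obtain ⟨η', hη', h7⟩ := mem_bun.1 hb'
      obtain ⟨ξ, h8, h9, h10⟩ := a5 η hη η' hη'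
      exact mem_bun.2 ⟨ξ, h8, mem_St.2 ⟨φ, a, (h.hh_mono hC h8 h9 h3 h6).1, b,
        (h.hh_mono hC h8 h10 h3 h7).1, ha, hb, hy⟩⟩
  have c1 : kk D s ∈ H := hH η0 b0 _ (by simp [Mu])
  obtain ⟨c2, c3⟩ := hE.unp hT (hHS c1) c1
  obtain ⟨c4, c5⟩ := hE.unp hT (hHS c3) c3
  have e : H ∩ D.K (fst s) = α := ZFSet.ext fun z => by
    rw [mem_inter, hm]
    constructor
    · rintro ⟨h6, h7⟩
      obtain ⟨η, hη, h6⟩ := mem_bun.1 h6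
      obtain ⟨η', h8, h9, h10⟩ := a4 η hη
      obtain ⟨ξ, h11, h12⟩ := (h.ent h8).2.2.1.2.1.2.2.2 s _ _ _ _ (h.hh_mem hC h8 h3)
        ⟨_, _, h.er.2 ⟨η0, b0, h10, rfl, rfl⟩, b1⟩
      exact ⟨_, hp η' h8, ξ, h11, h12 z (h.hh_mono hC h8 h9 h3 h6).2 h7⟩
    · rintro ⟨p, h6, ξ, h7, h8⟩
      obtain ⟨η, hη, h9⟩ : ∃ η ∈ ζ, pair s ξ ∈ pp g η := by
        rcases mem_insert_iff.1 h6 with rfl | h6
        · exact ⟨η0, b0, (h.ex_t b0 s).1 ξ h7⟩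
        · obtain ⟨η, hη, rfl⟩ := mem_img.1 h6
          exact ⟨η, hη, h7⟩
      obtain ⟨η', h10, h11, -⟩ := a4 η hη
      exact ⟨hH η' h10 z (Or.inr (Or.inr (Or.inr (Or.inr (Or.inr ⟨_, _, h.er.2
        ⟨η, hη, h11, rfl, rfl⟩, Or.inr ⟨s, _, ξ, rfl, h9, h8⟩⟩))))),
        hk.ord.mem_trans h8 ((hc p h6).2.pt h7).2.1⟩
  have hα : α ∈ D.K (fst s) := by
    have := In.mk' (hC.inM (hHS c2))
    obtain ⟨b, h6, h7⟩ := hk.bdd_wit hR (fun p b => ∀ ξ, pair s ξ ∈ p → ξ ∈ b) inferInstance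
      (h.cc_le hC hζ).1 ((h.cc_le hC hζ).2.trans h4 hR.mem) fun p h6 =>
        ((hc p h6).above h1 h2 (hk.zero hR)).imp fun _ h => ⟨h.1, h.2.2.2⟩
    refine hk.mem_of_le ho ((hk.le b h6).mono fun x hx => ?_)
    obtain ⟨p, h8, ξ, h9, h10⟩ := (hm x).1 hx
    obtain ⟨b', h11, h12⟩ := h7 p h8
    exact (hk.ord.mem h6).mem_trans h10 ((hk.ord.mem h6).mem_trans (h12 ξ h9) h11)
  refine ⟨hα, e ▸ hA _ C.S H hk.ord (hS.stat _ h2 h1.ord) hC.big.mem hC.big.tr hC.big.lx hE hHS c4 c5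
    (e ▸ hα) (e ▸ ?_)⟩
  obtain ⟨φ, f1, f2⟩ := ht_fml
  have hT' : IsTransitive (col H C.S) := fun x hx y hy =>
    (coe_col H C.S ▸ trn_cI hT : Trn ((col H C.S : ZF) : Set ZF)) x hx y hy
  have c6 : C.c ∈ H := hH η0 b0 _ (by simp [Mu])
  obtain ⟨_, c7, c8, rfl⟩ := hE.pu hT (fun _ v y => y = pair (v 0) (v 1))
    (eh_cons (eh_const (hHS c2) c2) hC.cS c6) ⟨_, hC.big.ins.pair hC.cS (hHS c2), rfl⟩
  have c9 : C.l ∈ α := e ▸ mem_inter.2 ⟨hH η0 b0 _ (by simp [Mu]),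
    hk.mem_of_le hC.lo (hC.lle.trans h4 hR.mem)⟩
  have c10 : α ⊆ H := fun z hz => (mem_inter.1 (e ▸ hz : z ∈ H ∩ D.K (fst s))).1
  have fx : ∀ x ∈ α, col H x = x := fun x hx =>
    col_fix ho.isTransitive c10 x (ho.subset_of_mem hx)
  have c11 := mem_col.2 ⟨_, c7, c8, rfl⟩
  refine ⟨φ, _, c11, C.l, c9, fun η _ => f2 _ hT' _ c11 η, fun x hx => ?_⟩
  obtain ⟨p, h6, ξ, h7, h8⟩ := (hm x).1 hx
  obtain ⟨η, hη, h9⟩ : ∃ η ∈ ζ, pair s ξ ∈ pp g η := by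
    rcases mem_insert_iff.1 h6 with rfl | h6
    · exact ⟨η0, b0, (h.ex_t b0 s).1 ξ h7⟩
    · obtain ⟨η, hη, rfl⟩ := mem_img.1 h6
      exact ⟨η, hη, h7⟩
  obtain ⟨m, h10, h11⟩ := (hc _ (hp η hη)).max h9
  obtain ⟨η', h12, h13, -⟩ := a4 η hη
  have h14 := a1 _ (hp η hη) m h10
  have h15 := ho.mem_trans (hζ hη) c9
  have hr := h.res (h.ord.subset_of_mem h12) (h.ord.mem h12) (tr (h.le hC hζ).2.1 h12)
  have h16 : Pool.Agent.P.MP_3ab3de_lc.res g η' ∈ H := hH η' h12 _ (by simp [Mu])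
  have h17 := (hE.d0 hT (fun w => HtR (w 0) (w 1) (w 2) (w 3)) (eh_cons (eh_cons (eh_cons
    (eh_const c7 c8) (hHS h16) h16) (hHS (c10 h15)) (c10 h15)) (hHS (c10 h14)) (c10 h14))).1
    ⟨_, s, rfl, _, _, _, _, _, _, rfl, hr.rn hC, _, _, _, mem_res.2 ⟨h.mem_iff.2 ⟨η, hη, rfl⟩,
      by rwa [fst_pair]⟩, h10, h11⟩
  change HtR (col H m) (col H η) _ _ at h17
  rw [fx m h14, fx η h15] at h17
  exact ⟨η, hζ hη, m, h14, h11 ξ h9 h8, (f1 _ hT' _ c11 η m).2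
    ⟨mem_col.2 ⟨η, hHS (c10 h15), c10 h15, fx η h15⟩, mem_col.2 ⟨m, hHS (c10 h14), c10 h14, fx m h14⟩,
      _, mem_col.2 ⟨_, hHS h16, h16, rfl⟩, Orc.col hE hC.big.tr (hHS h16) h16 hr.orc, h17⟩⟩

/-- a partial run can be continued -/
theorem step (hA : Avoid M D.T) (hζ : ζ ⊆ C.l) : ∃ y ∈ C.S, Stp M D C g y := by
  obtain ⟨h1, h2⟩ := h.cc_le hC hζ
  obtain ⟨q0, h3, h4, h5⟩ := lim_cnd h1 (h.cc_cm hC) (h.cc_ch hC) fun s hs => h.top hC hA hζ hs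
  have := In.mk' h1
  have := In.mk' h.mem
  have := In.mk' hC.big.mem
  have := In.mk' (hC.inM hC.cS)
  have := In.mk' (hC.inM hC.lS)
  have := In.mk' (hC.inM hC.KS)
  have := fun s t [Tm M s] [Tm M t] => hC.tm_st.two s t
  have hU : Tm M (fun v => uu' C g (v 0)) := by unfold uu'; infer_instance
  have := fun s [Tm M s] => hU.one s
  have h6 : ∀ s ∈ dom (ZFSet.sUnion C.P), uu' C g (kk D s) ∈ M ∧ St C.S (uu' C g (kk D s)) ∈ M ∧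
      Le M (St C.S (uu' C g (kk D s))) (D.R (fst s)) := fun s hs => by
    obtain ⟨h6, h7, h8, -⟩ := hC.slot hs
    have := In.mk' (hC.inM (hC.trn _ hC.KS _ h8))
    exact ⟨In.mem _, In.mem _, (hC.st M).2 _ (infR h6 h7) _ hC.big.mem _ (In.mem _) (h.le_uu hC hζ hs)⟩
  obtain ⟨q1, h7, h8, h9, h10⟩ := h3.addall (Z := dom (ZFSet.sUnion (cc C ζ g))) (In.mem _)
    (fun s => ZFSet.sUnion (St C.S (uu' C g (kk D s)) ∩ D.K (fst s))) inferInstance fun s hs => by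
      obtain ⟨h7, h8, -⟩ := hC.slot (h.cc_dom hC hs)
      obtain ⟨-, h9, h10⟩ := h6 s (h.cc_dom hC hs)
      have hk := hartK (D := D) h7 h8
      have := In.mk' h9
      have := In.mk' hk.mem
      exact ⟨h7, hk.mem_of_le (isOrdinal_sUnion fun x hx => hk.ord.mem (mem_inter.1 hx).2)
        ((infR h7 h8).sUnion (In.mem _) (h10.mono fun x hx => (mem_inter.1 hx).1)
          fun x hx => hk.le x (mem_inter.1 hx).2)⟩
  have h11 : ∀ s ξ, pair s ξ ∈ q1 → s ∈ dom (ZFSet.sUnion (cc C ζ g)) := fun s ξ h11 =>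
    by_contra fun h12 => h12 (h5 s ξ ((h10 s h12 ξ).1 h11))
  have h12 : q1 ∈ C.P := hC.cl _ h1 (h.cc_sub hC) h2 q1 ⟨h7, fun s ξ h12 => by
    obtain ⟨p, hp, ξ', h13⟩ := h.cc_pt hC (h11 s ξ h12)
    exact (hC.tail p (h.cc_sub hC hp)).2 s ξ' h13⟩ h11
  obtain ⟨q2, h13, h14, h15⟩ : ∃ q ∈ C.P, Ex q q1 ∧ (ζ ∈ C.l → pair ζ q ∈ C.Ds) := by
    by_cases h13 : ζ ∈ C.l
    · exact (hC.dn q1 h12 ζ h13).imp fun _ h => ⟨h.1, h.2.1, fun _ => h.2.2⟩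
    · exact ⟨q1, h12, Ex.refl _, fun h => absurd h h13⟩
  let E := img (fun k => pair k (pair (uu' C g k) (St C.S (uu' C g k)))) C.Kf
  have hE : ∀ k u x, pair k (pair u x) ∈ E → ∃ s ∈ dom (ZFSet.sUnion C.P), k = kk D s ∧
      u = uu' C g k ∧ x = St C.S u := fun k u x h16 => by
    obtain ⟨k', h17, e⟩ := mem_img.1 h16
    simp only [pair_inj] at e
    obtain ⟨rfl, rfl, rfl⟩ := e
    obtain ⟨s, hs, rfl⟩ := mem_img.1 (hC.kf ▸ h17)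
    exact ⟨s, hs, rfl, rfl, rfl⟩
  have h16 : E ∈ C.S := hC.big.small E (In.mem _) (fun z hz => by
    obtain ⟨k, hk, rfl⟩ := mem_img.1 hz
    obtain ⟨s, hs, rfl⟩ := mem_img.1 (hC.kf ▸ hk)
    obtain ⟨h16, h17, h18⟩ := h6 s hs
    have h19 := (hC.slot hs).2.2.2.2
    exact hC.big.ins.pair (hC.trn _ hC.KS _ hk) (hC.big.ins.pair (hC.big.small _ h16 sep_subset
      ((h.le_uu hC hζ hs).trans h19 hC.big.inf.mem)) (hC.big.small _ h17 (St_sub _ _)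
        (h18.trans h19 hC.big.inf.mem))))
    (hC.big.inf.img _ inferInstance (In.mem _) (hC.big.le _ hC.KS))
  have h17 : ∀ p ∈ cc C ζ g, Ex q2 p := fun p hp => h14.trans (h8.trans (h4 p hp))
  obtain ⟨p, h18, h19, h20⟩ := hC.big.min (Good C.Ds C.t C.l ζ g E) ⟨q2, h13, h17 _ (mem_insert _ _),
    fun p E' h18 => by
      obtain ⟨η, hη, rfl, -⟩ := h.er'.1 h18
      exact h17 _ (mem_insert_of_mem _ (img_mem hη)), h15, fun s κ y u x h18 ⟨p, E', h19, ξ, h20⟩ => by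
      obtain ⟨s', hs, e, rfl, rfl⟩ := hE _ _ _ h18
      obtain ⟨η, hη, rfl, -⟩ := h.er'.1 h19
      rw [e]
      simp only [kk, pair_inj] at e
      obtain ⟨rfl, rfl, -⟩ := e
      obtain ⟨ξ', h21, h22⟩ := h9 s (mem_dom_of (mem_sUnion.2
        ⟨_, mem_insert_of_mem _ (img_mem hη), h20⟩))
      refine ⟨ξ', (h14 s).1 ξ' h21, fun x h23 h24 => ?_⟩
      have h25 := h7.ord h21
      rcases (((h7.hart h21).ord.mem h24).subset_iff_eq_or_mem (h25.mem h22)).1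
        fun z hz => mem_sUnion.2 ⟨x, mem_inter.2 ⟨h23, h24⟩, hz⟩ with e | h26
      exacts [e ▸ h22, h25.mem_trans h26 h22]⟩
  refine ⟨_, hC.big.ins.pair (h.le hC hζ).2.2 (hC.big.ins.pair (hC.trn _ hC.PS _ h18) h16), p, E, rfl,
    ⟨fun z hz => ?_, fun k hk => ⟨_, _, img_mem hk⟩⟩, h.fn.dom_eq.symm ▸ ⟨h18, h19, h20⟩,
    fun k u x h21 => ?_⟩
  · obtain ⟨k, hk, rfl⟩ := mem_img.1 hz
    exact ⟨k, hk, _, _, rfl, h.isM hC hζ hk⟩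
  · obtain ⟨s, hs, rfl, rfl, rfl⟩ := hE _ _ _ h21
    exact ⟨rfl, by rw [kk, fst_pair]; exact h.le_uu hC hζ hs⟩

end PR

end RunP

open RunP in
theorem run (h : S_St) : S_Run := by
  intro M hM D hS hV hA a ha ho X hX hX' E hE H t ht
  obtain ⟨l, h1, h2, g0, h3, h4, h5, h6⟩ := numer hX
  obtain ⟨P, h7, h8, h9, h10, h11⟩ := exP hV ha ho hX E hE H ht
  have := fun s t [Tm M s] [Tm M t] => hE.two s t
  have := In.mk' h1
  have := In.mk' h3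
  have := In.mk' h7
  have := In.mk' ht.1.1
  let Ds := ZFSet.sep (fun z => E (app g0 (fst z)) (snd z)) (prod l P)
  let Kf := img (kk D) (dom (ZFSet.sUnion P))
  obtain ⟨S, R, w, h12, h13, h14⟩ := exS (D := D) hV h7 (c := pair Ds (pair Kf (pair t l))) (In.mem _)
  have hT := trn_coe h12.tr
  have hC : RunP.Ok M D ⟨a, P, Ds, w, Kf, t, l, S, R⟩ := ⟨h, h12, h12.ins.pair h13 (h12.ins.pair (hT.fst h14)
    (h12.ins.pair h12.wm (hT.snd h14))), ha, ho, h2,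
    (le_of_inj h1 h3 hX h4 h5).trans hX' (hS.crd.inf a ha ho).mem, h8, h9, fun p hp ζ hζ =>
      (h10 p hp _ (h4 ζ hζ)).imp fun q hq => ⟨hq.1, hq.2.1, (mem_sep (y := pair ζ q)
        (p := fun z => E (app g0 (fst z)) (snd z))).2
        ⟨pair_mem_prod.2 ⟨hζ, hq.1⟩, by simpa using hq.2.2⟩⟩, h11, rfl⟩
  have h15 := isOrdinal_succ h2
  obtain ⟨f, h16, h17, h18⟩ := tdc _ hC.df_stp h15 (In.mem _) h12.mem fun ξ hξ g h16 h17 h18 =>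
    PR.step ⟨h15.mem hξ, h16, h17, h18⟩ hC hA ((mem_succ_iff (h15.mem hξ) h2).1 hξ)
  have hf : PR M D _ _ f := ⟨h15, h16, h17, h18⟩
  refine ⟨_, h8 _ (hf.pP (mem_insert _ _)), hf.ex_t (mem_insert _ _), fun x hx => ?_⟩
  obtain ⟨η, hη, rfl⟩ := h6 x hx
  have h19 := mem_insert_of_mem l hη
  have h20 : pair η (pp f η) ∈ Ds := (hf.ent h19).2.2.1.2.1.2.2.1 hη
  exact ⟨_, h8 _ (hf.pP h19), by simpa using ((mem_sep
    (p := fun z => E (app g0 (fst z)) (snd z))).1 h20).2, hf.ex_lt (mem_insert _ _) hη⟩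

end Pool.Agent.P.MP_0b3dfe_lc.Q2
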