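import Pool.Agent.P.MP_0b3dfe_lc.Q2.Gen

/-! Adding the clubs of slots with a live partner is countably closed. -/

set_option linter.unusedSectionVars false
set_option synthInstance.maxSize 100000

namespace Pool.Agent.P.MP_0b3dfe_lc.Q2

open ZFSet Pool.Agent.P.MP_3ab3de_lc Pool.Agent.P.MP_9a7e1f_lc ForceP

namespace SigP

variable {M : Set ZF} [hM : TModel M] {D : Dat} [hS : Sy M D] {A B : ZF → Prop} {C a : ZF}

theorem ex_dom {u s : ZF} (hu : CM M D u) (h : s ∈ dom u) : ∃ ξ, pair s ξ ∈ u := by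
  obtain ⟨z, hz, rfl⟩ := mem_dom.1 h
  obtain ⟨t, ξ, rfl⟩ := hu.2.pr hz
  exact ⟨ξ, by rwa [fst_pair]⟩

/-- a chain of conditions whose suprema avoid `T` has a lower bound -/
theorem chain {g : ZF} (hg : g ∈ M) (h1 : ∀ n : ℕ, CM M D (app g (num n)))
    (h2 : ∀ n : ℕ, Ex (app g (num (n + 1))) (app g (num n)))
    (h3 : ∀ s δ, δ ∈ D.K (fst s) → (∃ η, η ∈ δ) →
      (∀ η ∈ δ, ∃ n : ℕ, ∃ ζ, pair s ζ ∈ app g (num n) ∧ η ∈ ζ) →
      (∀ n : ℕ, ∀ ζ, pair s ζ ∈ app g (num n) → ζ ∈ δ) → ¬ D.T δ) :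
    ∃ q, CM M D q ∧ (∀ n : ℕ, Ex q (app g (num n))) ∧
      ∀ s ξ, pair s ξ ∈ q → ∃ n : ℕ, ∃ η, pair s η ∈ app g (num n) := by
  have := In.mk' hg
  have hmono : ∀ n m : ℕ, n ≤ m → Ex (app g (num m)) (app g (num n)) := fun n m h => by
    induction h with
    | refl => exact Ex.refl _
    | step _ ih => exact (h2 _).trans ih
  let U := bun (app g) om
  have hU : ∀ z, z ∈ U ↔ ∃ n : ℕ, z ∈ app g (num n) := fun z => mem_bun.trans
    ⟨fun ⟨_, hx, h⟩ => by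
      obtain ⟨n, rfl⟩ := mem_omega.1 hx
      exact ⟨n, h⟩, fun ⟨n, h⟩ => ⟨_, num_mem_omega n, h⟩⟩
  have hUM : In M U := In.mk' (In.mem (bun (app g) om))
  let S : ZF → ZF := fun s => ZFSet.sUnion (ZFSet.sep (fun η => pair s η ∈ U) (D.K (fst s)))
  have hSm : ∀ s η, η ∈ S s ↔ ∃ n : ℕ, ∃ ζ, pair s ζ ∈ app g (num n) ∧ η ∈ ζ := fun s η =>
    mem_sUnion.trans ⟨fun ⟨ζ, h4, h5⟩ => ((hU _).1 (mem_sep.1 h4).2).imp fun _ h6 => ⟨ζ, h6, h5⟩,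
      fun ⟨n, ζ, h4, h5⟩ => ⟨ζ, mem_sep.2 ⟨((h1 n).2.pt h4).2.1, (hU _).2 ⟨n, h4⟩⟩, h5⟩⟩
  have hSo : ∀ s, IsOrdinal (S s) := fun s => isOrdinal_sUnion fun x hx => by
    obtain ⟨n, h4⟩ := (hU _).1 (mem_sep.1 hx).2
    exact (h1 n).ord h4
  have hsub : ∀ s ζ (n : ℕ), pair s ζ ∈ app g (num n) → ζ = S s ∨ ζ ∈ S s := fun s ζ n h =>
    (((h1 n).ord h).subset_iff_eq_or_mem (hSo s)).1 fun η hη => (hSm s η).2 ⟨n, ζ, h, hη⟩
  have hdom : ∀ s ∈ dom U, ∃ n : ℕ, ∃ η, pair s η ∈ app g (num n) := fun s hs => by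
    obtain ⟨z, hz, rfl⟩ := mem_dom.1 hs
    obtain ⟨n, hn⟩ := (hU z).1 hz
    obtain ⟨t, ξ, rfl⟩ := (h1 n).2.pr hn
    exact ⟨n, ξ, by rwa [fst_pair]⟩
  have e : ∀ s ξ, pair s ξ ∈ U ∪ graph S (dom U) ↔
      (∃ n : ℕ, pair s ξ ∈ app g (num n)) ∨ (s ∈ dom U ∧ S s = ξ) := fun s ξ => by
    rw [mem_union, hU, pair_mem_graph]
  have hK : ∀ s ∈ dom U, Sl s ∧ S s ∈ D.K (fst s) ∧ ¬ D.T (S s) := fun s hs => by
    obtain ⟨n, η, h4⟩ := hdom s hs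
    have h5 := ((h1 n).2.pt h4).1
    have h6 := (h1 n).site h4
    have hk := hartK (D := D) h5 h6
    have hR := infR (D := D) h5 h6
    have := In.mk' (fst_mem (tr (h1 n).1 h4))
    obtain ⟨b, hb, h7⟩ := hk.bdd_wit hR (fun x ξ => ∀ ζ, pair s ζ ∈ app g x → ζ ∈ ξ)
      inferInstance hM.infinity hR.omLe fun x hx => by
        obtain ⟨m, rfl⟩ := mem_omega.1 hx
        obtain ⟨ξ, h7, -, -, h8⟩ := (h1 m).above h5 h6 (hk.zero hR)
        exact ⟨ξ, h7, h8⟩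
    have h8 : S s ∈ D.K (fst s) := (hSo s).mem_of_subset_of_mem hk.ord (fun η hη => by
      obtain ⟨m, ζ, h8, h9⟩ := (hSm s η).1 hη
      obtain ⟨ξ, h10, h11⟩ := h7 _ (num_mem_omega m)
      exact (hk.ord.mem hb).mem_trans h9 ((hk.ord.mem hb).mem_trans (h11 ζ h8) h10)) hb
    refine ⟨h5, h8, ?_⟩
    by_cases h9 : ∃ m : ℕ, pair s (S s) ∈ app g (num m)
    · obtain ⟨m, h9⟩ := h9
      exact ((h1 m).2.pt h9).2.2
    · have h10 : ∀ m : ℕ, ∀ ζ, pair s ζ ∈ app g (num m) → ζ ∈ S s := fun m ζ h =>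
        (hsub s ζ m h).resolve_left fun e => h9 ⟨m, e ▸ h⟩
      exact h3 s _ h8 ⟨η, h10 n η h4⟩ (fun η hη => (hSm s η).1 hη) h10
  refine ⟨U ∪ graph S (dom U), ⟨In.mem _, fun z hz => ?_, fun s _ δ hδ h => ?_⟩,
    fun n s => ⟨fun ξ h => (e s ξ).2 (Or.inl ⟨n, h⟩), fun ξ h => ?_⟩, fun s ξ h => ?_⟩
  · rcases mem_union.1 hz with hz | hz
    · obtain ⟨n, hn⟩ := (hU z).1 hz
      exact (h1 n).2.1 z hn
    · obtain ⟨s, hs, rfl⟩ := mem_graph.1 hz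
      exact ⟨s, _, rfl, hK s hs⟩
  · obtain ⟨ξ0, -, h4⟩ := h.ne
    have hs : s ∈ dom U := ((e s ξ0).1 h4).elim
      (fun ⟨n, h5⟩ => mem_dom_of ((hU _).2 ⟨n, h5⟩)) And.left
    obtain ⟨n0, η0, h5⟩ := hdom s hs
    have hk := (h1 n0).hart h5
    have hδo : IsOrdinal δ := (isOrdinal_succ hk.ord).mem hδ
    have h6 : δ ⊆ S s := fun η hη => by
      obtain ⟨ξ, -, h6, h7⟩ := h.2 η hη
      rcases (e s ξ).1 h7 with ⟨n, h8⟩ | h8
      · exact (hSm s η).2 ⟨n, ξ, h8, h6⟩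
      · exact h8.2 ▸ h6
    rcases (hδo.subset_iff_eq_or_mem (hSo s)).1 h6 with h7 | h7
    · exact (e s δ).2 (Or.inr ⟨hs, h7.symm⟩)
    · obtain ⟨n, ζ, h8, h9⟩ := (hSm s δ).1 h7
      refine (e s δ).2 (Or.inl ⟨n, (h1 n).cl hδo (h.mono fun ξ h10 h11 => ?_)⟩)
      rcases (e s ξ).1 h11 with ⟨k, h12⟩ | h12
      · rcases le_total k n with h13 | h13
        · exact (hmono k n h13 s).1 ξ h12
        · exact (hmono n k h13 s).below h8 h12 (((h1 n).ord h8).mem_trans h10 h9)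
      · exact absurd (h12.2 ▸ h10) (mem_asymm h7)
  · rcases (e s ξ).1 h with ⟨k, h4⟩ | h4
    · rcases le_total k n with h5 | h5
      · exact Or.inl ((hmono k n h5 s).1 ξ h4)
      · exact (hmono n k h5 s).2 ξ h4
    · by_cases h5 : pair s ξ ∈ app g (num n)
      · exact Or.inl h5
      · exact Or.inr fun η h6 => h4.2 ▸ (hsub s η n h6).resolve_left fun e' =>
          h5 (h4.2 ▸ e' ▸ h6)
  · exact ((e s ξ).1 h).elim (fun ⟨n, h4⟩ => ⟨n, ξ, h4⟩) fun h4 => hdom s h4.1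

/-- the new slots -/
noncomputable def Rz (A B : ZF → Prop) (a : ZF) : ZF :=
  ZFSet.sep (fun s => A s ∧ ¬ B s) (prod a (num 2))

/-- conditions on the new slots -/
noncomputable def QQ (M : Set ZF) (D : Dat) (A B : ZF → Prop) (a : ZF) : ZF :=
  ZFSet.sep (fun u => ∀ z ∈ u, fst z ∈ Rz A B a) (PS M D a)

theorem mem_QQ (ho : IsOrdinal a) {u : ZF} :
    u ∈ QQ M D A B a ↔ CM M D u ∧ ∀ s ξ, pair s ξ ∈ u → s ∈ Rz A B a := by
  rw [QQ, mem_sep, mem_PS]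
  constructor
  · rintro ⟨⟨h1, -⟩, h2⟩
    exact ⟨h1, fun s ξ h => by simpa using h2 _ h⟩
  · rintro ⟨h1, h2⟩
    refine ⟨⟨h1, fun s ξ h => (sl_of_prod ho (mem_sep.1 (h2 s ξ h)).1).2⟩, fun z hz => ?_⟩
    obtain ⟨s, ξ, rfl⟩ := h1.2.pr hz
    rw [fst_pair]
    exact h2 s ξ hz

section

variable (hA : Df M (fun v => A (v 0))) (hB : Df M (fun v => B (v 0))) (ha : a ∈ M)
include hA hB ha

theorem Rz_mem : Rz A B a ∈ M := by
  have := In.mk' ha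
  have := fun s [Tm M s] => hA.one s
  have := fun s [Tm M s] => hB.one s
  unfold Rz
  exact In.mem _

theorem QQ_mem : QQ M D A B a ∈ M := by
  have := In.mk' ha
  have := In.mk' (Rz_mem hA hB ha)
  unfold QQ
  exact In.mem _

theorem LL_mem : Lr Ex (fun _ => QQ M D A B a) a ∈ M := by
  have := In.mk' (QQ_mem (D := D) hA hB ha)
  unfold Lr
  exact In.mem _

theorem sep_QQ (ho : IsOrdinal a) {p : ZF} (hp : CM M D p) :
    ZFSet.sep (fun z => fst z ∈ Rz A B a) p ∈ QQ M D A B a := by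
  have := In.mk' (Rz_mem hA hB ha)
  exact (mem_QQ ho).2 ⟨hp.sep (fun s => s ∈ Rz A B a) inferInstance, fun s ξ h => by
    simpa using (mem_sep.1 h).2⟩

theorem cx2 (X : All M D C) (ho : IsOrdinal a) : Cx (WA M D C B a) (QQ M D A B a)
    (Lr Ex (fun _ => QQ M D A B a) a) (ZFSet.sep (Ex C) (QQ M D A B a)) := by
  have hW := X.wmodel hB ha ho
  have h0 := X.sub_W hB ha ho
  have hR := In.mk' (Rz_mem hA hB ha)
  refine ⟨h0 (QQ_mem hA hB ha), h0 (LL_mem hA hB ha),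
    ⟨fun p q h => ⟨(mem_Lr.1 h).1, (mem_Lr.1 h).2.1⟩, fun p hp => mem_Lr.2 ⟨hp, hp, Ex.refl p⟩,
      fun p q r h h' => mem_Lr.2 ⟨(mem_Lr.1 h).1, (mem_Lr.1 h').2.1,
        (mem_Lr.1 h).2.2.trans (mem_Lr.1 h').2.2⟩⟩,
    sep_subset, fun p hp q h => mem_sep.2 ⟨(mem_Lr.1 h).2.1,
      (mem_sep.1 hp).2.trans (mem_Lr.1 h).2.2⟩, fun p hp q hq => ?_, fun E hE H => ?_⟩
  · obtain ⟨h1, h2⟩ := mem_sep.1 hp
    obtain ⟨h3, h4⟩ := mem_sep.1 hq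
    obtain ⟨h5, h6, h7, h8⟩ := un ((mem_QQ ho).1 h1).1 ((mem_QQ ho).1 h3).1 h2 h4
    have h9 : p ∪ q ∈ QQ M D A B a := (mem_QQ ho).2 ⟨h5, fun s ξ h => (mem_union.1 h).elim
      (((mem_QQ ho).1 h1).2 s ξ) (((mem_QQ ho).1 h3).2 s ξ)⟩
    exact ⟨_, mem_sep.2 ⟨h9, h6⟩, mem_Lr.2 ⟨h9, h1, h7⟩, mem_Lr.2 ⟨h9, h3, h8⟩⟩
  · obtain ⟨t, ht, e⟩ : E ∩ QQ M D A B a ∈ WA M D C B a := by
      have := In.mk' hE
      have := In.mk' (h0 (QQ_mem (D := D) hA hB ha))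
      exact In.mem _
    obtain ⟨Bn, hBn, h1, h2⟩ := (X.cxs hB ha ho).cap_ext ht (QQ_mem (D := D) hA hB ha)
      (e ▸ fun x hx => (mem_inter.1 hx).2)
    rw [e] at h2
    have := In.mk' hBn
    obtain ⟨p, hp, h3, h4⟩ := X.gen.meet (fun p => (∃ r q, pair r q ∈ Bn ∧ LeA D B p r ∧ Ex p q) ∨
      ¬ ∃ u, CM M D u ∧ Ex u p ∧ ∃ r q, pair r q ∈ Bn ∧ LeA D B u r ∧ Ex u q) inferInstance
      fun p hp => by
        by_cases h3 : ∃ u, CM M D u ∧ Ex u p ∧ ∃ r q, pair r q ∈ Bn ∧ LeA D B u r ∧ Ex u q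
        · obtain ⟨u, h3, h4, h5⟩ := h3
          exact ⟨u, h3, h4, Or.inl h5⟩
        · exact ⟨p, hp, Ex.refl p, Or.inr h3⟩
    rcases h4 with ⟨r, q, h4, h5, h6⟩ | h4
    · have h7 := (pair_mem_prod.1 (h1 h4)).1
      have h8 := mem_inter.1 ((h2 q).2 ⟨r, mem_inter.2 ⟨mem_HA.2 ⟨(mem_PS.1 h7).1,
        h3.leA.trans h5⟩, h7⟩, h4⟩)
      exact ⟨q, mem_sep.2 ⟨h8.2, h3.trans h6⟩, h8.1⟩
    · exfalso
      obtain ⟨q, h5, h6⟩ := H _ (sep_QQ hA hB ha ho hp)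
      obtain ⟨h6, -, h7⟩ := mem_Lr.1 h6
      obtain ⟨r, h8, h9⟩ := (h2 q).1 (mem_inter.2 ⟨h5, h6⟩)
      obtain ⟨h10, h11⟩ := (mem_HA (M := M)).1 (mem_inter.1 h8).1
      obtain ⟨p0, h12, h13, h14⟩ := X.gen.char hB h10 h11
      obtain ⟨h15, -, h16, h17⟩ := un hp h12 h3 h13
      obtain ⟨h18, h19⟩ := (mem_QQ ho).1 h6
      have h20 : ∀ s, Live D B (mix (fun s => s ∈ Rz A B a) q (p ∪ p0)) s → s ∉ Rz A B a :=
        fun s hs h => (mem_sep.1 h).2.2 (live_iff.1 hs).1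
      refine h4 ⟨_, h18.mix h15 (fun s => s ∈ Rz A B a) inferInstance, fun s => ?_, r, q, h9,
        fun s hs => (mix_neg (h20 s hs)).ee.trans (h17.leA.trans h14 s (hs.of fun t ht ξ h =>
          h.mono (mix_neg (h20 t ht)).ee)), fun s => ?_⟩
      · by_cases h : s ∈ Rz A B a
        · exact (mix_pos h).ee.trans ((h7 s).trans (Eqs.ee fun ξ => by simp [h]))
        · exact (mix_neg h).ee.trans (h16 s)
      · by_cases h : s ∈ Rz A B a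
        · exact (mix_pos h).ee
        · exact ee_of_empty fun ξ h' => h (h19 s ξ h')

theorem sub2 (X : All M D C) (ho : IsOrdinal a) (hp : ∀ s, B s → D.Par s → B (D.par s)) :
    WA M D C A a ⊆ val (ZFSet.sep (Ex C) (QQ M D A B a)) '' WA M D C B a := by
  have hW := X.wmodel hB ha ho
  have c := cx2 hA hB ha X ho
  have hN := c.model
  have h0 : M ⊆ val (ZFSet.sep (Ex C) (QQ M D A B a)) '' WA M D C B a :=
    (X.sub_W hB ha ho).trans c.sub_ext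
  refine ext_sub h0 ?_
  have e : HA D C A ∩ PS M D a = ZFSet.sep (fun q => ∃ r ∈ HA D C B ∩ PS M D a,
      ∃ u ∈ ZFSet.sep (Ex C) (QQ M D A B a),
        pair (mix (fun s => s ∈ Rz A B a) u r) q ∈ Lr (le M D A) (PS M D) a) (PS M D a) := by
    refine ZFSet.ext fun q => ?_
    rw [mem_sep]
    constructor
    · intro h1
      obtain ⟨h1, h2⟩ := mem_inter.1 h1
      obtain ⟨h1, h3⟩ := (mem_HA (M := M)).1 h1
      obtain ⟨p, h4, h5, h6⟩ := X.gen.char hA h1 h3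
      have h7 := (mem_PS.1 (h4.rs ha)).1
      refine ⟨h2, _, rs_mem_HA h4 h5.leA ha, _, mem_sep.2 ⟨sep_QQ hA hB ha ho h7,
        (h5.trans (ex_rs a p)).trans (ex_sep _ fun s => s ∈ Rz A B a)⟩, ?_⟩
      have e : mix (fun s => s ∈ Rz A B a) (ZFSet.sep (fun z => fst z ∈ Rz A B a) (rs a p))
          (rs a p) = rs a p := ZFSet.ext fun z => by
        simp only [mix, mem_union, mem_sep]
        tauto
      rw [e]
      exact mem_Lr.2 ⟨h4.rs ha, h2, h7, h1, h6.rs h2 ho⟩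
    · rintro ⟨h1, r, h2, u, h3, h4⟩
      obtain ⟨-, -, -, h5, h6⟩ := mem_Lr.1 h4
      obtain ⟨h2, h7⟩ := mem_inter.1 h2
      obtain ⟨h2, h8⟩ := (mem_HA (M := M)).1 h2
      refine mem_inter.2 ⟨mem_HA.2 ⟨h5, LeA.trans (fun s hs => ?_) h6⟩, h1⟩
      by_cases h : s ∈ Rz A B a
      · exact ((mem_sep.1 h3).2 s).trans (mix_pos h).symm.ee
      · by_cases h9 : B s
        · exact (h8 s (hs.up (fun t _ => hp t) h9)).trans (mix_neg h).symm.ee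
        · exact ee_of_empty fun ξ h10 => by
            have h11 := (mix_neg h ξ).1 h10
            exact h (mem_sep.2 ⟨(h2.2.pt h11).1.mem_prod ((mem_PS.1 h7).2 s ξ h11),
              (live_iff.1 hs).1, h9⟩)
  rw [e]
  have := In.mk' (h0 (X.cxs hA ha ho).hP)
  have := In.mk' (h0 (Lr_mem (D := D) hA ha))
  have := In.mk' (h0 (Rz_mem hA hB ha))
  have := In.mk' (c.sub_ext (X.cxs hB ha ho).gen_mem)
  have := In.mk' c.gen_mem
  unfold mix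
  exact In.mem _

theorem sigcl (X : All M D C) (ho : IsOrdinal a)
    (hm : ∀ s, A s → ¬ B s → Sl s → B (pair (fst s) (num 1)) ∧ ¬ D.Par (pair (fst s) (num 1))) :
    SigCl (WA M D C B a) (QQ M D A B a) (Lr Ex (fun _ => QQ M D A B a) a) := by
  have hW := X.wmodel hB ha ho
  have h0 := X.sub_W hB ha ho
  have hz : ∀ s ∈ Rz A B a, Sl s ∧ s = pair (fst s) ∅ ∧ ∀ ξ, pair (pair (fst s) (num 1)) ξ ∈ C ↔
      pair (pair (fst s) (num 1)) ξ ∈ ZFSet.sUnion (HA D C B ∩ PS M D a) := fun s hs => by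
    obtain ⟨h1, h2, h3⟩ := mem_sep.1 hs
    obtain ⟨h4, h5⟩ := sl_of_prod ho h1
    obtain ⟨h6, h7⟩ := hm s h2 h3 h4
    refine ⟨h4, ?_, fun ξ => (X.gen.mem_C (.mk _ h6 (fun h => absurd h h7) fun h => absurd h h7) ha
      (by rwa [fst_pair])).trans mem_sUnion.symm⟩
    obtain ⟨o, -, i, h8, rfl⟩ := h4
    rw [fst_pair] at h6 ⊢
    rcases mem_two.1 h8 with rfl | rfl
    exacts [rfl, absurd h6 h3]
  refine ⟨ZFSet.sep (fun u => ∀ s ∈ dom u, ∃ ξ, pair s ξ ∈ u ∧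
    pair (pair (fst s) (num 1)) ξ ∈ ZFSet.sUnion (HA D C B ∩ PS M D a) ∧
      ∀ η, pair s η ∈ u → η ⊆ ξ) (QQ M D A B a), ?_, fun u hu => ?_, fun f hf H => ?_⟩
  · have := In.mk' (h0 (QQ_mem (D := D) hA hB ha))
    have := In.mk' (X.cxs hB ha ho).gen_mem
    exact In.mem _
  · obtain ⟨h1, h2⟩ := (mem_QQ ho).1 hu
    have := In.mk' h1.1
    have h3 : ∀ s ∈ dom u, s ∈ Rz A B a ∧ fst s ∈ M := fun s hs => by
      obtain ⟨ξ, h⟩ := ex_dom h1 hs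
      exact ⟨h2 s ξ h, h1.site h⟩
    obtain ⟨b, hb, h4⟩ := skolem (M := M) (fun s ξ => ξ ∈ D.K (fst s) ∧
      ∀ η, pair s η ∈ u → η ∈ ξ) inferInstance (In.mem (dom u)) fun s hs => by
        have hk := hartK (D := D) (hz s (h3 s hs).1).1 (h3 s hs).2
        obtain ⟨ξ, h4, -, -, h5⟩ := h1.above (hz s (h3 s hs).1).1 (h3 s hs).2
          (hk.zero (infR (hz s (h3 s hs).1).1 (h3 s hs).2))
        exact ⟨ξ, tr hk.mem h4, h4, h5⟩
    have := In.mk' hb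
    obtain ⟨p, hp, h5, h6⟩ := X.gen.meet (fun p => ∀ s ∈ dom u, ∃ ξ,
      pair (pair (fst s) (num 1)) ξ ∈ p ∧ ∀ η, pair s η ∈ u → η ∈ ξ) inferInstance fun p hp => by
        obtain ⟨q, h5, h6, h7, -⟩ := hp.addall
          (In.mem (img (fun s => pair (fst s) (num 1)) (dom u)))
          (fun t => app b (pair (fst t) ∅)) inferInstance fun t ht => by
            obtain ⟨s, hs, rfl⟩ := mem_img.1 ht
            obtain ⟨h5, h6, -⟩ := hz s (h3 s hs).1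
            rw [fst_pair, ← h6]
            exact ⟨sl_pair.2 ⟨h5.ord, mem_two.2 (Or.inr rfl)⟩, (h4 s hs).1⟩
        refine ⟨q, h5, h6, fun s hs => ?_⟩
        obtain ⟨ξ, h8, h9⟩ := h7 _ (img_mem hs)
        rw [fst_pair, ← (hz s (h3 s hs).1).2.1] at h9
        exact ⟨ξ, h8, fun η hη => (h5.ord h8).mem_trans ((h4 s hs).2 η hη) h9⟩
    have := In.mk' hp.1
    obtain ⟨F, hF, h7⟩ := skolem (M := M) (fun s ξ => pair (pair (fst s) (num 1)) ξ ∈ p ∧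
      ∀ η, pair s η ∈ u → η ∈ ξ) inferInstance (In.mem (dom u)) fun s hs => by
        obtain ⟨ξ, h7, h8⟩ := h6 s hs
        exact ⟨ξ, snd_mem (tr hp.1 h7), h7, h8⟩
    have := In.mk' hF
    obtain ⟨h8, h9⟩ := h1.addpts (In.mem (dom u)) (app F) inferInstance fun s hs => by
      have h8 := hp.2.pt (h7 s hs).1
      rw [fst_pair] at h8
      exact ⟨(hz s (h3 s hs).1).1, h8.2.1, h8.2.2, (h7 s hs).2⟩
    have e : ∀ s ξ, pair s ξ ∈ u ∪ graph (app F) (dom u) ↔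
        pair s ξ ∈ u ∨ (s ∈ dom u ∧ app F s = ξ) := fun s ξ => by simp
    have h10 : ∀ s ξ, pair s ξ ∈ u ∪ graph (app F) (dom u) → s ∈ dom u := fun s ξ h =>
      ((e s ξ).1 h).elim mem_dom_of And.left
    have h11 : u ∪ graph (app F) (dom u) ∈ QQ M D A B a :=
      (mem_QQ ho).2 ⟨h8, fun s ξ h => (h3 s (h10 s ξ h)).1⟩
    refine ⟨_, mem_sep.2 ⟨h11, fun s hs => ?_⟩, mem_Lr.2 ⟨h11, hu, h9⟩⟩
    obtain ⟨ξ, h12⟩ := ex_dom h8 hs
    have h13 := h10 s ξ h12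
    refine ⟨app F s, (e s _).2 (Or.inr ⟨h13, rfl⟩), ((hz s (h3 s h13).1).2.2 _).1
      ((h5 _).1 _ (h7 s h13).1), fun η hη => ?_⟩
    rcases (e s η).1 hη with h14 | h14
    · exact (hp.ord (h7 s h13).1).subset_of_mem ((h7 s h13).2 η h14)
    · exact h14.2 ▸ fun _ h => h
  · obtain ⟨g, hg, e⟩ := X.seq hB (X.W_sub hB ha ho hf) (QQ_mem (D := D) hA hB ha)
      fun n => (mem_sep.1 (H n).1).1
    simp only [← e] at H ⊢
    have h1 := fun n => (mem_QQ ho).1 (mem_sep.1 (H n).1).1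
    obtain ⟨q, h2, h3, h4⟩ := chain hg (fun n => (h1 n).1) (fun n => (mem_Lr.1 (H n).2).2.2)
      fun s δ hδ h2 h3 h4 => by
        obtain ⟨η0, h5⟩ := h2
        obtain ⟨n0, ζ0, h6, -⟩ := h3 η0 h5
        have h7 := (hz s ((h1 n0).2 s ζ0 h6)).2.2
        refine (X.gen.pt (X.gen.cl (s := pair (fst s) (num 1)) (by rwa [fst_pair])
          ⟨⟨η0, h5⟩, fun η hη => ?_⟩)).2.2.2
        obtain ⟨n, ζ, h8, h9⟩ := h3 η hη
        obtain ⟨ξ, h10, h11, h12⟩ := (mem_sep.1 (H n).1).2 s (mem_dom_of h8)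
        exact ⟨ξ, h4 n ξ h10, h12 ζ h8 h9, (h7 ξ).2 h11⟩
    have h5 : q ∈ QQ M D A B a := (mem_QQ ho).2 ⟨h2, fun s ξ h => by
      obtain ⟨n, η, h5⟩ := h4 s ξ h
      exact (h1 n).2 s η h5⟩
    exact ⟨q, fun n => mem_Lr.2 ⟨h5, (mem_sep.1 (H n).1).1, h3 n⟩⟩

end

end SigP

theorem sig (h : S_Cls) : S_Sig := by
  intro M _ D _ C X A B hA hB h1 h2 h3 a ha ho o hm
  have := X.wmodel hB ha ho
  exact h _ _ _ _ (SigP.cx2 hA hB ha X ho) (SigP.sigcl hA hB ha X ho h3) _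
    (X.W_mono hA hB h1 ha ho) (SigP.sub2 hA hB ha X ho h2) o (X.sub_W hB ha ho hm)

end Pool.Agent.P.MP_0b3dfe_lc.Q2
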