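import Pool.Agent.P.MP_0b3dfe_lc.Q2.St1

/-! The hull operation and the class `TT` are definable. -/

set_option linter.unusedSectionVars false
set_option synthInstance.maxSize 100000

namespace Pool.Agent.P.MP_0b3dfe_lc.Q2

open ZFSet Pool.Agent.P.MP_3ab3de_lc Pool.Agent.P.MP_9a7e1f_lc ForceP

namespace StP

theorem hf_mem {k : ZF} (h : HF k) : k ∈ LS om :=
  h _ (Lim.clo ⟨isOrdinal_omega, omega_zero, fun _ => omega_succ⟩).2

/-- a quantifier over formulas is a quantifier over codes -/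
theorem ex_code {Tr : ZF → ZF → ZF → Prop}
    (h1 : ∀ φ : Fml, ∃ c, HF c ∧ ∀ S f, Tr S c f ↔ Sat (S : Set ZF) φ (ev f))
    (h2 : ∀ c, ∃ φ : Fml, ∀ S f, Tr S c f ↔ Sat (S : Set ZF) φ (ev f)) (S : ZF)
    (P : (ZF → Prop) → Prop) :
    (∃ φ : Fml, P fun f => Sat (S : Set ZF) φ (ev f)) ↔ ∃ k ∈ LS om, P (Tr S k) := by
  constructor
  · rintro ⟨φ, h⟩
    obtain ⟨c, h3, h4⟩ := h1 φ
    exact ⟨c, hf_mem h3, (funext fun f => propext (h4 S f) : Tr S c = _) ▸ h⟩
  · rintro ⟨c, -, h⟩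
    obtain ⟨φ, h4⟩ := h2 c
    exact ⟨φ, (funext fun f => propext (h4 S f) : Tr S c = _) ▸ h⟩

/-- the assignment `y, a, b, b, …` -/
noncomputable def a3 (y a b : ZF) : ZF := cn y (cn a (graph (fun _ => b) om))

theorem ev_a3 (y a b : ZF) : ev (a3 y a b) = cons y (cons a fun _ => b) := by
  rw [a3, ev_cn, ev_cn, ev_const]

/-- `Uq` with a truth predicate -/
def UqK (T : ZF → Prop) (S a b y : ZF) : Prop :=
  y ∈ S ∧ T (a3 y a b) ∧ ∀ y' ∈ S, T (a3 y' a b) → y' = y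

theorem uq_iff {S a b y : ZF} {φ : Fml} :
    Uq (S : Set ZF) φ a b y ↔ UqK (fun f => Sat (S : Set ZF) φ (ev f)) S a b y := by
  simp only [UqK, ev_a3]; rfl

/-- `Ht` with a truth predicate -/
def HtK (T : ZF → Prop) (S c ζ h : ZF) : Prop :=
  ζ ∈ S ∧ h ∈ S ∧ ∃ r ∈ S, Orc S r ∧ T (cn h (a3 ζ r c))

theorem ht_iff {S c ζ h : ZF} {φ : Fml} :
    Ht S φ c ζ h ↔ HtK (fun f => Sat (S : Set ZF) φ (ev f)) S c ζ h := by
  simp only [HtK, ev_cn, ev_a3]; rfl

/-- `Sing` with a truth predicate -/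
def SingK (T : ZF → Prop) (S α : ZF) : Prop := ∃ c ∈ S, ∃ l ∈ α,
  (∀ ζ ∈ l, ∀ h ∈ S, ∀ h' ∈ S, HtK T S c ζ h → HtK T S c ζ h' → h = h') ∧
    ∀ η ∈ α, ∃ ζ ∈ l, ∃ h ∈ α, η ∈ h ∧ HtK T S c ζ h

theorem sing_iff {S α : ZF} :
    Sing S α ↔ ∃ φ : Fml, SingK (fun f => Sat (S : Set ZF) φ (ev f)) S α := by
  simp only [Sing, SingK, ← ht_iff]
  refine exists_congr fun φ => exists_congr fun c => and_congr_right fun _ =>
    exists_congr fun l => and_congr_right fun _ => and_congr_left fun _ =>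
    forall₂_congr fun ζ _ => ⟨fun H h _ h' _ => H h h', fun H h h' h1 h2 => ?_⟩
  exact H h h1.2.1 h' h2.2.1 h1 h2

section

variable {M : Set ZF} [TModel M]

instance tm_a3 {a b c : Env → ZF} [Tm M a] [Tm M b] [Tm M c] :
    Tm M (fun v => a3 (a v) (b v) (c v)) := by
  unfold a3; infer_instance

instance df_ent {a b c : Env → ZF} [Tm M a] [Tm M b] [Tm M c] :
    Df M (fun v => Ent (a v) (b v) (c v)) :=
  ((d0_ent (a := 0) (b := 1) (c := 2)).df (trn_model M)).three a b c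

instance df_ns {a b c : Env → ZF} [Tm M a] [Tm M b] [Tm M c] :
    Df M (fun v => NS (a v) (b v) (c v)) :=
  ((d0_ns (a := 0) (b := 1) (c := 2)).df (trn_model M)).three a b c

theorem le_codes {R : ZF} (hR : Inf M R) : Le M (LS om) R := by
  obtain ⟨k, hk⟩ := exists_hart hR.mem
  exact Hull2P.le_LS hR hk om (hk.omega hR)

variable {Tr : ZF → ZF → ZF → Prop} (h0 : Df M (fun v => Tr (v 0) (v 1) (v 2)))
include h0

theorem df_uqk : Df M (fun v => UqK (Tr (v 0) (fst (v 1))) (v 0) (fst (snd (v 1))) (snd (snd (v 1)))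
    (v 2)) := by
  have := fun s t r [Tm M s] [Tm M t] [Tm M r] => h0.three s t r
  unfold UqK; infer_instance

theorem df_htk (h2 : Tm M (fun v => St (v 0) (v 1))) :
    Df M (fun v => HtK (Tr (v 0) (fst (v 1))) (v 0) (snd (v 1)) (fst (v 2)) (snd (v 2))) := by
  have := fun s t r [Tm M s] [Tm M t] [Tm M r] => h0.three s t r
  have := fun s t [Tm M s] [Tm M t] => h2.two s t
  have h3 : Df M (fun v => Orc (v 0) (v 1)) := by unfold Orc; infer_instance
  have := fun s t [Tm M s] [Tm M t] => h3.two s t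
  unfold HtK; infer_instance

theorem df_singk (h2 : Tm M (fun v => St (v 0) (v 1))) :
    Df M (fun v => SingK (Tr (v 0) (v 1)) (v 0) (v 2)) := by
  have h3 : ∀ s k c z h [Tm M s] [Tm M k] [Tm M c] [Tm M z] [Tm M h],
      Df M (fun v => HtK (Tr (s v) (k v)) (s v) (c v) (z v) (h v)) := fun s k c z h _ _ _ _ _ =>
    ((df_htk h0 h2).three (R := fun S p q => HtK (Tr S (fst p)) S (snd p) (fst q) (snd q)) s
      (fun v => pair (k v) (c v)) (fun v => pair (z v) (h v))).congr fun _ _ => by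
        simp only [fst_pair, snd_pair]
  unfold SingK; infer_instance

end

end StP

open StP

theorem st (h : S_Tr) : S_St := by
  obtain ⟨Tr, h0, h1, h2⟩ := h
  intro M _
  have e : ∀ S U y : ZF, y ∈ St S U ↔ ∃ k ∈ LS om, ∃ a ∈ U, ∃ b ∈ U, a ∈ S ∧ b ∈ S ∧
      UqK (Tr S k) S a b y := fun S U y => by
    rw [mem_St, ← ex_code h1 h2 S fun T => ∃ a ∈ U, ∃ b ∈ U, a ∈ S ∧ b ∈ S ∧ UqK T S a b y]
    simp only [uq_iff]
  have h3 : ∀ s p y [Tm M s] [Tm M p] [Tm M y], Df M (fun v => UqK (Tr (s v) (fst (p v))) (s v)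
      (fst (snd (p v))) (snd (snd (p v))) (y v)) := fun s p y _ _ _ =>
    (df_uqk (h0 M)).three (R := fun S p y => UqK (Tr S (fst p)) S (fst (snd p)) (snd (snd p)) y)
      s p y
  refine ⟨?_, fun R hR S hS U hU hle => ?_⟩
  · refine (inferInstance : Tm M (fun v => ZFSet.sep (fun y => ∃ p ∈ prod (LS om) (prod (v 1) (v 1)),
      fst (snd p) ∈ v 0 ∧ snd (snd p) ∈ v 0 ∧
        UqK (Tr (v 0) (fst p)) (v 0) (fst (snd p)) (snd (snd p)) y) (v 0))).congr fun v _ => ?_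
    ext y
    rw [e, mem_sep]
    constructor
    · rintro ⟨k, hk, a, ha, b, hb, h4⟩
      exact ⟨h4.2.2.1, pair k (pair a b), pair_mem_prod.2 ⟨hk, pair_mem_prod.2 ⟨ha, hb⟩⟩, by
        simpa only [fst_pair, snd_pair] using h4⟩
    · rintro ⟨-, p, hp, h4⟩
      obtain ⟨k, hk, q, hq, rfl⟩ := mem_prod.1 hp
      obtain ⟨a, ha, b, hb, rfl⟩ := mem_prod.1 hq
      exact ⟨k, hk, a, ha, b, hb, by simpa only [fst_pair, snd_pair] using h4⟩
  · have := In.mk' hS
    have := In.mk' hU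
    refine Le.trans (b := prod (LS om) (prod U U)) (Le.of_fun (fun p => ZFSet.sUnion (ZFSet.sep
      (fun y => UqK (Tr S (fst p)) S (fst (snd p)) (snd (snd p)) y) S)) inferInstance (In.mem _)
      fun y hy => ?_) (hR.prod (le_codes hR) (hR.prod hle hle)) hR.mem
    obtain ⟨k, hk, a, ha, b, hb, -, -, h4⟩ := (e S U y).1 hy
    refine ⟨pair k (pair a b), pair_mem_prod.2 ⟨hk, pair_mem_prod.2 ⟨ha, hb⟩⟩, ?_⟩
    have h5 : ZFSet.sep (fun y => UqK (Tr S k) S a b y) S = {y} := by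
      ext z
      rw [mem_sep, mem_singleton]
      exact ⟨fun h => h4.2.2 z h.1 h.2.2.1, fun h => h ▸ ⟨h4.1, h4⟩⟩
    simp only [fst_pair, snd_pair, h5, sUnion_singleton]

theorem tdf (h : S_Tr) (h2 : S_St) : S_TDf := by
  obtain ⟨Tr, h0, h1, h3⟩ := h
  intro M _
  have h4 : ∀ s k a [Tm M s] [Tm M k] [Tm M a],
      Df M (fun v => SingK (Tr (s v) (k v)) (s v) (a v)) := fun s k a _ _ _ =>
    (df_singk (h0 M) (h2 M).1).three (R := fun S k α => SingK (Tr S k) S α) s k a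
  have h5 : Df M (fun v => Sing (v 0) (v 1)) :=
    (inferInstance : Df M (fun v => ∃ k ∈ LS om, SingK (Tr (v 0) k) (v 0) (v 1))).congr
      fun v _ => sing_iff.trans (ex_code h1 h3 _ fun T => SingK T (v 0) (v 1))
  have := fun s t [Tm M s] [Tm M t] => h5.two s t
  have h6 : Df M (fun v => TS M (v 0) (v 1)) := by unfold TS; infer_instance
  have := fun s t [Tm M s] [Tm M t] => h6.two s t
  have h7 : Tm M (fun v => rc (fun α g => ZFSet.sep
      (fun _ => TS M α (ZFSet.sep (fun ξ => ∅ ∈ app g ξ) α)) {∅}) (v 0)) := tm_rc inferInstance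
  unfold TT; infer_instance

end Pool.Agent.P.MP_0b3dfe_lc.Q2
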