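import Pool.Agent.P.MP_0b3dfe_lc.Q2.St1

/-! The class `TT` is stationary in every successor cardinal of a model of `V = L`. -/

set_option linter.unusedSectionVars false
set_option synthInstance.maxSize 100000

namespace Pool.Agent.P.MP_0b3dfe_lc.Q2

open ZFSet Pool.Agent.P.MP_3ab3de_lc Pool.Agent.P.MP_9a7e1f_lc ForceP

namespace TStatP

theorem orc_up {S H r : ZF} (h : El (S : Set ZF) H) (hS : IsTransitive S) (h1 : r ∈ S)
    (h2 : r ∈ H)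
    (hw : (∃ u ∈ S, ∃ k ∈ S, ∃ z ∈ S, Ent r u k ∧ (z ∈ k ↔ z ∉ St S u)) →
      ∃ u ∈ S, ∃ k ∈ S, ∃ z ∈ S, u ∈ H ∧ k ∈ H ∧ z ∈ H ∧ Ent r u k ∧ (z ∈ k ↔ z ∉ St S u))
    (h3 : Orc (col H S) (col H r)) : Orc S r := by
  have hT := trn_coe hS
  intro u hu k hk h4
  by_contra hne
  obtain ⟨u, hu, k, hk, z, hz, a1, a2, a3, a4, a5⟩ := hw (by
    by_contra h5
    refine hne (ZFSet.ext fun z => ⟨fun hz => by_contra fun hz' =>
      h5 ⟨u, hu, k, hk, z, hS k hk hz, h4, ?_⟩, fun hz => by_contra fun hz' =>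
      h5 ⟨u, hu, k, hk, z, St_sub S u hz, h4, ?_⟩⟩) <;> simp [hz, hz'])
  have e : col H k = col H (St S u) := by
    rw [st_col h hS hu a1]
    exact h3 _ (mem_col.2 ⟨u, hu, a1, rfl⟩) _ (mem_col.2 ⟨k, hk, a2, rfl⟩)
      ((h.d0 hT (fun w => Ent (w 0) (w 1) (w 2))
        (eh_cons (eh_cons (eh_const hk a2) hu a1) h1 h2)).1 a4)
  by_cases h0 : z ∈ k
  · obtain ⟨y, b1, b2, b3⟩ :=
      mem_col.1 (e ▸ mem_col.2 ⟨z, h0, a3, rfl⟩ : col H z ∈ col H (St S u))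
    exact a5.1 h0 (h.inj hT y (St_sub S u b1) b2 z hz a3 b3 ▸ b1)
  · have h' : z ∈ St S u := by_contra fun h' => h0 (a5.2 h')
    obtain ⟨y, b1, b2, b3⟩ := mem_col.1 (e ▸ mem_col.2 ⟨z, h', a3, rfl⟩ : col H z ∈ col H k)
    exact h0 (h.inj hT y (hS k hk b1) b2 z hz a3 b3 ▸ b1)

theorem not_sing {S H α κ : ZF} (h : El (S : Set ZF) H) (hS : IsTransitive S)
    (hα : IsTransitive α) (h1 : α ⊆ H) (h2 : α ⊆ κ)
    (hfix : ∀ y ∈ α, y ∈ col H S → y ∈ S)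
    (hup : ∀ r ∈ S, r ∈ H → Orc (col H S) (col H r) → Orc S r)
    (hb : ∀ φ, ∀ c ∈ H, ∀ l ∈ α, ∃ η ∈ α, ∀ ζ ∈ l, (∃ k ∈ κ, Ht S φ c ζ k) →
      ∃ k ∈ η, Ht S φ c ζ k)
    (hw : ∀ φ, ∀ c ∈ H, ∀ ζ ∈ H, ∀ k ∈ H, Ht S φ c ζ k → ∃ r ∈ S, r ∈ H ∧ Orc S r ∧
      Sat (S : Set ZF) φ (cons k (cons ζ (cons r fun _ => c)))) :
    ¬ Sing (col H S) α := by
  have hT := trn_coe hS
  have fx : ∀ y ∈ α, col H y = y := fun y hy => col_fix hα h1 y (hα y hy)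
  rintro ⟨φ, _, hc, l, hl, h3, h4⟩
  obtain ⟨c, c1, c2, rfl⟩ := mem_col.1 hc
  have e : ∀ ζ ∈ α, ζ ∈ S → ∀ k ∈ α, k ∈ S → ∀ r ∈ S, r ∈ H →
      (Sat (S : Set ZF) φ (cons k (cons ζ (cons r fun _ => c))) ↔
        Sat ((col H S : ZF) : Set ZF) φ (cons k (cons ζ (cons (col H r) fun _ => col H c)))) := by
    intro ζ a1 a2 k a3 a4 r a5 a6
    rw [h.sat hT φ (eh_cons (eh_cons (eh_cons (eh_const c1 c2) a5 a6) a2 (h1 a1)) a4 (h1 a3)),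
      col_cons, col_cons, col_cons, fx ζ a1, fx k a3, coe_col]
  obtain ⟨η, h5, h6⟩ := hb φ c c2 l hl
  obtain ⟨ζ, h7, k, h8, h9, h10⟩ := h4 η h5
  have h11 := hα l hl h7
  obtain ⟨a1, a2, _, a3, a4, a5⟩ := id h10
  obtain ⟨r, r1, r2, rfl⟩ := mem_col.1 a3
  have a6 := hfix ζ h11 a1
  have a7 := hfix k h8 a2
  obtain ⟨k', b1, b2⟩ := h6 ζ h7
    ⟨k, h2 h8, a6, a7, r, r1, hup r r1 r2 a4, (e ζ h11 a6 k h8 a7 r r1 r2).2 a5⟩
  have b3 := hα η h5 b1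
  obtain ⟨r', b4, b5, b6, b7⟩ := hw φ c c2 ζ (h1 h11) k' (h1 b3) b2
  have b8 : k = k' := h3 ζ h7 k k' h10 ⟨a1, mem_col.2 ⟨k', b2.2.1, h1 b3, fx k' b3⟩, _,
    mem_col.2 ⟨r', b4, b5, rfl⟩, Orc.col h hS b4 b5 b6, (e ζ h11 a6 k' b3 b2.2.1 r' b4 b5).1 b7⟩
  exact mem_asymm h9 (b8 ▸ b1)

/-- finite parts of assignments have codes in the hull -/
theorem ev_in {H : ZF} (h1 : ∀ a ∈ H, ∀ f ∈ H, cn a f ∈ H) (k : ℕ) :
    ∀ v : Env, (∀ n, v n ∈ H) → ∃ f ∈ H, ∀ n < k, ev f n = v n := by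
  induction k with
  | zero => exact fun v hv => ⟨_, hv 0, fun _ h => absurd h (Nat.not_lt_zero _)⟩
  | succ k ih =>
    intro v hv
    obtain ⟨f, hf, e⟩ := ih (fun n => v (n + 1)) fun n => hv _
    refine ⟨_, h1 _ (hv 0) f hf, fun n hn => ?_⟩
    rw [ev_cn]
    cases n with
    | zero => rfl
    | succ n => exact e n (by omega)

/-- a strict bound for the ordinals below `κ` in `Y` -/
noncomputable def Bd (κ Y : ZF) : ZF :=
  insert (ZFSet.sUnion (Y ∩ κ)) (ZFSet.sUnion (Y ∩ κ))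

variable {M : Set ZF} [hM : TModel M]

instance tm_bd {a b : Env → ZF} [Tm M a] [Tm M b] : Tm M (fun v => Bd (a v) (b v)) := by
  unfold Bd; infer_instance

theorem bd_spec {R κ Y : ZF} (hR : Inf M R) (hκ : Hart M R κ) (hY : Y ∈ M) (h : Le M Y R) :
    Bd κ Y ∈ κ ∧ Y ∩ κ ⊆ Bd κ Y := by
  have := In.mk' hY
  have := In.mk' hκ.mem
  have h1 : ∀ x ∈ Y ∩ κ, x ∈ κ := fun x hx => (mem_inter.1 hx).2
  have ho := isOrdinal_sUnion fun x hx => hκ.ord.mem (h1 x hx)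
  exact ⟨hκ.succ hR (hκ.mem_of_le ho (hR.sUnion (In.mem _)
    (h.mono fun x hx => (mem_inter.1 hx).1) fun x hx => hκ.le x (h1 x hx))), fun x hx =>
    (mem_succ_iff (hκ.ord.mem (h1 x hx)) ho).2 fun y hy => mem_sUnion.2 ⟨x, hx, hy⟩⟩

/-- a hull whose trace on `κ` is an ordinal of cofinality `ω` -/
theorem close (hV : VL M) {R κ : ZF} (hR : Inf M R) (hκ : Hart M R κ) {X : ZF} (hX : X ∈ M)
    (hX' : Le M X R) (l : List (ZF → ZF → Prop))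
    (hl : ∀ Q ∈ l, Df M (fun v => Q (v 0) (v 1))) :
    ∃ H ∈ M, X ⊆ H ∧ Ins H ∧ (∀ Q ∈ l, Wit M H Q) ∧ H ∩ κ ∈ κ ∧ CofOm M (H ∩ κ) := by
  obtain ⟨G0, h1, h2, h3⟩ := HullP.step hV hR l hl
  have := fun s [Tm M s] => h1.one s
  have := In.mk' hX
  have := In.mk' hκ.mem
  obtain ⟨G, g1, g2, g3⟩ : ∃ G : ZF → ZF, Tm M (fun v => G (v 0)) ∧
      (∀ Y ∈ M, Le M Y R → Le M (G Y) R) ∧
      ∀ Y, G0 Y ⊆ G Y ∧ Bd κ Y ∈ G Y ∧ Bd κ Y ⊆ G Y := by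
    refine ⟨fun Y => G0 Y ∪ insert (Bd κ Y) (Bd κ Y), inferInstance, fun Y hY h => ?_,
      fun Y => ⟨fun x hx => mem_union.2 (Or.inl hx), mem_union.2 (Or.inr (mem_insert _ _)),
        fun x hx => mem_union.2 (Or.inr (mem_insert_of_mem _ hx))⟩⟩
    have := In.mk' hY
    exact hR.union (In.mem _) (In.mem _) (h2 Y hY h)
      (hκ.le _ (hκ.succ hR (bd_spec hR hκ hY h).1))
  have := fun s [Tm M s] => g1.one s
  let T := rc fun _ g => X ∪ bun (fun p => snd p ∪ G (snd p)) g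
  have hT : Tm M (fun v => T (v 0)) := tm_rc inferInstance
  have := fun s [Tm M s] => hT.one s
  have e : ∀ n, T n = X ∪ bun (fun m => T m ∪ G (T m)) n := fun n => by
    rw [show T n = _ from rc_eq _ n]
    congr 1
    ext y
    simp only [mem_bun, mem_graph]
    constructor
    · rintro ⟨_, ⟨m, hm, rfl⟩, h⟩
      exact ⟨m, hm, by simpa using h⟩
    · rintro ⟨m, hm, h⟩
      exact ⟨_, ⟨m, hm, rfl⟩, by simpa using h⟩
  have up : ∀ m n : ℕ, m < n → ∀ y, y ∈ T (num m) ∪ G (T (num m)) → y ∈ T (num n) :=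
    fun m n h y hy => by
      rw [e]
      exact mem_union.2 (Or.inr (mem_bun.2 ⟨_, num_mem_num.2 h, hy⟩))
  have le : ∀ n : ℕ, Le M (T (num n)) R := fun n => by
    induction n using Nat.strong_induction_on with
    | _ n ih =>
      rw [e]
      refine hR.union hX (In.mem _) hX' (hR.bun _ inferInstance (In.mem _)
        ((fn_num n).le (In.mem _) hR) fun m hm => ?_)
      obtain ⟨k, hk, rfl⟩ := mem_num.1 hm
      exact hR.union (In.mem _) (In.mem _) (ih k hk) (g2 _ (In.mem _) (ih k hk))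
  have mem : ∀ y, y ∈ bun T om ↔ ∃ n : ℕ, y ∈ T (num n) := fun y => by
    rw [mem_bun]
    constructor
    · rintro ⟨_, hn, h⟩
      obtain ⟨n, rfl⟩ := mem_omega.1 hn
      exact ⟨n, h⟩
    · exact fun ⟨n, h⟩ => ⟨_, num_mem_omega n, h⟩
  have nx : ∀ n : ℕ, ∀ y ∈ G (T (num n)), y ∈ bun T om := fun n y hy =>
    (mem y).2 ⟨n + 1, up n _ (Nat.lt_succ_self n) y (mem_union.2 (Or.inr hy))⟩
  have nx0 : ∀ n : ℕ, ∀ y ∈ G0 (T (num n)), y ∈ bun T om := fun n y hy =>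
    nx n y ((g3 _).1 hy)
  have bd := fun n : ℕ => bd_spec hR hκ (In.mem (T (num n))) (le n)
  have cv : ∀ η ∈ bun T om ∩ κ, ∃ n : ℕ, η ∈ Bd κ (T (num n)) := fun η hη => by
    obtain ⟨n, h⟩ := (mem η).1 (mem_inter.1 hη).1
    exact ⟨n, (bd n).2 (mem_inter.2 ⟨h, (mem_inter.1 hη).2⟩)⟩
  refine ⟨bun T om, In.mem _, fun y hy => (mem y).2 ⟨0, ?_⟩,
    ⟨nx0 0 _ (h3 _).1, fun a ha b hb => ?_⟩, fun Q hQ x hx hy => ?_,
    hκ.mem_of_le (ord_of_trans_subset hκ.ord (fun x hx => (mem_inter.1 hx).2)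
      fun x hx y hy => ?_) ((hR.bun T hT hM.infinity hR.omLe fun n hn => ?_).mono
        fun x hx => (mem_inter.1 hx).1),
    graph (fun n => Bd κ (T n)) om, In.mem _, fun n hn => ?_, fun η hη => ?_⟩
  · rw [e]
    exact mem_union.2 (Or.inl hy)
  · obtain ⟨m, ha⟩ := (mem a).1 ha
    obtain ⟨n, hb⟩ := (mem b).1 hb
    exact nx0 (m + n + 1) _ ((h3 _).2.1 a (up m _ (by omega) a (mem_union.2 (Or.inl ha))) b
      (up n _ (by omega) b (mem_union.2 (Or.inl hb))))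
  · obtain ⟨n, hx⟩ := (mem x).1 hx
    exact ((h3 _).2.2 Q hQ x hx hy).imp fun y hy => ⟨nx0 n y hy.1, hy.2⟩
  · obtain ⟨n, h⟩ := cv x hx
    exact mem_inter.2 ⟨nx n y ((g3 _).2.2 ((hκ.ord.mem (bd n).1).mem_trans hy h)),
      hκ.ord.mem_trans hy (mem_inter.1 hx).2⟩
  · obtain ⟨n, rfl⟩ := mem_omega.1 hn
    exact le n
  · rw [app_graph hn]
    obtain ⟨n, rfl⟩ := mem_omega.1 hn
    exact mem_inter.2 ⟨nx n _ (g3 _).2.1, (bd n).1⟩
  · obtain ⟨n, h⟩ := cv η hη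
    exact ⟨_, num_mem_omega n, by rwa [app_graph (num_mem_omega n)]⟩

/-- the oracle part of `Ht` with a code for the formula -/
def Wk (Tr : ZF → ZF → ZF → Prop) (S k c ζ h r : ZF) : Prop :=
  r ∈ S ∧ Orc S r ∧ Tr S k (cn h (cn ζ (cn r (graph (fun _ => c) om))))

/-- `Ht` with a code for the formula -/
def Hk (Tr : ZF → ZF → ZF → Prop) (S k c ζ h : ZF) : Prop :=
  ζ ∈ S ∧ h ∈ S ∧ ∃ r, Wk Tr S k c ζ h r

end TStatP

open TStatP in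
theorem tstat (h : S_Tr) (h2 : S_St) (h3 : S_TDf) : S_TStat := by
  intro M hM hV R κ hR hκ r hr htot
  by_contra hne
  obtain ⟨Tr, t1, t2, -⟩ := h
  have := fun s t u [Tm M s] [Tm M t] [Tm M u] => (t1 M).three s t u
  have := fun s t [Tm M s] [Tm M t] => (h2 M).1.two s t
  have := fun s [Tm M s] => (h3 M).one s
  have := fun s t u [Tm M s] [Tm M t] [Tm M u] =>
    Df.three (M := M) (R := Ent) (D0.df d0_ent (trn_model M)) s t u
  have dO : Df M (fun v => Orc (v 0) (v 1)) := by unfold Orc; infer_instance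
  have := fun s t [Tm M s] [Tm M t] => dO.two s t
  have := In.mk' hκ.mem
  have := In.mk' hr
  have hns : NS r κ (ZFSet.sep (TT M) κ) := ⟨htot, fun δ h4 h5 h6 => by
    by_contra h7
    exact hne ⟨δ, h4, (mem_sep.1 h5).2, h6, fun β hβ => by_contra fun h8 =>
      h7 ⟨β, hβ, fun ζ hζ h9 => h8 ⟨ζ, hζ, h9⟩⟩⟩⟩
  obtain ⟨β, hβ, oβ, rβ⟩ := hV r hr
  have := In.mk' hβ
  obtain ⟨θ, hθ, oθ, zθ⟩ := hV
    {κ, r, ZFSet.sep (TT M) κ, β, graph LL (insert β β)} (In.mem _)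
  have := In.mk' hθ
  have tθ := LS_trans oθ
  have hT := trn_coe tθ
  have sθ := tθ _ zθ
  obtain ⟨H, hH, x1, x2, x3, x4, x5⟩ := close hV hR hκ
    (X := {LS θ, κ, r, ZFSet.sep (TT M) κ, β, graph LL (insert β β)}) (In.mem _)
    (((((((fn_singleton _).insert _).insert _).insert _).insert _).insert _).le (In.mem _) hR)
    [fun x y => y = fst x, fun x y => y = snd x, fun x y => y = cn (fst x) (snd x),
      fun x y => y ∈ fst x ∧ Tr (fst x) (fst (snd x)) (cn y (snd (snd x))),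
      fun x y => fst y ∈ fst x ∧ fst (snd y) ∈ fst x ∧ snd (snd y) ∈ fst x ∧
        Ent (snd x) (fst y) (fst (snd y)) ∧
        (snd (snd y) ∈ fst (snd y) ↔ snd (snd y) ∉ St (fst x) (fst y)),
      fun x η => η ∈ κ ∧ ∀ ζ ∈ snd (snd (snd x)),
        (∃ k ∈ κ, Hk Tr (fst x) (fst (snd x)) (fst (snd (snd x))) ζ k) →
          ∃ k ∈ η, Hk Tr (fst x) (fst (snd x)) (fst (snd (snd x))) ζ k,
      fun x y => Wk Tr (fst x) (fst (snd x)) (fst (snd (snd x))) (fst (snd (snd (snd x))))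
        (snd (snd (snd (snd x)))) y]
    (by
      simp only [List.forall_mem_cons]
      unfold Hk Wk
      exact ⟨inferInstance, inferInstance, inferInstance, inferInstance,
        inferInstance, inferInstance, inferInstance, by simp⟩)
  simp only [List.forall_mem_cons] at x3
  obtain ⟨w1, w2, w3, w5, w6, w7, w8, -⟩ := x3
  have := In.mk' hH
  have f1 : ∀ x ∈ H, fst x ∈ H := fun x hx => by
    have := In.mk' (tr hH hx)
    obtain ⟨y, hy, e⟩ := w1 x hx ⟨_, In.mem _, rfl⟩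
    exact e ▸ hy
  have f2 : ∀ x ∈ H, snd x ∈ H := fun x hx => by
    have := In.mk' (tr hH hx)
    obtain ⟨y, hy, e⟩ := w2 x hx ⟨_, In.mem _, rfl⟩
    exact e ▸ hy
  have f3 : ∀ a ∈ H, ∀ f ∈ H, cn a f ∈ H := fun a ha f hf => by
    have := In.mk' (tr hH (x2.pair ha hf))
    obtain ⟨y, hy, e⟩ := w3 _ (x2.pair ha hf) ⟨_, In.mem _, rfl⟩
    rw [fst_pair, snd_pair] at e
    exact e ▸ hy
  have el : ∀ S ∈ H, El (S : Set ZF) H := fun S hS φ v hv ⟨x, hx, h4⟩ => by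
    obtain ⟨c, c1, c2⟩ := t2 φ
    obtain ⟨k, hk⟩ := MinP.fin_dep φ
    obtain ⟨f, hf, e⟩ := ev_in f3 k v fun n => (hv n).2
    have e' : ∀ y, Tr S c (cn y f) ↔ Sat (S : Set ZF) φ (cons y v) := fun y => by
      rw [c2, ev_cn]
      refine hk _ _ _ fun n hn => ?_
      cases n with
      | zero => rfl
      | succ n => exact e n (by omega)
    obtain ⟨y, h5, h6⟩ := w5 _ (x2.pair hS (x2.pair (c1 H x2) hf))
      ⟨x, tr (tr hH hS) hx, by simp only [fst_pair, snd_pair]; exact ⟨hx, (e' x).2 h4⟩⟩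
    simp only [fst_pair, snd_pair] at h6
    exact ⟨y, h6.1, h5, (e' y).1 h6.2⟩
  have E := el (LS θ) (x1 (by simp))
  have m1 : κ ∈ ((LS θ : ZF) : Set ZF) ∧ κ ∈ H := ⟨sθ (by simp), x1 (by simp)⟩
  have m2 : r ∈ ((LS θ : ZF) : Set ZF) ∧ r ∈ H := ⟨sθ (by simp), x1 (by simp)⟩
  have m3 : ZFSet.sep (TT M) κ ∈ ((LS θ : ZF) : Set ZF) ∧ ZFSet.sep (TT M) κ ∈ H :=
    ⟨sθ (by simp), x1 (by simp)⟩
  have m4 : β ∈ ((LS θ : ZF) : Set ZF) ∧ β ∈ H := ⟨sθ (by simp), x1 (by simp)⟩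
  have m5 : graph LL (insert β β) ∈ ((LS θ : ZF) : Set ZF) ∧ graph LL (insert β β) ∈ H :=
    ⟨sθ (by simp), x1 (by simp)⟩
  have oα := hκ.ord.mem x4
  have a1 : H ∩ κ ⊆ H := fun x hx => (mem_inter.1 hx).1
  have a2 : H ∩ κ ⊆ κ := fun x hx => (mem_inter.1 hx).2
  have fx : ∀ y ∈ H ∩ κ, col H y = y := fun y hy =>
    col_fix oα.isTransitive a1 y (oα.isTransitive y hy)
  have cs : ∀ P : ZF → Prop, col H (ZFSet.sep P κ) = ZFSet.sep P (H ∩ κ) := fun P => by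
    ext z
    rw [mem_col, mem_sep]
    constructor
    · rintro ⟨y, h4, h5, rfl⟩
      have h6 := mem_inter.2 ⟨h5, (mem_sep.1 h4).1⟩
      rw [fx y h6]
      exact ⟨h6, (mem_sep.1 h4).2⟩
    · exact fun hz => ⟨z, mem_sep.2 ⟨a2 hz.1, hz.2⟩, a1 hz.1, fx z hz.1⟩
  have cκ : col H κ = H ∩ κ := by
    ext z
    rw [mem_col]
    constructor
    · rintro ⟨y, h4, h5, rfl⟩
      have h6 := mem_inter.2 ⟨h5, h4⟩
      rwa [fx y h6]
    · exact fun hz => ⟨z, a2 hz, a1 hz, fx z hz⟩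
  have lev : ∀ γ ∈ insert β β, γ ∈ H → LS γ ∈ LS θ ∧ LS γ ∈ H ∧ IsOrdinal (col H γ) ∧
      col H (LS γ) = LS (col H γ) := fun γ h4 h5 => by
    have h6 : pair γ (pair (LS γ) (LW γ)) ∈ graph LL (insert β β) :=
      lev_graph.2 ⟨h4, rfl, rfl⟩
    have h7 := hT _ m5.1 _ h6
    have hv := eh_cons (eh_const m5.1 m5.2) (hT.fst h7) h5
    obtain ⟨S, b1, b2, W, b3⟩ := E.pu hT (fun _ v S => ∃ W, pair (v 0) (pair S W) ∈ v 1) hv
      ⟨_, hT.fst (hT.snd h7), _, h6⟩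
    obtain ⟨-, rfl, -⟩ := lev_graph.1 b3
    obtain ⟨b4, W, b5⟩ := (E.d0 hT (fun v => Hier (v 2) ∧ ∃ W, pair (v 1) (pair (v 0) W) ∈ v 2)
      (eh_cons hv b1 b2)).1 ⟨hier_graph (isOrdinal_succ oβ), _, h6⟩
    exact ⟨b1, b2, (b4 _ _ _ b5).1, (b4.sound _ _ _ b5).1⟩
  have hTT : TT M (H ∩ κ) := by
    obtain ⟨-, l2, l3, l4⟩ := lev β (mem_insert _ _) m4.2
    refine TT_iff.2 ⟨x5, col H β, In.mem _, l3, ⟨col H r, l4 ▸ mem_col.2 ⟨r, rβ, m2.2, rfl⟩, ?_⟩,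
      fun γ hγ => ?_⟩
    · rw [← cs, ← cκ]
      exact (E.d0 hT (fun v => NS (v 0) (v 1) (v 2))
        (eh_cons (eh_cons (eh_const m3.1 m3.2) m1.1 m1.2) m2.1 m2.2)).1 hns
    obtain ⟨γ, g1, g2, rfl⟩ : ∃ γ' ∈ insert β β, γ' ∈ H ∧ col H γ' = γ := by
      rcases mem_insert_iff.1 hγ with rfl | hγ
      · exact ⟨β, mem_insert _ _, m4.2, rfl⟩
      · obtain ⟨y, b1, b2, b3⟩ := mem_col.1 hγ
        exact ⟨y, mem_insert_of_mem _ b1, b2, b3⟩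
    obtain ⟨l1, l2, -, l4⟩ := lev γ g1 g2
    have tS := LS_trans ((isOrdinal_succ oβ).mem g1)
    rw [← l4]
    generalize LS γ = S at l1 l2 tS
    have := In.mk' (tr hH l2)
    have cd : ∀ φ : Fml, ∃ c ∈ H, ∀ d ζ k y, Wk Tr S c d ζ k y ↔ y ∈ S ∧ Orc S y ∧
        Sat (S : Set ZF) φ (cons k (cons ζ (cons y fun _ => d))) := fun φ => by
      obtain ⟨c, c1, c2⟩ := t2 φ
      exact ⟨c, c1 H x2, fun d ζ k y => by rw [Wk, c2, ev_cn, ev_cn, ev_cn, ev_const]⟩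
    refine not_sing (κ := κ) (el S l2) tS oα.isTransitive a1 a2 (fun y h4 h5 => ?_)
      (fun q h4 h5 => orc_up (el S l2) tS h4 h5 ?_) (fun φ c h4 l h5 => ?_)
      fun φ c h4 ζ h5 k h6 h7 => ?_
    · obtain ⟨y', b1, b2, b3⟩ := mem_col.1 h5
      exact E.inj hT y' (tθ S l1 b1) b2 y (hT _ m1.1 y (a2 h4)) (a1 h4)
        (b3.trans (fx y h4).symm) ▸ b1
    · rintro ⟨u, b1, k, b2, z, b3, b4⟩
      have := In.mk' (tr (tr hH l2) b1)
      have := In.mk' (tr (tr hH l2) b2)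
      have := In.mk' (tr (tr hH l2) b3)
      obtain ⟨y, b5, b6⟩ := w6 _ (x2.pair l2 h5) ⟨pair u (pair k z), In.mem _, by
        simpa only [fst_pair, snd_pair] using And.intro b1 (And.intro b2 (And.intro b3 b4))⟩
      simp only [fst_pair, snd_pair] at b6
      exact ⟨_, b6.1, _, b6.2.1, _, b6.2.2.1, f1 y b5, f1 _ (f2 y b5), f2 _ (f2 y b5), b6.2.2.2⟩
    · obtain ⟨d, d1, d2⟩ := cd φ
      have d3 : ∀ ζ k, Hk Tr S d c ζ k ↔ Ht S φ c ζ k := fun ζ k => by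
        simp only [Hk, Ht, d2]
      have := In.mk' (tr hH d1)
      have := In.mk' (tr hH h4)
      obtain ⟨η, b1, b2⟩ := hκ.bdd_wit hR
        (fun ζ k => (∃ k ∈ κ, Hk Tr S d c ζ k) → Hk Tr S d c ζ k)
        (by unfold Hk Wk; infer_instance) (tr hH (a1 h5)) (hκ.le l (a2 h5)) fun ζ _ => by
          by_cases b0 : ∃ k ∈ κ, Hk Tr S d c ζ k
          · exact b0.imp fun k hk => ⟨hk.1, fun _ => hk.2⟩
          · exact ⟨∅, hκ.zero hR, fun b1 => absurd b1 b0⟩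
      obtain ⟨η, b3, b4⟩ := w7 _ (x2.pair l2 (x2.pair d1 (x2.pair h4 (a1 h5))))
        ⟨η, tr hκ.mem b1, b1, by
          simp only [fst_pair, snd_pair]
          exact fun ζ hζ b0 => (b2 ζ hζ).imp fun k hk => ⟨hk.1, hk.2 b0⟩⟩
      simp only [fst_pair, snd_pair, d3] at b4
      exact ⟨η, mem_inter.2 ⟨b3, b4.1⟩, b4.2⟩
    · obtain ⟨d, d1, d2⟩ := cd φ
      obtain ⟨-, -, q, b1⟩ := h7
      obtain ⟨y, b2, b3⟩ := w8 _ (x2.pair l2 (x2.pair d1 (x2.pair h4 (x2.pair h5 h6))))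
        ⟨q, tr (tr hH l2) b1.1, by simpa only [fst_pair, snd_pair, d2] using b1⟩
      simp only [fst_pair, snd_pair, d2] at b3
      exact ⟨y, b3.1, b2, b3.2⟩
  refine hne ⟨_, x4, hTT, fun e => (eq_empty _).1 e ∅ (mem_inter.2 ⟨x2.1, hκ.zero hR⟩),
    fun ξ hξ => ?_⟩
  obtain ⟨ζ, b1, b2⟩ := htot ξ (a2 hξ)
  obtain ⟨ζ, -, b3, b4, b5⟩ := E.pu hT (fun _ v ζ => ζ ∈ v 1 ∧ pair (v 0) ζ ∈ v 2)
    (eh_cons (eh_cons (eh_const m2.1 m2.2) m1.1 m1.2) (hT _ m1.1 ξ (a2 hξ)) (a1 hξ))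
    ⟨ζ, hT _ m1.1 ζ b1, b1, b2⟩
  exact ⟨ζ, mem_inter.2 ⟨b3, b4⟩, b5⟩

end Pool.Agent.P.MP_0b3dfe_lc.Q2
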