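import Pool.Agent.P.MP_0b3dfe_lc.Q2.Gen

/-! The bundle of facts on the extensions, and the upper bound for the next stage. -/

set_option linter.unusedSectionVars false
set_option synthInstance.maxSize 100000

namespace Pool.Agent.P.MP_0b3dfe_lc.Q2

open ZFSet Pool.Agent.P.MP_3ab3de_lc Pool.Agent.P.MP_9a7e1f_lc ForceP

theorem all_of (h1 : S_Inst) (h2 : S_CF1) (h3 : S_CF2) {M : Set ZF} [TModel M] {D : Dat} [Sy M D]
    {C : ZF} (g : GenC M D C) : All M D C :=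
  ⟨g, fun A hA => (h1 M D C g A hA).1, fun A hA => h2 M _ _ _ (h1 M D C g A hA).2,
    fun A hA => h3 M _ _ _ (h1 M D C g A hA).2 (h2 M _ _ _ (h1 M D C g A hA).2)⟩

def S_Up : Prop := ∀ (M : Set ZF) [TModel M] (D : Dat) [Sy M D] (C : ZF), All M D C →
  ∀ A A' B : ZF → Prop, Df M (fun v => A (v 0)) → Df M (fun v => A' (v 0)) →
    Df M (fun v => B (v 0)) → (∀ s, A' s → A s) → (∀ s, B s → A' s) →
    (∀ s, A' s → D.Par s → B (D.par s)) →
    (∀ s, A s → ¬ A' s → Sl s → A' (pair (fst s) (num 1)) ∧ ¬ D.Par (pair (fst s) (num 1))) →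
    Caa (MA M D C A) ⊆ MA M D C B

namespace UpP

theorem lim {M : Set ZF} [TModel M] {R k : ZF} (h : Hart M R k) (hR : Inf M R) :
    Order.IsSuccLimit (rank k) ∧ Ordinal.omega0 < rank k := by
  have h1 : Ordinal.omega0 < rank k := by
    have h2 : rank ZFSet.omega < rank k := rank_lt_of_mem (h.omega hR)
    rwa [omega_eq, Ordinal.rank_toZFSet] at h2
  refine ⟨⟨not_isMin_of_lt h1, Order.isSuccPrelimit_of_succ_lt fun b hb => ?_⟩, h1⟩
  have h2 : b.toZFSet ∈ k := by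
    rw [← (isOrdinal_toZFSet b).rank_lt_iff_mem h.ord, Ordinal.rank_toZFSet]; exact hb
  have h3 := rank_lt_of_mem (h.succ hR h2)
  rwa [← Ordinal.toZFSet_add_one, Ordinal.rank_toZFSet, ← Order.succ_eq_add_one] at h3

end UpP

theorem up (h1 : S_Loc) (h2 : S_Sig) (h3 : S_Hom) : S_Up := by
  intro M hM D hS C X A A' B hA hA' hB s1 s2 s3 s4 x hx
  obtain ⟨o, ho, hx⟩ := hx
  have hoM : o.toZFSet ∈ M := ord_val ho (isOrdinal_toZFSet o)
  have hN := X.model A hA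
  have hk := hS.crd.hart _ hoM (isOrdinal_toZFSet o)
  obtain ⟨l1, l2⟩ := UpP.lim hk (hS.crd.inf _ hoM (isOrdinal_toZFSet o))
  have l3 : o < rank (D.K o.toZFSet) := by
    have h4 := rank_lt_of_mem (hS.crd.self _ hoM (isOrdinal_toZFSet o))
    rwa [Ordinal.rank_toZFSet] at h4
  have hV : VM (MA M D C A) (D.K o.toZFSet) ∈ MA M D C A :=
    (VM_aux (X.sub_M hA hk.mem) hk.ord).1
  obtain ⟨a, ha, hao, hV⟩ := ((X.cx A hA).un _).1 hV
  have hW := X.wmodel hA ha hao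
  have hW' := X.wmodel hA' ha hao
  have hWB := X.wmodel hB ha hao
  have e1 : LA (MA M D C A) o = LA (WA M D C A a) o :=
    h1 _ _ (X.W_sub hA ha hao) _ l1 l2 (fun y hy hr => tr hV (mem_VM.2 ⟨hr, hy⟩)) o l3
  have e2 : LA (WA M D C A a) o = LA (WA M D C A' a) o :=
    h2 M D C X A A' hA hA' s1 (fun s hs hp => s2 _ (s3 s hs hp)) s4 a ha hao o hoM
  rw [e1, e2] at hx
  exact X.W_sub hB ha hao (caaSub satA hLZ (WA M D C A' a) (WA M D C B a)
    (X.W_mono hA' hB s2 ha hao) (fun o' h4 h5 => X.sub_W hB ha hao (ord_val h4 h5))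
    (h3 M D C X A' B hA' hB s2 s3 a ha hao) ⟨o, X.sub_W hA' ha hao hoM, hx⟩)

end Pool.Agent.P.MP_0b3dfe_lc.Q2
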