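import Pool.Agent.P.MP_0b3dfe_lc.Q2.Cd
import Pool.Agent.P.MP_0b3dfe_lc.Q2.Crd
import Pool.Agent.P.MP_0b3dfe_lc.Q2.Cls
import Pool.Agent.P.MP_0b3dfe_lc.Q2.CF1
import Pool.Agent.P.MP_0b3dfe_lc.Q2.CF2
import Pool.Agent.P.MP_0b3dfe_lc.Q2.StT
import Pool.Agent.P.MP_0b3dfe_lc.Q2.TStat
import Pool.Agent.P.MP_0b3dfe_lc.Q2.Pd
import Pool.Agent.P.MP_0b3dfe_lc.Q2.AA2
import Pool.Agent.P.MP_0b3dfe_lc.Q2.Inst
import Pool.Agent.P.MP_0b3dfe_lc.Q2.Pat2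
import Pool.Agent.P.MP_0b3dfe_lc.Q2.Low2
import Pool.Agent.P.MP_0b3dfe_lc.Q2.Sig
import Pool.Agent.P.MP_0b3dfe_lc.Q2.Hom2
import Pool.Agent.P.MP_0b3dfe_lc.Q2.Up
import Pool.Agent.P.MP_0b3dfe_lc.Q2.Fin
import Pool.Agent.P.MP_0b3dfe_lc.Q2.Run

/-! The intersection of the finite iterates of `C(aa)` can fail to be a model of ZF. -/

namespace Pool.Agent.P.MP_0b3dfe_lc.Q2

theorem main : S_Main :=
  main_of pd cd crd labx (tdf trx (st trx)) (tstat trx (st trx) (tdf trx (st trx))) avoid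
    (run (st trx)) genc (fun _ _ _ _ _ g => all_of inst cf1 cf2 g) pat2 (low2 pat2 (dec2 aa2))
    (up loc (sig cls) (hom2 cone))

end Pool.Agent.P.MP_0b3dfe_lc.Q2
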