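import Pool.Agent.P.MP_0b3dfe_lc.Q2.Gen

/-! The cardinals of the sites are preserved, and `T` stays stationary at a site without a live
slot. -/

set_option linter.unusedSectionVars false
set_option synthInstance.maxSize 100000

namespace Pool.Agent.P.MP_0b3dfe_lc.Q2

open ZFSet Pool.Agent.P.MP_3ab3de_lc Pool.Agent.P.MP_9a7e1f_lc ForceP

namespace PatP

variable {M : Set ZF} [hM : TModel M] {D : Dat} [hS : Sy M D] {C o : ZF} {A : ZF → Prop}
  (X : All M D C) (hA : Df M (fun v => A (v 0))) (hm : o ∈ M) (ho : IsOrdinal o)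
include X hA hm ho

theorem hart : Hart (MA M D C A) (D.R o) (D.K o) := by
  have hk := hS.crd.hart o hm ho
  have hR := hS.crd.inf o hm ho
  refine ⟨X.sub_M hA hk.mem, hk.ord, ?_, fun ξ hξ => ?_⟩
  · rintro ⟨f, hf, h1⟩
    have hY : ZFSet.sep (fun z => app f (fst z) = snd z) (prod (D.R o) (D.K o)) ∈ MA M D C A := by
      have := X.model A hA
      have := In.mk' hf
      have := In.mk' (X.sub_M hA hk.mem)
      have := In.mk' (X.sub_M hA hR.mem)
      exact In.mem _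
    obtain ⟨s, hs, e⟩ := (X.cx A hA).fn o hm ho _ hR.mem
      (X.td A hA o hm ho _ hR.mem (Le.refl hR.mem)) _ hk.mem _ hY sep_subset fun x y y' h2 h3 => by
        have h4 := (mem_sep.1 h2).2
        have h5 := (mem_sep.1 h3).2
        simp only [fst_pair, snd_pair] at h4 h5
        exact h4.symm.trans h5
    have := In.mk' hk.mem
    have := In.mk' hR.mem
    have := In.mk' hm
    obtain ⟨B, hB, -, h2⟩ := (X.cxs hA hm ho).cap_ext (a := prod (D.R o) (D.K o)) hs (In.mem _)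
      (by rw [e]; exact sep_subset)
    rw [e] at h2
    have := In.mk' hB
    refine hk.not_le (Le.trans (b := prod (PS M D o) (D.R o)) (Le.of_fun
      (fun z => ZFSet.sUnion (ZFSet.sep (fun y => pair (fst z) (pair (snd z) y) ∈ B) (D.K o)))
      inferInstance (In.mem _) fun y hy => ?_)
      (hR.prod (le_PS hm ho) (Le.refl hR.mem)) hR.mem)
    obtain ⟨x, hx, h3⟩ := h1 y hy
    obtain ⟨p, hp, h4⟩ := (h2 (pair x y)).1
      (mem_sep.2 ⟨pair_mem_prod.2 ⟨hx, hy⟩, by simpa using h3⟩)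
    refine ⟨pair p x, pair_mem_prod.2 ⟨(mem_inter.1 hp).2, hx⟩, ?_⟩
    have e2 : ZFSet.sep (fun y => pair (fst (pair p x)) (pair (snd (pair p x)) y) ∈ B) (D.K o)
        = {y} := by
      ext y'
      simp only [mem_sep, mem_singleton, fst_pair, snd_pair]
      refine ⟨fun h5 => ?_, fun h5 => h5 ▸ ⟨hy, h4⟩⟩
      have h6 := (mem_sep.1 ((h2 _).2 ⟨p, hp, h5.2⟩)).2
      simp only [fst_pair, snd_pair] at h6
      exact h6.symm.trans h3
    rw [e2, sUnion_singleton]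
  · obtain ⟨f, hf, h1⟩ := hk.le ξ hξ
    exact ⟨f, X.sub_M hA hf, h1⟩

/-- a site without a live slot adds nothing -/
theorem succ_sub (h : ∀ i ∈ num 2, ¬ Live D A C (pair o i)) :
    WA M D C A (insert o o) ⊆ WA M D C A o := by
  have hm' : insert o o ∈ M := by
    have := In.mk' hm
    exact In.mem _
  have := X.wmodel hA hm ho
  have h1 := X.sub_W hA hm ho
  have := In.mk' (h1 (X.cxs hA hm' (isOrdinal_succ ho)).hP)
  have := In.mk' (h1 hm)
  have := In.mk' (X.cxs hA hm ho).gen_mem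
  refine ext_sub h1 ?_
  have e : HA D C A ∩ PS M D (insert o o) = ZFSet.sep (fun q => rs o q ∈ HA D C A ∩ PS M D o)
      (PS M D (insert o o)) := ZFSet.ext fun q => by
    rw [mem_sep, mem_inter]
    refine ⟨fun h2 => ⟨h2.2, rs_mem_HA ((mem_HA (M := M)).1 h2.1).1
      ((mem_HA (M := M)).1 h2.1).2 hm⟩, fun h2 => ⟨?_, h2.1⟩⟩
    obtain ⟨h3, h4⟩ := mem_PS.1 h2.1
    have h5 := ((mem_HA (M := M)).1 (mem_inter.1 h2.2).1).2
    refine (mem_HA (M := M)).2 ⟨h3, fun s hs => ?_⟩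
    by_cases h6 : fst s ∈ o
    · exact (h5 s hs).trans (Eqs.ee fun ξ => by simp [mem_rs, h6])
    · refine ee_of_empty fun ξ h7 => ?_
      have h8 := (mem_insert_iff.1 (h4 s ξ h7)).resolve_right h6
      obtain ⟨o', -, i, h9, rfl⟩ := (h3.2.pt h7).1
      rw [fst_pair] at h8
      exact h i h9 (h8 ▸ hs)
  rw [e]
  exact In.mem _

theorem stat (h : ∀ i ∈ num 2, ¬ Live D A C (pair o i)) : Stat (MA M D C A) (D.K o) D.T := by
  intro r hr hT
  have hk := hS.crd.hart o hm ho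
  have hR := hS.crd.inf o hm ho
  have hY : r ∩ prod (D.K o) (D.K o) ∈ MA M D C A := by
    have := X.model A hA
    have := In.mk' hr
    have := In.mk' (X.sub_M hA hk.mem)
    exact In.mem _
  have := In.mk' hk.mem
  have := In.mk' hm
  have hm' : insert o o ∈ M := In.mem _
  have ho' := isOrdinal_succ ho
  have hle := hS.crd.kle _ hm' ho' o (mem_insert _ _)
  obtain ⟨s, hs, e⟩ := succ_sub X hA hm ho h ((X.cx A hA).sub _ hm' ho' _ (In.mem _)
    (X.td A hA _ hm' ho' _ (In.mem _) ((hS.crd.inf _ hm' ho').prod hle hle)) _ hY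
    fun _ hx => (mem_inter.1 hx).2)
  obtain ⟨B, hB, -, h2⟩ := (X.cxs hA hm ho).cap_ext (a := prod (D.K o) (D.K o)) hs (In.mem _)
    (by rw [e]; exact fun _ hx => (mem_inter.1 hx).2)
  rw [e] at h2
  have := In.mk' hB
  obtain ⟨δ, h3, h4, h5, h6⟩ := (hS.stat o hm ho).close hk.mem
    (fun b z => ∀ p ∈ PS M D o, (∃ z' ∈ D.K o, pair p (pair b z') ∈ B) →
      ∃ z' ∈ z, pair p (pair b z') ∈ B) inferInstance fun b hb => by
      have := In.mk' (tr hk.mem hb)
      obtain ⟨η, h3, h4⟩ := hk.bdd_wit hR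
        (fun p z => (∃ z' ∈ D.K o, pair p (pair b z') ∈ B) → pair p (pair b z) ∈ B) inferInstance
        (In.mem (PS M D o)) (le_PS hm ho) fun p _ => by
          by_cases h3 : ∃ z' ∈ D.K o, pair p (pair b z') ∈ B
          · obtain ⟨z, h3, h4⟩ := h3
            exact ⟨z, h3, fun _ => h4⟩
          · exact ⟨∅, hk.zero hR, fun h4 => absurd h4 h3⟩
      exact ⟨η, h3, fun p hp h5 => (h4 p hp).imp fun _ h6 => ⟨h6.1, h6.2 h5⟩⟩
  refine ⟨δ, h3, h4, h5, fun β hβ => ?_⟩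
  obtain ⟨ζ, h7, h8⟩ := h6 β hβ
  have h9 := hk.ord.mem_trans hβ h3
  obtain ⟨z, h10, h11⟩ := hT β h9
  obtain ⟨p, hp, h12⟩ := (h2 _).1 (mem_inter.2 ⟨h11, pair_mem_prod.2 ⟨h9, h10⟩⟩)
  obtain ⟨z', h13, h14⟩ := h8 p (mem_inter.1 hp).2 ⟨z, h10, h12⟩
  exact ⟨z', (hk.ord.mem h3).mem_trans h13 h7, (mem_inter.1 ((h2 _).2 ⟨p, hp, h14⟩)).1⟩

end PatP

theorem pat2 : S_Pat := fun _ _ _ _ _ X _ hA _ hm ho =>
  ⟨PatP.hart X hA hm ho, PatP.stat X hA hm ho⟩

end Pool.Agent.P.MP_0b3dfe_lc.Q2
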