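import Pool.Agent.P.MP_0b3dfe_lc.Q2.Cnd

/-! Canonical descending sequences of conditions, and the sets in which they are built. -/

set_option linter.unusedSectionVars false
set_option synthInstance.maxSize 100000

namespace Pool.Agent.P.MP_0b3dfe_lc.Q2

open ZFSet Pool.Agent.P.MP_3ab3de_lc Pool.Agent.P.MP_9a7e1f_lc ForceP

namespace RunP

instance d0_ex {a b : ℕ} : D0 (fun v => Ex (v a) (v b)) :=
  (inferInstance : D0 (fun v => (∀ s ξ, pair s ξ ∈ v b → pair s ξ ∈ v a) ∧ ∀ s ξ, pair s ξ ∈ v a →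
    pair s ξ ∈ v b ∨ ∀ η, pair s η ∈ v b → η ∈ ξ)).congr fun _ =>
      ⟨fun h => ⟨fun s => (h s).1, fun s => (h s).2⟩, fun h s => ⟨h.1 s, h.2 s⟩⟩

/-- an entry of `g` -/
def Er (g p E : ZF) : Prop := ∃ η g', pair η (pair g' (pair p E)) ∈ g

instance d0_er {a b c : ℕ} : D0 (fun v => Er (v a) (v b) (v c)) := by unfold Er; infer_instance

instance void_er1 {j : ℕ} {y : ZF} : Void0 (fun v x => Er (v j) x y) := by
  unfold Er; infer_instance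

instance void_er2 {j : ℕ} {y : Env → ZF} : Void0 (fun v x => Er (v j) (y v) x) := by
  unfold Er; infer_instance

/-- the elements from which the next hull for `k` is built -/
def Mu (c l k g z : ZF) : Prop := z = c ∨ z = k ∨ z = g ∨ z = l ∨ z ∈ l ∨ ∃ p E, Er g p E ∧
  ((∃ u h, pair k (pair u h) ∈ E ∧ z ∈ h) ∨ ∃ s y ξ, k = pair s y ∧ pair s ξ ∈ p ∧ z ∈ ξ)

instance d0_mu {a b c d e : ℕ} : D0 (fun v => Mu (v a) (v b) (v c) (v d) (v e)) := by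
  unfold Mu; infer_instance

def IsM (c l k g u : ZF) : Prop := ∀ z, z ∈ u ↔ Mu c l k g z

instance d0_isM {a b c d e : ℕ} : D0 (fun v => IsM (v a) (v b) (v c) (v d) (v e)) :=
  (inferInstance : D0 (fun v => (∀ z ∈ v e, Mu (v a) (v b) (v c) (v d) z) ∧ v a ∈ v e ∧ v c ∈ v e ∧
    v d ∈ v e ∧ v b ∈ v e ∧ v b ⊆ v e ∧ ∀ p E, Er (v d) p E →
      (∀ u h, pair (v c) (pair u h) ∈ E → h ⊆ v e) ∧
        ∀ s y ξ, v c = pair s y → pair s ξ ∈ p → ξ ⊆ v e)).congr fun v => by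
    constructor
    · intro h
      refine ⟨fun z => (h z).1, (h _).2 (by simp [Mu]), (h _).2 (by simp [Mu]),
        (h _).2 (by simp [Mu]), (h _).2 (by simp [Mu]), fun z hz => (h _).2 (by simp [Mu, hz]),
        fun p E h1 => ⟨fun u k h2 z hz => (h _).2 ?_, fun s y ξ h2 h3 z hz => (h _).2 ?_⟩⟩ <;>
      refine Or.inr (Or.inr (Or.inr (Or.inr (Or.inr ⟨p, E, h1, ?_⟩))))
      exacts [Or.inl ⟨u, k, h2, hz⟩, Or.inr ⟨s, y, ξ, h2, h3, hz⟩]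
    · rintro ⟨h1, h2, h3, h4, h5, h6, h7⟩ z
      refine ⟨h1 z, ?_⟩
      rintro (rfl | rfl | rfl | rfl | h | ⟨p, E, h8, ⟨u, k, h9, h⟩ | ⟨s, y, ξ, h9, h10, h⟩⟩)
      exacts [h2, h3, h4, h5, h6 h, (h7 p E h8).1 u k h9 h, (h7 p E h8).2 s y ξ h9 h10 h]

/-- candidates for the next condition -/
def Good (Ds t l ζ g E q : ZF) : Prop := Ex q t ∧ (∀ p E', Er g p E' → Ex q p) ∧
  (ζ ∈ l → pair ζ q ∈ Ds) ∧ ∀ s κ y u h, pair (pair s (pair κ y)) (pair u h) ∈ E →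
    (∃ p E', Er g p E' ∧ ∃ ξ, pair s ξ ∈ p) → ∃ ξ, pair s ξ ∈ q ∧ ∀ η ∈ h, η ∈ κ → η ∈ ξ

instance d0_good {a b c d e f g : ℕ} :
    D0 (fun v => Good (v a) (v b) (v c) (v d) (v e) (v f) (v g)) := by
  unfold Good; infer_instance

/-- the list of hulls at one step -/
def Tab (Kf l c g E : ZF) : Prop :=
  (∀ z ∈ E, ∃ k ∈ Kf, ∃ u h, z = pair k (pair u h) ∧ IsM c l k g u) ∧
    ∀ k ∈ Kf, ∃ u h, pair k (pair u h) ∈ E

instance d0_tab {a b c d e : ℕ} : D0 (fun v => Tab (v a) (v b) (v c) (v d) (v e)) := by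
  unfold Tab; infer_instance

/-- the least candidate -/
def Lst (P Ds w t l ζ g E p : ZF) : Prop :=
  p ∈ P ∧ Good Ds t l ζ g E p ∧ ∀ q ∈ P, Good Ds t l ζ g E q → pair q p ∉ w

instance d0_lst {a b c d e f g h i : ℕ} :
    D0 (fun v => Lst (v a) (v b) (v c) (v d) (v e) (v f) (v g) (v h) (v i)) := by
  unfold Lst; infer_instance

/-- runs -/
def Rn (P Ds w Kf t l c r : ZF) : Prop :=
  (∀ q ∈ P, ∀ q' ∈ P, q = q' ∨ pair q q' ∈ w ∨ pair q' q ∈ w) ∧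
  ∀ ζ g p E, pair ζ (pair g (pair p E)) ∈ r → g ⊆ r ∧
    (∀ y ∈ g, ∃ η ∈ ζ, ∃ g' p' E', y = pair η (pair g' (pair p' E'))) ∧
    (∀ η ∈ ζ, ∃ g' p' E', pair η (pair g' (pair p' E')) ∈ g) ∧
    Tab Kf l c g E ∧ Lst P Ds w t l ζ g E p

instance d0_rn {a b c d e f g h : ℕ} :
    D0 (fun v => Rn (v a) (v b) (v c) (v d) (v e) (v f) (v g) (v h)) := by
  unfold Rn; infer_instance

/-- the height of a run in a slot -/
def HtR (h ζ r c' : ZF) : Prop := ∃ c s, c' = pair c s ∧ ∃ P Ds w Kf t l,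
  c = pair P (pair Ds (pair w (pair Kf (pair t l)))) ∧ Rn P Ds w Kf t l c r ∧
  ∃ g p E, pair ζ (pair g (pair p E)) ∈ r ∧ pair s h ∈ p ∧ ∀ ξ, pair s ξ ∈ p → ξ ⊆ h

instance d0_htR {a b c d : ℕ} : D0 (fun v => HtR (v a) (v b) (v c) (v d)) := by
  unfold HtR; infer_instance

theorem det {P Ds w Kf t l c r r' : ZF} {F : ZF → ZF} (h : Rn P Ds w Kf t l c r)
    (h' : Rn P Ds w Kf t l c r') (e : ∀ u k, Ent r u k → k = F u) (e' : ∀ u k, Ent r' u k → k = F u)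
    (ζ : ZF) : ∀ g p E g' p' E', pair ζ (pair g (pair p E)) ∈ r →
      pair ζ (pair g' (pair p' E')) ∈ r' → g = g' ∧ p = p' ∧ E = E' := by
  induction ζ using ZFSet.inductionOn with
  | h ζ ih =>
    intro g p E g' p' E' h1 h2
    obtain ⟨a1, a2, a3, a4, a5⟩ := h.2 _ _ _ _ h1
    obtain ⟨b1, b2, b3, b4, b5⟩ := h'.2 _ _ _ _ h2
    obtain rfl : g = g' := ZFSet.ext fun y => ⟨fun hy => by
        obtain ⟨η, hη, g1, p1, E1, rfl⟩ := a2 y hy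
        obtain ⟨g2, p2, E2, h3⟩ := b3 η hη
        obtain ⟨rfl, rfl, rfl⟩ := ih η hη _ _ _ _ _ _ (a1 hy) (b1 h3)
        exact h3, fun hy => by
        obtain ⟨η, hη, g1, p1, E1, rfl⟩ := b2 y hy
        obtain ⟨g2, p2, E2, h3⟩ := a3 η hη
        obtain ⟨rfl, rfl, rfl⟩ := ih η hη _ _ _ _ _ _ (a1 h3) (b1 hy)
        exact h3⟩
    have key : ∀ {E E' : ZF}, Tab Kf l c g E → Tab Kf l c g E' →
        (∀ k u x, pair k (pair u x) ∈ E → x = F u) → (∀ k u x, pair k (pair u x) ∈ E' → x = F u) →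
        E ⊆ E' := fun h1 h2 h3 h4 z hz => by
      obtain ⟨k, hk, u, x, rfl, h5⟩ := h1.1 z hz
      obtain ⟨u', x', h6⟩ := h2.2 k hk
      obtain ⟨_, -, _, _, e, h7⟩ := h2.1 _ h6
      simp only [pair_inj] at e
      obtain ⟨rfl, rfl, rfl⟩ := e
      obtain rfl : u = u' := ZFSet.ext fun z => (h5 z).trans (h7 z).symm
      rwa [h3 _ _ _ hz, ← h4 _ _ _ h6]
    have k1 := fun k u x h => e u x ⟨ζ, g, p, E, k, h1, h⟩
    have k2 := fun k u x h => e' u x ⟨ζ, g, p', E', k, h2, h⟩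
    obtain rfl : E = E' := ZFSet.ext fun _ => ⟨fun h => key a4 b4 k1 k2 h, fun h => key b4 a4 k2 k1 h⟩
    refine ⟨rfl, ?_, rfl⟩
    rcases h.1 p a5.1 p' b5.1 with h3 | h3 | h3
    exacts [h3, absurd h3 (b5.2.2 p a5.1 a5.2.1), absurd h3 (a5.2.2 p' b5.1 b5.2.1)]

theorem orc_all {S r : ZF} (hS : IsTransitive S) (hr : r ∈ S) (h : Orc S r) (u k : ZF)
    (h1 : Ent r u k) : k = St S u := by
  obtain ⟨η, g, p, E, x, h2, h3⟩ := id h1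
  have hT := trn_coe hS
  have h4 := hT.snd (hT _ (hT.snd (hT.snd (hT.snd (hT _ hr _ h2)))) _ h3)
  exact h u (hT.fst h4) k (hT.snd h4) h1

/-- the formula for the height, and its functionality -/
theorem ht_fml : ∃ φ : Fml, (∀ S : ZF, IsTransitive S → ∀ c ∈ S, ∀ ζ h,
    Ht S φ c ζ h ↔ ζ ∈ S ∧ h ∈ S ∧ ∃ r ∈ S, Orc S r ∧ HtR h ζ r c) ∧
    ∀ S : ZF, IsTransitive S → ∀ c ∈ S, ∀ ζ h h', Ht S φ c ζ h → Ht S φ c ζ h' → h = h' := by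
  obtain ⟨φ, e⟩ := (d0_htR (a := 0) (b := 1) (c := 2) (d := 3)).out
  have k : ∀ S : ZF, IsTransitive S → ∀ c ∈ S, ∀ ζ h,
      Ht S φ c ζ h ↔ ζ ∈ S ∧ h ∈ S ∧ ∃ r ∈ S, Orc S r ∧ HtR h ζ r c := fun S hS c hc ζ h =>
    and_congr_right fun h1 => and_congr_right fun h2 => exists_congr fun r =>
      and_congr_right fun h3 => and_congr_right fun _ => (e _ (trn_coe hS) _
        (EIn.cons (EIn.cons (EIn.cons (fun _ => hc) h3) h1) h2)).symm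
  refine ⟨φ, k, fun S hS c hc ζ h h' h1 h2 => ?_⟩
  obtain ⟨-, -, r, a1, a2, c1, s, rfl, P, Ds, w, Kf, t, l, rfl, a3, g, p, E, a4, a5, a6⟩ :=
    (k S hS c hc ζ h).1 h1
  obtain ⟨-, -, r', b1, b2, _, _, e1, _, _, _, _, _, _, rfl, b3, g', p', E', b4, b5, b6⟩ :=
    (k S hS _ hc ζ h').1 h2
  simp only [pair_inj] at e1
  obtain ⟨⟨rfl, rfl, rfl, rfl, rfl, rfl⟩, rfl⟩ := e1
  obtain ⟨-, rfl, -⟩ := det a3 b3 (orc_all hS a1 a2) (orc_all hS b1 b2) ζ _ _ _ _ _ _ a4 b4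
  exact ZFSet.ext fun _ => ⟨fun h => b6 _ a5 h, fun h => a6 _ b5 h⟩

variable {M : Set ZF} [hM : TModel M] {D : Dat} [hS : Sy0 M D]

theorem le_hart {R k : ZF} (h : Hart M R k) (hR : R ∈ M) : Le M R k := by
  obtain ⟨o, h1, h2, g, h3, h4, h5, h6⟩ := numer hR
  exact Le.trans ⟨g, h3, h6⟩ (Le.of_subset h.mem (h.ord.subset_of_mem
    (h.mem_of_le h2 (le_of_inj h1 h3 hR h4 h5)))) h.mem

/-- a set of tails closed under the witnesses of density and under small supports -/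
theorem exP (hV : VL M) {a X t : ZF} (ha : a ∈ M) (ho : IsOrdinal a) (hX : X ∈ M)
    (E : ZF → ZF → Prop) (hE : Df M (fun v => E (v 0) (v 1)))
    (H : ∀ x ∈ X, ∀ t, Tail M D a t → ∃ w, Tail M D a w ∧ Ex w t ∧ E x w) (ht : Tail M D a t) :
    ∃ P ∈ M, (∀ p ∈ P, Tail M D a p) ∧ t ∈ P ∧ (∀ p ∈ P, ∀ x ∈ X, ∃ w ∈ P, Ex w p ∧ E x w) ∧
      ∀ c ∈ M, c ⊆ P → Le M c (D.R a) → ∀ q, Tail M D a q →
        (∀ s ξ, pair s ξ ∈ q → s ∈ dom (ZFSet.sUnion c)) → q ∈ P := by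
  have := fun s t [Tm M s] [Tm M t] => hE.two s t
  have := In.mk' ha
  have := In.mk' hX
  have := In.mk' ht.1.1
  have hk := hS.crd.hart a ha ho
  have hR := hS.crd.inf a ha ho
  have := In.mk' hk.mem
  obtain ⟨F, hF, h1⟩ := HullP.exists_sk hV (fun z w => Tail M D a w ∧ Ex w (fst z) ∧ E (snd z) w)
    inferInstance
  have := fun s [Tm M s] => hF.one s
  have h2 : ∀ p, Tail M D a p → ∀ x ∈ X, Tail M D a (F (pair p x)) ∧ Ex (F (pair p x)) p ∧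
      E x (F (pair p x)) := fun p hp x hx => by
    obtain ⟨w, h2⟩ := H x hx p hp
    simpa using h1 (pair p x) ⟨w, h2.1.1.1, by simpa using h2⟩
  let G : ZF → ZF := fun Y => img F (prod Y X) ∪ ZFSet.sep (Tail M D a)
    (pw M (bun (fun s => prod {s} (D.K (fst s))) (dom (ZFSet.sUnion Y))))
  have hG : Tm M (fun v => G (v 0)) := inferInstance
  have h3 : ∀ Y q, Tail M D a q → (∀ s ξ, pair s ξ ∈ q → s ∈ dom (ZFSet.sUnion Y)) → q ∈ G Y :=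
    fun Y q hq h => mem_union.2 (Or.inr (mem_sep.2 ⟨mem_pw.2 ⟨fun z hz => by
      obtain ⟨s, ξ, rfl⟩ := hq.1.2.pr hz
      exact mem_bun.2 ⟨s, h s ξ hz, pair_mem_prod.2 ⟨mem_singleton.2 rfl, (hq.1.2.pt hz).2.1⟩⟩,
      hq.1.1⟩, hq⟩))
  have := fun s [Tm M s] => hG.one s
  let Y := rc fun _ g => insert t (bun (fun z => G (snd z)) g)
  have hY : Tm M (fun v => Y (v 0)) := tm_rc inferInstance
  have := fun s [Tm M s] => hY.one s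
  have e : ∀ ξ p, p ∈ Y ξ ↔ p = t ∨ ∃ η ∈ ξ, p ∈ G (Y η) := fun ξ p => by
    rw [show Y ξ = _ from rc_eq _ ξ, mem_insert_iff, mem_bun]
    refine or_congr_right ⟨?_, fun ⟨η, h4, h5⟩ => ⟨_, mem_graph.2 ⟨η, h4, rfl⟩, by rwa [snd_pair]⟩⟩
    rintro ⟨_, h4, h5⟩
    obtain ⟨η, h6, rfl⟩ := mem_graph.1 h4
    exact ⟨η, h6, by rwa [snd_pair] at h5⟩
  have h4 : ∀ ξ, ∀ p ∈ Y ξ, Tail M D a p := fun ξ => by
    induction ξ using ZFSet.inductionOn with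
    | h ξ ih =>
      intro p hp
      rcases (e ξ p).1 hp with rfl | ⟨η, h4, h5⟩
      · exact ht
      · rcases mem_union.1 h5 with h5 | h5
        · obtain ⟨_, h6, rfl⟩ := mem_img.1 h5
          obtain ⟨p, h7, x, hx, rfl⟩ := mem_prod.1 h6
          exact (h2 p (ih η h4 p h7) x hx).1
        · exact (mem_sep.1 h5).2
  have h5 : ∀ η ∈ D.K a, ∀ p ∈ G (Y η), p ∈ bun Y (D.K a) := fun η hη p hp =>
    mem_bun.2 ⟨_, hk.succ hR hη, (e _ p).2 (Or.inr ⟨η, mem_insert _ _, hp⟩)⟩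
  refine ⟨bun Y (D.K a), In.mem _, fun p hp => ?_, mem_bun.2 ⟨∅, hk.zero hR, (e _ _).2 (Or.inl rfl)⟩,
    fun p hp x hx => ?_, fun c hc h6 h7 q hq h8 => ?_⟩
  · obtain ⟨ξ, -, hp⟩ := mem_bun.1 hp
    exact h4 ξ p hp
  · obtain ⟨ξ, hξ, hp⟩ := mem_bun.1 hp
    exact ⟨_, h5 ξ hξ _ (mem_union.2 (Or.inl (img_mem (pair_mem_prod.2 ⟨hp, hx⟩)))),
      (h2 p (h4 ξ p hp) x hx).2⟩
  · obtain ⟨η, hη, h9⟩ := hk.bdd_wit hR (fun p ξ => p ∈ Y ξ) inferInstance hc h7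
      fun p hp => mem_bun.1 (h6 hp)
    refine h5 η hη q (h3 _ q hq fun s ξ h10 => ?_)
    obtain ⟨z, hz, rfl⟩ := mem_dom.1 (h8 s ξ h10)
    obtain ⟨p, hp, hz⟩ := mem_sUnion.1 hz
    obtain ⟨ζ, h11, h12⟩ := h9 p hp
    exact mem_dom.2 ⟨z, mem_sUnion.2 ⟨p, (e η p).2 (Or.inr ⟨ζ, h11, h3 _ p (h4 ζ p h12)
      fun s ξ h => mem_dom_of (mem_sUnion.2 ⟨p, h12, h⟩)⟩), hz⟩, rfl⟩

/-- a large level of the hierarchy, with a well-order of `P` -/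
structure Big (M : Set ZF) (S R w P : ZF) : Prop where
  mem : S ∈ M
  tr : IsTransitive S
  ins : Ins S
  lx : LX (S : Set ZF)
  inf : Inf M R
  small : ∀ c ∈ M, c ⊆ S → Le M c R → c ∈ S
  le : ∀ x ∈ S, Le M x R
  wm : w ∈ S
  tot : ∀ q ∈ P, ∀ q' ∈ P, q = q' ∨ pair q q' ∈ w ∨ pair q' q ∈ w
  min : ∀ Q : ZF → Prop, (∃ q ∈ P, Q q) → ∃ q ∈ P, Q q ∧ ∀ q' ∈ P, Q q' → pair q' q ∉ w

include hS in
theorem exS (hV : VL M) {P c : ZF} (hP : P ∈ M) (hc : c ∈ M) :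
    ∃ S R w, Big M S R w P ∧ P ∈ S ∧ c ∈ S := by
  have := In.mk' hP
  have := In.mk' hc
  obtain ⟨δ, h1, h2, h3⟩ := hV (pair P c) (In.mem _)
  have hk := hS.crd.hart δ h1 h2
  have hR := hS.crd.inf δ h1 h2
  have hδ := hS.crd.self δ h1 h2
  generalize D.K δ = k at hk hδ
  generalize D.R δ = R at hk hR
  have hL := lk hull M hV R k hR hk
  have hl := hart_lim hk hR
  have := In.mk' hk.mem
  have h4 : ∀ x ∈ LS k, Le M x R := fun x hx => by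
    obtain ⟨β, h4, h5⟩ := hl.mem_LS.1 hx
    exact (hL.le β h4).mono (LS_trans (hk.ord.mem h4) x h5)
  have h5 : ∀ β ∈ k, LS β ∈ LS k ∧ LW β ∈ LS k := fun β hβ => by
    have := In.mk' (tr hk.mem hβ)
    have h5 : LS β ⊆ LS k := LS_mono (hk.ord.subset_of_mem hβ)
    have h6 : LW β ⊆ prod (LS β) (LS β) := fun z hz => by
      obtain ⟨u, hu, u', hu', rfl, -⟩ := mem_LW.1 hz
      exact pair_mem_prod.2 ⟨hu, hu'⟩
    refine ⟨hL.small _ (In.mem _) h5 (hL.le β hβ), hL.small _ (In.mem _) (fun z hz => ?_)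
      ((hR.prod (hL.le β hβ) (hL.le β hβ)).mono h6)⟩
    obtain ⟨u, hu, u', hu', rfl⟩ := mem_prod.1 (h6 hz)
    exact hl.clo.2.pair (h5 hu) (h5 hu')
  have h6 : ∀ α ∈ k, graph LL (insert α α) ∈ LS k := fun α hα => by
    have h6 := hk.succ hR hα
    have := In.mk' (tr hk.mem hα)
    refine hL.small _ (In.mem _) (fun z hz => ?_) (hR.img _ inferInstance (In.mem _) (hk.le _ h6))
    obtain ⟨β, h7, rfl⟩ := mem_graph.1 hz
    have h8 := hk.ord.mem_trans h7 h6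
    rw [LL_eq]
    exact hl.clo.2.pair (hL.ord h8) (hl.clo.2.pair (h5 β h8).1 (h5 β h8).2)
  have h7 := trn_coe (LS_trans h2)
  have h8 : P ⊆ LS δ := fun x hx => h7 _ (h7.fst h3) x hx
  have h9 : LS δ ⊆ LS k := LS_mono (hk.ord.subset_of_mem hδ)
  refine ⟨LS k, R, LW δ, ⟨In.mem _, hl.clo.1, hl.clo.2, fun y hy => ?_, hR, hL.small, h4, (h5 δ hδ).2,
    fun q hq q' hq' => LW_tri h2 (h8 hq) (h8 hq'), fun Q ⟨q, hq, h⟩ => ?_⟩, h9 (h7.fst h3),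
    h9 (h7.snd h3)⟩
  · obtain ⟨β, h10, h11⟩ := hl.mem_LS.1 hy
    by_cases h : IsOrdinal y
    · have h12 := hk.union h10 (hk.succ hR (hk.mem_of_le h (h4 y hy)))
      exact ⟨_, hk.ord.mem h12, LS_mono (fun x hx => mem_union.2 (Or.inl hx)) h11,
        fun _ => mem_union.2 (Or.inr (mem_insert _ _)), h6 _ h12⟩
    · exact ⟨β, hk.ord.mem h10, h11, fun h' => absurd h' h, h6 β h10⟩
  · obtain ⟨u, -, h10, h11⟩ := LW_min h2 (fun u => u ∈ P ∧ Q u) ⟨q, h8 hq, hq, h⟩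
    exact ⟨u, h10.1, h10.2, fun q' h12 h13 => h11 q' ⟨h12, h13⟩⟩

/-- the supremum of the points of `U` in the slot `s` -/
noncomputable def sup (D : Dat) (U s : ZF) : ZF :=
  ZFSet.sUnion (ZFSet.sep (fun ξ => pair s ξ ∈ U) (D.K (fst s)))

theorem mem_sup {c s x : ZF} (h : ∀ p ∈ c, CM M D p) :
    x ∈ sup D (ZFSet.sUnion c) s ↔ ∃ p ∈ c, ∃ ξ, pair s ξ ∈ p ∧ x ∈ ξ := by
  simp only [sup, mem_sUnion, mem_sep]
  exact ⟨fun ⟨ξ, ⟨_, p, h1, h2⟩, h3⟩ => ⟨p, h1, ξ, h2, h3⟩,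
    fun ⟨p, h1, ξ, h2, h3⟩ => ⟨ξ, ⟨((h p h1).2.pt h2).2.1, p, h1, h2⟩, h3⟩⟩

theorem ord_sup {c s : ZF} (h : ∀ p ∈ c, CM M D p) : IsOrdinal (sup D (ZFSet.sUnion c) s) :=
  isOrdinal_sUnion fun _ hx => by
    obtain ⟨p, h1, h2⟩ := mem_sUnion.1 (mem_sep.1 hx).2
    exact (h p h1).ord h2

/-- the limit of a chain of conditions -/
theorem lim_cnd {c : ZF} (hc : c ∈ M) (h : ∀ p ∈ c, CM M D p)
    (h1 : ∀ p ∈ c, ∀ p' ∈ c, Ex p p' ∨ Ex p' p)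
    (h2 : ∀ s ∈ dom (ZFSet.sUnion c), sup D (ZFSet.sUnion c) s ∈ D.K (fst s) ∧
      ¬ D.T (sup D (ZFSet.sUnion c) s)) :
    ∃ q, CM M D q ∧ (∀ p ∈ c, Ex q p) ∧ ∀ s ξ, pair s ξ ∈ q → s ∈ dom (ZFSet.sUnion c) := by
  have := In.mk' hc
  have e : ∀ s ξ, pair s ξ ∈ ZFSet.sUnion c ∪ graph (sup D (ZFSet.sUnion c)) (dom (ZFSet.sUnion c)) ↔
      (∃ p ∈ c, pair s ξ ∈ p) ∨ (s ∈ dom (ZFSet.sUnion c) ∧ sup D (ZFSet.sUnion c) s = ξ) :=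
    fun s ξ => by simp
  have h3 : ∀ p ∈ c, ∀ s ξ, pair s ξ ∈ p → ξ ⊆ sup D (ZFSet.sUnion c) s := fun p hp s ξ h3 x hx =>
    (mem_sup h).2 ⟨p, hp, ξ, h3, hx⟩
  have h4 : ∀ s ∈ dom (ZFSet.sUnion c), ∃ p ∈ c, ∃ ξ, pair s ξ ∈ p := fun s hs => by
    obtain ⟨z, hz, rfl⟩ := mem_dom.1 hs
    obtain ⟨p, hp, hz⟩ := mem_sUnion.1 hz
    obtain ⟨s, ξ, rfl⟩ := (h p hp).2.pr hz
    exact ⟨p, hp, ξ, by rwa [fst_pair]⟩
  refine ⟨ZFSet.sUnion c ∪ graph (sup D (ZFSet.sUnion c)) (dom (ZFSet.sUnion c)),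
    ⟨by unfold sup; exact In.mem _, fun z hz => ?_, fun s _ δ hδ h5 => ?_⟩, fun p hp s =>
    ⟨fun ξ h5 => (e s ξ).2 (Or.inl ⟨p, hp, h5⟩), fun ξ h5 => ?_⟩, fun s ξ h5 => ?_⟩
  · rcases mem_union.1 hz with hz | hz
    · obtain ⟨p, hp, hz⟩ := mem_sUnion.1 hz
      exact (h p hp).2.1 z hz
    · obtain ⟨s, hs, rfl⟩ := mem_graph.1 hz
      obtain ⟨p, hp, ξ, h5⟩ := h4 s hs
      exact ⟨s, _, rfl, ((h p hp).2.pt h5).1, h2 s hs⟩
  · have h6 : s ∈ dom (ZFSet.sUnion c) := by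
      obtain ⟨ξ, -, h6⟩ := h5.ne
      exact ((e s ξ).1 h6).elim (fun ⟨p, hp, h7⟩ => mem_dom_of (mem_sUnion.2 ⟨p, hp, h7⟩)) And.left
    obtain ⟨p0, hp0, ξ0, h7⟩ := h4 s h6
    have hδ' := (isOrdinal_succ ((h p0 hp0).hart h7).ord).mem hδ
    have h8 : δ ⊆ sup D (ZFSet.sUnion c) s := fun η hη => by
      obtain ⟨ξ, -, h8, h9⟩ := h5.2 η hη
      rcases (e s ξ).1 h9 with ⟨p, hp, h9⟩ | h9
      exacts [h3 p hp s ξ h9 h8, h9.2 ▸ h8]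
    rcases (hδ'.subset_iff_eq_or_mem (ord_sup h)).1 h8 with h9 | h9
    · exact (e s δ).2 (Or.inr ⟨h6, h9.symm⟩)
    · obtain ⟨p, hp, ζ, h10, h11⟩ := (mem_sup h).1 h9
      refine (e s δ).2 (Or.inl ⟨p, hp, (h p hp).cl hδ' (h5.mono fun ξ h12 h13 => ?_)⟩)
      rcases (e s ξ).1 h13 with ⟨p', hp', h13⟩ | h13
      · rcases h1 p hp p' hp' with h14 | h14
        exacts [(h14 s).1 ξ h13, (h14 s).below h10 h13 (((h p hp).ord h10).mem_trans h12 h11)]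
      · exact absurd (h13.2 ▸ h9) (mem_asymm h12)
  · rcases (e s ξ).1 h5 with ⟨p', hp', h5⟩ | ⟨-, rfl⟩
    · rcases h1 p hp p' hp' with h6 | h6
      exacts [Or.inl ((h6 s).1 ξ h5), (h6 s).2 ξ h5]
    · refine or_iff_not_imp_left.2 fun h6 η h7 => ?_
      exact ((((h p hp).ord h7).subset_iff_eq_or_mem (ord_sup h)).1 (h3 p hp s η h7)).resolve_left
        fun e => h6 (e ▸ h7)
  · exact ((e s ξ).1 h5).elim (fun ⟨p, hp, h7⟩ => mem_dom_of (mem_sUnion.2 ⟨p, hp, h7⟩)) And.left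

end RunP

end Pool.Agent.P.MP_0b3dfe_lc.Q2
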