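import Pool.Agent.P.MP_0b3dfe_lc.Q2.Run1

/-! Partial runs and the sizes of their hulls. -/

set_option linter.unusedSectionVars false
set_option linter.dupNamespace false
set_option synthInstance.maxSize 100000

namespace Pool.Agent.P.MP_0b3dfe_lc.Q2

open ZFSet Pool.Agent.P.MP_3ab3de_lc Pool.Agent.P.MP_9a7e1f_lc ForceP

namespace RunP

variable {M : Set ZF} [hM : TModel M] {D : Dat} [hS : Sy0 M D]

section

variable {a b c d e f g h i : Env → ZF} [ha : Tm M a] [hb : Tm M b] [hc : Tm M c] [hd : Tm M d]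
  [he : Tm M e] [hf : Tm M f] [hg : Tm M g] [hh : Tm M h] [hi : Tm M i]

instance df_mu : Df M (fun v => Mu (a v) (b v) (c v) (d v) (e v)) :=
  df_subst ((d0_mu (a := 0) (b := 1) (c := 2) (d := 3) (e := 4)).df (trn_model M))
    (cns a (cns b (cns c (cns d fun _ => e))))
    (tm_cns ha (tm_cns hb (tm_cns hc (tm_cns hd fun _ => he))))

instance df_tab : Df M (fun v => Tab (a v) (b v) (c v) (d v) (e v)) :=
  df_subst ((d0_tab (a := 0) (b := 1) (c := 2) (d := 3) (e := 4)).df (trn_model M))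
    (cns a (cns b (cns c (cns d fun _ => e))))
    (tm_cns ha (tm_cns hb (tm_cns hc (tm_cns hd fun _ => he))))

instance df_lst : Df M (fun v => Lst (a v) (b v) (c v) (d v) (e v) (f v) (g v) (h v) (i v)) :=
  df_subst ((d0_lst (a := 0) (b := 1) (c := 2) (d := 3) (e := 4) (f := 5) (g := 6) (h := 7)
    (i := 8)).df (trn_model M))
    (cns a (cns b (cns c (cns d (cns e (cns f (cns g (cns h fun _ => i))))))))
    (tm_cns ha (tm_cns hb (tm_cns hc (tm_cns hd (tm_cns he (tm_cns hf (tm_cns hg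
      (tm_cns hh fun _ => hi))))))))

end

/-- a slot with its cardinal and the trace of `T` -/
noncomputable def kk (D : Dat) (s : ZF) : ZF :=
  pair s (pair (D.K (fst s)) (ZFSet.sep D.T (D.K (fst s))))

instance tm_kk {a : Env → ZF} [Tm M a] : Tm M (fun v => kk D (a v)) := by
  unfold kk; infer_instance

/-- the parameters of a run -/
structure Pm where
  a : ZF
  P : ZF
  Ds : ZF
  w : ZF
  Kf : ZF
  t : ZF
  l : ZF
  S : ZF
  R : ZF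

noncomputable def Pm.c (C : Pm) : ZF :=
  pair C.P (pair C.Ds (pair C.w (pair C.Kf (pair C.t C.l))))

structure Ok (M : Set ZF) (D : Dat) (C : Pm) : Prop where
  st : S_St
  big : Big M C.S C.R C.w C.P
  cS : C.c ∈ C.S
  am : C.a ∈ M
  ao : IsOrdinal C.a
  lo : IsOrdinal C.l
  lle : Le M C.l (D.R C.a)
  tail : ∀ p ∈ C.P, Tail M D C.a p
  tP : C.t ∈ C.P
  dn : ∀ p ∈ C.P, ∀ ζ ∈ C.l, ∃ q ∈ C.P, Ex q p ∧ pair ζ q ∈ C.Ds
  cl : ∀ c ∈ M, c ⊆ C.P → Le M c (D.R C.a) → ∀ q, Tail M D C.a q →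
    (∀ s ξ, pair s ξ ∈ q → s ∈ dom (ZFSet.sUnion c)) → q ∈ C.P
  kf : C.Kf = img (kk D) (dom (ZFSet.sUnion C.P))

/-- one step of a run -/
def Stp (M : Set ZF) (D : Dat) (C : Pm) (g y : ZF) : Prop := ∃ p E, y = pair g (pair p E) ∧
  Tab C.Kf C.l C.c g E ∧ Lst C.P C.Ds C.w C.t C.l (dom g) g E p ∧
    ∀ k u h, pair k (pair u h) ∈ E → h = St C.S u ∧ Le M u (D.R (fst (fst k)))

/-- partial runs -/
structure PR (M : Set ZF) (D : Dat) (C : Pm) (ζ g : ZF) : Prop where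
  ord : IsOrdinal ζ
  mem : g ∈ M
  fn : IsFunc ζ C.S g
  stp : ∀ η ∈ ζ, Stp M D C (res g η) (app g η)

/-- the condition at a step -/
noncomputable def pp (g η : ZF) : ZF := fst (snd (app g η))

/-- the list of hulls at a step -/
noncomputable def ee (g η : ZF) : ZF := snd (snd (app g η))

/-- the generators of the hull for `k` after `g` -/
noncomputable def uu' (C : Pm) (g k : ZF) : ZF := ZFSet.sep (Mu C.c C.l k g) C.S

variable {C : Pm} {ζ g η s k : ZF}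

namespace Ok

variable (h : Ok M D C)
include h

theorem trn : Trn (C.S : Set ZF) := trn_coe h.big.tr

theorem PS : C.P ∈ C.S := h.trn.fst h.cS

theorem KS : C.Kf ∈ C.S := h.trn.fst (h.trn.snd (h.trn.snd (h.trn.snd h.cS)))

theorem lS : C.l ∈ C.S := h.trn.snd (h.trn.snd (h.trn.snd (h.trn.snd (h.trn.snd h.cS))))

theorem inM {x : ZF} (hx : x ∈ C.S) : x ∈ M := tr h.big.mem hx

theorem tm_st : Tm M (fun v => St (v 0) (v 1)) := (h.st M).1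

theorem df_stp : Df M (fun v => Stp M D C (v 0) (v 1)) := by
  have := fun s t [Tm M s] [Tm M t] => h.tm_st.two s t
  have := In.mk' h.big.mem
  have := In.mk' (h.inM h.cS)
  have := In.mk' (h.inM h.PS)
  have := In.mk' (h.inM h.KS)
  have := In.mk' (h.inM h.lS)
  have := In.mk' (h.inM h.big.wm)
  have := In.mk' (h.inM (h.trn.fst (h.trn.snd h.cS)))
  have := In.mk' (h.tail _ h.tP).1.1
  unfold Stp
  infer_instance

/-- the slots that occur -/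
theorem slot (hs : s ∈ dom (ZFSet.sUnion C.P)) : Sl s ∧ fst s ∈ M ∧ kk D s ∈ C.Kf ∧
    Le M (D.R C.a) (D.R (fst s)) ∧ Le M (D.R (fst s)) C.R := by
  have h0 : kk D s ∈ C.Kf := h.kf ▸ img_mem hs
  obtain ⟨z, hz, rfl⟩ := mem_dom.1 hs
  obtain ⟨p, hp, hz⟩ := mem_sUnion.1 hz
  have h1 := h.tail p hp
  obtain ⟨s, ξ, rfl⟩ := h1.1.2.pr hz
  rw [fst_pair] at h0 ⊢
  have h2 := (h1.1.2.pt hz).1
  have h3 := h1.1.site hz
  exact ⟨h2, h3, h0, hS.crd.mono _ h3 h2.ord _ h.ao ((h2.ord.notMem_iff_subset h.ao).1 (h1.2 s ξ hz)),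
    (le_hart (hartK h2 h3) (infR h2 h3).mem).trans
      (h.big.le _ (h.trn.fst (h.trn.snd (h.trn _ h.KS _ h0)))) h.big.inf.mem⟩

end Ok

namespace PR

variable (h : PR M D C ζ g)
include h

theorem res (hη : η ⊆ ζ) (ho : IsOrdinal η) (hm : η ∈ M) : PR M D C η (res g η) := by
  have := In.mk' h.mem
  have := In.mk' hm
  refine ⟨ho, by unfold Pool.Agent.P.MP_3ab3de_lc.res; exact In.mem _, h.fn.res hη, fun ξ hξ => ?_⟩
  rw [res_res (ho.subset_of_mem hξ), (h.fn.res hη).app_eq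
    (mem_res.2 ⟨h.fn.app_mem (hη hξ), by rwa [fst_pair]⟩)]
  exact h.stp ξ (hη hξ)

theorem ent (hη : η ∈ ζ) : app g η = pair (Pool.Agent.P.MP_3ab3de_lc.res g η) (pair (pp g η) (ee g η)) ∧
    Tab C.Kf C.l C.c (Pool.Agent.P.MP_3ab3de_lc.res g η) (ee g η) ∧
    Lst C.P C.Ds C.w C.t C.l η (Pool.Agent.P.MP_3ab3de_lc.res g η) (ee g η) (pp g η) ∧
    ∀ k u x, pair k (pair u x) ∈ ee g η → x = St C.S u ∧ Le M u (D.R (fst (fst k))) := by
  obtain ⟨p, E, h1, h2⟩ := h.stp η hη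
  rw [(h.fn.res (h.ord.subset_of_mem hη)).dom_eq] at h2
  have e1 : pp g η = p := by rw [pp, h1, snd_pair, fst_pair]
  have e2 : ee g η = E := by rw [ee, h1, snd_pair, snd_pair]
  rw [e1, e2]
  exact ⟨h1, h2⟩

theorem mem_iff {y : ZF} : y ∈ g ↔ ∃ η ∈ ζ,
    y = pair η (pair (Pool.Agent.P.MP_3ab3de_lc.res g η) (pair (pp g η) (ee g η))) := by
  constructor
  · intro hy
    obtain ⟨η, hη, x, -, rfl⟩ := h.fn.exists_pair hy
    exact ⟨η, hη, by rw [← (h.ent hη).1, h.fn.app_eq hy]⟩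
  · rintro ⟨η, hη, rfl⟩
    exact (h.ent hη).1 ▸ h.fn.app_mem hη

theorem er {p E : ZF} :
    Er (Pool.Agent.P.MP_3ab3de_lc.res g η) p E ↔ ∃ ξ ∈ ζ, ξ ∈ η ∧ p = pp g ξ ∧ E = ee g ξ := by
  constructor
  · rintro ⟨ξ, g', h1⟩
    obtain ⟨h1, h2⟩ := mem_res.1 h1
    obtain ⟨_, h3, e⟩ := h.mem_iff.1 h1
    simp only [pair_inj] at e
    obtain ⟨rfl, -, e⟩ := e
    exact ⟨ξ, h3, by simpa using h2, e⟩
  · rintro ⟨ξ, h1, h2, rfl, rfl⟩
    exact ⟨ξ, _, mem_res.2 ⟨h.mem_iff.2 ⟨ξ, h1, rfl⟩, by simpa using h2⟩⟩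

theorem res_self : Pool.Agent.P.MP_3ab3de_lc.res g ζ = g := ZFSet.ext fun y =>
  mem_res.trans (and_iff_left_of_imp fun hy => by
    obtain ⟨η, hη, rfl⟩ := h.mem_iff.1 hy
    rwa [fst_pair])

theorem er' {p E : ZF} : Er g p E ↔ ∃ ξ ∈ ζ, p = pp g ξ ∧ E = ee g ξ := by
  have := h.er (η := ζ) (p := p) (E := E)
  rw [h.res_self] at this
  simpa using this

theorem pP (hη : η ∈ ζ) : pp g η ∈ C.P := (h.ent hη).2.2.1.1

theorem ex_t (hη : η ∈ ζ) : Ex (pp g η) C.t := (h.ent hη).2.2.1.2.1.1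

theorem ex_lt {ξ : ZF} (hη : η ∈ ζ) (hξ : ξ ∈ η) : Ex (pp g η) (pp g ξ) :=
  (h.ent hη).2.2.1.2.1.2.1 _ _ (h.er.2 ⟨ξ, h.ord.mem_trans hξ hη, hξ, rfl, rfl⟩)

theorem rn (hC : Ok M D C) : Rn C.P C.Ds C.w C.Kf C.t C.l C.c g := by
  refine ⟨hC.big.tot, fun η g' p E h1 => ?_⟩
  obtain ⟨_, h2, e⟩ := h.mem_iff.1 h1
  simp only [pair_inj] at e
  obtain ⟨rfl, rfl, rfl, rfl⟩ := e
  refine ⟨res_subset _ _, fun y hy => ?_, fun ξ hξ => ⟨_, _, _, mem_res.2 ⟨h.mem_iff.2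
    ⟨ξ, h.ord.mem_trans hξ h2, rfl⟩, by rwa [fst_pair]⟩⟩, (h.ent h2).2.1, (h.ent h2).2.2.1⟩
  obtain ⟨h3, h4⟩ := mem_res.1 hy
  obtain ⟨ξ, -, rfl⟩ := h.mem_iff.1 h3
  exact ⟨ξ, by simpa using h4, _, _, _, rfl⟩

theorem orc : Orc C.S g := by
  rintro u - x - ⟨η, g', p, E, k, h1, h2⟩
  obtain ⟨_, h3, e⟩ := h.mem_iff.1 h1
  simp only [pair_inj] at e
  obtain ⟨rfl, rfl, rfl, rfl⟩ := e
  exact ((h.ent h3).2.2.2 _ _ _ h2).1

theorem eS (hC : Ok M D C) (hη : η ∈ ζ) : ee g η ∈ C.S :=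
  hC.trn.snd (hC.trn.snd ((h.ent hη).1 ▸ h.fn.app_mem' hη : pair _ (pair _ (ee g η)) ∈ C.S))

/-- the hull listed for `k` -/
theorem hull (hC : Ok M D C) (hη : η ∈ ζ) {u x : ZF} (h1 : pair k (pair u x) ∈ ee g η) :
    u = uu' C (Pool.Agent.P.MP_3ab3de_lc.res g η) k := by
  obtain ⟨_, -, _, _, e, h2⟩ := (h.ent hη).2.1.1 _ h1
  simp only [pair_inj] at e
  obtain ⟨rfl, rfl, rfl⟩ := e
  exact ZFSet.ext fun z => (mem_sep.trans ⟨fun h => (h2 z).2 h.2, fun h3 => ⟨hC.trn _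
    (hC.trn.fst (hC.trn.snd (hC.trn _ (h.eS hC hη) _ h1))) _ h3, (h2 z).1 h3⟩⟩).symm

theorem le (hC : Ok M D C) (hζ : ζ ⊆ C.l) : Le M ζ (D.R C.a) ∧ ζ ∈ M ∧ g ∈ C.S := by
  have := In.mk' h.mem
  have h1 : ζ ∈ M := h.fn.dom_eq ▸ (by unfold dom; exact In.mem _)
  have h2 : Le M ζ C.R := (hC.big.le _ hC.lS).mono hζ
  refine ⟨hC.lle.mono hζ, h1, hC.big.small g h.mem (fun y hy => ?_) ((hC.big.inf.img
    (fun η => pair η (app g η)) inferInstance h1 h2).mono fun y hy => ?_)⟩ <;>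
  obtain ⟨η, hη, x, hx, rfl⟩ := h.fn.exists_pair hy
  exacts [hC.big.ins.pair (hC.big.tr _ hC.lS (hζ hη)) hx, mem_img.2 ⟨η, hη, by rw [h.fn.app_eq hy]⟩]

theorem isM (hC : Ok M D C) (hζ : ζ ⊆ C.l) (hk : k ∈ C.Kf) : IsM C.c C.l k g (uu' C g k) := by
  refine fun z => mem_sep.trans (and_iff_right_of_imp ?_)
  rintro (rfl | rfl | rfl | rfl | h1 | ⟨p, E, h1, h2⟩)
  · exact hC.cS
  · exact hC.trn _ hC.KS _ hk
  · exact (h.le hC hζ).2.2
  · exact hC.lS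
  · exact hC.trn _ hC.lS _ h1
  · obtain ⟨η, hη, rfl, rfl⟩ := h.er'.1 h1
    rcases h2 with ⟨u, x, h2, h3⟩ | ⟨s, y, ξ, -, h2, h3⟩
    · exact St_sub _ u (((h.ent hη).2.2.2 _ _ _ h2).1 ▸ h3)
    · exact hC.trn _ (hC.trn.snd (hC.trn _ (hC.trn _ hC.PS _ (h.pP hη)) _ h2)) _ h3

theorem le_uu (hC : Ok M D C) (hζ : ζ ⊆ C.l) (hs : s ∈ dom (ZFSet.sUnion C.P)) :
    Le M (uu' C g (kk D s)) (D.R (fst s)) := by
  obtain ⟨h1, h2, h3, h4, -⟩ := hC.slot hs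
  obtain ⟨h5, h6, -⟩ := h.le hC hζ
  have hR := infR (D := D) h1 h2
  have hk := hartK (D := D) h1 h2
  have := In.mk' h.mem
  have := In.mk' hC.big.mem
  have := In.mk' (hC.inM hC.cS)
  have := In.mk' (hC.inM hC.lS)
  have := In.mk' (fst_mem (hC.inM (hC.trn _ hC.KS _ h3)))
  have := In.mk' h6
  let F := fun η => ZFSet.sep (fun z => (∃ u x, pair (kk D s) (pair u x) ∈ ee g η ∧ z ∈ x) ∨
    ∃ ξ, pair s ξ ∈ pp g η ∧ z ∈ ξ) C.S
  have hF : Tm M (fun v => F (v 0)) := by unfold F ee pp; infer_instance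
  have := fun s [Tm M s] => hF.one s
  refine (hR.insert (a := C.c) (In.mem _) (In.mem _) (hR.insert (a := kk D s) (In.mem _) (In.mem _)
    (hR.insert (a := g) (In.mem _) (In.mem _) (hR.insert (a := C.l) (In.mem _) (In.mem _)
    (hR.union (In.mem _) (In.mem _) (hC.lle.trans h4 hR.mem) (hR.bun F hF h6 (h5.trans h4 hR.mem)
    fun η hη => ?_)))))).mono fun z hz => ?_
  · obtain ⟨u, x, h7⟩ := (h.ent hη).2.1.2 _ h3
    obtain ⟨b, h8, -, -, h9⟩ := (hC.tail _ (h.pP hη)).1.above h1 h2 (hk.zero hR)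
    have h10 := hC.inM (hC.trn.fst (hC.trn.snd (hC.trn _ (h.eS hC hη) _ h7)))
    have h11 := ((h.ent hη).2.2.2 _ _ _ h7).2
    rw [kk, fst_pair] at h11
    have := In.mk' h10
    have := fun s t [Tm M s] [Tm M t] => hC.tm_st.two s t
    refine (hR.union (In.mem _) (tr hk.mem h8) ((hC.st M).2 _ hR _ hC.big.mem u h10 h11)
      (hk.le b h8)).mono fun z hz => mem_union.2 ?_
    rcases (mem_sep.1 hz).2 with ⟨u', x', h12, h13⟩ | ⟨ξ, h12, h13⟩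
    · rw [((h.ent hη).2.2.2 _ _ _ h12).1, h.hull hC hη h12, ← h.hull hC hη h7] at h13
      exact Or.inl h13
    · exact Or.inr ((hk.ord.mem h8).mem_trans h13 (h9 ξ h12))
  · simp only [mem_insert_iff, mem_union, mem_bun]
    obtain ⟨h7, h8⟩ := mem_sep.1 hz
    refine h8.imp_right (Or.imp_right (Or.imp_right (Or.imp_right (Or.imp_right ?_))))
    rintro ⟨p, E, h9, h10⟩
    obtain ⟨η, hη, rfl, rfl⟩ := h.er'.1 h9
    refine ⟨η, hη, mem_sep.2 ⟨h7, h10.imp_right ?_⟩⟩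
    rintro ⟨s', y, ξ, e, h11⟩
    exact ⟨ξ, (pair_inj.1 e).1 ▸ h11⟩

end PR

end RunP

end Pool.Agent.P.MP_0b3dfe_lc.Q2
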