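import Pool.Agent.P.MP_0b3dfe_lc.CaaZ2
import Pool.Agent.P.MP_0b3dfe_lc.CaaSub
import Pool.Agent.P.MP_0b3dfe_lc.SatA
import Pool.Agent.P.MP_0b3dfe_lc.DefA
import Pool.Agent.P.MP_0b3dfe_lc.Dec
import Pool.Agent.P.MP_0b3dfe_lc.AA
import Pool.Agent.P.MP_9a7e1f_lc.Hull
import Pool.Agent.P.MP_9a7e1f_lc.Hull2
import Pool.Agent.P.MP_9a7e1f_lc.LMod

/-! Statements of the packages that do not mention the conditions. -/

set_option linter.unusedSectionVars false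
set_option synthInstance.maxSize 100000

namespace Pool.Agent.P.MP_0b3dfe_lc.Q2

open ZFSet Pool.Agent.P.MP_3ab3de_lc Pool.Agent.P.MP_9a7e1f_lc ForceP

export Pool.Agent.P.MP_9a7e1f_lc (col mem_col tm_col Fn fn_iff df_subst)
export Pool.Agent.P.MP_0b3dfe_lc.DefP (cn ev ev_cn ev_const)

theorem hLZ : S_LZ := lz satA (defA satA)

instance tm_cn {M : Set ZF} [TModel M] {a b : Env → ZF} [Tm M a] [Tm M b] :
    Tm M (fun v => cn (a v) (b v)) :=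
  Tm.two (G := cn) (by unfold cn; infer_instance) a b

/-! ### codes and truth -/

/-- `c` lies in every set closed under adding an element -/
def HF (c : ZF) : Prop := ∀ u, Ins u → c ∈ u

/-- truth values in a tree of `nor` gates, after `k` steps -/
def tru (C : ZF → ZF → Prop) : ℕ → ZF → Prop
  | 0, _ => True
  | 1, _ => True
  | k + 2, l => ¬ ∃ l', C l l' ∧ tru C k l'

def S_Cd : Prop := ∃ Ch : Set ZF → ZF → ZF → Prop,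
  (∀ (M : Set ZF) [TModel M],
    Df M (fun v => Ch M (v 0) (v 1)) ∧ ∀ l ∈ M, ∀ l', Ch M l l' → l' ∈ M) ∧
  ∀ φ : Fml, ∃ c, HF c ∧ ∃ d : ℕ, ∀ (X : Set ZF) (f : ZF) (k : ℕ), d ≤ k →
    (tru (Ch X) k (pair ∅ (pair c f)) ↔ Sat X φ (ev f))

def S_Tr : Prop := ∃ Tr : ZF → ZF → ZF → Prop,
  (∀ (M : Set ZF) [TModel M], Df M (fun v => Tr (v 0) (v 1) (v 2))) ∧
  (∀ φ : Fml, ∃ c, HF c ∧ ∀ S f, Tr S c f ↔ Sat (S : Set ZF) φ (ev f)) ∧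
  ∀ c, ∃ φ : Fml, ∀ S f, Tr S c f ↔ Sat (S : Set ZF) φ (ev f)

/-! ### cardinals and labels of the sites -/

/-- all pairs of a slot at a site in `a` and an ordinal below its cardinal -/
noncomputable def Uo (K : ZF → ZF) (a : ZF) : ZF :=
  bun (fun s => prod {s} (K (fst s))) (prod a (num 2))

structure Crd (M : Set ZF) (K R : ZF → ZF) : Prop where
  tK : Tm M (fun v => K (v 0))
  tR : Tm M (fun v => R (v 0))
  inf : ∀ o ∈ M, IsOrdinal o → Inf M (R o)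
  hart : ∀ o ∈ M, IsOrdinal o → Hart M (R o) (K o)
  self : ∀ o ∈ M, IsOrdinal o → o ∈ K o
  small : ∀ o ∈ M, IsOrdinal o → Le M (pw M (Uo K o)) (R o)
  mono : ∀ o ∈ M, IsOrdinal o → ∀ o', IsOrdinal o' → o' ⊆ o → Le M (R o') (R o)
  kle : ∀ o ∈ M, IsOrdinal o → ∀ o' ∈ o, Le M (K o') (R o)

def S_Crd : Prop := ∀ (M : Set ZF) [TModel M], ∃ K R, Crd M K R

def S_Lab : Prop := ∀ (M : Set ZF) [TModel M], VL M → ∃ lab : ZF → ZF,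
  Tm M (fun v => lab (v 0)) ∧ ∀ x ∈ M, ∃ o ∈ M, IsOrdinal o ∧ lab o = x ∧ rank x ≤ rank o

/-! ### stationary logic -/

/-- `α` has a strictly cofinal `ω`-sequence in `N` -/
def CofOm (N : Set ZF) (α : ZF) : Prop :=
  ∃ e ∈ N, (∀ n ∈ om, app e n ∈ α) ∧ ∀ η ∈ α, ∃ n ∈ om, η ∈ app e n

instance df_cofOm {M : Set ZF} [TModel M] {a : Env → ZF} [Tm M a] :
    Df M (fun v => CofOm M (a v)) := by unfold CofOm; infer_instance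

theorem CofOm.mono {N N' : Set ZF} {α : ZF} (h : CofOm N α) (h' : N ⊆ N') : CofOm N' α :=
  h.imp fun _ h => ⟨h' h.1, h.2⟩

theorem not_cofOm_succ {N : Set ZF} (η : ZF) : ¬ CofOm N (insert η η) := by
  rintro ⟨e, -, h1, h2⟩
  obtain ⟨n, hn, h⟩ := h2 η (mem_insert _ _)
  rcases mem_insert_iff.1 (h1 n hn) with e | h3
  exacts [mem_irrefl η (e ▸ h), mem_asymm h h3]

def S_AA2 : Prop := ∀ (N : Set ZF) [TModel N] (R κ : ZF), Inf N R → Hart N R κ → ∀ X ∈ N, κ ⊆ X →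
  ∀ T : ZF → Prop, (∀ ξ, T ξ → CofOm N ξ) →
    ((∃ K ∈ N, Club N (X : Set ZF) K ∧ ∀ s ∈ K, ¬ T (ZFSet.sUnion (s ∩ κ))) ↔ ¬ Stat N κ T)

def S_Dec2 : Prop := ∀ (N : Set ZF) [TModel N], ∀ J ∈ Caa N,
  (∀ z ∈ J, ∃ i κ t, z = pair i (pair κ t) ∧ (∃ R, Inf N R ∧ Hart N R κ) ∧ ∀ ξ ∈ t, CofOm N ξ) →
  ZFSet.sep (fun z => ¬ Stat N (fst (snd z)) (fun ξ => ξ ∈ snd (snd z))) J ∈ Caa N

/-- a countably closed dense subset -/
def SigCl (W : Set ZF) (P L : ZF) : Prop := ∃ D ∈ W, (∀ p ∈ P, ∃ q ∈ D, pair q p ∈ L) ∧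
  ∀ f ∈ W, (∀ n : ℕ, app f (num n) ∈ D ∧ pair (app f (num (n + 1))) (app f (num n)) ∈ L) →
    ∃ q, ∀ n : ℕ, pair q (app f (num n)) ∈ L

def S_Cls : Prop := ∀ (W : Set ZF) [TModel W] (P L G : ZF), Cx W P L G → SigCl W P L →
  ∀ N : Set ZF, W ⊆ N → N ⊆ val G '' W →
    ∀ o : Ordinal.{0}, o.toZFSet ∈ W → LA N o = LA W o

def S_Loc : Prop := ∀ N N' : Set ZF, N' ⊆ N → ∀ ρ : Ordinal.{0}, Order.IsSuccLimit ρ →
  Ordinal.omega0 < ρ → (∀ x ∈ N, rank x < ρ → x ∈ N') → ∀ o < ρ, LA N o = LA N' o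

/-! ### class forcing -/

/-- the order on the set `PS a` -/
noncomputable def Lr (le : ZF → ZF → Prop) (PS : ZF → ZF) (a : ZF) : ZF :=
  ZFSet.sep (fun z => le (fst z) (snd z)) (prod (PS a) (PS a))

theorem mem_Lr {le : ZF → ZF → Prop} {PS : ZF → ZF} {a p q : ZF} :
    pair p q ∈ Lr le PS a ↔ p ∈ PS a ∧ q ∈ PS a ∧ le p q := by
  rw [Lr, mem_sep, pair_mem_prod, fst_pair, snd_pair, and_assoc]

/-- definable families of dense classes indexed by `X` are reduced to `PS a` -/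
def TD (M : Set ZF) (le : ZF → ZF → Prop) (PS : ZF → ZF) (a X : ZF) : Prop :=
  ∀ E : ZF → ZF → Prop, Df M (fun v => E (v 0) (v 1)) →
    (∀ x ∈ X, ∀ p, le p p → ∃ w, le w p ∧ E x w) →
    ∀ p, le p p → ∃ q, le q p ∧ ∀ x ∈ X, ∀ p' ∈ PS a, ∃ p'' ∈ PS a, le p'' p' ∧
      ∃ w ∈ M, E x w ∧ ∀ u ∈ M, le u p'' → le u q → le u w

/-- a tame class forcing (conditions are the `p` with `le p p`) and a generic filter -/
structure CF (M : Set ZF) (le : ZF → ZF → Prop) (PS : ZF → ZF) (G : ZF) : Prop where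
  dle : Df M (fun v => le (v 0) (v 1))
  tPS : Tm M (fun v => PS (v 0))
  lr : ∀ p q, le p q → le p p ∧ le q q
  mem : ∀ p, le p p → p ∈ M
  trans : ∀ p q r, le p q → le q r → le p r
  ps : ∀ a, ∀ p ∈ PS a, le p p
  mono : ∀ a b, a ⊆ b → PS a ⊆ PS b
  ex : ∀ p, le p p → ∃ a ∈ M, IsOrdinal a ∧ p ∈ PS a
  proj : ∀ a ∈ M, IsOrdinal a → ∀ p, le p p → ∃ r ∈ PS a, le p r ∧
    (∀ q ∈ PS a, le p q → le r q) ∧ ∀ q ∈ PS a, le q r → ∃ u, le u q ∧ le u p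
  td : ∀ X ∈ M, ∀ a ∈ M, IsOrdinal a → ∃ b ∈ M, IsOrdinal b ∧ a ⊆ b ∧ TD M le PS b X
  sub : ∀ p ∈ G, le p p
  up : ∀ p ∈ G, ∀ q, le p q → q ∈ G
  dir : ∀ p ∈ G, ∀ q ∈ G, ∃ r ∈ G, le r p ∧ le r q
  meet : ∀ E : ZF → Prop, Df M (fun v => E (v 0)) → (∀ p, le p p → ∃ q, le q p ∧ E q) →
    ∃ q ∈ G, E q

/-- the set stages of the class extension -/
structure CX (M : Set ZF) (le : ZF → ZF → Prop) (PS : ZF → ZF) (G : ZF) : Prop where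
  cx : ∀ a ∈ M, IsOrdinal a → Cx M (PS a) (Lr le PS a) (G ∩ PS a)
  mono : ∀ b ∈ M, IsOrdinal b → ∀ a, IsOrdinal a → a ⊆ b →
    val (G ∩ PS a) '' M ⊆ val (G ∩ PS b) '' M
  un : ∀ x, x ∈ val G '' M ↔ ∃ a ∈ M, IsOrdinal a ∧ x ∈ val (G ∩ PS a) '' M
  fn : ∀ a ∈ M, IsOrdinal a → ∀ X ∈ M, TD M le PS a X → ∀ b ∈ M, ∀ Y ∈ val G '' M,
    Y ⊆ prod X b → (∀ x y y', pair x y ∈ Y → pair x y' ∈ Y → y = y') → Y ∈ val (G ∩ PS a) '' M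
  sub : ∀ a ∈ M, IsOrdinal a → ∀ X ∈ M, TD M le PS a X → ∀ Y ∈ val G '' M,
    Y ⊆ X → Y ∈ val (G ∩ PS a) '' M
  sep : ∀ X ∈ M, ∀ E : ZF → ZF → Prop, Df M (fun v => E (v 0) (v 1)) →
    (∀ w w' x, E w x → le w' w → E w' x) →
    ZFSet.sep (fun x => ∃ w ∈ G, E w x) X ∈ val G '' M
  cov : ∀ X ∈ M, ∀ E : ZF → ZF → ZF → Prop, Df M (fun v => E (v 0) (v 1) (v 2)) →
    (∀ w w' x y, E w x y → le w' w → E w' x y) →
    ∃ Z ∈ M, ∀ x ∈ X, (∃ w ∈ G, ∃ y ∈ M, E w x y) → ∃ w ∈ G, ∃ y ∈ Z, E w x y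

def S_CF1 : Prop := ∀ (M : Set ZF) [TModel M] (le : ZF → ZF → Prop) (PS : ZF → ZF) (G : ZF),
  CF M le PS G → CX M le PS G

def S_CF2 : Prop := ∀ (M : Set ZF) [TModel M] (le : ZF → ZF → Prop) (PS : ZF → ZF) (G : ZF),
  CF M le PS G → CX M le PS G → TModel (val G '' M)

/-- isomorphic cones give generic filters with the same extension -/
def S_Cone : Prop := ∀ (M : Set ZF) [TModel M] (P L G : ZF), Cx M P L G → ∀ p ∈ G, ∀ q ∈ P,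
  ∀ h h' : ZF → ZF, Tm M (fun v => h (v 0)) → Tm M (fun v => h' (v 0)) →
  (∀ u, pair u p ∈ L → pair (h u) q ∈ L ∧ pair (h' (h u)) u ∈ L ∧ pair u (h' (h u)) ∈ L ∧
    ∀ u', pair u' u ∈ L → pair (h u') (h u) ∈ L) →
  (∀ u, pair u q ∈ L → pair (h' u) p ∈ L ∧ pair (h (h' u)) u ∈ L ∧ pair u (h (h' u)) ∈ L ∧
    ∀ u', pair u' u ∈ L → pair (h' u') (h' u) ∈ L) →
  ∃ G', Cx M P L G' ∧ q ∈ G' ∧ val G' '' M = val G '' M ∧
    ∀ w, w ∈ G' ↔ ∃ u ∈ G, pair u p ∈ L ∧ pair (h u) w ∈ L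

end Pool.Agent.P.MP_0b3dfe_lc.Q2
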