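import Pool.Agent.P.MP_0b3dfe_lc.Q2.St0

/-! Elementary hulls, their collapses, and the class `TT` of ordinals that is shot down. -/

set_option linter.unusedSectionVars false
set_option synthInstance.maxSize 100000

namespace Pool.Agent.P.MP_0b3dfe_lc.Q2

open ZFSet Pool.Agent.P.MP_3ab3de_lc Pool.Agent.P.MP_9a7e1f_lc ForceP

/-- one formula without parameters defines the predicate over every transitive class -/
class PU (P : Set ZF → Env → Prop) : Prop where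
  out : ∃ φ : Fml, ∀ N, Trn N → ∀ v, EIn N v → (P N v ↔ Sat N φ v)

namespace PU

variable {P Q : Set ZF → Env → Prop} {R : Set ZF → Env → ZF → Prop}

theorem congr (h : PU P) (H : ∀ N, Trn N → ∀ v, EIn N v → (Q N v ↔ P N v)) : PU Q := by
  obtain ⟨φ, h⟩ := h
  exact ⟨φ, fun N hN v hv => (H N hN v hv).trans (h N hN v hv)⟩

instance (priority := low) d0 {P : Env → Prop} [h : D0 P] : PU (fun _ v => P v) := ⟨h.out⟩

instance sat (φ : Fml) {e : Env → Env} [h : MinP.Rn e] : PU (fun N v => Sat N φ (e v)) := by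
  obtain ⟨ρ, h⟩ := h
  exact ⟨φ.ren ρ, fun N _ v _ => by rw [h]; exact (sat_ren _ _ _).symm⟩

theorem bot : PU (fun _ _ => False) := ⟨.bot, fun _ _ _ _ => Iff.rfl⟩

instance imp [h1 : PU P] [h2 : PU Q] : PU (fun N v => P N v → Q N v) := by
  obtain ⟨φ, h1⟩ := h1
  obtain ⟨ψ, h2⟩ := h2
  exact ⟨.imp φ ψ, fun N hN v hv => imp_congr (h1 N hN v hv) (h2 N hN v hv)⟩

instance all [h : PU (fun N v => R N (fun n => v (n + 1)) (v 0))] :
    PU (fun N v => ∀ x ∈ N, R N v x) := by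
  obtain ⟨φ, h⟩ := h
  exact ⟨.all φ, fun N hN v hv => forall_congr' fun x => imp_congr_right fun hx =>
    h N hN (cons x v) (hv.cons hx)⟩

instance not [PU P] : PU (fun N v => ¬ P N v) := @imp _ _ _ bot

instance and [PU P] [PU Q] : PU (fun N v => P N v ∧ Q N v) :=
  (inferInstance : PU (fun N v => ¬ (P N v → ¬ Q N v))).congr (fun _ _ _ _ => by tauto)

instance or [PU P] [PU Q] : PU (fun N v => P N v ∨ Q N v) :=
  (inferInstance : PU (fun N v => ¬ P N v → Q N v)).congr (fun _ _ _ _ => by tauto)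

instance iff [PU P] [PU Q] : PU (fun N v => P N v ↔ Q N v) :=
  (inferInstance : PU (fun N v => (P N v → Q N v) ∧ (Q N v → P N v))).congr
    (fun _ _ _ _ => iff_def)

instance ex [h : PU (fun N v => R N (fun n => v (n + 1)) (v 0))] :
    PU (fun N v => ∃ x ∈ N, R N v x) :=
  (@not _ (all (R := fun N v x => ¬ R N v x) (h := @not _ h))).congr (fun _ _ _ _ => by simp)

instance ball {j : ℕ} [h : PU (fun N v => R N (fun n => v (n + 1)) (v 0))] :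
    PU (fun N v => ∀ x ∈ v j, R N v x) :=
  (all (R := fun N v x => x ∈ v j → R N v x)).congr fun _ hN _ hv =>
    ⟨fun h x _ => h x, fun h x hx => h x (hN _ (hv j) x hx) hx⟩

instance bex {j : ℕ} [h : PU (fun N v => R N (fun n => v (n + 1)) (v 0))] :
    PU (fun N v => ∃ x ∈ v j, R N v x) :=
  (ex (R := fun N v x => x ∈ v j ∧ R N v x)).congr fun _ hN _ hv =>
    ⟨fun ⟨x, h⟩ => ⟨x, hN _ (hv j) x h.1, h⟩, fun ⟨x, _, h⟩ => ⟨x, h⟩⟩

end PU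

/-- the Tarski-Vaught condition -/
def El (S : Set ZF) (H : ZF) : Prop := ∀ (φ : Fml) (v : Env), (∀ n, v n ∈ S ∧ v n ∈ H) →
  (∃ x ∈ S, Sat S φ (cons x v)) → ∃ x ∈ S, x ∈ H ∧ Sat S φ (cons x v)

/-- the collapse of the trace of `H` on `S` -/
def cI (H : ZF) (S : Set ZF) : Set ZF := col H '' {y | y ∈ S ∧ y ∈ H}

theorem coe_col (H S : ZF) : ((col H S : ZF) : Set ZF) = cI H S :=
  Set.ext fun _ => mem_col.trans
    ⟨fun ⟨y, h1, h2, h3⟩ => ⟨y, ⟨h1, h2⟩, h3⟩, fun ⟨y, h, h3⟩ => ⟨y, h.1, h.2, h3⟩⟩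

section

variable {S : Set ZF} {H : ZF} {v : Env}

theorem eh_cons (hv : ∀ n, v n ∈ S ∧ v n ∈ H) {x : ZF} (h1 : x ∈ S) (h2 : x ∈ H) :
    ∀ n, cons x v n ∈ S ∧ cons x v n ∈ H := fun n => by
  cases n
  exacts [⟨h1, h2⟩, hv _]

theorem eh_const {x : ZF} (h1 : x ∈ S) (h2 : x ∈ H) :
    ∀ n : ℕ, (fun _ => x) n ∈ S ∧ (fun _ => x) n ∈ H := fun _ => ⟨h1, h2⟩

theorem trn_cI (hS : Trn S) : Trn (cI H S) := by
  rintro _ ⟨x, hx, rfl⟩ y hy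
  obtain ⟨z, h1, h2, rfl⟩ := mem_col.1 hy
  exact ⟨z, ⟨hS x hx.1 z h1, h2⟩, rfl⟩

theorem col_cons (x : ZF) :
    (fun n => col H (cons x v n)) = cons (col H x) fun n => col H (v n) := by
  funext n; cases n <;> rfl

variable (h : El S H) (hS : Trn S)
include h hS

/-- witnesses in the hull -/
theorem El.pu (P : Set ZF → Env → ZF → Prop)
    [hP : PU (fun N v => P N (fun n => v (n + 1)) (v 0))] (hv : ∀ n, v n ∈ S ∧ v n ∈ H)
    (h1 : ∃ x ∈ S, P S v x) : ∃ x ∈ S, x ∈ H ∧ P S v x := by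
  obtain ⟨φ, e⟩ := hP
  have e' : ∀ x ∈ S, P S v x ↔ Sat S φ (cons x v) := fun x hx =>
    e S hS (cons x v) (EIn.cons (fun n => (hv n).1) hx)
  obtain ⟨x, h2, h3⟩ := h1
  obtain ⟨y, h4, h5, h6⟩ := h φ v hv ⟨x, h2, (e' x h2).1 h3⟩
  exact ⟨y, h4, h5, (e' y h4).2 h6⟩

theorem El.inj (x : ZF) : x ∈ S → x ∈ H → ∀ y ∈ S, y ∈ H → col H x = col H y → x = y := by
  induction x using ZFSet.inductionOn with
  | h x ih =>
    intro hx hx' y hy hy' e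
    by_contra hne
    obtain ⟨z, h1, hz, h2⟩ := h.pu hS (fun _ v z => (z ∈ v 0 ↔ z ∉ v 1))
      (eh_cons (eh_const hy hy') hx hx') (by
        by_contra h3
        refine hne (ZFSet.ext fun z => ⟨fun hz => by_contra fun hz' => h3 ⟨z, hS x hx z hz, ?_⟩,
          fun hz => by_contra fun hz' => h3 ⟨z, hS y hy z hz, ?_⟩⟩) <;> simp [hz, hz'])
    change z ∈ x ↔ z ∉ y at h2
    by_cases h0 : z ∈ x
    · obtain ⟨y', h3, h4, h5⟩ := mem_col.1 (e ▸ mem_col.2 ⟨z, h0, hz, rfl⟩ : col H z ∈ col H y)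
      exact h2.1 h0 (ih z h0 h1 hz y' (hS y hy y' h3) h4 h5.symm ▸ h3)
    · have h' : z ∈ y := by_contra fun h' => h0 (h2.2 h')
      obtain ⟨x', h3, h4, h5⟩ := mem_col.1 (e ▸ mem_col.2 ⟨z, h', hz, rfl⟩ : col H z ∈ col H x)
      exact h0 (ih x' h3 (hS x hx x' h3) h4 z h1 hz h5 ▸ h3)

theorem El.sat (φ : Fml) : ∀ {v : Env}, (∀ n, v n ∈ S ∧ v n ∈ H) →
    (Sat S φ v ↔ Sat (cI H S) φ (fun n => col H (v n))) := by
  induction φ with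
  | mem i j =>
    refine fun {v} hv => ⟨fun h1 => mem_col.2 ⟨_, h1, (hv i).2, rfl⟩, fun h1 => ?_⟩
    obtain ⟨y, h2, h3, h4⟩ := mem_col.1 h1
    exact sat_mem.2 (h.inj hS y (hS _ (hv j).1 y h2) h3 _ (hv i).1 (hv i).2 h4 ▸ h2)
  | eq i j =>
    exact fun {v} hv => ⟨fun h1 => congrArg (col H) h1,
      fun h1 => h.inj hS _ (hv i).1 (hv i).2 _ (hv j).1 (hv j).2 h1⟩
  | bot => exact fun _ => Iff.rfl
  | imp a b h1 h2 => exact fun hv => imp_congr (h1 hv) (h2 hv)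
  | all a ih =>
    intro v hv
    rw [sat_all, sat_all]
    constructor
    · rintro h1 _ ⟨x, hx, rfl⟩
      rw [← col_cons]
      exact (ih (eh_cons hv hx.1 hx.2)).1 (h1 x hx.1)
    · intro h1 x hx
      by_contra h2
      obtain ⟨y, h3, h4, h5⟩ := h (.imp a .bot) v hv ⟨x, hx, h2⟩
      exact h5 ((ih (eh_cons hv h3 h4)).2 (col_cons y ▸ h1 _ ⟨y, ⟨h3, h4⟩, rfl⟩))

/-- transfer to the collapse -/
theorem El.tr (P : Set ZF → Env → Prop) [hP : PU P] (hv : ∀ n, v n ∈ S ∧ v n ∈ H) :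
    P S v ↔ P (cI H S) (fun n => col H (v n)) := by
  obtain ⟨φ, e⟩ := hP
  rw [e S hS v fun n => (hv n).1, e _ (trn_cI hS) _ fun n => ⟨_, hv n, rfl⟩]
  exact h.sat hS φ hv

theorem El.d0 (P : Env → Prop) [D0 P] (hv : ∀ n, v n ∈ S ∧ v n ∈ H) :
    P v ↔ P (fun n => col H (v n)) := h.tr hS (fun _ v => P v) hv

theorem El.unp {a b : ZF} (h1 : pair a b ∈ S) (h2 : pair a b ∈ H) : a ∈ H ∧ b ∈ H := by
  obtain ⟨x, -, h3, y, e⟩ := h.pu hS (fun _ v x => ∃ y, v 0 = pair x y) (eh_const h1 h2)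
    ⟨a, hS.fst h1, b, rfl⟩
  obtain ⟨y', -, h4, x', e'⟩ := h.pu hS (fun _ v y => ∃ x, v 0 = pair x y) (eh_const h1 h2)
    ⟨b, hS.snd h1, a, rfl⟩
  exact ⟨(pair_inj.1 e).1 ▸ h3, (pair_inj.1 e').2 ▸ h4⟩

end

/-- `X` holds enough initial parts of the constructible hierarchy -/
def LX (X : Set ZF) : Prop := ∀ y ∈ X, ∃ α, IsOrdinal α ∧ y ∈ LS α ∧ (IsOrdinal y → y ∈ α) ∧
  graph LL (insert α α) ∈ X

/-- a formula for the least witness -/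
theorem least (φ : Fml) : ∃ ψ : Fml, ∀ X, Trn X → LX X → ∀ v, EIn X v →
    (∀ y ∈ X, Sat X ψ (cons y v) → Sat X φ (cons y v)) ∧
    (∀ y ∈ X, ∀ y' ∈ X, Sat X ψ (cons y v) → Sat X ψ (cons y' v) → y = y') ∧
    ((∃ y ∈ X, Sat X φ (cons y v)) → ∃ y ∈ X, Sat X ψ (cons y v)) := by
  obtain ⟨ψ, e⟩ : PU (fun N w => Sat N φ (fun n => w n) ∧ ∃ f ∈ N, ∃ α ∈ N, ∃ S ∈ N, ∃ W ∈ N,
      Hier f ∧ pair α (pair S W) ∈ f ∧ w 0 ∈ S ∧
      (∀ β ∈ α, ∀ S' ∈ N, ∀ W' ∈ N, pair β (pair S' W') ∈ f →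
        ∀ y ∈ S', ¬ Sat N φ (cons y fun n => w (n + 1))) ∧
      ∀ y ∈ S, Sat N φ (cons y fun n => w (n + 1)) → pair y (w 0) ∉ W) := by infer_instance
  refine ⟨ψ, fun X hX hL v hv => ⟨fun y hy h => ((e X hX _ (hv.cons hy)).2 h).1,
    fun y hy y' hy' h h' => ?_, fun ⟨y0, h0, h1⟩ => ?_⟩⟩
  · obtain ⟨a0, f, hf, α, -, S, -, W, -, a1, a2, a3, a4, a5⟩ := (e X hX _ (hv.cons hy)).2 h
    obtain ⟨b0, f', hf', α', -, S', -, W', -, b1, b2, b3, b4, b5⟩ := (e X hX _ (hv.cons hy')).2 h'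
    obtain ⟨rfl, rfl⟩ := a1.sound _ _ _ a2
    obtain ⟨rfl, rfl⟩ := b1.sound _ _ _ b2
    rcases (a1 _ _ _ a2).1.mem_trichotomous (b1 _ _ _ b2).1 with h | rfl | h
    · have h3 := (b1.lev b2 α h _ _).2 ⟨rfl, rfl⟩
      have h4 := hX.snd (hX _ hf' _ h3)
      exact absurd a0 (b4 α h _ (hX.fst h4) _ (hX.snd h4) h3 y a3)
    · rcases LW_tri (a1 _ _ _ a2).1 a3 b3 with h | h | h
      exacts [h, absurd h (b5 y a3 a0), absurd h (a5 y' b3 b0)]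
    · have h3 := (a1.lev a2 α' h _ _).2 ⟨rfl, rfl⟩
      have h4 := hX.snd (hX _ hf _ h3)
      exact absurd b0 (a4 α' h _ (hX.fst h4) _ (hX.snd h4) h3 y' b3)
  · obtain ⟨α0, h2, h3, -, h4⟩ := hL y0 h0
    obtain ⟨α, ⟨h5, h6⟩, h7⟩ := exists_min
      (P := fun α => α ∈ insert α0 α0 ∧ ∃ y ∈ LS α, Sat X φ (cons y v))
      ⟨α0, mem_insert _ _, y0, h3, h1⟩
    have ho := isOrdinal_succ h2
    obtain ⟨u, h8, h9, h10⟩ := LW_min (ho.mem h5) _ h6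
    have h11 : pair α (pair (LS α) (LW α)) ∈ graph LL (insert α0 α0) := lev_graph.2 ⟨h5, rfl, rfl⟩
    have h12 := hX _ h4 _ h11
    have h13 := hX _ (hX.fst (hX.snd h12)) u h8
    refine ⟨u, h13, (e X hX _ (hv.cons h13)).1 ⟨h9, _, h4, α, hX.fst h12, _, hX.fst (hX.snd h12), _,
      hX.snd (hX.snd h12), hier_graph ho, h11, h8, fun β hβ S' _ W' _ h14 y hy h15 => ?_,
      fun y _ h14 => h10 y h14⟩⟩
    obtain ⟨h16, rfl, rfl⟩ := lev_graph.1 h14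
    exact h7 β hβ ⟨h16, y, hy, h15⟩

/-- `y` is defined over `S` from `a` and `b` -/
def Uq (S : Set ZF) (φ : Fml) (a b y : ZF) : Prop :=
  y ∈ S ∧ Sat S φ (cons y (cons a fun _ => b)) ∧
    ∀ y' ∈ S, Sat S φ (cons y' (cons a fun _ => b)) → y' = y

theorem uq_pu (P : Set ZF → ZF → ZF → ZF → Prop) [hP : PU (fun N v => P N (v 0) (v 1) (v 2))] :
    ∃ φ, ∀ S, Trn S → ∀ a ∈ S, ∀ b ∈ S, ∀ y,
      Uq S φ a b y ↔ y ∈ S ∧ P S y a b ∧ ∀ y' ∈ S, P S y' a b → y' = y := by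
  obtain ⟨φ, e⟩ := hP
  refine ⟨φ, fun S hS a ha b hb y => and_congr_right fun hy => ?_⟩
  have e' : ∀ y ∈ S, P S y a b ↔ Sat S φ (cons y (cons a fun _ => b)) := fun y hy =>
    e S hS _ (EIn.cons (EIn.cons (fun _ => hb) ha) hy)
  rw [e' y hy]
  exact and_congr_right fun _ => forall₂_congr fun y' hy' => by rw [e' y' hy']

/-- closure under definitions from two parameters gives an elementary hull -/
theorem el_of_cl {X : Set ZF} {H : ZF} (hX : Trn X) (hL : LX X)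
    (hp : ∀ a ∈ X, ∀ b ∈ X, pair a b ∈ X)
    (h : ∀ φ, ∀ a ∈ X, a ∈ H → ∀ b ∈ X, b ∈ H → ∀ y, Uq X φ a b y → y ∈ H) : El X H := by
  have key : ∀ (k : ℕ) (φ : Fml) (v : Env), (∀ n, v n ∈ X ∧ v n ∈ H) →
      (∀ w w', EIn X w → EIn X w' → (∀ n < k + 3, w n = w' n) → Sat X φ w → Sat X φ w') →
      ∀ y ∈ X, Sat X φ (cons y v) → (∀ y' ∈ X, Sat X φ (cons y' v) → y' = y) → y ∈ H := by
    intro k
    induction k with
    | zero =>
      intro φ v hv hd y hy h1 h2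
      have e1 : EIn X (cons (v 0) fun _ => v 1) := EIn.cons (fun _ => (hv 1).1) (hv 0).1
      have e2 : EIn X v := fun n => (hv n).1
      refine h φ _ (hv 0).1 (hv 0).2 _ (hv 1).1 (hv 1).2 y ⟨hy,
        hd _ _ (e2.cons hy) (e1.cons hy) (fun n hn => ?_) h1, fun y' hy' h3 =>
        h2 y' hy' (hd _ _ (e1.cons hy') (e2.cons hy') (fun n hn => ?_) h3)⟩ <;>
      rcases n with _ | _ | _ | n <;> first | rfl | omega
    | succ k ih =>
      intro φ v hv hd y hy h1 h2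
      obtain ⟨ψ, e⟩ : PU (fun N w => ∃ a ∈ N, ∃ b ∈ N, w 1 = pair a b ∧
        Sat N φ (cons (w 0) (cons a (cons b fun n => w (n + 2))))) := by infer_instance
      obtain ⟨χ, e'⟩ := uq_pu (fun _ y a b => y = pair a b)
      have h3 := hp _ (hv 0).1 _ (hv 1).1
      have hv' := eh_cons (v := fun n => v (n + 2)) (fun n => hv _) h3
        (h χ _ (hv 0).1 (hv 0).2 _ (hv 1).1 (hv 1).2 _
          ((e' X hX _ (hv 0).1 _ (hv 1).1 _).2 ⟨h3, rfl, fun _ _ h => h⟩))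
      have ev : cons (v 0) (cons (v 1) fun n => v (n + 2)) = v := by
        funext n; rcases n with _ | _ | n <;> rfl
      have e2 : ∀ y ∈ X, Sat X ψ (cons y (cons (pair (v 0) (v 1)) fun n => v (n + 2))) ↔
          Sat X φ (cons y v) := fun y hy => by
        rw [← e X hX _ (EIn.cons (fun n => (hv' n).1) hy)]
        refine ⟨fun ⟨a, _, b, _, h4, h5⟩ => ?_, fun h4 => ⟨_, (hv 0).1, _, (hv 1).1, rfl, ?_⟩⟩
        · obtain ⟨rfl, rfl⟩ := pair_inj.1 h4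
          exact ev ▸ h5
        · exact ev.symm ▸ h4
      refine ih ψ _ hv' (fun w w' hw hw' h4 h5 => ?_) y hy ((e2 y hy).2 h1)
        fun y' hy' h4 => h2 y' hy' ((e2 y' hy').1 h4)
      obtain ⟨a, ha, b, hb, h6, h7⟩ := (e X hX w hw).2 h5
      refine (e X hX w' hw').1 ⟨a, ha, b, hb, h4 1 (by omega) ▸ h6, hd _ _
        ((((hw.ren _).cons hb).cons ha).cons (hw 0))
        ((((hw'.ren _).cons hb).cons ha).cons (hw' 0)) (fun n hn => ?_) h7⟩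
      rcases n with _ | _ | _ | n
      exacts [h4 0 (by omega), rfl, rfl, h4 _ (by omega)]
  intro φ v hv h1
  obtain ⟨ψ, e⟩ := least φ
  obtain ⟨e1, e2, e3⟩ := e X hX hL v fun n => (hv n).1
  obtain ⟨y, hy, h2⟩ := e3 h1
  obtain ⟨k, hk⟩ := MinP.fin_dep ψ
  exact ⟨y, hy, key k ψ v hv (fun w w' _ _ h3 => (hk X w w' fun n hn => h3 n (by omega)).1) y hy h2
    fun y' hy' h3 => e2 y' hy' y hy h3 h2, e1 y hy h2⟩

/-- the elements of `S` defined from two elements of `U` -/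
noncomputable def St (S U : ZF) : ZF :=
  ZFSet.sep (fun y => ∃ φ, ∃ a ∈ U, ∃ b ∈ U, a ∈ S ∧ b ∈ S ∧ Uq (S : Set ZF) φ a b y) S

theorem mem_St {S U y : ZF} :
    y ∈ St S U ↔ ∃ φ, ∃ a ∈ U, ∃ b ∈ U, a ∈ S ∧ b ∈ S ∧ Uq (S : Set ZF) φ a b y :=
  mem_sep.trans ⟨And.right, fun h => ⟨by
    obtain ⟨_, _, -, _, -, -, -, h⟩ := h
    exact h.1, h⟩⟩

theorem St_sub (S U : ZF) : St S U ⊆ S := sep_subset

theorem sub_St {S U : ZF} (h : U ⊆ S) : U ⊆ St S U := fun a ha =>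
  mem_St.2 ⟨.eq 0 1, a, ha, a, ha, h ha, h ha, h ha, rfl, fun _ _ h => h⟩

theorem uq_col {S : Set ZF} {H : ZF} (h : El S H) (hS : Trn S) {φ : Fml} {a b y : ZF}
    (ha : a ∈ S ∧ a ∈ H) (hb : b ∈ S ∧ b ∈ H) (hy : y ∈ S ∧ y ∈ H) :
    Uq S φ a b y ↔ Uq (cI H S) φ (col H a) (col H b) (col H y) :=
  (and_iff_right hy.1).trans ((h.tr hS (fun N w => Sat N φ (cons (w 0) (cons (w 1) fun _ => w 2)) ∧
    ∀ y' ∈ N, Sat N φ (cons y' (cons (w 1) fun _ => w 2)) → y' = w 0)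
    (eh_cons (eh_cons (eh_const hb.1 hb.2) ha.1 ha.2) hy.1 hy.2)).trans
      (and_iff_right ⟨y, hy, rfl⟩).symm)

/-- the hull operation commutes with the collapse -/
theorem st_col {S H u : ZF} (h : El (S : Set ZF) H) (hS : IsTransitive S) (h1 : u ∈ S)
    (h2 : u ∈ H) : col H (St S u) = St (col H S) (col H u) := by
  have hT := trn_coe hS
  ext z
  rw [mem_col, mem_St, coe_col]
  constructor
  · rintro ⟨y, h3, h4, rfl⟩
    obtain ⟨φ, a, ha, b, hb, h5, -, h6⟩ := mem_St.1 h3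
    have hv := eh_cons (eh_const (S := (S : Set ZF)) h1 h2) h6.1 h4
    obtain ⟨a, h7, h8, h9, h10⟩ := h.pu hT (fun N w a => a ∈ w 1 ∧ ∃ b ∈ w 1,
      Sat N φ (cons (w 0) (cons a fun _ => b)) ∧
        ∀ y' ∈ N, Sat N φ (cons y' (cons a fun _ => b)) → y' = w 0) hv ⟨a, h5, ha, b, hb, h6.2⟩
    obtain ⟨b, hb, h10⟩ := h10
    obtain ⟨b, h11, h12, h13, h14⟩ := h.pu hT (fun N w b => b ∈ w 2 ∧
      Sat N φ (cons (w 1) (cons (w 0) fun _ => b)) ∧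
        ∀ y' ∈ N, Sat N φ (cons y' (cons (w 0) fun _ => b)) → y' = w 1) (eh_cons hv h7 h8)
      ⟨b, hS u h1 hb, hb, h10⟩
    exact ⟨φ, _, mem_col.2 ⟨a, h9, h8, rfl⟩, _, mem_col.2 ⟨b, h13, h12, rfl⟩,
      mem_col.2 ⟨a, h7, h8, rfl⟩, mem_col.2 ⟨b, h11, h12, rfl⟩,
      (uq_col h hT ⟨h7, h8⟩ ⟨h11, h12⟩ ⟨h6.1, h4⟩).1 ⟨h6.1, h14⟩⟩
  · rintro ⟨φ, _, ha, _, hb, -, -, h3⟩
    obtain ⟨a, h4, h5, rfl⟩ := mem_col.1 ha
    obtain ⟨b, h6, h7, rfl⟩ := mem_col.1 hb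
    obtain ⟨y, hy, rfl⟩ := h3.1
    exact ⟨y, mem_St.2 ⟨φ, a, h4, b, h6, hS u h1 h4, hS u h1 h6,
      (uq_col h hT ⟨hS u h1 h4, h5⟩ ⟨hS u h1 h6, h7⟩ hy).2 h3⟩, hy.2, rfl⟩

def S_St : Prop := ∀ (M : Set ZF) [TModel M], Tm M (fun v => St (v 0) (v 1)) ∧
  ∀ R, Inf M R → ∀ S ∈ M, ∀ U ∈ M, Le M U R → Le M (St S U) R

/-- `(u, h)` is listed in `r` -/
def Ent (r u h : ZF) : Prop :=
  ∃ η g p E k, pair η (pair g (pair p E)) ∈ r ∧ pair k (pair u h) ∈ E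

instance d0_ent {a b c : ℕ} : D0 (fun v => Ent (v a) (v b) (v c)) := by
  unfold Ent; infer_instance

/-- the pairs listed in `r` are values of the hull operation -/
def Orc (S r : ZF) : Prop := ∀ u ∈ S, ∀ h ∈ S, Ent r u h → h = St S u

theorem Orc.col {S H r : ZF} (h : El (S : Set ZF) H) (hS : IsTransitive S) (h1 : r ∈ S)
    (h2 : r ∈ H) (h3 : Orc S r) : Orc (col H S) (col H r) := by
  intro _ hu _ hh h4
  obtain ⟨u, h5, h6, rfl⟩ := mem_col.1 hu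
  obtain ⟨k, h7, h8, rfl⟩ := mem_col.1 hh
  rw [← st_col h hS h5 h6, ← h3 u h5 k h7 ((h.d0 (trn_coe hS) (fun w => Ent (w 0) (w 1) (w 2))
    (eh_cons (eh_cons (eh_const h7 h8) h5 h6) h1 h2)).2 h4)]

/-- a relation defined over `S` with the hull operation as an oracle -/
def Ht (S : ZF) (φ : Fml) (c ζ h : ZF) : Prop :=
  ζ ∈ S ∧ h ∈ S ∧ ∃ r ∈ S, Orc S r ∧ Sat (S : Set ZF) φ (cons h (cons ζ (cons r fun _ => c)))

/-- `α` is made singular by such a relation -/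
def Sing (S α : ZF) : Prop := ∃ φ, ∃ c ∈ S, ∃ l ∈ α,
  (∀ ζ ∈ l, ∀ h h', Ht S φ c ζ h → Ht S φ c ζ h' → h = h') ∧
    ∀ η ∈ α, ∃ ζ ∈ l, ∃ h ∈ α, η ∈ h ∧ Ht S φ c ζ h

/-- `r` is total on `α` and has no nonzero closure point in `t` -/
def NS (r α t : ZF) : Prop := (∀ β ∈ α, ∃ ζ ∈ α, pair β ζ ∈ r) ∧
  ∀ δ ∈ α, δ ∈ t → δ ≠ ∅ → ∃ β ∈ δ, ∀ ζ ∈ δ, pair β ζ ∉ r

instance d0_ns {a b c : ℕ} : D0 (fun v => NS (v a) (v b) (v c)) := by
  unfold NS; infer_instance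

theorem not_ns {M : Set ZF} {κ r : ZF} {T : ZF → Prop} (h : Stat M κ T) (hr : r ∈ M) :
    ¬ NS r κ (ZFSet.sep T κ) := by
  rintro ⟨h1, h2⟩
  obtain ⟨δ, h3, h4, h5, h6⟩ := h r hr h1
  obtain ⟨β, h7, h8⟩ := h2 δ h3 (mem_sep.2 ⟨h3, h4⟩) h5
  obtain ⟨ζ, h9, h10⟩ := h6 β h7
  exact h8 ζ h9 h10

/-- `t` is seen to be non-stationary in `α` before `α` is seen to be singular -/
def TS (M : Set ZF) (α t : ZF) : Prop := CofOm M α ∧ ∃ β ∈ M, IsOrdinal β ∧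
  (∃ r ∈ LS β, NS r α t) ∧ ∀ γ ∈ insert β β, ¬ Sing (LS γ) α

/-- the class of ordinals that the forcing avoids -/
def TT (M : Set ZF) (α : ZF) : Prop :=
  ∅ ∈ rc (fun α g => ZFSet.sep (fun _ => TS M α (ZFSet.sep (fun ξ => ∅ ∈ app g ξ) α)) {∅}) α

theorem TT_iff {M : Set ZF} {α : ZF} : TT M α ↔ TS M α (ZFSet.sep (TT M) α) := by
  rw [TT, rc_eq, mem_sep, and_iff_right (mem_singleton.2 rfl),
    DefP.sep_congr (Q := TT M) fun ξ hξ => by rw [app_graph hξ]; rfl]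

def S_TDf : Prop := ∀ (M : Set ZF) [TModel M], Df M (fun v => TT M (v 0))

def S_TStat : Prop := ∀ (M : Set ZF) [TModel M], VL M → ∀ R κ, Inf M R → Hart M R κ →
  Stat M κ (TT M)

/-- traces of hulls that are made singular over the collapse are not in `T` -/
def Avoid (M : Set ZF) (T : ZF → Prop) : Prop := ∀ κ S H : ZF, IsOrdinal κ → Stat M κ T → S ∈ M →
  IsTransitive S → LX (S : Set ZF) → El (S : Set ZF) H → H ⊆ S → κ ∈ H → ZFSet.sep T κ ∈ H →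
  H ∩ κ ∈ κ → Sing (col H S) (H ∩ κ) → ¬ T (H ∩ κ)

def S_Avoid : Prop := ∀ (M : Set ZF) [TModel M], Avoid M (TT M)

/-- a pointwise definable model of `V = L` -/
def S_Pd : Prop := ∀ (M0 : Set ZF) [TModel M0], M0.Countable → ∃ U : ZF,
  TModel (U : Set ZF) ∧ (U : Set ZF).Countable ∧ VL (U : Set ZF) ∧
  (∀ o ∈ U, IsOrdinal o → o ∈ M0) ∧
  ∀ y ∈ U, ∃ φ : Fml, ∀ y' ∈ U, Sat (U : Set ZF) φ (fun _ => y') ↔ y' = y

end Pool.Agent.P.MP_0b3dfe_lc.Q2
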